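import Pool.Agent.Lib.MP_8b7544_co.Df.Stm
import Pool.Agent.Lib.MP_5c6f2e_co.Nibble

/-!
# MP_8b7544_co, project Deficiency, piece N1: almost perfect matchings

The hypergraph is made uniform with dummy vertices such that all loads are exactly `1`.
-/

set_option autoImplicit false

namespace Pool.Agent.Lib.MP_8b7544_co.Df

open Finset

/-! ### counting functions -/

theorem NW_c1 {n : ℕ} {Z : Type} [Fintype Z] [DecidableEq Z] (a : Fin n) (z : Z) :
    ((univ.filter (fun x : Fin n → Z => x a = z)).card : ℝ) * Fintype.card Z =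
      (Fintype.card Z : ℝ) ^ n := by
  have h : univ.filter (fun x : Fin n → Z => x a = z) =
      Fintype.piFinset (fun i => if i = a then {z} else univ) := by
    ext x
    simp only [mem_filter, mem_univ, true_and, Fintype.mem_piFinset]
    constructor
    · intro h i
      split_ifs with hi
      · rw [hi]
        exact mem_singleton.2 h
      · exact mem_univ _
    · intro h
      have := h a
      rw [if_pos rfl, mem_singleton] at this
      exact this
  have h2 : ∀ i : Fin n, (((if i = a then ({z} : Finset Z) else univ).card : ℕ) : ℝ) *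
      (if i = a then (Fintype.card Z : ℝ) else 1) = Fintype.card Z := by
    intro i
    split_ifs <;> simp
  have h3 : ∏ i : Fin n, (if i = a then (Fintype.card Z : ℝ) else 1) = Fintype.card Z := by
    rw [Finset.prod_ite_eq' univ a]
    simp
  rw [h, Fintype.card_piFinset]
  push_cast
  have h5 : (Fintype.card Z : ℝ) ^ n = ∏ _i : Fin n, (Fintype.card Z : ℝ) := by simp
  rw [h5, ← Finset.prod_congr rfl (fun i _ => h2 i), Finset.prod_mul_distrib, h3]

theorem NW_c2 {n : ℕ} {Z : Type} [Fintype Z] [DecidableEq Z] (a a' : Fin n) (haa : a ≠ a')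
    (z z' : Z) :
    ((univ.filter (fun x : Fin n → Z => x a = z ∧ x a' = z')).card : ℝ) *
      (Fintype.card Z * Fintype.card Z) = (Fintype.card Z : ℝ) ^ n := by
  have h : univ.filter (fun x : Fin n → Z => x a = z ∧ x a' = z') =
      Fintype.piFinset (fun i => if i = a then {z} else if i = a' then {z'} else univ) := by
    ext x
    simp only [mem_filter, mem_univ, true_and, Fintype.mem_piFinset]
    constructor
    · intro h i
      split_ifs with hi hi'
      · rw [hi]
        exact mem_singleton.2 h.1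
      · rw [hi']
        exact mem_singleton.2 h.2
      · exact mem_univ _
    · intro h
      refine ⟨?_, ?_⟩
      · have := h a
        rw [if_pos rfl, mem_singleton] at this
        exact this
      · have := h a'
        rw [if_neg haa.symm, if_pos rfl, mem_singleton] at this
        exact this
  have h2 : ∀ i : Fin n, (((if i = a then ({z} : Finset Z) else if i = a' then {z'} else
      univ).card : ℕ) : ℝ) * ((if i = a then (Fintype.card Z : ℝ) else 1) *
      (if i = a' then (Fintype.card Z : ℝ) else 1)) = Fintype.card Z := by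
    intro i
    by_cases h1 : i = a
    · simp [h1, haa]
    · by_cases h4 : i = a'
      · simp [h1, h4, haa.symm]
      · simp [h1, h4]
  have h3 : ∀ a : Fin n, ∏ i : Fin n, (if i = a then (Fintype.card Z : ℝ) else 1) =
      Fintype.card Z := by
    intro a
    rw [Finset.prod_ite_eq' univ a]
    simp
  rw [h, Fintype.card_piFinset]
  push_cast
  have h5 : (Fintype.card Z : ℝ) * Fintype.card Z =
      ∏ i : Fin n, ((if i = a then (Fintype.card Z : ℝ) else 1) *
      (if i = a' then (Fintype.card Z : ℝ) else 1)) := by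
    rw [Finset.prod_mul_distrib, h3, h3]
  rw [h5, ← Finset.prod_mul_distrib, Finset.prod_congr rfl (fun i _ => h2 i)]
  simp

theorem NW_s1 {n : ℕ} {Z : Type} [Fintype Z] [DecidableEq Z] (hZ : 0 < Fintype.card Z)
    (a : Fin n) (z : Z) (c : ℝ) :
    ∑ x : Fin n → Z, (if x a = z then c / (Fintype.card Z : ℝ) ^ n else 0) =
      c / Fintype.card Z := by
  have hZ' : (0 : ℝ) < Fintype.card Z := by exact_mod_cast hZ
  rw [← Finset.sum_filter, Finset.sum_const, nsmul_eq_mul, ← NW_c1 a z]
  have h : (0 : ℝ) < (univ.filter (fun x : Fin n → Z => x a = z)).card := by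
    have h1 := NW_c1 a z
    have h2 : (0 : ℝ) < (Fintype.card Z : ℝ) ^ n := by positivity
    rw [← h1] at h2
    exact (mul_pos_iff_of_pos_right hZ').1 h2
  field_simp

theorem NW_s2 {n : ℕ} {Z : Type} [Fintype Z] [DecidableEq Z] (hZ : 0 < Fintype.card Z)
    (a a' : Fin n) (haa : a ≠ a') (z z' : Z) (c : ℝ) :
    ∑ x : Fin n → Z, (if x a = z ∧ x a' = z' then c / (Fintype.card Z : ℝ) ^ n else 0) =
      c / (Fintype.card Z * Fintype.card Z) := by
  have hZ' : (0 : ℝ) < Fintype.card Z := by exact_mod_cast hZ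
  rw [← Finset.sum_filter, Finset.sum_const, nsmul_eq_mul, ← NW_c2 a a' haa z z']
  have h : (0 : ℝ) < (univ.filter (fun x : Fin n → Z => x a = z ∧ x a' = z')).card := by
    have h1 := NW_c2 a a' haa z z'
    have h2 : (0 : ℝ) < (Fintype.card Z : ℝ) ^ n := by positivity
    rw [← h1] at h2
    exact (mul_pos_iff_of_pos_right (by positivity)).1 h2
  field_simp

theorem NW_s0 {n : ℕ} {Z : Type} [Fintype Z] (hZ : 0 < Fintype.card Z) (c : ℝ) :
    ∑ _x : Fin n → Z, c / (Fintype.card Z : ℝ) ^ n = c := by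
  have hZ' : (0 : ℝ) < Fintype.card Z := by exact_mod_cast hZ
  rw [Finset.sum_const, card_univ, nsmul_eq_mul, Fintype.card_fun, Fintype.card_fin]
  push_cast
  field_simp

/-! ### the padded hypergraph -/

section Pad

variable {U κ : Type}

/-- the vertices -/
abbrev NW_V (U : Type) (R s D : ℕ) : Type := U ⊕ (Fin s × (Fin R × Fin D))

/-- the indices of the edges -/
abbrev NW_E (κ : Type) (R s D : ℕ) : Type :=
  (κ × (Fin s → Fin R × Fin D)) ⊕ (Fin s × (Fin R → Fin D))

/-- the edges -/
def NW_e (R s D : ℕ) [DecidableEq U] (B : κ → Finset U) : NW_E κ R s D → Finset (NW_V U R s D)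
  | Sum.inl (k, x) => (B k).map Function.Embedding.inl ∪
      (univ.filter (fun a : Fin s => a.val + (B k).card < R)).map
        ⟨fun a => Sum.inr (a, x a), fun a b h => (Prod.ext_iff.1 (Sum.inr_injective h)).1⟩
  | Sum.inr (a, y) => (univ : Finset (Fin R)).map
      ⟨fun b => Sum.inr (a, (b, y b)), fun b c h =>
        (Prod.ext_iff.1 (Prod.ext_iff.1 (Sum.inr_injective h)).2).1⟩

variable {R s D : ℕ} [DecidableEq U] {B : κ → Finset U}

theorem NW_m1 {k : κ} {x : Fin s → Fin R × Fin D} {u : U} :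
    (Sum.inl u : NW_V U R s D) ∈ NW_e R s D B (Sum.inl (k, x)) ↔ u ∈ B k := by
  simp [NW_e]

theorem NW_m2 {k : κ} {x : Fin s → Fin R × Fin D} {a : Fin s} {z : Fin R × Fin D} :
    (Sum.inr (a, z) : NW_V U R s D) ∈ NW_e R s D B (Sum.inl (k, x)) ↔
      a.val + (B k).card < R ∧ x a = z := by
  simp [NW_e]

theorem NW_m3 {a : Fin s} {y : Fin R → Fin D} {u : U} :
    ¬ (Sum.inl u : NW_V U R s D) ∈ NW_e R s D B (Sum.inr (a, y)) := by
  simp [NW_e]

theorem NW_m4 {a a' : Fin s} {y : Fin R → Fin D} {z : Fin R × Fin D} :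
    (Sum.inr (a', z) : NW_V U R s D) ∈ NW_e R s D B (Sum.inr (a, y)) ↔
      a = a' ∧ y z.1 = z.2 := by
  obtain ⟨b, c⟩ := z
  simp [NW_e]

theorem NW_card (hs : s + 1 = R) (hB : ∀ k, 1 ≤ (B k).card ∧ (B k).card ≤ R)
    (i : NW_E κ R s D) : (NW_e R s D B i).card = R := by
  rcases i with ⟨k, x⟩ | ⟨a, y⟩
  · unfold NW_e
    rw [card_union_of_disjoint, card_map, card_map]
    · have h : (univ.filter (fun a : Fin s => a.val + (B k).card < R)).card = R - (B k).card := by
        have e : (univ.filter (fun a : Fin s => a.val + (B k).card < R)).map Fin.valEmbedding =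
            range (R - (B k).card) := by
          ext a
          simp only [mem_map, mem_filter, mem_univ, true_and, Fin.valEmbedding_apply, mem_range]
          constructor
          · rintro ⟨b, hb, rfl⟩
            omega
          · intro ha
            have := (hB k).1
            exact ⟨⟨a, by omega⟩, by simpa using by omega, rfl⟩
        rw [← card_map Fin.valEmbedding, e, card_range]
      rw [h]
      have := (hB k).2
      omega
    · rw [disjoint_left]
      intro v hv hv'
      simp only [mem_map, Function.Embedding.inl_apply] at hv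
      obtain ⟨u, _, rfl⟩ := hv
      simp at hv'
  · unfold NW_e
    rw [card_map, card_univ, Fintype.card_fin]

end Pad

section Pad2

variable {U κ : Type} [Fintype U] [DecidableEq U] [Fintype κ] (R s D : ℕ) (B : κ → Finset U)
  (ω : κ → ℝ)

/-- the load at a dummy of the slot `a` caused by the given edges -/
noncomputable def NW_l (a : Fin s) : ℝ :=
  (∑ k, if a.val + (B k).card < R then ω k else 0) / (Fintype.card (Fin R × Fin D) : ℝ)

/-- the weights of the edges -/
noncomputable def NW_w : NW_E κ R s D → ℝ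
  | Sum.inl (k, _) => ω k / (Fintype.card (Fin R × Fin D) : ℝ) ^ s
  | Sum.inr (a, _) => ((1 - NW_l R s D B ω a) * Fintype.card (Fin D)) /
      (Fintype.card (Fin D) : ℝ) ^ R

theorem NW_w1 (k : κ) (x : Fin s → Fin R × Fin D) : NW_w R s D B ω (Sum.inl (k, x)) =
    ω k / (Fintype.card (Fin R × Fin D) : ℝ) ^ s := rfl

theorem NW_w2 (a : Fin s) (y : Fin R → Fin D) : NW_w R s D B ω (Sum.inr (a, y)) =
    ((1 - NW_l R s D B ω a) * Fintype.card (Fin D)) / (Fintype.card (Fin D) : ℝ) ^ R := rfl

variable {R s D B ω}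

theorem NW_load1 (hZ : 0 < Fintype.card (Fin R × Fin D)) (u : U) :
    ∑ i with (Sum.inl u : NW_V U R s D) ∈ NW_e R s D B i, NW_w R s D B ω i =
      ∑ k, if u ∈ B k then ω k else 0 := by
  rw [Finset.sum_filter, Fintype.sum_sum_type, Fintype.sum_prod_type, Fintype.sum_prod_type]
  have h2 : ∑ a : Fin s, ∑ y : Fin R → Fin D,
      (if (Sum.inl u : NW_V U R s D) ∈ NW_e R s D B (Sum.inr (a, y)) then
        NW_w R s D B ω (Sum.inr (a, y)) else 0) = 0 :=
    Finset.sum_eq_zero fun a _ => Finset.sum_eq_zero fun y _ => if_neg NW_m3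
  rw [h2, add_zero]
  refine Finset.sum_congr rfl fun k _ => ?_
  simp only [NW_m1, NW_w1]
  by_cases h : u ∈ B k
  · simp only [h, if_true]
    exact NW_s0 hZ _
  · simp [h]

theorem NW_load2 (hR : 0 < R) (hD : 0 < D) (a : Fin s) (z : Fin R × Fin D) :
    ∑ i with (Sum.inr (a, z) : NW_V U R s D) ∈ NW_e R s D B i, NW_w R s D B ω i = 1 := by
  have hZ : 0 < Fintype.card (Fin R × Fin D) := by simp [hR, hD]
  rw [Finset.sum_filter, Fintype.sum_sum_type, Fintype.sum_prod_type, Fintype.sum_prod_type]
  have h1 : ∑ k, ∑ x : Fin s → Fin R × Fin D,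
      (if (Sum.inr (a, z) : NW_V U R s D) ∈ NW_e R s D B (Sum.inl (k, x)) then
        NW_w R s D B ω (Sum.inl (k, x)) else 0) = NW_l R s D B ω a := by
    rw [NW_l, Finset.sum_div]
    refine Finset.sum_congr rfl fun k _ => ?_
    simp only [NW_m2, NW_w1]
    by_cases h : a.val + (B k).card < R
    · simp only [h, true_and, if_true]
      exact NW_s1 hZ a z _
    · simp [h]
  have h2 : ∑ a' : Fin s, ∑ y : Fin R → Fin D,
      (if (Sum.inr (a, z) : NW_V U R s D) ∈ NW_e R s D B (Sum.inr (a', y)) then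
        NW_w R s D B ω (Sum.inr (a', y)) else 0) = 1 - NW_l R s D B ω a := by
    rw [Finset.sum_eq_single a]
    · simp only [NW_m4, NW_w2, true_and]
      rw [NW_s1 (by simpa using hD) z.1 z.2]
      have : (Fintype.card (Fin D) : ℝ) ≠ 0 := by
        simp
        omega
      field_simp
    · intro a' _ h
      refine Finset.sum_eq_zero fun y _ => if_neg ?_
      rw [NW_m4]
      exact fun h' => h h'.1
    · intro h
      exact absurd (mem_univ a) h
  rw [h1, h2]
  ring

theorem NW_nn (hω : ∀ k, 0 ≤ ω k) (hl : ∀ a : Fin s, NW_l R s D B ω a ≤ 1)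
    (i : NW_E κ R s D) : 0 ≤ NW_w R s D B ω i := by
  rcases i with ⟨k, x⟩ | ⟨a, y⟩
  · rw [NW_w1]
    have := hω k
    positivity
  · rw [NW_w2]
    have : 0 ≤ 1 - NW_l R s D B ω a := by linarith [hl a]
    positivity

/-- the codegrees -/
theorem NW_codeg (hR : 0 < R) (hD : 0 < D) (ε : ℝ) (hω : ∀ k, 0 ≤ ω k)
    (hl0 : ∀ a : Fin s, 0 ≤ NW_l R s D B ω a) (hl : ∀ a : Fin s, NW_l R s D B ω a ≤ 1)
    (hsum : ∑ k, ω k ≤ D) (hload : ∀ u, ∑ k, (if u ∈ B k then ω k else 0) = 1)
    (hcod : ∀ u v, u ≠ v → ∑ k, (if u ∈ B k ∧ v ∈ B k then ω k else 0) ≤ ε)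
    (hε : 1 / (D : ℝ) ≤ ε) (p q : NW_V U R s D) (hpq : p ≠ q) :
    ∑ i with (p ∈ NW_e R s D B i ∧ q ∈ NW_e R s D B i), NW_w R s D B ω i ≤ ε := by
  have hZ : 0 < Fintype.card (Fin R × Fin D) := by simp [hR, hD]
  have hD' : (0 : ℝ) < D := by exact_mod_cast hD
  have hZ' : (0 : ℝ) < Fintype.card (Fin R × Fin D) := by exact_mod_cast hZ
  have hZD : (D : ℝ) ≤ Fintype.card (Fin R × Fin D) := by
    rw [Fintype.card_prod, Fintype.card_fin, Fintype.card_fin]
    exact_mod_cast Nat.le_mul_of_pos_left D hR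
  have hZe : 1 / (Fintype.card (Fin R × Fin D) : ℝ) ≤ ε :=
    le_trans (one_div_le_one_div_of_le hD' hZD) hε
  -- mixed pairs
  have hmix : ∀ (u : U) (a : Fin s) (z : Fin R × Fin D),
      ∑ i with ((Sum.inl u : NW_V U R s D) ∈ NW_e R s D B i ∧
        (Sum.inr (a, z) : NW_V U R s D) ∈ NW_e R s D B i), NW_w R s D B ω i ≤ ε := by
    intro u a z
    rw [Finset.sum_filter, Fintype.sum_sum_type, Fintype.sum_prod_type, Fintype.sum_prod_type]
    have h2 : ∑ a' : Fin s, ∑ y : Fin R → Fin D,
        (if (Sum.inl u : NW_V U R s D) ∈ NW_e R s D B (Sum.inr (a', y)) ∧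
          (Sum.inr (a, z) : NW_V U R s D) ∈ NW_e R s D B (Sum.inr (a', y)) then
          NW_w R s D B ω (Sum.inr (a', y)) else 0) = 0 :=
      Finset.sum_eq_zero fun a _ => Finset.sum_eq_zero fun y _ => if_neg fun h => NW_m3 h.1
    rw [h2, add_zero]
    refine le_trans (Finset.sum_le_sum (g := fun k => (if u ∈ B k then ω k else 0) /
      (Fintype.card (Fin R × Fin D) : ℝ)) fun k _ => ?_) ?_
    · simp only [NW_m1, NW_m2, NW_w1]
      by_cases h : u ∈ B k
      · by_cases h' : a.val + (B k).card < R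
        · simp only [h, h', true_and, if_true]
          exact (NW_s1 hZ a z _).le
        · have := hω k
          simp only [h, h', false_and, and_false, if_false, Finset.sum_const_zero, if_true]
          positivity
      · simp [h]
    · rw [← Finset.sum_div, hload]
      exact hZe
  rcases p with u | ⟨a, z⟩ <;> rcases q with v | ⟨a', z'⟩
  · rw [Finset.sum_filter, Fintype.sum_sum_type, Fintype.sum_prod_type, Fintype.sum_prod_type]
    have h2 : ∑ a' : Fin s, ∑ y : Fin R → Fin D,
        (if (Sum.inl u : NW_V U R s D) ∈ NW_e R s D B (Sum.inr (a', y)) ∧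
          (Sum.inl v : NW_V U R s D) ∈ NW_e R s D B (Sum.inr (a', y)) then
          NW_w R s D B ω (Sum.inr (a', y)) else 0) = 0 :=
      Finset.sum_eq_zero fun a _ => Finset.sum_eq_zero fun y _ => if_neg fun h => NW_m3 h.1
    rw [h2, add_zero]
    have huv : u ≠ v := fun h => hpq (by rw [h])
    refine le_trans (le_of_eq ?_) (hcod u v huv)
    refine Finset.sum_congr rfl fun k _ => ?_
    simp only [NW_m1, NW_w1]
    by_cases h : u ∈ B k ∧ v ∈ B k
    · simp only [h, and_self, if_true]
      exact NW_s0 hZ _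
    · simp [h]
  · exact hmix u a' z'
  · refine le_trans (le_of_eq ?_) (hmix v a z)
    refine Finset.sum_congr ?_ fun _ _ => rfl
    ext i
    simp only [mem_filter, mem_univ, true_and]
    exact and_comm
  · rw [Finset.sum_filter, Fintype.sum_sum_type, Fintype.sum_prod_type, Fintype.sum_prod_type]
    by_cases haa : a = a'
    · subst haa
      have hzz : z ≠ z' := fun h => hpq (by rw [h])
      have h1 : ∑ k, ∑ x : Fin s → Fin R × Fin D,
          (if (Sum.inr (a, z) : NW_V U R s D) ∈ NW_e R s D B (Sum.inl (k, x)) ∧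
            (Sum.inr (a, z') : NW_V U R s D) ∈ NW_e R s D B (Sum.inl (k, x)) then
            NW_w R s D B ω (Sum.inl (k, x)) else 0) = 0 := by
        refine Finset.sum_eq_zero fun k _ => Finset.sum_eq_zero fun x _ => if_neg ?_
        rw [NW_m2, NW_m2]
        rintro ⟨⟨_, h⟩, ⟨_, h'⟩⟩
        exact hzz (h.symm.trans h')
      rw [h1, zero_add, Finset.sum_eq_single a]
      · simp only [NW_m4, NW_w2, true_and]
        by_cases hb : z.1 = z'.1
        · have : ∀ y : Fin R → Fin D, ¬ (y z.1 = z.2 ∧ y z'.1 = z'.2) := by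
            rintro y ⟨h, h'⟩
            apply hzz
            refine Prod.ext hb ?_
            rw [← h, ← h', hb]
          simp only [this, if_false, Finset.sum_const_zero]
          exact le_trans (by positivity) hε
        · rw [NW_s2 (by simpa using hD) z.1 z'.1 hb]
          refine le_trans ?_ hε
          rw [Fintype.card_fin]
          have h3 : (1 - NW_l R s D B ω a) * (D : ℝ) / (D * D) =
              (1 - NW_l R s D B ω a) / D := by
            field_simp
          rw [h3]
          exact div_le_div_of_nonneg_right (by linarith [hl0 a]) hD'.le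
      · intro a' _ h
        refine Finset.sum_eq_zero fun y _ => if_neg ?_
        rw [NW_m4]
        exact fun h' => h h'.1.1
      · intro h
        exact absurd (mem_univ a) h
    · have h2 : ∑ a'' : Fin s, ∑ y : Fin R → Fin D,
          (if (Sum.inr (a, z) : NW_V U R s D) ∈ NW_e R s D B (Sum.inr (a'', y)) ∧
            (Sum.inr (a', z') : NW_V U R s D) ∈ NW_e R s D B (Sum.inr (a'', y)) then
            NW_w R s D B ω (Sum.inr (a'', y)) else 0) = 0 := by
        refine Finset.sum_eq_zero fun a'' _ => Finset.sum_eq_zero fun y _ => if_neg ?_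
        rw [NW_m4, NW_m4]
        rintro ⟨⟨h, _⟩, ⟨h', _⟩⟩
        exact haa (h.symm.trans h')
      rw [h2, add_zero]
      refine le_trans (Finset.sum_le_sum (g := fun k => ω k /
        ((Fintype.card (Fin R × Fin D) : ℝ) * Fintype.card (Fin R × Fin D))) fun k _ => ?_) ?_
      · simp only [NW_m2, NW_w1]
        rw [← NW_s2 hZ a a' haa z z' (ω k)]
        refine Finset.sum_le_sum fun x _ => ?_
        have := hω k
        split_ifs with h4 h5 h5
        · exact le_rfl
        · exact absurd ⟨h4.1.2, h4.2.2⟩ h5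
        · positivity
        · exact le_rfl
      · rw [← Finset.sum_div]
        refine le_trans ?_ hZe
        rw [div_le_div_iff₀ (by positivity) hZ', one_mul]
        exact mul_le_mul_of_nonneg_right (hsum.trans hZD) hZ'.le

end Pad2

/-- almost perfect matchings in hypergraphs with loads `1`, small codegrees and edges of bounded
size -/
theorem NW_pad (R : ℕ) (hR : 2 ≤ R) (η : ℝ) (hη : 0 < η) : ∃ ε > (0 : ℝ),
    ∀ (U κ : Type) [Fintype U] [DecidableEq U] [Fintype κ] (B : κ → Finset U) (ω : κ → ℝ),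
      (∀ k, 0 ≤ ω k) → (∀ k, 1 ≤ (B k).card ∧ (B k).card ≤ R) →
      (∀ u, ∑ k, (if u ∈ B k then ω k else 0) = 1) →
      (∀ u v, u ≠ v → ∑ k, (if u ∈ B k ∧ v ∈ B k then ω k else 0) ≤ ε) →
      1 / ε ≤ (Fintype.card U : ℝ) →
      ∃ (I : Finset κ) (C : Finset U), (∀ i ∈ I, ∀ j ∈ I, i ≠ j → Disjoint (B i) (B j)) ∧
        (∀ u, u ∉ C → ∃ k ∈ I, u ∈ B k) ∧ (C.card : ℝ) ≤ η * Fintype.card U := by
  obtain ⟨s, rfl⟩ : ∃ s, R = s + 1 := ⟨R - 1, by omega⟩
  have hc : (0 : ℝ) < 1 + s * (s + 1) := by positivity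
  obtain ⟨ε, hε, H⟩ := Pool.Agent.THC.nibble (s + 1) hR (η / (1 + s * (s + 1)))
    (div_pos hη hc)
  refine ⟨ε, hε, ?_⟩
  intro U κ _ _ _ B ω hω hB hload hcod hcard
  classical
  set D : ℕ := Fintype.card U with hDdef
  have hD' : (0 : ℝ) < D := lt_of_lt_of_le (by positivity) hcard
  have hD : 0 < D := by exact_mod_cast hD'
  have hDe : 1 / (D : ℝ) ≤ ε := by
    rw [div_le_iff₀ hD']
    rw [div_le_iff₀ hε] at hcard
    linarith
  have hZ : 0 < Fintype.card (Fin (s + 1) × Fin D) := by simp [hD]
  have hZ' : (0 : ℝ) < Fintype.card (Fin (s + 1) × Fin D) := by exact_mod_cast hZ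
  have hsum : ∑ k, ω k ≤ D := by
    have h1 : ∑ k, ω k ≤ ∑ k, ∑ u, (if u ∈ B k then ω k else 0) := by
      refine Finset.sum_le_sum fun k _ => ?_
      rw [← Finset.sum_filter, Finset.sum_const, nsmul_eq_mul]
      have h2 : univ.filter (fun u => u ∈ B k) = B k := by
        ext u
        simp
      rw [h2]
      have h3 : (1 : ℝ) ≤ (B k).card := by exact_mod_cast (hB k).1
      have := mul_le_mul_of_nonneg_right h3 (hω k)
      linarith
    rw [Finset.sum_comm, Finset.sum_congr rfl (fun u _ => hload u)] at h1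
    simpa [hDdef] using h1
  have hl0 : ∀ a : Fin s, 0 ≤ NW_l (s + 1) s D B ω a := by
    intro a
    refine div_nonneg (Finset.sum_nonneg fun k _ => ?_) hZ'.le
    split_ifs
    · exact hω k
    · exact le_rfl
  have hl : ∀ a : Fin s, NW_l (s + 1) s D B ω a ≤ 1 := by
    intro a
    rw [NW_l, div_le_one hZ']
    have h1 : (∑ k, if a.val + (B k).card < s + 1 then ω k else 0) ≤ ∑ k, ω k := by
      refine Finset.sum_le_sum fun k _ => ?_
      split_ifs
      · exact le_rfl
      · exact hω k
    have h2 : (D : ℝ) ≤ Fintype.card (Fin (s + 1) × Fin D) := by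
      rw [Fintype.card_prod, Fintype.card_fin, Fintype.card_fin]
      exact_mod_cast Nat.le_mul_of_pos_left D (Nat.succ_pos s)
    linarith
  have hL : ∀ v : NW_V U (s + 1) s D,
      ∑ i with v ∈ NW_e (s + 1) s D B i, NW_w (s + 1) s D B ω i = 1 := by
    rintro (u | ⟨a, z⟩)
    · rw [NW_load1 hZ, hload]
    · exact NW_load2 (Nat.succ_pos s) hD a z
  have hVc : (Fintype.card (NW_V U (s + 1) s D) : ℝ) = (1 + s * (s + 1)) * D := by
    rw [Fintype.card_sum, Fintype.card_prod, Fintype.card_prod, Fintype.card_fin,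
      Fintype.card_fin, Fintype.card_fin, ← hDdef]
    push_cast
    ring
  have htot : (Fintype.card (NW_V U (s + 1) s D) : ℝ) =
      ((s + 1 : ℕ) : ℝ) * ∑ i, NW_w (s + 1) s D B ω i := by
    rw [Finset.mul_sum]
    have h1 : ∀ i : NW_E κ (s + 1) s D, ((s + 1 : ℕ) : ℝ) * NW_w (s + 1) s D B ω i =
        ∑ v : NW_V U (s + 1) s D, (if v ∈ NW_e (s + 1) s D B i then
          NW_w (s + 1) s D B ω i else 0) := by
      intro i
      rw [← Finset.sum_filter, Finset.sum_const, nsmul_eq_mul]
      have h2 : univ.filter (fun v => v ∈ NW_e (s + 1) s D B i) = NW_e (s + 1) s D B i := by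
        ext v
        simp
      rw [h2, NW_card rfl hB]
    rw [Finset.sum_congr rfl (fun i _ => h1 i), Finset.sum_comm]
    have h3 : ∀ v : NW_V U (s + 1) s D, ∑ i, (if v ∈ NW_e (s + 1) s D B i then
        NW_w (s + 1) s D B ω i else 0) = 1 := by
      intro v
      rw [← hL v, Finset.sum_filter]
    rw [Finset.sum_congr rfl (fun v _ => h3 v)]
    simp
  obtain ⟨I, hI, hIc⟩ := H (NW_V U (s + 1) s D) (NW_E κ (s + 1) s D) (NW_e (s + 1) s D B)
    (NW_w (s + 1) s D B ω) (NW_card rfl hB) (NW_nn hω hl) (fun v => (hL v).le)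
    (NW_codeg (Nat.succ_pos s) hD ε hω hl0 hl hsum hload hcod hDe)
    (by
      rw [hVc]
      refine hcard.trans ?_
      have : (1 : ℝ) ≤ 1 + s * (s + 1) := by
        have : (0 : ℝ) ≤ (s : ℝ) * (s + 1) := by positivity
        linarith
      nlinarith)
    (by
      rw [← htot]
      have : (0 : ℝ) ≤ Fintype.card (NW_V U (s + 1) s D) := by positivity
      nlinarith)
  obtain ⟨I', hI'⟩ : ∃ I' : Finset κ, ∀ k, k ∈ I' ↔ ∃ x, (Sum.inl (k, x) :
      NW_E κ (s + 1) s D) ∈ I := ⟨univ.filter (fun k => ∃ x, Sum.inl (k, x) ∈ I), by simp⟩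
  refine ⟨I', univ.filter (fun u => ∀ k ∈ I', u ∉ B k), ?_, ?_, ?_⟩
  · intro k hk k' hk' hkk
    obtain ⟨x, hx⟩ := (hI' k).1 hk
    obtain ⟨x', hx'⟩ := (hI' k').1 hk'
    have hne : (Sum.inl (k, x) : NW_E κ (s + 1) s D) ≠ Sum.inl (k', x') := by
      intro h
      exact hkk (Prod.ext_iff.1 (Sum.inl_injective h)).1
    have hd := hI _ hx _ hx' hne
    rw [disjoint_left] at hd ⊢
    intro u hu hu'
    exact hd (NW_m1.2 hu) (NW_m1.2 hu')
  · intro u hu
    simpa using hu
  · have hcov : (I.biUnion (NW_e (s + 1) s D B)).card = I.card * (s + 1) := by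
      rw [card_biUnion hI, Finset.sum_congr rfl (fun i _ => NW_card rfl hB i),
        Finset.sum_const, smul_eq_mul]
    have hsub : (univ.filter (fun u => ∀ k ∈ I', u ∉ B k)).map
        (Function.Embedding.inl (β := Fin s × (Fin (s + 1) × Fin D))) ⊆
        univ \ I.biUnion (NW_e (s + 1) s D B) := by
      intro v hv
      simp only [mem_map, mem_filter, mem_univ, true_and, Function.Embedding.inl_apply] at hv
      obtain ⟨u, hu, rfl⟩ := hv
      simp only [mem_sdiff, mem_univ, true_and, mem_biUnion, not_exists, not_and]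
      rintro (⟨k, x⟩ | ⟨a, y⟩) hi hm
      · exact hu k ((hI' k).2 ⟨x, hi⟩) (NW_m1.1 hm)
      · exact NW_m3 hm
    have h1 := card_le_card hsub
    rw [card_map, card_sdiff_of_subset (subset_univ _), hcov, card_univ] at h1
    have h2 : I.card * (s + 1) ≤ Fintype.card (NW_V U (s + 1) s D) := by
      rw [← hcov, ← card_univ]
      exact card_le_card (subset_univ _)
    have h3 : ((univ.filter (fun u => ∀ k ∈ I', u ∉ B k)).card : ℝ) ≤
        (Fintype.card (NW_V U (s + 1) s D) : ℝ) - I.card * ((s + 1 : ℕ) : ℝ) := by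
      have h4 : ((univ.filter (fun u => ∀ k ∈ I', u ∉ B k)).card : ℝ) ≤
        ((Fintype.card (NW_V U (s + 1) s D) - I.card * (s + 1) : ℕ) : ℝ) := by
        exact_mod_cast h1
      rw [Nat.cast_sub h2] at h4
      push_cast at h4 ⊢
      exact h4
    refine h3.trans ?_
    have h5 : η / (1 + s * (s + 1)) * ((1 + s * (s + 1)) * D) = η * D := by
      field_simp
    rw [hVc] at hIc ⊢
    nlinarith

theorem p_NW : StmNW := by
  intro r η hη
  obtain ⟨ε, hε, H⟩ := NW_pad (r + 2) (by omega) η hη
  refine ⟨ε, hε, ?_⟩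
  intro J Λ ι _ _ _ Lb c A w hw hA hc hl hll hjl hcard
  classical
  -- the base hypergraph
  let κ : Type := {i : ι // w i ≠ 0} ⊕ ↥Lb
  let U : Type := J ⊕ ↥Lb
  let ld : Λ → ℝ := fun l => Pr w (fun i => l ∈ A i)
  let B : κ → Finset U := fun k => match k with
    | Sum.inl i => insert (Sum.inl (c i.1))
        ((univ.filter (fun l : ↥Lb => l.1 ∈ A i.1)).map Function.Embedding.inr)
    | Sum.inr l => {Sum.inr l}
  let ω : κ → ℝ := fun k => match k with
    | Sum.inl i => w i.1
    | Sum.inr l => 1 - ld l.1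
  have m1 : ∀ (i : {i : ι // w i ≠ 0}) (j : J), (Sum.inl j : U) ∈ B (Sum.inl i) ↔ c i.1 = j := by
    intro i j
    simp only [B, mem_insert, Sum.inl.injEq, mem_map, Function.Embedding.inr_apply]
    constructor
    · rintro (h | ⟨_, _, h⟩)
      · exact h.symm
      · exact absurd h (by simp)
    · exact fun h => Or.inl h.symm
  have m2 : ∀ (i : {i : ι // w i ≠ 0}) (l : ↥Lb), (Sum.inr l : U) ∈ B (Sum.inl i) ↔
      l.1 ∈ A i.1 := by
    intro i l
    simp [B]
  have m3 : ∀ (l : ↥Lb) (j : J), ¬ (Sum.inl j : U) ∈ B (Sum.inr l) := by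
    intro l j
    simp [B]
  have m4 : ∀ (l l' : ↥Lb), (Sum.inr l' : U) ∈ B (Sum.inr l) ↔ l' = l := by
    intro l l'
    simp [B]
  have hsub : ∀ (P : ι → Prop) [DecidablePred P],
      Pr w P = ∑ i : {i : ι // w i ≠ 0}, (if P i.1 then w i.1 else 0) := by
    intro P _
    rw [Pr_eq]
    have h1 : ∑ i, (if P i then w i else 0) =
        ∑ i ∈ univ.filter (fun i => w i ≠ 0), (if P i then w i else 0) := by
      symm
      refine Finset.sum_subset (filter_subset _ _) fun i _ hi => ?_
      simp only [mem_filter, mem_univ, true_and, not_not] at hi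
      rw [hi]
      simp
    rw [h1]
    exact Finset.sum_subtype _ (by simp) _
  have k1 : ∀ k : κ, 0 ≤ ω k := by
    rintro (i | l)
    · exact hw i.1
    · exact sub_nonneg.2 (hl l.1 l.2)
  have k2 : ∀ k : κ, 1 ≤ (B k).card ∧ (B k).card ≤ r + 2 := by
    rintro (i | l)
    · refine ⟨card_pos.2 ⟨_, (m1 i (c i.1)).2 rfl⟩, ?_⟩
      have h1 : (B (Sum.inl i)).card ≤
          ((univ.filter (fun l : ↥Lb => l.1 ∈ A i.1)).map
            (Function.Embedding.inr (α := J))).card + 1 := card_insert_le _ _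
      rw [card_map] at h1
      have h2 : (univ.filter (fun l : ↥Lb => l.1 ∈ A i.1)).card ≤ (A i.1).card := by
        rw [← card_map (Function.Embedding.subtype _)]
        refine card_le_card ?_
        intro l hl
        simp only [mem_map, mem_filter, mem_univ, true_and,
          Function.Embedding.subtype_apply] at hl
        obtain ⟨a, ha, rfl⟩ := hl
        exact ha
      have h3 := (hA i.1 i.2).1
      omega
    · change 1 ≤ ({Sum.inr l} : Finset U).card ∧ ({Sum.inr l} : Finset U).card ≤ r + 2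
      rw [card_singleton]
      omega
  have k3 : ∀ u : U, ∑ k, (if u ∈ B k then ω k else 0) = 1 := by
    rintro (j | l)
    · rw [Fintype.sum_sum_type]
      simp only [m1, m3, if_false, Finset.sum_const_zero, add_zero]
      rw [← hc j, hsub]
    · rw [Fintype.sum_sum_type]
      simp only [m2, m4]
      rw [Finset.sum_ite_eq univ l, if_pos (mem_univ _)]
      change (∑ i : {i : ι // w i ≠ 0}, if l.1 ∈ A i.1 then w i.1 else 0) + (1 - ld l.1) = 1
      rw [← hsub (fun i => l.1 ∈ A i)]
      ring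
  have k4 : ∀ u v : U, u ≠ v → ∑ k, (if u ∈ B k ∧ v ∈ B k then ω k else 0) ≤ ε := by
    rintro (j | l) (j' | l') hne
    · rw [Fintype.sum_sum_type]
      have h1 : ∀ i : {i : ι // w i ≠ 0}, ¬ (c i.1 = j ∧ c i.1 = j') := by
        rintro i ⟨h, h'⟩
        exact hne (by rw [← h, h'])
      simp only [m1, m3, h1, false_and, if_false, Finset.sum_const_zero, add_zero]
      exact hε.le
    · rw [Fintype.sum_sum_type]
      simp only [m1, m2, m3, false_and, if_false, Finset.sum_const_zero, add_zero]
      have := hjl j l'.1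
      rw [hsub] at this
      exact this
    · rw [Fintype.sum_sum_type]
      simp only [m1, m2, m3, and_false, if_false, Finset.sum_const_zero, add_zero]
      have := hjl j' l.1
      rw [hsub] at this
      refine le_trans (le_of_eq ?_) this
      refine Finset.sum_congr rfl fun i _ => ?_
      by_cases h : c i.1 = j' ∧ l.1 ∈ A i.1
      · rw [if_pos ⟨h.2, h.1⟩, if_pos h]
      · rw [if_neg (fun h' => h ⟨h'.2, h'.1⟩), if_neg h]
    · rw [Fintype.sum_sum_type]
      have h1 : ∀ l'' : ↥Lb, ¬ (l = l'' ∧ l' = l'') := by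
        rintro l'' ⟨h, h'⟩
        exact hne (by rw [h, h'])
      simp only [m2, m4, h1, if_false, Finset.sum_const_zero, add_zero]
      have := hll l.1 l'.1 (fun h => hne (by rw [Subtype.ext h]))
      rw [hsub] at this
      exact this
  have k5 : 1 / ε ≤ (Fintype.card U : ℝ) := by
    rw [Fintype.card_sum, Fintype.card_coe]
    push_cast
    exact hcard
  obtain ⟨I, C, hI, hC, hIc⟩ := H U κ B ω k1 k2 k3 k4 k5
  refine ⟨(univ.filter (fun i : {i : ι // w i ≠ 0} => (Sum.inl i : κ) ∈ I)).map
    (Function.Embedding.subtype _), ?_, ?_, ?_⟩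
  · intro i hi
    simp only [mem_map, mem_filter, mem_univ, true_and, Function.Embedding.subtype_apply] at hi
    obtain ⟨a, _, rfl⟩ := hi
    exact a.2
  · intro i hi i' hi' hii
    simp only [mem_map, mem_filter, mem_univ, true_and, Function.Embedding.subtype_apply]
      at hi hi'
    obtain ⟨a, ha, rfl⟩ := hi
    obtain ⟨a', ha', rfl⟩ := hi'
    have hd := hI _ ha _ ha' (fun h => hii (by rw [Sum.inl_injective h]))
    rw [disjoint_left] at hd
    refine ⟨fun h => hd ((m1 a (c a.1)).2 rfl) ((m1 a' (c a.1)).2 h.symm), ?_⟩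
    rw [disjoint_left]
    intro l hl1 hl2
    have hL : l ∈ Lb := (hA a.1 a.2).2 hl1
    exact hd ((m2 a ⟨l, hL⟩).2 hl1) ((m2 a' ⟨l, hL⟩).2 hl2)
  · rw [card_map]
    have hcJ : (univ : Finset J) ⊆
        (univ.filter (fun i : {i : ι // w i ≠ 0} => (Sum.inl i : κ) ∈ I)).image (fun i => c i.1) ∪
        univ.filter (fun j : J => (Sum.inl j : U) ∈ C) := by
      intro j _
      rw [mem_union]
      by_cases h : (Sum.inl j : U) ∈ C
      · exact Or.inr (by simpa using h)
      · left
        obtain ⟨k, hk, hj⟩ := hC _ h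
        rcases k with i | l
        · rw [mem_image]
          exact ⟨i, by simpa using hk, (m1 i j).1 hj⟩
        · exact absurd hj (m3 l j)
    have h1 := (card_le_card hcJ).trans (card_union_le _ _)
    have h2 : ((univ.filter (fun i : {i : ι // w i ≠ 0} => (Sum.inl i : κ) ∈ I)).image
        (fun i => c i.1)).card ≤
        (univ.filter (fun i : {i : ι // w i ≠ 0} => (Sum.inl i : κ) ∈ I)).card := card_image_le
    have h3 : (univ.filter (fun j : J => (Sum.inl j : U) ∈ C)).card ≤ C.card := by
      rw [← card_map (Function.Embedding.inl (β := ↥Lb))]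
      refine card_le_card ?_
      intro v hv
      simp only [mem_map, mem_filter, mem_univ, true_and, Function.Embedding.inl_apply] at hv
      obtain ⟨j, hj, rfl⟩ := hv
      exact hj
    rw [card_univ] at h1
    have h4 : (Fintype.card U : ℝ) = Fintype.card J + Lb.card := by
      rw [Fintype.card_sum, Fintype.card_coe]
      push_cast
      rfl
    rw [h4] at hIc
    have h5 : (Fintype.card J : ℝ) ≤
        ((univ.filter (fun i : {i : ι // w i ≠ 0} => (Sum.inl i : κ) ∈ I)).card : ℝ) +
        (C.card : ℝ) := by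
      exact_mod_cast h1.trans (add_le_add h2 h3)
    linarith

end Pool.Agent.Lib.MP_8b7544_co.Df
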