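import Pool.Agent.Lib.MP_8b7544_co.Df.Stm

/-!
# MP_8b7544_co, project Deficiency: piece Avg
-/

set_option autoImplicit false

namespace Pool.Agent.Lib.MP_8b7544_co.Df

open Finset

theorem Avg_injOn (N : ℕ) [NeZero N] (a : ℤ) :
    Set.InjOn (fun y : ℤ => (y : ZMod N)) (Ico a (a + N) : Finset ℤ) := by
  intro y hy z hz h
  simp only [coe_Ico, Set.mem_Ico] at hy hz
  have h' : ((N : ℤ)) ∣ z - y := (ZMod.intCast_eq_intCast_iff_dvd_sub y z N).1 h
  have h2 : |z - y| < (N : ℤ) := by
    rw [abs_lt]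
    constructor <;> omega
  have := Int.eq_zero_of_abs_lt_dvd h' h2
  omega

theorem Avg_image (N : ℕ) [NeZero N] (a : ℤ) :
    (Ico a (a + N)).image (fun y : ℤ => (y : ZMod N)) = univ := by
  apply Finset.eq_univ_of_card
  rw [Finset.card_image_of_injOn (Avg_injOn N a), Int.card_Ico, ZMod.card]
  simp

theorem Avg_block (N : ℕ) [NeZero N] (D : Finset (ZMod N)) (a : ℤ) :
    ((Ico a (a + N)).filter (fun y : ℤ => (y : ZMod N) ∈ D)).card = D.card := by
  have h : ((Ico a (a + N)).filter (fun y : ℤ => (y : ZMod N) ∈ D)).image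
      (fun y : ℤ => (y : ZMod N)) = D := by
    ext d
    simp only [mem_image, mem_filter]
    constructor
    · rintro ⟨y, ⟨_, hy⟩, rfl⟩
      exact hy
    · intro hd
      have h1 := mem_univ d
      rw [← Avg_image N a, mem_image] at h1
      obtain ⟨y, hy, rfl⟩ := h1
      exact ⟨y, ⟨hy, hd⟩, rfl⟩
  have h2 := Finset.card_image_of_injOn (s := (Ico a (a + N)).filter
    (fun y : ℤ => (y : ZMod N) ∈ D)) (f := fun y : ℤ => (y : ZMod N))
    ((Avg_injOn N a).mono (by intro y hy; exact (mem_filter.1 hy).1))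
  rw [h] at h2
  exact h2.symm

theorem Avg_ratio (N : ℕ) [NeZero N] (D : Finset (ZMod N)) :
    0 ≤ (D.card / N : ℝ) ∧ (D.card / N : ℝ) ≤ 1 := by
  have hN : (0 : ℝ) < N := by exact_mod_cast Nat.pos_of_ne_zero (NeZero.ne N)
  refine ⟨by positivity, ?_⟩
  rw [div_le_one hN]
  have := Finset.card_le_univ D
  rw [ZMod.card] at this
  exact_mod_cast this

/-- the weight of the residue class, minus its mean -/
noncomputable def Avg_c (N : ℕ) (D : Finset (ZMod N)) (y : ℤ) : ℝ :=
  (if (y : ZMod N) ∈ D then 1 else 0) - (D.card / N : ℝ)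

theorem Avg_c_abs (N : ℕ) [NeZero N] (D : Finset (ZMod N)) (y : ℤ) : |Avg_c N D y| ≤ 1 := by
  obtain ⟨h0, h1⟩ := Avg_ratio N D
  unfold Avg_c
  rw [abs_le]
  split_ifs <;> constructor <;> linarith

theorem Avg_c_sum (N : ℕ) [NeZero N] (D : Finset (ZMod N)) (a : ℤ) :
    ∑ y ∈ Ico a (a + N), Avg_c N D y = 0 := by
  have hN : (N : ℝ) ≠ 0 := by exact_mod_cast NeZero.ne N
  unfold Avg_c
  rw [Finset.sum_sub_distrib, Finset.sum_boole, Avg_block, Finset.sum_const, Int.card_Ico]
  have e : (a + (N : ℤ) - a).toNat = N := by simp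
  rw [e, nsmul_eq_mul]
  field_simp
  ring

theorem Avg_lip (L : ℕ) (a : ℤ) (F : ℤ → ℝ)
    (h : ∀ y, a ≤ y → y + 1 < a + L → |F (y + 1) - F y| ≤ 1) (n : ℕ) (hn : a + n < a + L) :
    |F (a + n) - F a| ≤ n := by
  induction n with
  | zero => simp
  | succ n ih =>
    have h1 := ih (by push_cast at hn; omega)
    have h2 := h (a + n) (by omega) (by push_cast at hn; omega)
    have e : a + ((n + 1 : ℕ) : ℤ) = a + n + 1 := by push_cast; ring
    rw [e]
    have e2 : F (a + n + 1) - F a = (F (a + n + 1) - F (a + n)) + (F (a + n) - F a) := by ring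
    rw [e2]
    calc _ ≤ |F (a + n + 1) - F (a + n)| + |F (a + n) - F a| := abs_add_le _ _
      _ ≤ 1 + n := add_le_add h2 h1
      _ = _ := by push_cast; ring

theorem Avg_gen (N : ℕ) [NeZero N] (D : Finset (ZMod N)) (R : ℝ) (hR : 0 ≤ R) (F : ℤ → ℝ)
    (L : ℕ) : ∀ a : ℤ, (∀ y, a ≤ y → y < a + L → 0 ≤ F y ∧ F y ≤ R) →
    (∀ y, a ≤ y → y + 1 < a + L → |F (y + 1) - F y| ≤ 1) →
    |∑ y ∈ Ico a (a + L), F y * Avg_c N D y| ≤ N * (L + R) := by
  induction L using Nat.strong_induction_on with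
  | _ L ih =>
    intro a hF hl
    have hN0 : 0 < N := Nat.pos_of_ne_zero (NeZero.ne N)
    have hN : (0 : ℝ) < N := by exact_mod_cast hN0
    by_cases hL : L < N
    · have e4 : (L : ℝ) ≤ N := by exact_mod_cast hL.le
      have e5 : (0 : ℝ) ≤ L := Nat.cast_nonneg L
      have e1 : |∑ y ∈ Ico a (a + L), F y * Avg_c N D y| ≤ ∑ y ∈ Ico a (a + (L : ℤ)), R := by
        refine le_trans (Finset.abs_sum_le_sum_abs _ _) (Finset.sum_le_sum fun y hy => ?_)
        rw [mem_Ico] at hy
        obtain ⟨h0, h1⟩ := hF y hy.1 hy.2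
        rw [abs_mul, abs_of_nonneg h0]
        calc F y * |Avg_c N D y| ≤ F y * 1 :=
              mul_le_mul_of_nonneg_left (Avg_c_abs N D y) h0
          _ ≤ R := by rw [mul_one]; exact h1
      rw [Finset.sum_const, Int.card_Ico] at e1
      have e : (a + (L : ℤ) - a).toNat = L := by simp
      rw [e, nsmul_eq_mul] at e1
      calc _ ≤ (L : ℝ) * R := e1
        _ ≤ N * R := mul_le_mul_of_nonneg_right e4 hR
        _ ≤ N * (L + R) := by nlinarith
    · obtain ⟨M, rfl⟩ := Nat.exists_eq_add_of_le (not_lt.1 hL)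
      have hM : M < N + M := by omega
      have h2 := ih M hM (a + N) (fun y h1 h2 => hF y (by omega) (by push_cast; omega))
        (fun y h1 h2 => hl y (by omega) (by push_cast; omega))
      have e : Ico a (a + ((N + M : ℕ) : ℤ)) = Ico a (a + N) ∪ Ico (a + N) (a + N + M) := by
        rw [Finset.Ico_union_Ico_eq_Ico (by omega) (by omega)]
        congr 1
        push_cast
        ring
      rw [e, Finset.sum_union (Finset.Ico_disjoint_Ico_consecutive _ _ _)]
      have h3 : |∑ y ∈ Ico a (a + (N : ℤ)), F y * Avg_c N D y| ≤ N * N := by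
        have e3 : ∑ y ∈ Ico a (a + (N : ℤ)), F y * Avg_c N D y =
            ∑ y ∈ Ico a (a + (N : ℤ)), (F y - F a) * Avg_c N D y := by
          have : ∑ y ∈ Ico a (a + (N : ℤ)), (F y - F a) * Avg_c N D y =
              ∑ y ∈ Ico a (a + (N : ℤ)), F y * Avg_c N D y -
                F a * ∑ y ∈ Ico a (a + (N : ℤ)), Avg_c N D y := by
            rw [Finset.mul_sum, ← Finset.sum_sub_distrib]
            refine Finset.sum_congr rfl fun y _ => ?_
            ring
          rw [this, Avg_c_sum, mul_zero, sub_zero]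
        rw [e3]
        have e1 : |∑ y ∈ Ico a (a + (N : ℤ)), (F y - F a) * Avg_c N D y| ≤
            ∑ y ∈ Ico a (a + (N : ℤ)), (N : ℝ) := by
          refine le_trans (Finset.abs_sum_le_sum_abs _ _) (Finset.sum_le_sum fun y hy => ?_)
          rw [mem_Ico] at hy
          obtain ⟨n, hn⟩ := Int.eq_ofNat_of_zero_le (by omega : 0 ≤ y - a)
          have hyn : y = a + n := by omega
          have h4 := Avg_lip (N + M) a F hl n (by push_cast; omega)
          rw [← hyn] at h4
          have h5 : (n : ℝ) ≤ N := by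
            have : n ≤ N := by omega
            exact_mod_cast this
          rw [abs_mul]
          calc |F y - F a| * |Avg_c N D y| ≤ |F y - F a| * 1 :=
                mul_le_mul_of_nonneg_left (Avg_c_abs N D y) (abs_nonneg _)
            _ ≤ N := by rw [mul_one]; exact h4.trans h5
        rw [Finset.sum_const, Int.card_Ico] at e1
        have e : (a + (N : ℤ) - a).toNat = N := by simp
        rw [e, nsmul_eq_mul] at e1
        exact e1
      calc _ ≤ _ := abs_add_le _ _
        _ ≤ N * N + N * (M + R) := add_le_add h3 h2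
        _ = _ := by push_cast; ring

theorem p_Avg : StmAvg := by
  intro N _ L a F R hR hF hl D
  have h := Avg_gen N D R hR F L a hF hl
  have e : ∑ y ∈ Ico a (a + (L : ℤ)), F y * Avg_c N D y =
      ∑ y ∈ Ico a (a + (L : ℤ)), (if (y : ZMod N) ∈ D then F y else 0)
      - (D.card / N : ℝ) * ∑ y ∈ Ico a (a + (L : ℤ)), F y := by
    rw [Finset.mul_sum, ← Finset.sum_sub_distrib]
    refine Finset.sum_congr rfl fun y _ => ?_
    unfold Avg_c
    split_ifs <;> ring
  rw [← e]
  exact h

end Pool.Agent.Lib.MP_8b7544_co.Df
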