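import Mathlib
import Pool.Agent.Lib.MP_8b7544_co.Defs

/-!
# MP_8b7544_co, project Deficiency: shared definitions
-/

set_option autoImplicit false

namespace Pool.Agent.Lib.MP_8b7544_co.Df

open Finset

/-! ## trees as parent sequences -/

/-- `p` is a parent sequence: the vertices are the natural numbers (below some `n`), the root is
`0`, the parent of `i > 0` is `p i < i` -/
structure Par (p : ℕ → ℕ) : Prop where
  zero : p 0 = 0
  lt : ∀ i, 0 < i → p i < i

/-- the vertices of `A` get distinct labels and the edges inside `A` get distinct sums -/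
def Lab (p : ℕ → ℕ) (A : Finset ℕ) (f : ℕ → ℤ) : Prop :=
  (∀ i ∈ A, ∀ j ∈ A, f i = f j → i = j) ∧
    ∀ i ∈ A, ∀ j ∈ A, 0 < i → 0 < j → p i ∈ A → p j ∈ A → f i + f (p i) = f j + f (p j) → i = j

/-- going up from `v` one reaches `t`, and all vertices on the way (`v` and `t` included) are
outside `X`. -/
def InC (p : ℕ → ℕ) (X : Finset ℕ) (v t : ℕ) : Prop :=
  ∃ a, p^[a] v = t ∧ ∀ i ≤ a, p^[i] v ∉ X

/-- the part of the component of `T - X` which lies below `t` -/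
noncomputable def cmp (n : ℕ) (p : ℕ → ℕ) (X : Finset ℕ) (t : ℕ) : Finset ℕ := by
  classical exact (range n).filter (fun v => InC p X v t)

theorem mem_cmp {n : ℕ} {p : ℕ → ℕ} {X : Finset ℕ} {t v : ℕ} :
    v ∈ cmp n p X t ↔ v < n ∧ InC p X v t := by
  unfold cmp; simp

/-- the children of `x` among `0, …, n-1` -/
def chl (n : ℕ) (p : ℕ → ℕ) (x : ℕ) : Finset ℕ := (range n).filter (fun i => 0 < i ∧ p i = x)

/-- `c` has a descendant in `Z` (or is in `Z`) -/
def Leads (p : ℕ → ℕ) (Z : Finset ℕ) (c : ℕ) : Prop := ∃ z ∈ Z, ∃ a, p^[a] z = c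

/-- every vertex outside `Z` has at most one child which has a descendant in `Z` -/
def Uni (p : ℕ → ℕ) (Z : Finset ℕ) : Prop :=
  ∀ c c', 0 < c → 0 < c' → p c = p c' → p c ∉ Z → Leads p Z c → Leads p Z c' → c = c'

/-- every vertex outside `A` has at most one child in `A` -/
def One (p : ℕ → ℕ) (A : Finset ℕ) : Prop :=
  ∀ c ∈ A, ∀ c' ∈ A, 0 < c → 0 < c' → p c = p c' → p c ∉ A → c = c'

/-- The decomposition of the tree. `H`: the hubs; `Hp`: closure of the hubs; `X`: the cut set. -/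
structure TD (n S : ℕ) (δ : ℝ) (p : ℕ → ℕ) (H Hp X : Finset ℕ) : Prop where
  par : Par p
  HHp : H ⊆ Hp
  HpX : Hp ⊆ X
  Xn : X ⊆ range n
  zero : 0 ∈ X
  /-- a vertex that is not a hub has few children -/
  few : ∀ x, x ∉ H → ((chl n p x).card : ℝ) ≤ δ * n
  Hpone : One p Hp
  Xone : One p X
  /-- a vertex which is outside `X`, whose parent is in `X`, has no child in `X` -/
  top : ∀ d ∈ X, 0 < d → p d ∉ X → p (p d) ∉ X
  size : ∀ t < n, t ∉ X → (cmp n p X t).card ≤ S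
  /-- at most one edge goes from a component down to `X` -/
  exit : ∀ t, ∀ d ∈ X, ∀ d' ∈ X, 0 < d → 0 < d' → InC p X (p d) t → InC p X (p d') t → d = d'

/-- increasing enumeration `v 0 = t, v 1, …, v (k-1)` of the component below `t`;
`q j` is the place of the parent of `v j`. -/
structure CE (n : ℕ) (p : ℕ → ℕ) (X : Finset ℕ) (t k : ℕ) (v q : ℕ → ℕ) : Prop where
  kpos : 1 ≤ k
  v0 : v 0 = t
  inj : ∀ i < k, ∀ j < k, v i = v j → i = j
  mem : ∀ j < k, v j < n ∧ InC p X (v j) t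
  surj : ∀ w < n, InC p X w t → ∃ j < k, v j = w
  par : ∀ j, 1 ≤ j → j < k → q j < j ∧ v (q j) = p (v j)

/-! ## the kernel -/

/-- the range of all labels and of all sums -/
noncomputable def Om (R : ℕ) : Finset ℤ := Icc (-(R : ℤ)) R

/-- `max (|x|, |y|, |x+y|)` if this is at most `R`, and `0` otherwise -/
noncomputable def W (R : ℕ) (x y : ℤ) : ℝ :=
  if |x| ≤ R ∧ |y| ≤ R ∧ |x + y| ≤ R then ((max |x| (max |y| |x + y|) : ℤ) : ℝ) else 0

/-- the labels with residue in `D` -/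
noncomputable def V0 (R N : ℕ) (D : Finset (ZMod N)) : Finset ℤ := (Om R).filter (fun x => (x : ZMod N) ∈ D)

/-- the kernel before normalisation -/
noncomputable def Ku (R N : ℕ) (D : Finset (ZMod N)) (x y : ℤ) : ℝ :=
  if (y : ZMod N) ∈ D ∧ ((x + y : ℤ) : ZMod N) ∈ D then W R x y else 0

/-- row sums of `Ku` -/
noncomputable def rw' (R N : ℕ) (D : Finset (ZMod N)) (x : ℤ) : ℝ := ∑ y ∈ Om R, Ku R N D x y

/-- the transition kernel -/
noncomputable def Kn (R N : ℕ) (D : Finset (ZMod N)) (x y : ℤ) : ℝ := Ku R N D x y / rw' R N D x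

/-- the stationary distribution -/
noncomputable def ps (R N : ℕ) (D : Finset (ZMod N)) (x : ℤ) : ℝ :=
  if x ∈ V0 R N D then rw' R N D x / ∑ z ∈ V0 R N D, rw' R N D z else 0

/-- number of `b ∈ D` with `a + b ∈ D` -/
def Qr {N : ℕ} (D : Finset (ZMod N)) (a : ZMod N) : ℕ := (D.filter (fun b => a + b ∈ D)).card

/-! ## random labellings of one component -/

/-- weight of the set of those `i` that satisfy `P` -/
noncomputable def Pr {ι : Type} [Fintype ι] (w : ι → ℝ) (P : ι → Prop) : ℝ := by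
  classical exact ∑ i, if P i then w i else 0

theorem Pr_eq {ι : Type} [Fintype ι] (w : ι → ℝ) (P : ι → Prop) [DecidablePred P] :
    Pr w P = ∑ i, if P i then w i else 0 := by
  unfold Pr
  refine Finset.sum_congr rfl fun i _ => ?_
  by_cases h : P i <;> simp [h]

theorem Pr_nonneg {ι : Type} [Fintype ι] {w : ι → ℝ} (hw : ∀ i, 0 ≤ w i) (P : ι → Prop) :
    0 ≤ Pr w P := by
  classical
  rw [Pr_eq]
  refine Finset.sum_nonneg fun i _ => ?_
  split_ifs
  · exact hw i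
  · exact le_rfl

theorem Pr_mono {ι : Type} [Fintype ι] {w : ι → ℝ} (hw : ∀ i, 0 ≤ w i) {P Q : ι → Prop}
    (h : ∀ i, w i ≠ 0 → P i → Q i) : Pr w P ≤ Pr w Q := by
  classical
  rw [Pr_eq, Pr_eq]
  refine Finset.sum_le_sum fun i _ => ?_
  by_cases h0 : w i = 0
  · simp [h0]
  by_cases h1 : P i
  · simp [h1, h i h0 h1]
  · simp only [h1, if_false]
    split_ifs
    · exact hw i
    · exact le_rfl

theorem Pr_or {ι : Type} [Fintype ι] {w : ι → ℝ} (hw : ∀ i, 0 ≤ w i) (P Q : ι → Prop) :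
    Pr w (fun i => P i ∨ Q i) ≤ Pr w P + Pr w Q := by
  classical
  rw [Pr_eq, Pr_eq, Pr_eq, ← Finset.sum_add_distrib]
  refine Finset.sum_le_sum fun i _ => ?_
  have := hw i
  by_cases h1 : P i <;> by_cases h2 : Q i <;> simp [h1, h2, this]

theorem Pr_exists {ι κ : Type} [Fintype ι] {w : ι → ℝ} (hw : ∀ i, 0 ≤ w i) (s : Finset κ)
    (P : κ → ι → Prop) : Pr w (fun i => ∃ a ∈ s, P a i) ≤ ∑ a ∈ s, Pr w (P a) := by
  classical
  induction s using Finset.induction_on with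
  | empty =>
    rw [Pr_eq]; simp
  | insert a s ha ih =>
    rw [Finset.sum_insert ha]
    refine le_trans ?_ (add_le_add_right ih _)
    refine le_trans (Pr_mono hw ?_) (Pr_or hw _ _)
    rintro i - ⟨b, hb, hP⟩
    rw [Finset.mem_insert] at hb
    rcases hb with rfl | hb
    · exact Or.inl hP
    · exact Or.inr ⟨b, hb, hP⟩

/-- The properties of the kernel `K` and of the (sub)stationary weights `ph` used in the
combinatorial part. `V` is the set of ordinary labels and of ordinary sums. `Gd` says from which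
labels one may start. -/
structure Ker (R : ℕ) (V : Finset ℤ) (K : ℤ → ℤ → ℝ) (ph : ℤ → ℝ) (Gd : ℤ → Prop)
    (lam pm : ℝ) : Prop where
  sub : V ⊆ Om R
  nn : ∀ x y, 0 ≤ K x y
  le : ∀ x, Gd x → ∀ y, K x y ≤ lam
  supp : ∀ x y, K x y ≠ 0 → y ∈ V ∧ x + y ∈ V
  row : ∀ x, Gd x → ∑ y ∈ V, K x y = 1
  gd : ∀ x ∈ V, Gd x
  pnn : ∀ x, 0 ≤ ph x
  ppm : ∀ x, ph x ≤ pm
  plam : pm ≤ lam
  st1 : ∀ y, ∑ x ∈ V, ph x * K x y ≤ ph y
  st2 : ∀ s, ∑ x ∈ V, ph x * K x (s - x) ≤ ph s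

/-- The properties of the law `mu` of the label of the top vertex of a component. -/
structure Ini (R : ℕ) (K : ℤ → ℤ → ℝ) (ph : ℤ → ℝ) (Gd : ℤ → Prop) (lam : ℝ)
    (mu : ℤ → ℝ) : Prop where
  nn : ∀ x, 0 ≤ mu x
  le : ∀ x, mu x ≤ lam
  gd : ∀ x, mu x ≠ 0 → Gd x ∧ x ∈ Om R
  tot : ∑ x ∈ Om R, mu x = 1
  in1 : ∀ y, ∑ x ∈ Om R, mu x * K x y ≤ ph y
  in2 : ∀ s, ∑ x ∈ Om R, mu x * K x (s - x) ≤ ph s

/-- `F` depends only on the first `j` values -/
def Dep {α : Type} (j : ℕ) (F : (ℕ → ℤ) → α) : Prop :=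
  ∀ g g' : ℕ → ℤ, (∀ i < j, g i = g' i) → F g = F g'

/-- A random labelling `G i 0, …, G i (k-1)` of a component with parent places `q`. -/
structure Law (V : Finset ℤ) (ph mu : ℤ → ℝ) (lam : ℝ) (k : ℕ) (q : ℕ → ℕ)
    (ι : Type) [Fintype ι] (w : ι → ℝ) (G : ι → ℕ → ℤ) : Prop where
  nn : ∀ i, 0 ≤ w i
  tot : ∑ i, w i = 1
  supp0 : ∀ i, w i ≠ 0 → mu (G i 0) ≠ 0
  supp : ∀ i, w i ≠ 0 → ∀ j, 1 ≤ j → j < k → G i j ∈ V ∧ G i j + G i (q j) ∈ V
  law0 : ∀ y, Pr w (fun i => G i 0 = y) ≤ mu y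
  lawV : ∀ j, 1 ≤ j → j < k → ∀ y, Pr w (fun i => G i j = y) ≤ ph y
  lawS : ∀ j, 1 ≤ j → j < k → ∀ s, Pr w (fun i => G i j + G i (q j) = s) ≤ ph s
  cond : ∀ j, 1 ≤ j → j < k → ∀ (E : (ℕ → ℤ) → Prop) (F : (ℕ → ℤ) → ℤ), Dep j E → Dep j F →
    Pr w (fun i => E (G i) ∧ G i j = F (G i)) ≤ lam * Pr w (fun i => E (G i))

/-- the sum of the edge from the `j`-th vertex of the component to its parent; the parent of the
top vertex has label `b` -/
def sm (q : ℕ → ℕ) (b : ℤ) (g : ℕ → ℤ) (j : ℕ) : ℤ := g j + (if j = 0 then b else g (q j))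

/-- The labelling `g` of the component (with `k` vertices, parent places `q`) can be used.
`hub`: the parent of the top vertex is a hub; `L`: allowed labels of the top vertex in this case;
`b`: label of the parent of the top vertex; `U`: places of the vertices that have a child outside
the component (`U` has at most one element), `b'`: label of this child. -/
structure Val (V L : Finset ℤ) (hub : Prop) (k : ℕ) (q : ℕ → ℕ) (b b' : ℤ) (U : Finset ℕ)
    (g : ℕ → ℤ) : Prop where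
  inj : ∀ i < k, ∀ j < k, g i = g j → i = j
  mem : ∀ j, 1 ≤ j → j < k → g j ∈ V ∧ sm q b g j ∈ V
  hub0 : hub → g 0 ∈ L
  nhub0 : ¬ hub → g 0 ∈ V ∧ sm q b g 0 ∈ V
  out : ∀ u ∈ U, g u + b' ∈ V
  sinj : ∀ i < k, ∀ j < k, sm q b g i = sm q b g j → i = j
  sout : ∀ u ∈ U, ∀ j < k, g u + b' ≠ sm q b g j

/-- The labels and sums used by the labelling `g`: `(true, y)` stands for the vertex label `y` and
`(false, s)` for the sum `s`. At a hub the sum of the top edge is left out. -/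
noncomputable def AL (hub : Prop) (k : ℕ) (q : ℕ → ℕ) (b b' : ℤ) (U : Finset ℕ) (g : ℕ → ℤ) :
    Finset (Bool × ℤ) := by
  classical exact
    (range k).image (fun j => (true, g j)) ∪
      ((range k).filter (fun j => 1 ≤ j ∨ ¬ hub)).image (fun j => (false, sm q b g j)) ∪
      U.image (fun u => (false, g u + b'))

theorem mem_AL_true {hub : Prop} {k : ℕ} {q : ℕ → ℕ} {b b' : ℤ} {U : Finset ℕ} {g : ℕ → ℤ}
    {y : ℤ} : (true, y) ∈ AL hub k q b b' U g ↔ ∃ j < k, g j = y := by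
  classical
  unfold AL
  simp

theorem mem_AL_false {hub : Prop} {k : ℕ} {q : ℕ → ℕ} {b b' : ℤ} {U : Finset ℕ} {g : ℕ → ℤ}
    {s : ℤ} : (false, s) ∈ AL hub k q b b' U g ↔
      (∃ j < k, (1 ≤ j ∨ ¬ hub) ∧ sm q b g j = s) ∨ ∃ u ∈ U, g u + b' = s := by
  classical
  unfold AL
  simp [and_assoc]

/-- the two labels form a pair `(true, y)`, `(false, y + b)` -/
def Pb (b : ℤ) (l l' : Bool × ℤ) : Prop :=
  ∃ y, (l = (true, y) ∧ l' = (false, y + b)) ∨ (l' = (true, y) ∧ l = (false, y + b))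

/-- `1` if `P` holds, `0` otherwise -/
noncomputable def ind (P : Prop) : ℝ := by classical exact if P then 1 else 0

theorem ind_pos {P : Prop} (h : P) : ind P = 1 := by unfold ind; simp [h]
theorem ind_neg {P : Prop} (h : ¬ P) : ind P = 0 := by unfold ind; simp [h]
theorem ind_nonneg (P : Prop) : 0 ≤ ind P := by
  by_cases h : P
  · rw [ind_pos h]; norm_num
  · rw [ind_neg h]

/-- The final family of usable labellings of one component, with all bounds. -/
structure Fam (V L : Finset ℤ) (mu : ℤ → ℝ) (lam pm nu : ℝ) (hub : Prop) (k : ℕ) (q : ℕ → ℕ)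
    (b b' : ℤ) (U : Finset ℕ) (ι : Type) [Fintype ι] (w : ι → ℝ) (G : ι → ℕ → ℤ) : Prop where
  nn : ∀ i, 0 ≤ w i
  tot : ∑ i, w i = 1
  val : ∀ i, w i ≠ 0 → Val V L hub k q b b' U (G i)
  loadV : ∀ y ∈ V, Pr w (fun i => (true, y) ∈ AL hub k q b b' U (G i))
    ≤ (k - ind hub) * (pm / (1 - nu))
  loadL : ∀ y ∉ V, Pr w (fun i => (true, y) ∈ AL hub k q b b' U (G i))
    ≤ ind hub * (mu y / (1 - nu))
  loadS : ∀ s, Pr w (fun i => (false, s) ∈ AL hub k q b b' U (G i))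
    ≤ (k - ind hub + U.card) * (pm / (1 - nu))
  load : ∀ l, Pr w (fun i => l ∈ AL hub k q b b' U (G i)) ≤ (2 * k + 1) * (lam / (1 - nu))
  pair : ∀ l l', l ≠ l' →
    Pr w (fun i => l ∈ AL hub k q b b' U (G i) ∧ l' ∈ AL hub k q b b' U (G i))
      ≤ (2 * k + 1) ^ 2 * (lam ^ 2 / (1 - nu))
        + pm / (1 - nu) * (ind (¬ hub ∧ Pb b l l') + ind (U.Nonempty ∧ Pb b' l l'))

end Pool.Agent.Lib.MP_8b7544_co.Df
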