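import Mathlib
import Pool.Agent.Lib.MP_8b7544_co.Df.Defs

/-!
# MP_8b7544_co, project Deficiency: statements of the pieces, with proofs in words

GOAL. For every `ε > 0` there is `M` such that for every tree `T` with `n ≥ M` vertices and every
`m ≥ ε n` the graph `T ∪ m K_1` is edge-magic. CORE form (`StmCore`): for every parent sequence `p`
and `n ≥ M` there are distinct labels `f i ∈ [-R, R]` (`i < n`), `2R+1 ≤ (1+ε) n`, such that the
`n - 1` sums `f i + f (p i)` are distinct and lie in `[-R, R]`.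

Every piece is a `Prop` called `Stm...`; prove it as `theorem ... : Stm...` in a file of your own
`Pool/Agent/Lib/MP_8b7544_co/Df/<Name>.lean` which imports this file (namespace as here).
Pieces may use other pieces only as hypotheses (`StmA → StmB` is said explicitly where useful).
-/

set_option autoImplicit false

namespace Pool.Agent.Lib.MP_8b7544_co.Df

open Finset

/-! ## T. the tree -/

/-- **T1.** Cut vertices. Proof. Prove by strong induction on `A.card` the relative form: for every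
finite `A : Finset ℕ` closed under parents (`i ∈ A → p i ∈ A`) there is `X ⊆ A` with
`(S+1) * X.card ≤ A.card` such that for `t ∈ A \ X` at most `S` elements `v ∈ A` satisfy
`InC p X v t`. Let `sub v = {w ∈ A | ∃ a, p^[a] w = v}`. If `(sub v).card ≤ S` for all `v ∈ A` take
`X = ∅` (`InC p X w t` implies `w ∈ sub t`). Otherwise let `v` be the LARGEST element of `A` with
`(sub v).card ≥ S + 1`, `A' = A \ sub v` (closed under parents: `p i ∈ sub v → i ∈ sub v`), `X'` from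
the induction hypothesis for `A'`, `X = insert v X'` (`X' ⊆ A'` and `v ∉ A'`). Cardinality is clear.
Let `t ∈ A \ X`. If `t ∈ sub v`, then `t ≠ v`, hence `t > v` (iterates of `p` decrease strictly until
they reach `0`; if `v = 0` then `t > 0` anyway), so `(sub t).card ≤ S` by maximality and the
elements counted are in `sub t`. If `t ∉ sub v` then no `w ∈ sub v` satisfies `InC p X w t`: let
`p^[b] w = v`, `p^[a] w = t`; if `a ≤ b` then `p^[b-a] t = v`, so `t ∈ sub v`, contradiction; if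
`b ≤ a` then the way from `w` to `t` passes `v ∈ X`. So the elements counted are in `A'` (and
`InC p X w t → InC p X' w t`) and the induction hypothesis applies. Finally take `A = range n`
(`p i ≤ i`). -/
def StmHeavy : Prop := ∀ (S n : ℕ) (p : ℕ → ℕ), Par p →
  ∃ X ⊆ range n, (S + 1) * X.card ≤ n ∧ ∀ t < n, t ∉ X → (cmp n p X t).card ≤ S

/-- **T2.** Closure under lowest common ancestors. Proof. If `Y = ∅` take `Z = ∅` (nothing leads to
`∅`). Let `A = {v < n | Leads p Y v}`. It contains `0` (iterating `p` from any `y` one reaches `0`)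
and `v ∈ A → p v ∈ A`. For `v ∈ A` let `d v` be the number of `c ∈ A`, `0 < c`, `p c = v`. Then
`∑ v ∈ A, d v = A.card - 1` (every `c ∈ A`, `c ≠ 0`, is counted once). If `v ∈ A` and `d v = 0`
then `v ∈ Y`: take `y ∈ Y` and the least `a` with `p^[a] y = v`; if `a > 0` then `c = p^[a-1] y`
satisfies `p c = v`, `c ≠ v` by minimality, so `c ≠ 0` (as `p 0 = 0`), `c ∈ A`, contradiction.
Hence `A.card - 1 = ∑ d ≥ #{d ≥ 1} + #{d ≥ 2} = A.card - #{d = 0} + #{d ≥ 2}`, so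
`#{v ∈ A | d v ≥ 2} ≤ #{d = 0} ≤ Y.card`. Take `Z = Y ∪ {v ∈ A | d v ≥ 2}`. `Uni p Z`: let `c, c' > 0`
with `p c = p c' = v ∉ Z` both lead to `Z`; every element of `Z` leads to `Y`, so both lead to `Y`;
they are `< n` since iterates of `p` do not increase, so `c, c' ∈ A`, `v ∈ A`; if `c ≠ c'` then
`d v ≥ 2`, `v ∈ Z`, contradiction. -/
def StmLca : Prop := ∀ (n : ℕ) (p : ℕ → ℕ), Par p → ∀ Y ⊆ range n,
  ∃ Z, Y ⊆ Z ∧ Z ⊆ range n ∧ Z.card ≤ 2 * Y.card ∧ Uni p Z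

/-- **T3.** No edge goes down to `X` from the top vertex of a component. Proof.
`T1 = {t < n | t ∉ Z, p t ∈ Z, ∃ d ∈ Z, 0 < d, p d = t}`, `X = Z ∪ T1`. Choosing `d` for every `t ∈ T1`
gives an injection `T1 → Z` (as `p d = t`), so `X.card ≤ 2 * Z.card`. `Uni p X`: let `p c = p c' ∉ X`
and let `c, c'` lead to `X`; an element of `T1` leads to `Z` (via its child `d`), so `c, c'` lead to
`Z`; apply `Uni p Z`. Last claim: let `d ∈ X`, `0 < d`, `v = p d ∉ X` and suppose `p v ∈ X`.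
`d ∈ T1` would give `p d ∈ Z`, so `d ∈ Z`. Also `v ≠ 0`, as `0 ∈ Z`. If `p v ∈ Z` then `v ∈ T1`,
contradiction. If `p v = t ∈ T1`, then `t ∉ Z` has a child `d' ∈ Z`, and `v` is a child of `t` that
leads to `Z` (via `d`), so `v = d' ∈ Z` by `Uni p Z`, contradiction. -/
def StmTopfree : Prop := ∀ (n : ℕ) (p : ℕ → ℕ), Par p → ∀ Z ⊆ range n, 0 ∈ Z → Uni p Z →
  ∃ X, Z ⊆ X ∧ X ⊆ range n ∧ X.card ≤ 2 * Z.card ∧ Uni p X ∧
    ∀ d ∈ X, 0 < d → p d ∉ X → p (p d) ∉ X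

/-- **T4.** Only one way out. Proof. Let `p^[a] (p d) = t`, `p^[a'] (p d') = t` with all vertices on
the ways outside `X`, and `a ≤ a'` without loss of generality. Put `c j = p^[a+1-j] d`,
`c' j = p^[a'+1-j] d'` (`0 ≤ j ≤ a + 1`). Claim `c j = c' j`: both are `t` for `j = 0`; if it holds for
`j ≤ a` then `c (j+1)`, `c' (j+1)` are children of `c j = p^[a-j] (p d) ∉ X`, both lead to `X` (via
`d, d' ∈ X`), both are `> 0` (otherwise their parent is `p 0 = 0 ∈ X`), so they are equal by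
`Uni p X`. For `j = a + 1`: `d = p^[a'-a] d'`. If `a' > a` the right side is
`p^[a'-a-1] (p d') ∉ X`, but `d ∈ X`. So `a = a'` and `d = d'`. -/
def StmExit : Prop := ∀ (p : ℕ → ℕ) (X : Finset ℕ), Par p → 0 ∈ X → Uni p X →
  ∀ t, ∀ d ∈ X, ∀ d' ∈ X, 0 < d → 0 < d' → InC p X (p d) t → InC p X (p d') t → d = d'

/-- **T5.** The decomposition. Proof (use T1–T4 as hypotheses, see `TreeOf` below).
`H = {x < n | (chl n p x).card > δ n}`. The sets `chl n p x` are disjoint subsets of `range n`, so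
`H.card * δ n ≤ n`. `Hp` = the set of T2 for `Y = H`; `One p Hp` follows from `Uni p Hp` (elements of
`Hp` lead to `Hp`). `X0` from T1; `Z` from T2 for `Y = X0 ∪ {0} ∪ Hp`; `X` from T3.
`X.card ≤ 2 * Z.card ≤ 4 * (X0.card + 1 + Hp.card)`. `size`: `InC p X v t → InC p X0 v t`. `Xone` is
`exit` with `t = p d` (`a = 0`). -/
def StmTree : Prop := ∀ (n S : ℕ) (δ : ℝ) (p : ℕ → ℕ), 1 ≤ n → 0 < δ → Par p →
  ∃ H Hp X, TD n S δ p H Hp X ∧ H ⊆ range n ∧ δ * H.card ≤ 1 ∧ Hp.card ≤ 2 * H.card ∧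
    (X.card : ℝ) ≤ 4 * (n / (S + 1) + 1 + 2 * H.card)

/-- T5 is to be proved in this form. -/
def TreeOf : Prop := StmHeavy → StmLca → StmTopfree → StmExit → StmTree

/-- **T6.** Enumeration of a component. Proof. Let `C = cmp n p X t`; `t ∈ C` (`a = 0`), so
`1 ≤ C.card`. Every `w ∈ C` has `t ≤ w` (iterates do not increase). `v j` = the `j`-th element of `C`
in increasing order (`Finset.orderEmbOfFin`, extended by `0`), so `v 0 = t`. For `1 ≤ j < C.card`,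
`w = v j ≠ t`, so `a ≥ 1` in `InC p X w t` and `InC p X (p w) t`, `p w ∈ C`, `p w < w` (`w ≠ 0` since
`0 ∈ X`), so `p w = v i` for some `i < j`; put `q j = i`. -/
def StmEnum : Prop := ∀ (n : ℕ) (p : ℕ → ℕ) (X : Finset ℕ), Par p → 0 ∈ X → ∀ t < n, t ∉ X →
  ∃ v q, CE n p X t (cmp n p X t).card v q

/-! ## G. greedy labelling -/

/-- **G1.** Greedy labelling from the top. Proof. Induction on `(B \ A).card`. If `B \ A = ∅` take
`f' = f`. Otherwise let `v` be the LEAST element of `B \ A` and `A' = insert v A`. Find `y ∈ C` with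
`y ≠ f a` for `a ∈ A`; `y + f (p v) ≠ s` for every sum `s = f i + f (p i)` of an edge inside `A`
(`i ∈ A, 0 < i, p i ∈ A`), if `p v ∈ A`; and `y + f c ≠ s` for every such `s`, where `c` is the child
of `v` in `A`, if there is one (there is at most one by `One p A`). These are at most
`3 * A.card ≤ 3 * B.card < C.card` forbidden values. Let `f1 = Function.update f v y`. `Lab p A' f1`:
the new edges are `(v, p v)` (if `v > 0`, `p v ∈ A`) and `(c, v)`; their two sums differ since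
`f (p v) ≠ f c` as `p v < v < c` are different elements of `A`. `One p A'`: let `c, c' ∈ A'`, `0 < c, c'`,
`p c = p c' = w ∉ A'`. We need this only for `w ∈ B`, so carry through the induction the hypothesis in
the form with `w ∈ B \ A` only: then `w > v` by the choice of `v` and `c, c' > w`, so `c, c' ∈ A`. -/
def StmGreedy : Prop := ∀ (p : ℕ → ℕ), Par p → ∀ (A B : Finset ℕ) (C : Finset ℤ) (f : ℕ → ℤ),
  A ⊆ B → One p A → Lab p A f → 3 * B.card < C.card →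
  ∃ f' : ℕ → ℤ, (∀ w, w ∉ B \ A → f' w = f w) ∧ (∀ w ∈ B \ A, f' w ∈ C) ∧ Lab p B f'

/-- **G2.** Labels of the cut set. Proof. Apply G1 with `A = ∅, B = Hp`, `C` = the multiples of
`m * K` in `[-B, B]` (`2 * (B / (m*K)) + 1` many), `f = 0`; then with `A = Hp`, `B = X`, `C` = the
multiples of `m` in `[-B, B]`. Outside `X` the value is `0`. -/
def StmBeta : Prop := ∀ (p : ℕ → ℕ), Par p → ∀ (Hp X : Finset ℕ) (m K B : ℕ), Hp ⊆ X → One p Hp →
  1 ≤ m → 1 ≤ K → 3 * Hp.card < 2 * (B / (m * K)) + 1 → 3 * X.card < 2 * (B / m) + 1 →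
  ∃ β : ℕ → ℤ, Lab p X β ∧ (∀ x, |β x| ≤ B ∧ (m : ℤ) ∣ β x) ∧ ∀ x ∈ Hp, ((m * K : ℕ) : ℤ) ∣ β x

/-- G2 is to be proved in this form. -/
def BetaOf : Prop := StmGreedy → StmBeta

/-! ## A. the kernel -/

/-- **A1.** Row sums of `W`. Proof. `W R (-x) (-y) = W R x y`, so let `x ≥ 0`. The `y` with
`|y| ≤ R`, `|x + y| ≤ R` are `-R ≤ y ≤ R - x`. For `y ∈ [-R, -x]` the maximum is `-y` (sum of `j` for
`x ≤ j ≤ R`), for `y ∈ [-x+1, -1]` it is `x` (`x - 1` terms, if `x ≥ 1`), for `y ∈ [0, R-x]` it is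
`x + y` (sum of `j` for `x ≤ j ≤ R`). Total `R(R+1) - x(x-1) + x(x-1)` for `x ≥ 1`. For `x = 0` it is
`∑ |y| = R(R+1)`. -/
def StmRow : Prop := ∀ (R : ℕ) (x : ℤ), |x| ≤ R → ∑ y ∈ Om R, W R x y = R * (R + 1)

/-- **A2.** Averaging over residue classes. Proof. Strong induction on `L`. If `L < N`: the
difference is `∑ F y * (1_{y ∈ D} - D.card / N)`, at most `L * R ≤ N * R` in absolute value. If
`L ≥ N`: on the first block `[a, a + N)` we have `|F y - F a| ≤ N` (steps at most `1`) and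
`∑ (1_{y ∈ D} - D.card / N) = 0` (`N` consecutive integers meet every residue class once), so the
block contributes at most `N * N`; the rest is the induction hypothesis for `L - N`, `a + N`:
`N * N + N * (L - N + R) = N * (L + R)`. -/
def StmAvg : Prop := ∀ (N : ℕ) [NeZero N] (L : ℕ) (a : ℤ) (F : ℤ → ℝ) (R : ℝ), 0 ≤ R →
  (∀ y, a ≤ y → y < a + L → 0 ≤ F y ∧ F y ≤ R) →
  (∀ y, a ≤ y → y + 1 < a + L → |F (y + 1) - F y| ≤ 1) → ∀ D : Finset (ZMod N),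
  |∑ y ∈ Ico a (a + L), (if (y : ZMod N) ∈ D then F y else 0)
    - (D.card / N : ℝ) * ∑ y ∈ Ico a (a + L), F y| ≤ N * (L + R)

/-- **A3.** Proof. For fixed `x` the `y` with `|y| ≤ R`, `|x+y| ≤ R` form an interval of
`L = 2R + 1 - |x| ≤ 2R+1` integers, on which `W R x y = max |x| |y| |x+y| ∈ [0, R]` changes by at
most `1` from `y` to `y+1`; outside it is `0`. Use A2 and A1: error
`≤ N * (2R + 1 + R) ≤ 4 N R`. -/
def StmWavg : Prop := ∀ (R N : ℕ) [NeZero N] (x : ℤ) (D : Finset (ZMod N)), 1 ≤ R → |x| ≤ R →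
  |∑ y ∈ Om R, (if (y : ZMod N) ∈ D then W R x y else 0)
    - (D.card / N : ℝ) * (R * (R + 1))| ≤ 4 * N * R

/-- A3 is to be proved in this form. -/
def WavgOf : Prop := StmRow → StmAvg → StmWavg

/-- **A4.** Proof. As A2 with `F = 1`: full blocks of `N` consecutive integers contribute exactly
`D.card` each, the remaining `L < N` integers contribute an error at most `L`. -/
def StmCount : Prop := ∀ (R N : ℕ) [NeZero N] (D : Finset (ZMod N)),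
  |((V0 R N D).card : ℝ) - (D.card / N : ℝ) * (2 * R + 1)| ≤ N

/-- **A5.** Stationarity. Proof. `ps x * Kn x y = Ku x y / Z` for `x ∈ V0`, `Z = ∑ rw'` (if
`rw' x = 0` then all its terms `Ku x y`, `y ∈ Om R`, vanish, and `Ku x y = 0` for `y ∉ Om R`
anyway). `W` is symmetric, so for `y ∈ V0` the sum over `x` is
`∑ x ∈ Om R, Ku y x / Z = rw' y / Z`. If `y ∉ V0` all terms are `0`. Second part:
`W x (s - x) = W (-s) x`, and `s - x ∈ D ↔ -s + x ∈ D` by symmetry of `D`, so for `s ∈ V0` the sum is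
`∑ x ∈ Om R, Ku (-s) x / Z = rw' (-s) / Z`, and `rw' (-s) = rw' s` (substitute `-y` for `y`). For
`s ∉ V0` everything is `0`. -/
def StmStat : Prop := ∀ (R N : ℕ) (D : Finset (ZMod N)), (∀ a ∈ D, -a ∈ D) →
  (∀ y, ∑ x ∈ V0 R N D, ps R N D x * Kn R N D x y = ps R N D y) ∧
  ∀ s, ∑ x ∈ V0 R N D, ps R N D x * Kn R N D x (s - x) = ps R N D s

/-- numerical hypotheses -/
structure Num (a ρ e : ℝ) (R N : ℕ) (D : Finset (ZMod N)) : Prop where
  a0 : 0 < a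
  a8 : a ≤ 1 / 8
  ra : a ≤ ρ
  rb : ρ ≤ 1 - a
  e0 : 0 < e
  ea : e ≤ a ^ 4 / 100
  big : 4 * (N : ℝ) ≤ e * R
  sym : ∀ b ∈ D, -b ∈ D
  card : |(D.card : ℝ) - ρ * N| ≤ e * N
  good : ∀ b ∈ D, |(Qr D b : ℝ) - ρ ^ 2 * N| ≤ e * N

/-- **A6.** Bounds for the kernel. Proof. By A3 with `D' = {b ∈ D | x + b ∈ D}` (so
`D'.card = Qr D x`): if `|x| ≤ R` and `x` is good then
`|rw' x - ρ² R(R+1)| ≤ e R(R+1) + 4 N R ≤ 2 e R(R+1)`. Since `ρ² ≥ a²` and `2e ≤ a⁴/50`,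
`rw' x ≥ a² (1 - a²/50) R (R+1) > 0` (note `N ≥ 1` and `big` give `R ≥ 1`). So the row sum of `Kn` is
`1` (terms outside `V0` vanish), and `W ≤ R` gives `Kn ≤ 2 / (a² R)`. By A4
`V0.card ≥ (ρ - e)(2R+1) - N ≥ (ρ - 2e)(2R+1) > 0`; `Z = ∑_{V0} rw' ≥ V0.card (ρ² - 2e) R(R+1) > 0`,
so `∑ ps = 1` and `ps ≤ (ρ² + 2e) / ((ρ² - 2e)(ρ - 2e)(2R+1)) ≤ (1 + a/4) / (ρ (2R+1))`, since
`2e/ρ² ≤ a²/50 ≤ 1/3200` and `2e/ρ ≤ a³/50`. -/
def StmKer : Prop := ∀ (a ρ e : ℝ) (R N : ℕ) [NeZero N] (D : Finset (ZMod N)), Num a ρ e R N D →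
  (∀ x : ℤ, |x| ≤ R → |(Qr D (x : ZMod N) : ℝ) - ρ ^ 2 * N| ≤ e * N →
    (∑ y ∈ V0 R N D, Kn R N D x y = 1) ∧ ∀ y, Kn R N D x y ≤ 2 / (a ^ 2 * R)) ∧
  (∀ x y, 0 ≤ Kn R N D x y) ∧
  (∀ x y, Kn R N D x y ≠ 0 → y ∈ V0 R N D ∧ x + y ∈ V0 R N D) ∧
  (∑ x ∈ V0 R N D, ps R N D x = 1) ∧ (∀ x, 0 ≤ ps R N D x) ∧
  ∀ x, ps R N D x ≤ (1 + a / 4) / (ρ * (2 * R + 1))

/-- A6 is to be proved in this form. -/
def KerOf : Prop := StmWavg → StmCount → StmKer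

/-- **A7.** The law of the labels below a hub. `L = V0 (R-B) N D'` is the set of the integers in
`[-(R-B), R-B]` with residue in `D'`. Proof. `R(R+1) =: P`.
(1) By A4, `L.card ≥ θ(1-ρ-e)(2(R-B)+1) - N`; `2B ≤ (a²/50)(2R+1)`, `N ≤ e θ R / 4`, so
`L.card ≥ θ (2R+1) ((1-ρ-e)(1 - a²/50) - e/8) ≥ θ (2R+1)(1-ρ)(1 - a²/25)` (use
`e ≤ a³ (1-ρ)/100`), in particular the first claim, and `L.card > 0`.
(2) Let `y ∈ V0 R N D` (otherwise both sides are `0`). As in A6 `rw' x ≥ (ρ² - 2e) P` for `x ∈ L`.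
`∑_{x ∈ L} Ku x y ≤ ∑_{x ∈ Om R, x ∈ E} W R x y = ∑_{x ∈ Om R, x ∈ E} W R y x` with
`E = {c ∈ D' | c + y ∈ D}`, `E.card ≤ θ(ρ-ρ²+2e) N`, so by A3 this is at most
`θ(ρ-ρ²+2e) P + 4NR ≤ θ (ρ-ρ²+3e) P`. Together with (1)
`∑_{x ∈ L} Kn x y / L.card ≤ (ρ(1-ρ)+3e) / ((ρ²-2e)(1-ρ)(1-a²/25)(2R+1))`. On the other side
`ps y = rw' y / Z ≥ (ρ²-2e) / ((ρ²+2e) V0.card)` and `V0.card ≤ (ρ+e)(2R+1) + N ≤ (ρ+2e)(2R+1)`. The
quotient is at most `ρ(ρ+2e)(ρ²+2e)(1 + 3e/(ρ(1-ρ))) / ((ρ²-2e)² (1-a²/25))`, and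
`2e ≤ ρ² a²/50`, `2e/ρ ≤ a³/50`, `3e/(ρ(1-ρ)) ≤ a³/29` show that it is
`≤ (1+a³/50)(1+a²/50)(1+a³/29)/((1-a²/50)²(1-a²/25)) ≤ 1 + a/4`.
(3) Sums: the same with `W R x (s-x) = W R (-s) x` and `E = {c ∈ D' | c + (-s) ∈ D}`
(`s - x ∈ D ↔ x - s ∈ D` by symmetry); `-s ∈ D` as `s ∈ D`. -/
def StmHub : Prop := ∀ (a ρ e : ℝ) (R N : ℕ) [NeZero N] (D : Finset (ZMod N)), Num a ρ e R N D →
  ∀ (θ : ℝ) (B : ℕ) (D' : Finset (ZMod N)), 0 < θ → θ ≤ 1 → 4 * (N : ℝ) ≤ e * θ * R →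
  (B : ℝ) ≤ a ^ 2 / 50 * R → (∀ b ∈ D', |(Qr D b : ℝ) - ρ ^ 2 * N| ≤ e * N) →
  θ * (1 - ρ - e) * N ≤ (D'.card : ℝ) →
  (∀ b ∈ D, ((D'.filter (fun c => c + b ∈ D)).card : ℝ) ≤ θ * (ρ - ρ ^ 2 + 2 * e) * N) →
  θ * (1 - ρ) * (1 - a) * (2 * R + 1) ≤ ((V0 (R - B) N D').card : ℝ) ∧
  (∀ y, ∑ x ∈ V0 (R - B) N D', Kn R N D x y / ((V0 (R - B) N D').card : ℝ)
    ≤ (1 + a / 4) * ps R N D y) ∧
  ∀ s, ∑ x ∈ V0 (R - B) N D', Kn R N D x (s - x) / ((V0 (R - B) N D').card : ℝ)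
    ≤ (1 + a / 4) * ps R N D s

/-- A7 is to be proved in this form. -/
def HubOf : Prop := StmWavg → StmCount → StmHub

/-! ## Q. quasirandom residue classes -/

/-- **Q1.** A random subset of `P`. Proof. `w A = ρ^(A.card) (1-ρ)^((P \ A).card)`;
`∑_{F ⊆ A ⊆ P} w A = ρ^(F.card) (ρ + (1-ρ))^((P \ F).card)` (for instance
`Finset.prod_add` / `Finset.sum_pow_mul_eq_add_pow` on `P \ F` and the bijection `A ↦ A \ F`). -/
def StmWeights : Prop := ∀ (P : Finset ℕ) (ρ : ℝ), 0 ≤ ρ → ρ ≤ 1 →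
  ∃ w : Finset ℕ → ℝ, (∀ A, 0 ≤ w A) ∧
    ∀ F ⊆ P, ∑ A ∈ P.powerset with F ⊆ A, w A = ρ ^ F.card

/-- the symmetric set of residues given by a set `A` of representatives -/
def Sy (m : ℕ) [NeZero m] (A : Finset ℕ) : Finset (ZMod m) :=
  univ.filter (fun b => b ≠ 0 ∧ min b.val (-b).val ∈ A)

/-- **Q2.** Second moments. Proof. Let `rep b = min b.val (-b).val < m`; `rep b = rep c ↔ b = c ∨
b = -c`. Write `E f = ∑ A ∈ powerset, w A * f A`; `E (1_{F ⊆ A}) = ρ^|F|` for `F ⊆ range m`.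
(i) `E |Sy A| = ρ (m-1)`; `E |Sy A|² = ∑_{b,b' ≠ 0} ρ^|{rep b, rep b'}| ≤ ρ² m² + 2m` (the pairs with
`b' = ± b` are at most `2m`). So `E (|Sy A| - ρm)² ≤ 2m + 2ρ² m ≤ 4m`.
(ii) Fix `a ≠ 0`. `Qr (Sy A) a = ∑_b 1_{rep b ∈ A, rep (a+b) ∈ A}` over `b ≠ 0, -a`. Here
`rep b = rep (a+b)` only if `2 b = -a`, one value of `b` since `m` is odd. So
`E Qr ≥ ρ² (m - 3)`. `E Qr² = ∑_{b,b'}`; the term is `ρ⁴` if `rep b, rep (a+b), rep b', rep (a+b')`
are four different numbers, and `≤ 1` otherwise; for fixed `b` with `rep b ≠ rep (a+b)` the bad `b'`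
satisfy `b' ∈ {± b, ± (a+b)}`, `a + b' ∈ {± b, ± (a+b)}` or `2 b' = -a`, at most `9`; and the one `b`
with `2b = -a` gives `m` pairs. So `E Qr² ≤ ρ⁴ m² + 10 m` and
`E (Qr - ρ² m)² ≤ 10 m + 6 ρ⁴ m ≤ 16 m`. -/
def StmMom : Prop := ∀ (m : ℕ) [NeZero m], Odd m → ∀ (ρ : ℝ), 0 ≤ ρ → ρ ≤ 1 →
  ∀ w : Finset ℕ → ℝ, (∀ A, 0 ≤ w A) →
  (∀ F ⊆ range m, ∑ A ∈ (range m).powerset with F ⊆ A, w A = ρ ^ F.card) →
  (∑ A ∈ (range m).powerset, w A * (((Sy m A).card : ℝ) - ρ * m) ^ 2 ≤ 4 * m) ∧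
  ∀ a : ZMod m, a ≠ 0 →
    ∑ A ∈ (range m).powerset, w A * ((Qr (Sy m A) a : ℝ) - ρ ^ 2 * m) ^ 2 ≤ 16 * m

/-- **Q3.** Proof. Let `e ≤ 1` without loss of generality, `e1 = e / 8`, `m` odd and large (for
instance `m ≥ 10⁶ / e⁴`). By Q1 (`P = range m`) and Q2 some `A ⊆ range m` satisfies
`(|M| - ρm)² / (4m) + ∑_{a ≠ 0} (Qr M a - ρ² m)² / (16 m²) ≤ 2` for `M = Sy m A` (the average of the
left side is `≤ 2`). So `||M| - ρm| ≤ √(8m) ≤ e1 m`, and the set `Ex` of the `a ≠ 0` with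
`|Qr M a - ρ² m| > e1 m` has at most `32 / e1² ≤ e1 m` elements. `M` is symmetric, so
`Qr M (-a) = Qr M a` and `Ex` is symmetric. Take `M0 = M \ Ex`, `M1 = {b ≠ 0 | b ∉ M, b ∉ Ex}`. For all
`b`: `0 ≤ Qr M b - Qr M0 b ≤ 2 |Ex|`. Everything follows. -/
def StmQ : Prop := ∀ e : ℝ, 0 < e → ∃ m : ℕ, 1 ≤ m ∧ ∀ ρ : ℝ, 0 ≤ ρ → ρ ≤ 1 →
  ∃ M0 M1 : Finset (ZMod m), Disjoint M0 M1 ∧ (0 : ZMod m) ∉ M0 ∧ (0 : ZMod m) ∉ M1 ∧
    (∀ b ∈ M0, -b ∈ M0) ∧ |(M0.card : ℝ) - ρ * m| ≤ e * m ∧ (1 - ρ - e) * m ≤ (M1.card : ℝ) ∧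
    ∀ b, b ∈ M0 ∨ b ∈ M1 → |(Qr M0 b : ℝ) - ρ ^ 2 * m| ≤ e * m

/-- Q3 is to be proved in this form. -/
def QOf : Prop := StmWeights → StmMom → StmQ

/-- the residue classes modulo `m K` for ordinary labels (`D`) and for the tops of the components
at the hubs (`D' x`) -/
structure Res (m K : ℕ) (ρ e : ℝ) (H : Finset ℕ) (t : ℕ → ℕ) (D : Finset (ZMod (m * K)))
    (D' : ℕ → Finset (ZMod (m * K))) : Prop where
  sym : ∀ b ∈ D, -b ∈ D
  per : ∀ x z : ℤ, (m : ℤ) ∣ z → (x : ZMod (m * K)) ∈ D → ((x + z : ℤ) : ZMod (m * K)) ∈ D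
  zD : ∀ z : ℤ, (m : ℤ) ∣ z → (z : ZMod (m * K)) ∉ D
  zD' : ∀ x ∈ H, ∀ z : ℤ, (m : ℤ) ∣ z → (z : ZMod (m * K)) ∉ D' x
  disj0 : ∀ x ∈ H, Disjoint D (D' x)
  disj : ∀ x ∈ H, ∀ y ∈ H, x ≠ y → Disjoint (D' x) (D' y)
  card : |(D.card : ℝ) - ρ * (m * K : ℕ)| ≤ e * (m * K : ℕ)
  good : ∀ b ∈ D, |(Qr D b : ℝ) - ρ ^ 2 * (m * K : ℕ)| ≤ e * (m * K : ℕ)
  good' : ∀ x ∈ H, ∀ b ∈ D' x, |(Qr D b : ℝ) - ρ ^ 2 * (m * K : ℕ)| ≤ e * (m * K : ℕ)
  card' : ∀ x ∈ H, (t x / K : ℝ) * (1 - ρ - e) * (m * K : ℕ) ≤ ((D' x).card : ℝ)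
  cor : ∀ x ∈ H, ∀ b ∈ D, (((D' x).filter (fun c => c + b ∈ D)).card : ℝ)
    ≤ (t x / K : ℝ) * (ρ - ρ ^ 2 + 2 * e) * (m * K : ℕ)

/-- **Q4.** Proof. Take `m`, `M0`, `M1` from Q3. The map `ZMod (m K) → ZMod m × Fin K`,
`b ↦ (cast b, b.val / m)` is a bijection. `D = {b | cast b ∈ M0}`; choose disjoint sets of phases
`P x ⊆ range K` with `(P x).card = t x` (`x ∈ H`; possible as `∑ t x ≤ K`, for instance consecutive
intervals) and put `D' x = {b | cast b ∈ M1 ∧ b.val / m ∈ P x}`. Then `D.card = K * M0.card`,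
`(D' x).card = t x * M1.card`, `Qr D b = K * Qr M0 (cast b)` and
`#{c ∈ D' x | c + b ∈ D} = t x * #{c ∈ M1 | c + cast b ∈ M0}
≤ t x * (M0.card - Qr M0 (cast b)) ≤ t x (ρ + e - ρ² + e) m` for `b ∈ D` (among the `c` with
`c + b ∈ M0`, `M0.card` many, `Qr M0 b` are in `M0`, and the others contain those in `M1`).
Multiples of `m` have `cast = 0`, which is neither in `M0` nor in `M1`. -/
def StmRes : Prop := ∀ e : ℝ, 0 < e → ∃ m : ℕ, 1 ≤ m ∧ ∀ ρ : ℝ, 0 ≤ ρ → ρ ≤ 1 →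
  ∀ K : ℕ, 1 ≤ K → ∀ (H : Finset ℕ) (t : ℕ → ℕ), ∑ x ∈ H, t x ≤ K →
    ∃ D D', Res m K ρ e H t D D'

/-- Q4 is to be proved in this form. -/
def ResOf : Prop := StmQ → StmRes

/-! ## M. random labellings of one component -/

/-- **M1.** Existence of the random labelling. Proof. Induction on `k`. `k = 1`: `ι = ↥(Om R)`,
`w x = mu x`, `G x = fun _ => x`. Step `k → k+1` (`k ≥ 1`): `ι' = ι × ↥V`,
`w' (i, y) = w i * K (G i (q k)) y`, `G' (i, y) = Function.update (G i) k y`. If `w i ≠ 0` then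
`G i (q k)` satisfies `Gd` (`q k = 0`: `supp0` and `Ini.gd`; `q k ≥ 1`: it is in `V`), so
`∑_y w' (i, y) = w i` (`Ker.row`); hence all statements about places `j < k` and events depending on
the first `k` values carry over (`G'` agrees with `G` there; `Dep`). New place `j = k`:
`Pr w' (G' k = y) ≤ ∑_x Pr w (G (q k) = x) * K x y` (zero unless `y ∈ V`), which is `≤ ph y` by
`law0`, `Ini.in1` if `q k = 0` (sum over `x ∈ Om R`, as `mu x ≠ 0 → x ∈ Om R`) and by `lawV`,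
`Ker.st1` if `q k ≥ 1` (values in `V`). In the same way
`Pr w' (G' k + G' (q k) = s) ≤ ∑_x Pr w (G (q k) = x) * K x (s - x) ≤ ph s`. `supp`: `K x y ≠ 0` gives
`y ∈ V`, `x + y ∈ V`. `cond` for `j = k`:
`Pr w' (E ∧ G' k = F) ≤ ∑_{i : E (G i)} w i * K (G i (q k)) (F (G i)) ≤ lam * Pr w E` and
`Pr w E = Pr w' E`. -/
def StmLaw : Prop := ∀ (R : ℕ) (V : Finset ℤ) (K : ℤ → ℤ → ℝ) (ph : ℤ → ℝ) (Gd : ℤ → Prop)
  (lam pm : ℝ) (mu : ℤ → ℝ) (k : ℕ) (q : ℕ → ℕ), Ker R V K ph Gd lam pm →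
  Ini R K ph Gd lam mu → 1 ≤ k → (∀ j, 1 ≤ j → j < k → q j < j) →
  ∃ (ι : Type) (_ : Fintype ι) (w : ι → ℝ) (G : ι → ℕ → ℤ), Law V ph mu lam k q ι w G

/-- the situation of one component: see `Val` for the meaning of the letters -/
structure Clo (R : ℕ) (V L : Finset ℤ) (ph mu : ℤ → ℝ) (hub : Prop) (k : ℕ) (q : ℕ → ℕ)
    (b b' : ℤ) (B : ℕ) (U : Finset ℕ) : Prop where
  kpos : 1 ≤ k
  qlt : ∀ j, 1 ≤ j → j < k → q j < j
  U1 : U ⊆ Ico 1 k
  Uc : U.card ≤ 1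
  hb : |b| ≤ B
  hb' : |b'| ≤ B
  sh : ∀ x ∈ V, x + b ∈ Om R → x + b ∈ V
  sh' : ∀ x ∈ V, x + b' ∈ Om R → x + b' ∈ V
  hubL : hub → ∀ x, mu x ≠ 0 → x ∈ L ∧ x ∉ V
  nhub : ¬ hub → ∀ x, mu x ≤ ph x ∧ (mu x ≠ 0 → x ∈ V)

/-- **M2.** Probability of an unusable labelling. Proof. With `Pr_mono` and `Pr_exists` /`Pr_or`
bound by the sum of: `G i = G j`, `i < j < k`: `≤ lam` each (`cond` with `E = True`,
`F g = g i`, and `Pr w ⊤ = 1`); `sm i = sm j`, `i < j < k`: `G j = sm i - G (q j)`, `≤ lam` each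
(`sm i` depends on the first `i+1 ≤ j` values); for `u ∈ U` (at most one, `1 ≤ u < k`) and `j < k`:
`G u + b' = sm j`, `≤ lam` each: `j > u`: solve for `G j`; `j < u`: solve for `G u`; `j = u`: this says
`G (q u) = b'`, and each `G j` has all point probabilities `≤ lam` (`law0`, `lawV`,
`Ini.le`, `ppm`, `plam`). Together at most `k² lam` events. `G 0 + b ∉ V` (not a hub): then
`G 0 ∈ V`, `G 0 + b ∉ Om R`, so `R - B < |G 0| ≤ R`, `2B` values, each with probability `≤ mu ≤ ph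
≤ pm`; `G u + b' ∉ V`: in the same way `≤ 2 B pm`. All other parts of `Val` hold when `w i ≠ 0`. -/
def StmInv : Prop := ∀ (R : ℕ) (V L : Finset ℤ) (K : ℤ → ℤ → ℝ) (ph : ℤ → ℝ) (Gd : ℤ → Prop)
  (lam pm : ℝ) (mu : ℤ → ℝ) (hub : Prop) (k : ℕ) (q : ℕ → ℕ) (b b' : ℤ) (B : ℕ) (U : Finset ℕ),
  Ker R V K ph Gd lam pm → Ini R K ph Gd lam mu → Clo R V L ph mu hub k q b b' B U →
  ∀ (ι : Type) [Fintype ι] (w : ι → ℝ) (G : ι → ℕ → ℤ), Law V ph mu lam k q ι w G →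
    Pr w (fun i => ¬ Val V L hub k q b b' U (G i)) ≤ k ^ 2 * lam + 4 * B * pm

/-- **M3.** Loads. Proof. Union bound over the places with `mem_AL_true`, `mem_AL_false`,
`Pr_exists`. `y ∈ V`: the places `j < k`, each `≤ ph y ≤ pm` (`j = 0`, no hub: `law0`, `nhub`); at a
hub `G 0 ∉ V` so `j = 0` does not occur. `y ∉ V`: places `j ≥ 1` have labels in `V`, so only `j = 0`
at a hub. Sums: `sm 0 = G 0 + b` (no hub), `sm j` (`j ≥ 1`): `lawS`; `G u + b'`: `lawV`. Last claim: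
every place has all point probabilities `≤ lam`, and there are `≤ 2k+1` places. -/
def StmLoad : Prop := ∀ (R : ℕ) (V L : Finset ℤ) (K : ℤ → ℤ → ℝ) (ph : ℤ → ℝ) (Gd : ℤ → Prop)
  (lam pm : ℝ) (mu : ℤ → ℝ) (hub : Prop) (k : ℕ) (q : ℕ → ℕ) (b b' : ℤ) (B : ℕ) (U : Finset ℕ),
  Ker R V K ph Gd lam pm → Ini R K ph Gd lam mu → Clo R V L ph mu hub k q b b' B U →
  ∀ (ι : Type) [Fintype ι] (w : ι → ℝ) (G : ι → ℕ → ℤ), Law V ph mu lam k q ι w G →
    (∀ y ∈ V, Pr w (fun i => (true, y) ∈ AL hub k q b b' U (G i)) ≤ (k - ind hub) * pm) ∧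
    (∀ y ∉ V, Pr w (fun i => (true, y) ∈ AL hub k q b b' U (G i)) ≤ ind hub * mu y) ∧
    (∀ s, Pr w (fun i => (false, s) ∈ AL hub k q b b' U (G i)) ≤ (k - ind hub + U.card) * pm) ∧
    ∀ l, Pr w (fun i => l ∈ AL hub k q b b' U (G i)) ≤ (2 * k + 1) * lam

/-- **M4.** Pairs. Proof. Union bound over the ordered pairs of different places (the places are
`V_j` = label of `j` (`j < k`), `S_j` = `sm j` (`j < k`, without `S_0` at a hub) and
`T_u = G u + b'` (`u ∈ U`), at most `2k+1`; the same place cannot have both values as `l ≠ l'`). Each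
place has a last index: `j` for `V_j`, `S_j`; `u` for `T_u`. If the last indices are different, the
probability that the two places have the two given values is `≤ lam²`: `cond` for the larger index,
with `E` = (the other place has its value) (`Pr E ≤ lam`). Equal last index `j`: `V_j, S_j` with
`j ≥ 1`: `G j` and `G (q j)` are both given: `≤ lam²`; `S_u, T_u` (`u ≥ 1`): the same; `V_0, S_0` (no
hub): the values are `y`, `y + b`, so `Pb b l l'` holds and the probability is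
`≤ Pr (G 0 = y) ≤ ph y ≤ pm`; `V_u, T_u`: values `y, y + b'`, `Pb b' l l'`, probability
`≤ Pr (G u = y) ≤ pm`. For given `l, l'` each of the two exceptional pairs occurs in one order only
(one of `l, l'` has first component `true`, the other `false`). -/
def StmPair : Prop := ∀ (R : ℕ) (V L : Finset ℤ) (K : ℤ → ℤ → ℝ) (ph : ℤ → ℝ) (Gd : ℤ → Prop)
  (lam pm : ℝ) (mu : ℤ → ℝ) (hub : Prop) (k : ℕ) (q : ℕ → ℕ) (b b' : ℤ) (B : ℕ) (U : Finset ℕ),
  Ker R V K ph Gd lam pm → Ini R K ph Gd lam mu → Clo R V L ph mu hub k q b b' B U →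
  ∀ (ι : Type) [Fintype ι] (w : ι → ℝ) (G : ι → ℕ → ℤ), Law V ph mu lam k q ι w G →
    ∀ l l', l ≠ l' →
      Pr w (fun i => l ∈ AL hub k q b b' U (G i) ∧ l' ∈ AL hub k q b b' U (G i))
        ≤ (2 * k + 1) ^ 2 * lam ^ 2
          + pm * (ind (¬ hub ∧ Pb b l l') + ind (U.Nonempty ∧ Pb b' l l'))

/-- **M5.** Proof. Take the family of M1 and the new weights `w' i = w i / (1 - x)` if
`Val ... (G i)` and `0` otherwise, where `x = Pr w (¬ Val) ≤ nu < 1` by M2. Every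
`Pr w' P ≤ Pr w P / (1 - nu)`; use M3, M4. -/
def StmFam : Prop := ∀ (R : ℕ) (V L : Finset ℤ) (K : ℤ → ℤ → ℝ) (ph : ℤ → ℝ) (Gd : ℤ → Prop)
  (lam pm nu : ℝ) (mu : ℤ → ℝ) (hub : Prop) (k : ℕ) (q : ℕ → ℕ) (b b' : ℤ) (B : ℕ)
  (U : Finset ℕ), Ker R V K ph Gd lam pm → Ini R K ph Gd lam mu →
  Clo R V L ph mu hub k q b b' B U → k ^ 2 * lam + 4 * B * pm ≤ nu → nu < 1 →
  ∃ (ι : Type) (_ : Fintype ι) (w : ι → ℝ) (G : ι → ℕ → ℤ),
    Fam V L mu lam pm nu hub k q b b' U ι w G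

/-- M5 is to be proved in this form. -/
def FamOf : Prop := StmLaw → StmInv → StmLoad → StmPair → StmFam

/-! ## N. the almost perfect matching -/

/-- **N1.** Almost all components get disjoint choices. Proof. From
`Pool.Agent.THC.nibble` (import `Pool.Agent.Lib.MP_5c6f2e_co.Nibble`) with `r' = r + 2` and
`η' = η / (2 r')`; let `ε0` be its `ε` and `ε` small in terms of `ε0, r`. Discard the `i` with
`w i = 0`. Let `load l = Pr w (l ∈ A i) ≤ 1`, `d i = r' - 1 - (A i).card ≥ 1`,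
`Δ = ∑ w i * d i + (r'-1) ∑_{l ∈ Lb} (1 - load l)` and `Dm` a set of `⌈Δ⌉` dummies. Vertices:
`J ⊕ Lb ⊕ Dm`. Edges: for every `i` and every `d i`-subset `Q` of `Dm` the set `{c i} ∪ A i ∪ Q` with
weight `w i / choose |Dm| (d i)`; for every `l ∈ Lb` and every `(r'-1)`-subset `Q` of `Dm` the set
`{l} ∪ Q` with weight `(1 - load l) / choose |Dm| (r'-1)`. All have `r'` elements. Degrees: `1` at
`J` and `Lb`, `Δ / |Dm| ≤ 1` at a dummy. Total: `r' ∑ ω = ∑` degrees `= |J| + |Lb| + Δ ≥` number of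
vertices minus `1`. Codegrees: `≤ ε` inside `J ⊕ Lb`, `≤ r'/|Dm|` between a vertex and a dummy,
`≤ r'/(|Dm| - 1)` between dummies. With `x = ∑ w i * (A i).card = ∑ load ≤ min (r |J|) |Lb|` we get
`Δ = (r'-1)(|J| + |Lb|) - r' x ≥ (|J| + |Lb|)/(r+1)`, so `|Dm|` is large when `|J| + |Lb| ≥ 1/ε`. The
matching leaves at most `η' (|J| + |Lb| + |Dm|) ≤ η (|J| + |Lb|)` vertices uncovered
(`|Dm| ≤ Δ + 1 ≤ (r'-1)(|J|+|Lb|) + 1`); a vertex `j ∈ J` is covered by an edge of the first kind.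
`I` = the `i` of the first kind edges in the matching. (`|Dm| ≥ r'` is needed for the subsets.) -/
def StmNW : Prop := ∀ (r : ℕ) (η : ℝ), 0 < η → ∃ ε > (0 : ℝ),
  ∀ (J Λ ι : Type) [Fintype J] [DecidableEq Λ] [Fintype ι] (Lb : Finset Λ) (c : ι → J)
    (A : ι → Finset Λ) (w : ι → ℝ), (∀ i, 0 ≤ w i) →
    (∀ i, w i ≠ 0 → (A i).card ≤ r ∧ A i ⊆ Lb) → (∀ j, Pr w (fun i => c i = j) = 1) →
    (∀ l ∈ Lb, Pr w (fun i => l ∈ A i) ≤ 1) →
    (∀ l l', l ≠ l' → Pr w (fun i => l ∈ A i ∧ l' ∈ A i) ≤ ε) →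
    (∀ j l, Pr w (fun i => c i = j ∧ l ∈ A i) ≤ ε) →
    1 / ε ≤ (Fintype.card J : ℝ) + Lb.card →
    ∃ I : Finset ι, (∀ i ∈ I, w i ≠ 0) ∧
      (∀ i ∈ I, ∀ i' ∈ I, i ≠ i' → c i ≠ c i' ∧ Disjoint (A i) (A i')) ∧
      (Fintype.card J : ℝ) - I.card ≤ η * ((Fintype.card J : ℝ) + Lb.card)

/-! ## F. putting things together -/

/-- the top vertices of the components of `T - X` -/
def tops (n : ℕ) (p : ℕ → ℕ) (X : Finset ℕ) : Finset ℕ :=
  (range n).filter (fun t => t ∉ X ∧ p t ∈ X)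

/-- Enumerations of all components. `U t`: places of the vertices of the component of `t` which
have a child in `X`; `b' t`: its label. -/
structure Comps (n : ℕ) (p : ℕ → ℕ) (X : Finset ℕ) (β : ℕ → ℤ) (k : ℕ → ℕ) (v q : ℕ → ℕ → ℕ)
    (U : ℕ → Finset ℕ) (b' : ℕ → ℤ) : Prop where
  ce : ∀ t ∈ tops n p X, CE n p X t (k t) (v t) (q t)
  U1 : ∀ t ∈ tops n p X, U t ⊆ Ico 1 (k t)
  Uc : ∀ t ∈ tops n p X, (U t).card ≤ 1
  Uout : ∀ t ∈ tops n p X, ∀ u ∈ U t, ∃ d ∈ X, 0 < d ∧ p d = v t u ∧ b' t = β d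
  Uin : ∀ t ∈ tops n p X, ∀ d ∈ X, 0 < d → ∀ u < k t, p d = v t u → u ∈ U t ∧ b' t = β d
  bX : ∀ t ∈ tops n p X, b' t = 0 ∨ ∃ d ∈ X, b' t = β d

/-- **F1.** Proof. Take `k t = (cmp n p X t).card` and `v t`, `q t` from T6. If there is a `d ∈ X`,
`0 < d` with `p d` in the component of `t`, it is unique by `TD.exit`; `p d = v t u`, `U t = {u}`,
`b' t = β d`; `u ≥ 1`, since `u = 0` would give `p d = t`, `p (p d) = p t ∈ X`, against `TD.top`
(`p d ∉ X`). Otherwise `U t = ∅`, `b' t = 0`. The components are disjoint subsets of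
`range n \ X` and cover it: every `w < n`, `w ∉ X` is in the component of exactly one top vertex (go up
until the parent is in `X`; `0 ∈ X`; if `p^[a] w = t`, `p^[a'] w = t'` with `a < a'` then
`p t = p^[a+1] w ∉ X`). Hence `∑ k t = n - X.card`. Different `t` with `U t ≠ ∅` have different `d ∈ X`,
so `∑ (U t).card ≤ X.card`. -/
def StmComps : Prop := ∀ (n S : ℕ) (δ : ℝ) (p : ℕ → ℕ) (H Hp X : Finset ℕ) (β : ℕ → ℤ),
  TD n S δ p H Hp X → ∃ (k : ℕ → ℕ) (v q : ℕ → ℕ → ℕ) (U : ℕ → Finset ℕ) (b' : ℕ → ℤ),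
    Comps n p X β k v q U b' ∧ (∀ t ∈ tops n p X, k t ≤ S) ∧
    (∑ t ∈ tops n p X, k t) + X.card = n ∧ ∑ t ∈ tops n p X, (U t).card ≤ X.card

/-- F1 is to be proved in this form. -/
def CompsOf : Prop := StmEnum → StmComps

/-- **F2.** Choice of labellings for almost all components. Proof. Choose the families `Fam` for all
`t ∈ J = tops n p X`, let `ι` be the sigma type over `↥J`, `c` the first projection,
`A (t, i) = AL ... (G i)` and apply `StmNW` with `r = 2S+1`, `Lb = univ ×ˢ Om R`. `A` has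
`≤ 2k+1` elements and is in `Lb` by `Val` (`V, L x ⊆ Om R`). Loads: `y ∈ V`:
`∑_t (k t - ind) pm/(1-nu) ≤ (n - h) pm/(1-nu) ≤ 1`, `h` = number of `t ∈ J` with `p t ∈ H`
(`∑ k t + X.card = n`); `y ∉ V`: only `t` with `p t ∈ H`, `mu t y ≠ 0`, so `y ∈ L (p t)`, so
`p t = x` is determined by `y`, and `∑ ≤ hx / ((1-nu) (L x).card) ≤ 1`; sums:
`∑ (k t - ind + (U t).card) pm/(1-nu) ≤ (n - h) pm/(1-nu) ≤ 1`. Codegrees: `Pb b l l'` determines
`b`; the `t ∈ J` with `p t ∉ H` and `β (p t) = b` are children of one vertex `x ∉ H` (`β` is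
injective on `X`), so at most `δ n`; the `t` with `U t ≠ ∅` and `b' t = b`: `b' t = β d` determines
`d` and so `t`; at most one. Number of `t` is `≤ n`. Component-label codegree: `Fam.load`. -/
def StmPick : Prop := ∀ (S : ℕ) (η : ℝ), 0 < η → ∃ ε > (0 : ℝ),
  ∀ (n R : ℕ) (δ : ℝ) (p : ℕ → ℕ) (H Hp X : Finset ℕ) (β : ℕ → ℤ) (k : ℕ → ℕ)
    (v q : ℕ → ℕ → ℕ) (U : ℕ → Finset ℕ) (b' : ℕ → ℤ) (V : Finset ℤ) (L : ℕ → Finset ℤ)
    (mu : ℕ → ℤ → ℝ) (lam pm nu : ℝ),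
    TD n S δ p H Hp X → Comps n p X β k v q U b' → (∀ t ∈ tops n p X, k t ≤ S) →
    (∑ t ∈ tops n p X, k t) + X.card = n → ∑ t ∈ tops n p X, (U t).card ≤ X.card →
    (∀ x ∈ X, ∀ y ∈ X, β x = β y → x = y) →
    V ⊆ Om R → (∀ x ∈ H, L x ⊆ Om R) → (∀ x ∈ H, Disjoint V (L x)) →
    (∀ x ∈ H, ∀ y ∈ H, x ≠ y → Disjoint (L x) (L y)) →
    (∀ t ∈ tops n p X, p t ∈ H → ∀ y, mu t y ≤ 1 / ((L (p t)).card : ℝ)) →
    (∀ t ∈ tops n p X, p t ∈ H → ∀ y ∉ L (p t), mu t y = 0) →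
    0 ≤ pm → 0 ≤ lam → 0 ≤ nu → nu < 1 → 0 ≤ δ →
    ((n : ℝ) - ((tops n p X).filter (fun t => p t ∈ H)).card) * (pm / (1 - nu)) ≤ 1 →
    (∀ x ∈ H, (((tops n p X).filter (fun t => p t = x)).card : ℝ) ≤ (1 - nu) * (L x).card) →
    n * ((2 * S + 1) ^ 2 * (lam ^ 2 / (1 - nu))) + pm / (1 - nu) * (δ * n + 1) ≤ ε →
    (2 * S + 1) * (lam / (1 - nu)) ≤ ε → 1 / ε ≤ (2 : ℝ) * (2 * R + 1) →
    (∀ t ∈ tops n p X, ∃ (ι : Type) (_ : Fintype ι) (w : ι → ℝ) (G : ι → ℕ → ℤ),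
      Fam V (L (p t)) (mu t) lam pm nu (p t ∈ H) (k t) (q t) (β (p t)) (b' t) (U t) ι w G) →
    ∃ (J : Finset ℕ) (g : ℕ → ℕ → ℤ), J ⊆ tops n p X ∧
      (∀ t ∈ J, Val V (L (p t)) (p t ∈ H) (k t) (q t) (β (p t)) (b' t) (U t) (g t)) ∧
      (∀ t ∈ J, ∀ t' ∈ J, t ≠ t' →
        Disjoint (AL (p t ∈ H) (k t) (q t) (β (p t)) (b' t) (U t) (g t))
          (AL (p t' ∈ H) (k t') (q t') (β (p t')) (b' t') (U t') (g t'))) ∧
      ((tops n p X).card : ℝ) - J.card ≤ η * (n + 2 * (2 * R + 1))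

/-- F2 is to be proved in this form. -/
def PickOf : Prop := StmNW → StmPick

/-- **F3.** The final labelling. Proof. Every `w < n`, `w ∉ X` is `v t j` for exactly one
`t ∈ tops n p X`, `j < k t` (see F1). Let `f0 w = β w` for `w ∈ X`, `f0 (v t j) = g t j` for `t ∈ J`,
`f0 = 0` otherwise. Let `Rest` be the set of all `w < n` in components with `t ∉ J`,
`Rest.card ≤ S * (number of such t)`. Apply `StmGreedy` with `A = X`, `B = X ∪ Rest`, `C` = the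
multiples of `m` in `[-(R/2), R/2]` (`2 * (R / 2 / m) + 1` many) and `f0` to get `f`.
LABELS: on `B` they are distinct multiples of `m`, `≤ R/2` (`B0 ≤ R/2`). On the components of
`t ∈ J`: in `V` or `L (p t)`, so not multiples of `m`, and distinct (`Val.inj` inside one component,
disjointness of the `AL` between two).
SUMS of the edges `(w, p w)`, `0 < w < n`, are of three types. (3): `w, p w ∈ B`: distinct multiples
of `m` (`Lab p B f`), absolute value `≤ R/2 + R/2`. (2): `w = t ∈ J`, `p t = x ∈ H`: the sum is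
`y + β x`, `y = g t 0 ∈ L x`. (1): otherwise `w` or `p w` is in the component of some `t ∈ J`: either
`w = v t j` and the sum is `sm (q t) (β (p t)) (g t) j`, with `j ≥ 1` or `p t ∉ H`; or `w = d ∈ X`,
`p d = v t u`, `u ∈ U t`, `b' t = β d` (`Uin`) and the sum is `g t u + b' t`. Sums of type (1) are in `V`
and `(false, sum) ∈ AL` of `t`. Distinct: (1)-(1) same `t`: `Val.sinj`, `Val.sout` (and `U t` has at
most one element, and `β` is injective on `X`); different `t`: `AL` disjoint. (1)-(2), (1)-(3),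
(2)-(3): hypotheses `hub1`, `hub2`, `mV`. (2)-(2): same `x`: then `g t 0 = g t' 0`, so `t = t'` as
`(true, g t 0)` is in both `AL`; different `x`: hypothesis `hub3`. -/
def StmGlue : Prop := ∀ (n S R m B0 : ℕ) (δ : ℝ) (p : ℕ → ℕ) (H Hp X : Finset ℕ) (β : ℕ → ℤ)
    (k : ℕ → ℕ) (v q : ℕ → ℕ → ℕ) (U : ℕ → Finset ℕ) (b' : ℕ → ℤ) (V : Finset ℤ)
    (L : ℕ → Finset ℤ) (J : Finset ℕ) (g : ℕ → ℕ → ℤ),
    TD n S δ p H Hp X → Comps n p X β k v q U b' → (∀ t ∈ tops n p X, k t ≤ S) →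
    Lab p X β → (∀ x, |β x| ≤ B0 ∧ (m : ℤ) ∣ β x) → 1 ≤ m → 2 * B0 ≤ R →
    V ⊆ Om R → (∀ x ∈ H, L x ⊆ Om R) → (∀ y ∈ V, ¬ (m : ℤ) ∣ y) →
    (∀ x ∈ H, ∀ y ∈ L x, ¬ (m : ℤ) ∣ y) →
    (∀ x ∈ H, ∀ y ∈ L x, y + β x ∈ Om R ∧ y + β x ∉ V ∧ ¬ (m : ℤ) ∣ y + β x) →
    (∀ x ∈ H, ∀ x' ∈ H, x ≠ x' → ∀ y ∈ L x, ∀ y' ∈ L x', y + β x ≠ y' + β x') →
    J ⊆ tops n p X →
    (∀ t ∈ J, Val V (L (p t)) (p t ∈ H) (k t) (q t) (β (p t)) (b' t) (U t) (g t)) →
    (∀ t ∈ J, ∀ t' ∈ J, t ≠ t' →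
      Disjoint (AL (p t ∈ H) (k t) (q t) (β (p t)) (b' t) (U t) (g t))
        (AL (p t' ∈ H) (k t') (q t') (β (p t')) (b' t') (U t') (g t'))) →
    3 * (X.card + S * ((tops n p X).card - J.card)) < 2 * (R / 2 / m) + 1 →
    ∃ f : ℕ → ℤ, Lab p (range n) f ∧ (∀ i < n, |f i| ≤ R) ∧
      ∀ i < n, 0 < i → |f i + f (p i)| ≤ R

/-- F3 is to be proved in this form. -/
def GlueOf : Prop := StmGreedy → StmGlue

/-- **The core theorem.** -/
def StmCore : Prop := ∀ ε : ℝ, 0 < ε → ∃ M : ℕ, ∀ n, M ≤ n → ∀ p : ℕ → ℕ, Par p →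
  ∃ (R : ℕ) (f : ℕ → ℤ), (2 * R + 1 : ℝ) ≤ (1 + ε) * n ∧ Lab p (range n) f ∧
    (∀ i < n, |f i| ≤ R) ∧ ∀ i < n, 0 < i → |f i + f (p i)| ≤ R

/-! ## X. graphs -/

/-- **X1.** A finite tree has a parent sequence. Proof. Choose a root `r` and order the vertices by
their distance from `r` (ties arbitrary): a bijection `e : V ≃ Fin n` with
`dist r u < dist r v → e u < e v`; `e r = 0`. Every `v ≠ r` has a unique neighbour at smaller
distance (in a tree neighbours have distances differing by exactly one, and two different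
neighbours nearer to `r` would give two paths to `r`), the other neighbours have larger distance.
Alternatively: induction on the number of vertices by removing a leaf
(a tree with at least two vertices has a vertex of degree one; the rest is a tree) and giving the
leaf the largest number. -/
def StmSeq : Prop := ∀ (V : Type) [Fintype V] (T : SimpleGraph V), T.IsTree →
  ∃ (e : V ≃ Fin (Fintype.card V)) (p : ℕ → ℕ), Par p ∧
    ∀ u v, T.Adj u v ↔ ((0 < (e v).val ∧ p (e v).val = (e u).val) ∨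
      (0 < (e u).val ∧ p (e u).val = (e v).val))

/-- **X2.** Let `n = Fintype.card V`, and `f` the labels by `ℤ`, `|f v| ≤ R`, sums over the edges
distinct and in `[-R, R]`. Let `2 * n - 1 + m ≥ 4 * R + 2`. Label the vertex `v` of `T` by
`f v + R + 1 ∈ [1, 2R+1]`, the edge `uv` by `3R + 2 - (f u + f v) ∈ [2R+2, 4R+2]`; the sum over an
edge is `5R + 4`. These `2n - 1` labels are distinct and at most `4R + 2 ≤ 2n-1+m`, which is the
number of all vertices and edges of `T ⊕g ⊥`; the `m` isolated vertices get the remaining `m`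
labels. -/
def StmMagic : Prop := ∀ (V : Type) [Fintype V] (T : SimpleGraph V), T.IsTree →
  ∀ (R m : ℕ) (f : V → ℤ), Function.Injective f → (∀ v, |f v| ≤ R) →
  (∀ u v u' v', T.Adj u v → T.Adj u' v' → f u + f v = f u' + f v' → s(u, v) = s(u', v')) →
  (∀ u v, T.Adj u v → |f u + f v| ≤ R) → 4 * R + 3 ≤ 2 * Fintype.card V + m →
  ∃ e : ((V ⊕ Fin m) ⊕ (T ⊕g (⊥ : SimpleGraph (Fin m))).edgeSet) ≃
      Fin (Nat.card ((V ⊕ Fin m) ⊕ (T ⊕g (⊥ : SimpleGraph (Fin m))).edgeSet)), ∃ c : ℕ,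
    (∀ v : V, (e (Sum.inl (Sum.inl v))).val + 1 ≤ 2 * R + 1) ∧
    ∀ (u v : V ⊕ Fin m) (h : (T ⊕g (⊥ : SimpleGraph (Fin m))).Adj u v),
      ((e (Sum.inl u)).val + 1)
        + ((e (Sum.inr ⟨s(u, v), (SimpleGraph.mem_edgeSet _).mpr h⟩)).val + 1)
        + ((e (Sum.inl v)).val + 1) = c

/-- **The main theorem.** -/
def StmMain : Prop := ∀ ε : ℝ, 0 < ε → ∃ M : ℕ, ∀ (V : Type) [Fintype V] (T : SimpleGraph V),
  T.IsTree → M ≤ Fintype.card V → ∀ m : ℕ, ε * Fintype.card V ≤ m →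
  ∃ e : ((V ⊕ Fin m) ⊕ (T ⊕g (⊥ : SimpleGraph (Fin m))).edgeSet) ≃
      Fin (Nat.card ((V ⊕ Fin m) ⊕ (T ⊕g (⊥ : SimpleGraph (Fin m))).edgeSet)), ∃ c : ℕ,
    (∀ v : V, ((e (Sum.inl (Sum.inl v))).val + 1 : ℝ) ≤ (1 + ε) * Fintype.card V) ∧
    ∀ (u v : V ⊕ Fin m) (h : (T ⊕g (⊥ : SimpleGraph (Fin m))).Adj u v),
      ((e (Sum.inl u)).val + 1)
        + ((e (Sum.inr ⟨s(u, v), (SimpleGraph.mem_edgeSet _).mpr h⟩)).val + 1)
        + ((e (Sum.inl v)).val + 1) = c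

/-- Main theorem from the core theorem: `StmMain` for `ε` from `StmCore` for `ε / 4`:
`2R + 1 ≤ (1 + ε/4) n`, so `4R + 3 ≤ 2n + ε n / 2 + 1 ≤ 2 n + m` for `n ≥ 2/ε`. -/
def MainOf : Prop := StmCore → StmSeq → StmMagic → StmMain

end Pool.Agent.Lib.MP_8b7544_co.Df
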