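import Mathlib
import Pool.Agent.Lib.MP_8b7544_co.Df.Stm

/-!
# MP_8b7544_co, project Deficiency: G2, labels of the cut set
-/

set_option autoImplicit false

namespace Pool.Agent.Lib.MP_8b7544_co.Df

open Finset

/-- The multiples of `k` in `[-B, B]`. -/
theorem Beta_mul (k B : ℕ) (hk : 1 ≤ k) : ∃ C : Finset ℤ, C.card = 2 * (B / k) + 1 ∧
    ∀ y ∈ C, |y| ≤ (B : ℤ) ∧ (k : ℤ) ∣ y := by
  classical
  refine ⟨(Icc (-((B / k : ℕ) : ℤ)) ((B / k : ℕ) : ℤ)).image (fun t => t * (k : ℤ)), ?_, ?_⟩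
  · rw [card_image_of_injective]
    · rw [Int.card_Icc]
      omega
    · intro s t h
      have hk0 : (k : ℤ) ≠ 0 := by exact_mod_cast (by omega : k ≠ 0)
      exact mul_right_cancel₀ hk0 h
  · intro y hy
    obtain ⟨t, ht, rfl⟩ := mem_image.1 hy
    rw [mem_Icc] at ht
    refine ⟨?_, dvd_mul_left _ _⟩
    have h1 : |t| ≤ ((B / k : ℕ) : ℤ) := abs_le.2 ht
    rw [abs_mul, abs_of_nonneg (by positivity : (0 : ℤ) ≤ (k : ℤ))]
    have h2 : ((B / k : ℕ) : ℤ) * (k : ℤ) ≤ (B : ℤ) := by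
      exact_mod_cast Nat.div_mul_le_self B k
    exact le_trans (mul_le_mul_of_nonneg_right h1 (by positivity)) h2

theorem p_Beta : BetaOf := by
  intro hG p hp Hp X m K B hsub hone hm hK hc1 hc2
  obtain ⟨C1, hC1, hC1'⟩ := Beta_mul (m * K) B (Nat.mul_pos hm hK)
  obtain ⟨C2, hC2, hC2'⟩ := Beta_mul m B hm
  obtain ⟨f1, h1, h2, h3⟩ := hG p hp ∅ Hp C1 (fun _ => 0) (empty_subset _)
    (fun c hc => absurd hc (notMem_empty c))
    ⟨fun i hi => absurd hi (notMem_empty i), fun i hi => absurd hi (notMem_empty i)⟩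
    (by rw [hC1]; exact hc1)
  obtain ⟨f2, g1, g2, g3⟩ := hG p hp Hp X C2 f1 hsub hone h3 (by rw [hC2]; exact hc2)
  have key1 : ∀ x ∈ Hp, f2 x ∈ C1 := by
    intro x hx
    rw [g1 x (fun h => (mem_sdiff.1 h).2 hx)]
    exact h2 x (mem_sdiff.2 ⟨hx, notMem_empty x⟩)
  refine ⟨f2, g3, ?_, fun x hx => (hC1' _ (key1 x hx)).2⟩
  intro x
  by_cases hx : x ∈ Hp
  · refine ⟨(hC1' _ (key1 x hx)).1, ?_⟩
    have h4 := (hC1' _ (key1 x hx)).2
    rw [Nat.cast_mul] at h4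
    exact (Dvd.intro _ rfl).trans h4
  · by_cases hX : x ∈ X
    · exact hC2' _ (g2 x (mem_sdiff.2 ⟨hX, hx⟩))
    · rw [g1 x (fun h => hX (mem_sdiff.1 h).1), h1 x (fun h => hx (mem_sdiff.1 h).1)]
      simp

end Pool.Agent.Lib.MP_8b7544_co.Df
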