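import Pool.Agent.Lib.MP_8b7544_co.Df.Stm

/-!
# MP_8b7544_co, project Deficiency: F1, all components enumerated (helper98)
-/

set_option autoImplicit false

namespace Pool.Agent.Lib.MP_8b7544_co.Df

open Finset

theorem CompsP_tops {n : ℕ} {p : ℕ → ℕ} {X : Finset ℕ} {t : ℕ} :
    t ∈ tops n p X ↔ t < n ∧ t ∉ X ∧ p t ∈ X := by
  unfold tops
  rw [Finset.mem_filter, Finset.mem_range]

/-- the component of a vertex has only one top vertex -/
theorem CompsP_uniq {n : ℕ} {p : ℕ → ℕ} {X : Finset ℕ} {t t' w : ℕ}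
    (ht : t ∈ tops n p X) (ht' : t' ∈ tops n p X) (h : InC p X w t) (h' : InC p X w t') :
    t = t' := by
  obtain ⟨a, ha, hX⟩ := h
  obtain ⟨a', ha', hX'⟩ := h'
  rcases lt_trichotomy a a' with hlt | heq | hgt
  · exfalso
    have h1 := hX' (a + 1) hlt
    rw [Function.iterate_succ_apply', ha] at h1
    exact h1 (CompsP_tops.mp ht).2.2
  · rw [← ha, ← ha', heq]
  · exfalso
    have h1 := hX (a' + 1) hgt
    rw [Function.iterate_succ_apply', ha'] at h1
    exact h1 (CompsP_tops.mp ht').2.2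

/-- going up one finds a top vertex -/
theorem CompsP_ex {n : ℕ} {p : ℕ → ℕ} {X : Finset ℕ} (hp : Par p) (h0 : 0 ∈ X) :
    ∀ w, w < n → w ∉ X → ∃ t ∈ tops n p X, InC p X w t := by
  intro w
  induction w using Nat.strong_induction_on with
  | _ w ih =>
    intro hw hwX
    by_cases hpX : p w ∈ X
    · refine ⟨w, CompsP_tops.mpr ⟨hw, hwX, hpX⟩, 0, rfl, fun i hi => ?_⟩
      have : i = 0 := by omega
      subst this
      exact hwX
    · have hw0 : 0 < w := by
        rcases Nat.eq_zero_or_pos w with h | h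
        · subst h; exact absurd h0 hwX
        · exact h
      have hlt := hp.lt w hw0
      obtain ⟨t, ht, a, ha, hX⟩ := ih (p w) hlt (hlt.trans hw) hpX
      refine ⟨t, ht, a + 1, by rw [Function.iterate_succ_apply, ha], fun i hi => ?_⟩
      rcases i with _ | i
      · exact hwX
      · rw [Function.iterate_succ_apply]
        exact hX i (by omega)

theorem CompsP_sum {n : ℕ} {p : ℕ → ℕ} {X : Finset ℕ} (hp : Par p) (h0 : 0 ∈ X)
    (hXn : X ⊆ range n) : (∑ t ∈ tops n p X, (cmp n p X t).card) + X.card = n := by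
  classical
  have hdis : ∀ t ∈ tops n p X, ∀ t' ∈ tops n p X, t ≠ t' →
      Disjoint (cmp n p X t) (cmp n p X t') := by
    intro t ht t' ht' hne
    rw [Finset.disjoint_left]
    intro w hw hw'
    exact hne (CompsP_uniq ht ht' (mem_cmp.mp hw).2 (mem_cmp.mp hw').2)
  rw [← Finset.card_biUnion hdis]
  have hU : (tops n p X).biUnion (cmp n p X) = range n \ X := by
    ext w
    rw [Finset.mem_biUnion, Finset.mem_sdiff, Finset.mem_range]
    constructor
    · rintro ⟨t, _, hw⟩
      obtain ⟨hwn, a, _, hX⟩ := mem_cmp.mp hw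
      exact ⟨hwn, hX 0 (Nat.zero_le a)⟩
    · rintro ⟨hwn, hwX⟩
      obtain ⟨t, ht, hin⟩ := CompsP_ex hp h0 w hwn hwX
      exact ⟨t, ht, mem_cmp.mpr ⟨hwn, hin⟩⟩
  rw [hU, Finset.card_sdiff_of_subset hXn, Finset.card_range]
  have := Finset.card_le_card hXn
  rw [Finset.card_range] at this
  omega

theorem p_CompsP : CompsOf := by
  classical
  intro hE n S δ p H Hp X β hT
  have h1 : ∀ t, ∃ v q : ℕ → ℕ, t ∈ tops n p X → CE n p X t (cmp n p X t).card v q := by
    intro t
    by_cases ht : t ∈ tops n p X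
    · obtain ⟨htn, htX, _⟩ := CompsP_tops.mp ht
      obtain ⟨v, q, h⟩ := hE n p X hT.par hT.zero t htn htX
      exact ⟨v, q, fun _ => h⟩
    · exact ⟨fun _ => 0, fun _ => 0, fun h => absurd h ht⟩
  choose v q hvq using h1
  have h2 : ∀ t, ∃ (U : Finset ℕ) (b : ℤ), t ∈ tops n p X →
      U ⊆ Ico 1 (cmp n p X t).card ∧ U.card ≤ 1 ∧
      (∀ u ∈ U, ∃ d ∈ X, 0 < d ∧ p d = v t u ∧ b = β d) ∧
      (∀ d ∈ X, 0 < d → ∀ u < (cmp n p X t).card, p d = v t u → u ∈ U ∧ b = β d) ∧
      (b = 0 ∨ ∃ d ∈ X, b = β d) := by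
    intro t
    by_cases ht : t ∈ tops n p X
    · have hce := hvq t ht
      obtain ⟨htn, htX, hpt⟩ := CompsP_tops.mp ht
      by_cases hd : ∃ d ∈ X, 0 < d ∧ ∃ u < (cmp n p X t).card, p d = v t u
      · obtain ⟨d, hdX, hd0, u, hu, hdu⟩ := hd
        have hin : InC p X (p d) t := by rw [hdu]; exact (hce.mem u hu).2
        have hpdX : p d ∉ X := by
          obtain ⟨a, _, hX⟩ := hin
          exact hX 0 (Nat.zero_le a)
        refine ⟨{u}, β d, fun _ => ⟨?_, ?_, ?_, ?_, ?_⟩⟩
        · intro x hx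
          rw [Finset.mem_singleton] at hx
          subst hx
          rw [Finset.mem_Ico]
          refine ⟨?_, hu⟩
          by_contra hcon
          have hx0 : x = 0 := by omega
          subst hx0
          rw [hce.v0] at hdu
          have h3 := hT.top d hdX hd0 hpdX
          rw [hdu] at h3
          exact h3 hpt
        · simp
        · intro u' hu'
          rw [Finset.mem_singleton] at hu'
          subst hu'
          exact ⟨d, hdX, hd0, hdu, rfl⟩
        · intro d' hd'X hd'0 u' hu' hdu'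
          have hin' : InC p X (p d') t := by rw [hdu']; exact (hce.mem u' hu').2
          have hdd : d = d' := hT.exit t d hdX d' hd'X hd0 hd'0 hin hin'
          subst hdd
          refine ⟨?_, rfl⟩
          rw [Finset.mem_singleton]
          exact hce.inj u' hu' u hu (hdu'.symm.trans hdu)
        · exact Or.inr ⟨d, hdX, rfl⟩
      · refine ⟨∅, 0, fun _ => ⟨by simp, by simp, by simp, ?_, Or.inl rfl⟩⟩
        intro d hdX hd0 u hu hdu
        exact absurd ⟨d, hdX, hd0, u, hu, hdu⟩ hd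
    · exact ⟨∅, 0, fun h => absurd h ht⟩
  choose U b' hUb using h2
  refine ⟨fun t => (cmp n p X t).card, v, q, U, b', ?_, ?_, ?_, ?_⟩
  · exact {
      ce := hvq
      U1 := fun t ht => (hUb t ht).1
      Uc := fun t ht => (hUb t ht).2.1
      Uout := fun t ht => (hUb t ht).2.2.1
      Uin := fun t ht => (hUb t ht).2.2.2.1
      bX := fun t ht => (hUb t ht).2.2.2.2 }
  · intro t ht
    obtain ⟨htn, htX, _⟩ := CompsP_tops.mp ht
    exact hT.size t htn htX
  · exact CompsP_sum hT.par hT.zero hT.Xn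
  · -- an injection into `X`
    have h3 : ∀ x : (_ : ℕ) × ℕ, ∃ d, x.1 ∈ tops n p X → x.2 ∈ U x.1 →
        d ∈ X ∧ p d = v x.1 x.2 := by
      intro x
      by_cases hx : x.1 ∈ tops n p X ∧ x.2 ∈ U x.1
      · obtain ⟨d, hdX, _, hdu, _⟩ := (hUb x.1 hx.1).2.2.1 x.2 hx.2
        exact ⟨d, fun _ _ => ⟨hdX, hdu⟩⟩
      · exact ⟨0, fun a b => absurd ⟨a, b⟩ hx⟩
    choose D hD using h3
    rw [← Finset.card_sigma]
    refine Finset.card_le_card_of_injOn D ?_ ?_
    · intro x hx
      rw [Finset.mem_coe, Finset.mem_sigma] at hx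
      exact (hD x hx.1 hx.2).1
    · intro x hx y hy hxy
      rw [Finset.mem_coe, Finset.mem_sigma] at hx hy
      have e1 := (hD x hx.1 hx.2).2
      have e2 := (hD y hy.1 hy.2).2
      rw [hxy, e2] at e1
      obtain ⟨t, u⟩ := x
      obtain ⟨t', u'⟩ := y
      simp only at hx hy e1
      have hu := Finset.mem_Ico.mp ((hUb t hx.1).1 hx.2)
      have hu' := Finset.mem_Ico.mp ((hUb t' hy.1).1 hy.2)
      have i1 := ((hvq t hx.1).mem u hu.2).2
      have i2 := ((hvq t' hy.1).mem u' hu'.2).2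
      rw [e1] at i2
      have htt := CompsP_uniq hx.1 hy.1 i1 i2
      subst htt
      have huu := (hvq t hx.1).inj u' hu'.2 u hu.2 e1
      subst huu
      rfl

end Pool.Agent.Lib.MP_8b7544_co.Df
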