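import Pool.Agent.Lib.MP_8b7544_co.Df.Stm

/-!
# MP_8b7544_co, project Deficiency: piece Count
-/

set_option autoImplicit false

namespace Pool.Agent.Lib.MP_8b7544_co.Df

open Finset

theorem Count_injOn (N : ℕ) [NeZero N] (a : ℤ) :
    Set.InjOn (fun y : ℤ => (y : ZMod N)) (Ico a (a + N) : Finset ℤ) := by
  intro y hy z hz h
  simp only [coe_Ico, Set.mem_Ico] at hy hz
  have h' : ((N : ℤ)) ∣ z - y := (ZMod.intCast_eq_intCast_iff_dvd_sub y z N).1 h
  have h2 : |z - y| < (N : ℤ) := by
    rw [abs_lt]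
    constructor <;> omega
  have := Int.eq_zero_of_abs_lt_dvd h' h2
  omega

theorem Count_image (N : ℕ) [NeZero N] (a : ℤ) :
    (Ico a (a + N)).image (fun y : ℤ => (y : ZMod N)) = univ := by
  apply Finset.eq_univ_of_card
  rw [Finset.card_image_of_injOn (Count_injOn N a), Int.card_Ico, ZMod.card]
  simp

theorem Count_block (N : ℕ) [NeZero N] (D : Finset (ZMod N)) (a : ℤ) :
    ((Ico a (a + N)).filter (fun y : ℤ => (y : ZMod N) ∈ D)).card = D.card := by
  have h : ((Ico a (a + N)).filter (fun y : ℤ => (y : ZMod N) ∈ D)).image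
      (fun y : ℤ => (y : ZMod N)) = D := by
    ext d
    simp only [mem_image, mem_filter]
    constructor
    · rintro ⟨y, ⟨_, hy⟩, rfl⟩
      exact hy
    · intro hd
      have h1 := mem_univ d
      rw [← Count_image N a, mem_image] at h1
      obtain ⟨y, hy, rfl⟩ := h1
      exact ⟨y, ⟨hy, hd⟩, rfl⟩
  have h2 := Finset.card_image_of_injOn (s := (Ico a (a + N)).filter
    (fun y : ℤ => (y : ZMod N) ∈ D)) (f := fun y : ℤ => (y : ZMod N))
    ((Count_injOn N a).mono (by intro y hy; exact (mem_filter.1 hy).1))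
  rw [h] at h2
  exact h2.symm

theorem Count_ratio (N : ℕ) [NeZero N] (D : Finset (ZMod N)) :
    0 ≤ (D.card / N : ℝ) ∧ (D.card / N : ℝ) ≤ 1 := by
  have hN : (0 : ℝ) < N := by exact_mod_cast Nat.pos_of_ne_zero (NeZero.ne N)
  refine ⟨by positivity, ?_⟩
  rw [div_le_one hN]
  have := Finset.card_le_univ D
  rw [ZMod.card] at this
  exact_mod_cast this

theorem Count_gen (N : ℕ) [NeZero N] (D : Finset (ZMod N)) (L : ℕ) : ∀ a : ℤ,
    |(((Ico a (a + L)).filter (fun y : ℤ => (y : ZMod N) ∈ D)).card : ℝ)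
      - (D.card / N : ℝ) * L| ≤ N := by
  induction L using Nat.strong_induction_on with
  | _ L ih =>
    intro a
    obtain ⟨h0, h1⟩ := Count_ratio N D
    have hN0 : 0 < N := Nat.pos_of_ne_zero (NeZero.ne N)
    have hN : (0 : ℝ) < N := by exact_mod_cast hN0
    by_cases hL : L < N
    · have e1 : (((Ico a (a + L)).filter (fun y : ℤ => (y : ZMod N) ∈ D)).card : ℝ) ≤ L := by
        have := Finset.card_filter_le (Ico a (a + (L : ℤ))) (fun y : ℤ => (y : ZMod N) ∈ D)
        rw [Int.card_Ico] at this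
        have e : (a + (L : ℤ) - a).toNat = L := by simp
        rw [e] at this
        exact_mod_cast this
      have e2 : (D.card / N : ℝ) * L ≤ L := by
        have : (0 : ℝ) ≤ L := Nat.cast_nonneg L
        nlinarith
      have e3 : 0 ≤ (D.card / N : ℝ) * L := mul_nonneg h0 (Nat.cast_nonneg L)
      have e4 : (L : ℝ) ≤ N := by exact_mod_cast hL.le
      have e5 : (0 : ℝ) ≤ (((Ico a (a + L)).filter (fun y : ℤ => (y : ZMod N) ∈ D)).card : ℝ) :=
        Nat.cast_nonneg _
      rw [abs_le]
      constructor <;> linarith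
    · obtain ⟨M, rfl⟩ := Nat.exists_eq_add_of_le (not_lt.1 hL)
      have hM : M < N + M := by omega
      have h2 := ih M hM (a + N)
      have e : Ico a (a + ((N + M : ℕ) : ℤ)) = Ico a (a + N) ∪ Ico (a + N) (a + N + M) := by
        rw [Finset.Ico_union_Ico_eq_Ico (by omega) (by omega)]
        congr 1
        push_cast
        ring
      have hd : Disjoint ((Ico a (a + N)).filter (fun y : ℤ => (y : ZMod N) ∈ D))
          ((Ico (a + N) (a + N + M)).filter (fun y : ℤ => (y : ZMod N) ∈ D)) :=
        Finset.disjoint_filter_filter (Finset.Ico_disjoint_Ico_consecutive _ _ _)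
      rw [e, Finset.filter_union, Finset.card_union_of_disjoint hd, Count_block]
      have e2 : (D.card / N : ℝ) * ((N + M : ℕ) : ℝ) = D.card + (D.card / N : ℝ) * M := by
        push_cast
        field_simp
      rw [e2]
      push_cast
      have e3 : ((D.card : ℝ) + (((Ico (a + N) (a + N + M)).filter
          (fun y : ℤ => (y : ZMod N) ∈ D)).card : ℝ) - (D.card + (D.card / N : ℝ) * M)) =
          (((Ico (a + N) (a + N + M)).filter
          (fun y : ℤ => (y : ZMod N) ∈ D)).card : ℝ) - (D.card / N : ℝ) * M := by ring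
      rw [e3]
      exact h2

theorem p_Count : StmCount := by
  intro R N _ D
  have h := Count_gen N D (2 * R + 1) (-(R : ℤ))
  have e : V0 R N D = (Ico (-(R : ℤ)) (-(R : ℤ) + ((2 * R + 1 : ℕ) : ℤ))).filter
      (fun y : ℤ => (y : ZMod N) ∈ D) := by
    unfold V0 Om
    congr 1
    ext y
    simp only [mem_Icc, mem_Ico]
    push_cast
    constructor <;> intro h <;> constructor <;> omega
  rw [e]
  push_cast at h ⊢
  exact h

end Pool.Agent.Lib.MP_8b7544_co.Df
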