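import Mathlib
import Pool.Agent.Lib.MP_8b7544_co.Df.Stm

/-!
# MP_8b7544_co, project Deficiency: T6, increasing enumeration of a component
-/

set_option autoImplicit false

namespace Pool.Agent.Lib.MP_8b7544_co.Df

open Finset

theorem Enum_le {p : ℕ → ℕ} (hp : Par p) (x : ℕ) : p x ≤ x := by
  rcases Nat.eq_zero_or_pos x with h | h
  · subst h; rw [hp.zero]
  · exact (hp.lt x h).le

theorem Enum_iter_le {p : ℕ → ℕ} (hp : Par p) (a : ℕ) : ∀ x : ℕ, p^[a] x ≤ x := by
  induction a with
  | zero => intro x; exact le_rfl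
  | succ a ih =>
    intro x
    rw [Function.iterate_succ_apply]
    exact (ih (p x)).trans (Enum_le hp x)

theorem p_Enum : StmEnum := by
  classical
  intro n p X hp h0 t ht htX
  have htC : t ∈ cmp n p X t := by
    rw [mem_cmp]
    refine ⟨ht, 0, rfl, ?_⟩
    intro i hi
    rw [Nat.le_zero.1 hi]
    exact htX
  have hle : ∀ w ∈ cmp n p X t, t ≤ w := by
    intro w hw
    obtain ⟨a, ha, -⟩ := (mem_cmp.1 hw).2
    rw [← ha]
    exact Enum_iter_le hp a w
  have hk : 0 < (cmp n p X t).card := card_pos.2 ⟨t, htC⟩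
  let e := (cmp n p X t).orderEmbOfFin rfl
  have heC : ∀ i, e i ∈ cmp n p X t := fun i => orderEmbOfFin_mem _ _ i
  have hesurj : ∀ w ∈ cmp n p X t, ∃ i, e i = w := by
    intro w hw
    have h := range_orderEmbOfFin (cmp n p X t) rfl
    have h2 : w ∈ Set.range e := by rw [h]; exact hw
    exact h2
  let v : ℕ → ℕ := fun j => if h : j < (cmp n p X t).card then e ⟨j, h⟩ else 0
  have hv : ∀ (j : ℕ) (h : j < (cmp n p X t).card), v j = e ⟨j, h⟩ := by
    intro j h
    simp only [v, dif_pos h]
  have hinj : ∀ i < (cmp n p X t).card, ∀ j < (cmp n p X t).card, v i = v j → i = j := by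
    intro i hi j hj h
    rw [hv i hi, hv j hj] at h
    have := e.injective h
    exact congrArg Fin.val this
  have hv0 : v 0 = t := by
    rw [hv 0 hk]
    refine le_antisymm ?_ (hle _ (heC _))
    obtain ⟨i, hi⟩ := hesurj t htC
    have h1 : e ⟨0, hk⟩ ≤ e i := e.monotone (Fin.mk_le_of_le_val (Nat.zero_le _))
    rw [hi] at h1
    exact h1
  have hq : ∀ j, ∃ i, 1 ≤ j → j < (cmp n p X t).card → i < j ∧ v i = p (v j) := by
    intro j
    by_cases hj : 1 ≤ j ∧ j < (cmp n p X t).card
    · obtain ⟨hj1, hj2⟩ := hj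
      have hw : v j ∈ cmp n p X t := by rw [hv j hj2]; exact heC _
      obtain ⟨hwn, a, ha, hX⟩ := mem_cmp.1 hw
      have hne : v j ≠ t := by
        intro h
        rw [← hv0] at h
        have := hinj j hj2 0 hk h
        omega
      have ha1 : 1 ≤ a := by
        by_contra h
        have h2 : a = 0 := by omega
        rw [h2] at ha
        exact hne ha
      have hpos : 0 < v j := by
        rcases Nat.eq_zero_or_pos (v j) with h | h
        · have h2 := hX 0 (Nat.zero_le _)
          rw [Function.iterate_zero, id, h] at h2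
          exact absurd h0 h2
        · exact h
      have hpw : p (v j) ∈ cmp n p X t := by
        rw [mem_cmp]
        refine ⟨lt_of_le_of_lt (Enum_le hp _) hwn, a - 1, ?_, ?_⟩
        · rw [← Function.iterate_succ_apply, show (a - 1).succ = a by omega]
          exact ha
        · intro i hi
          rw [← Function.iterate_succ_apply]
          exact hX _ (by omega)
      obtain ⟨i, hi⟩ := hesurj _ hpw
      refine ⟨i, fun _ _ => ⟨?_, ?_⟩⟩
      · have h1 : e i < e ⟨j, hj2⟩ := by
          rw [hi, ← hv j hj2]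
          exact hp.lt _ hpos
        exact e.lt_iff_lt.1 h1
      · rw [hv i.1 i.2]
        exact hi
    · exact ⟨0, fun h1 h2 => absurd ⟨h1, h2⟩ hj⟩
  choose q hq using hq
  refine ⟨v, q, hk, hv0, hinj, ?_, ?_, hq⟩
  · intro j hj
    rw [hv j hj]
    exact mem_cmp.1 (heC _)
  · intro w hw hwt
    obtain ⟨i, hi⟩ := hesurj w (mem_cmp.2 ⟨hw, hwt⟩)
    exact ⟨i.1, i.2, by rw [hv i.1 i.2]; exact hi⟩

end Pool.Agent.Lib.MP_8b7544_co.Df
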