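import Pool.Agent.Lib.MP_8b7544_co.Df.Stm

/-!
# MP_8b7544_co, project Deficiency, piece T4: only one way out of a component
-/

set_option autoImplicit false

namespace Pool.Agent.Lib.MP_8b7544_co.Df

open Finset

theorem Exit_aux (p : ℕ → ℕ) (X : Finset ℕ) (hp : Par p) (h0 : 0 ∈ X) (hU : Uni p X)
    (a a' d d' : ℕ) (hd : d ∈ X) (hd' : d' ∈ X)
    (he : p^[a] (p d) = p^[a'] (p d')) (ha : ∀ i ≤ a, p^[i] (p d) ∉ X)
    (ha' : ∀ i ≤ a', p^[i] (p d') ∉ X) (hle : a ≤ a') : d = d' := by
  have key : ∀ j, j ≤ a + 1 → p^[a + 1 - j] d = p^[a' + 1 - j] d' := by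
    intro j
    induction j with
    | zero =>
      intro _
      rw [Nat.sub_zero, Nat.sub_zero, Function.iterate_succ_apply, Function.iterate_succ_apply, he]
    | succ j ih =>
      intro hj
      have hj' : j ≤ a := by omega
      have hI := ih (by omega)
      have e1 : a + 1 - j = (a - j) + 1 := by omega
      have e2 : a' + 1 - j = (a' - j) + 1 := by omega
      have e3 : a + 1 - (j + 1) = a - j := by omega
      have e4 : a' + 1 - (j + 1) = a' - j := by omega
      rw [e3, e4]
      rw [e1, e2, Function.iterate_succ_apply', Function.iterate_succ_apply'] at hI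
      have hX : p (p^[a - j] d) ∉ X := by
        rw [← Function.iterate_succ_apply' p (a - j) d, Function.iterate_succ_apply]
        exact ha _ (by omega)
      have pos : 0 < p^[a - j] d := by
        rcases Nat.eq_zero_or_pos (p^[a - j] d) with h | h
        · exact absurd (by rw [h, hp.zero]; exact h0) hX
        · exact h
      have pos' : 0 < p^[a' - j] d' := by
        rcases Nat.eq_zero_or_pos (p^[a' - j] d') with h | h
        · exact absurd (by rw [hI, h, hp.zero]; exact h0) hX
        · exact h
      exact hU _ _ pos pos' hI hX ⟨d, hd, a - j, rfl⟩ ⟨d', hd', a' - j, rfl⟩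
  have h1 := key (a + 1) le_rfl
  have e5 : a + 1 - (a + 1) = 0 := by omega
  have e6 : a' + 1 - (a + 1) = a' - a := by omega
  rw [e5, e6, Function.iterate_zero_apply] at h1
  rcases Nat.eq_or_lt_of_le hle with h | h
  · rw [h, Nat.sub_self, Function.iterate_zero_apply] at h1
    exact h1
  · exfalso
    have e7 : a' - a = (a' - a - 1) + 1 := by omega
    rw [e7, Function.iterate_succ_apply] at h1
    exact ha' (a' - a - 1) (by omega) (h1 ▸ hd)

theorem p_Exit : StmExit := by
  rintro p X hp h0 hU t d hd d' hd' - - ⟨a, hat, ha⟩ ⟨a', hat', ha'⟩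
  rcases le_total a a' with h | h
  · exact Exit_aux p X hp h0 hU a a' d d' hd hd' (hat.trans hat'.symm) ha ha' h
  · exact (Exit_aux p X hp h0 hU a' a d' d hd' hd (hat'.trans hat.symm) ha' ha h).symm

end Pool.Agent.Lib.MP_8b7544_co.Df
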