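import Mathlib
import Pool.Agent.Lib.MP_8b7544_co.Df.Stm

set_option autoImplicit false

namespace Pool.Agent.Lib.MP_8b7544_co.Df

open Finset

theorem FamB_mono {ι : Type} [Fintype ι] {w w' : ι → ℝ} {c : ℝ} (h : ∀ i, w' i ≤ w i / c)
    (P : ι → Prop) : Pr w' P ≤ Pr w P / c := by
  classical
  rw [Pr_eq, Pr_eq, Finset.sum_div]
  refine Finset.sum_le_sum fun i _ => ?_
  split_ifs
  · exact h i
  · simp

theorem FamB_compl {ι : Type} [Fintype ι] (w : ι → ℝ) (P : ι → Prop) :
    Pr w P + Pr w (fun i => ¬ P i) = ∑ i, w i := by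
  classical
  rw [Pr_eq, Pr_eq, ← Finset.sum_add_distrib]
  refine Finset.sum_congr rfl fun i _ => ?_
  by_cases h : P i <;> simp [h]

theorem p_FamB : FamOf := by
  classical
  intro hLaw hInv hLoad hPair R V L K ph Gd lam pm nu mu hub k q b b' B U hK hI hC hnu hnu1
  obtain ⟨ι, instι, w, G, hL⟩ := hLaw R V K ph Gd lam pm mu k q hK hI hC.kpos hC.qlt
  have hx := hInv R V L K ph Gd lam pm mu hub k q b b' B U hK hI hC ι w G hL
  obtain ⟨hlV, hlL, hlS, hl⟩ := hLoad R V L K ph Gd lam pm mu hub k q b b' B U hK hI hC ι w G hL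
  have hp := hPair R V L K ph Gd lam pm mu hub k q b b' B U hK hI hC ι w G hL
  set x : ℝ := Pr w (fun i => ¬ Val V L hub k q b b' U (G i)) with hxdef
  have hx0 : 0 ≤ x := Pr_nonneg hL.nn _
  have hxnu : x ≤ nu := hx.trans hnu
  have h1x : 0 < 1 - x := by linarith
  have h1n : 0 < 1 - nu := by linarith
  have hcompl := FamB_compl w (fun i => Val V L hub k q b b' U (G i))
  rw [hL.tot] at hcompl
  let w' : ι → ℝ := fun i => if Val V L hub k q b b' U (G i) then w i / (1 - x) else 0
  have hw'0 : ∀ i, 0 ≤ w' i := by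
    intro i
    show 0 ≤ (if Val V L hub k q b b' U (G i) then w i / (1 - x) else 0)
    split_ifs
    · exact div_nonneg (hL.nn i) h1x.le
    · exact le_rfl
  have hw'le : ∀ i, w' i ≤ w i / (1 - nu) := by
    intro i
    show (if Val V L hub k q b b' U (G i) then w i / (1 - x) else 0) ≤ _
    split_ifs
    · exact div_le_div_of_nonneg_left (hL.nn i) h1n (by linarith)
    · exact div_nonneg (hL.nn i) h1n.le
  have hmono := fun P => FamB_mono hw'le P
  have key : ∀ (P : ι → Prop) (c d : ℝ), Pr w P ≤ c → c / (1 - nu) = d → Pr w' P ≤ d := by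
    intro P c d h1 h2
    rw [← h2]
    exact (hmono P).trans (div_le_div_of_nonneg_right h1 h1n.le)
  refine ⟨ι, instι, w', G, ?_⟩
  refine
    { nn := hw'0
      tot := ?_
      val := ?_
      loadV := fun y hy => key _ _ _ (hlV y hy) (by ring)
      loadL := fun y hy => key _ _ _ (hlL y hy) (by ring)
      loadS := fun s => key _ _ _ (hlS s) (by ring)
      load := fun l => key _ _ _ (hl l) (by ring)
      pair := fun l l' hll => key _ _ _ (hp l l' hll) (by ring) }
  · have : ∑ i, w' i = Pr w (fun i => Val V L hub k q b b' U (G i)) / (1 - x) := by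
      rw [Pr_eq, Finset.sum_div]
      refine Finset.sum_congr rfl fun i _ => ?_
      show (if Val V L hub k q b b' U (G i) then w i / (1 - x) else 0) = _
      split_ifs
      · rfl
      · simp
    rw [this]
    rw [div_eq_one_iff_eq h1x.ne']
    linarith
  · intro i hi
    by_contra hcon
    apply hi
    show (if Val V L hub k q b b' U (G i) then w i / (1 - x) else 0) = 0
    rw [if_neg hcon]

end Pool.Agent.Lib.MP_8b7544_co.Df
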