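import Mathlib
import Pool.Agent.Lib.MP_8b7544_co.Df.Stm

/-!
# MP_8b7544_co, project Deficiency: F3, the final labelling
-/

set_option autoImplicit false

namespace Pool.Agent.Lib.MP_8b7544_co.Df

open Finset

theorem Glue_iter_le {p : ℕ → ℕ} (hp : Par p) (a w : ℕ) : p^[a] w ≤ w := by
  induction a with
  | zero => exact le_rfl
  | succ a ih =>
    rw [Function.iterate_succ_apply']
    rcases Nat.eq_zero_or_pos (p^[a] w) with h | h
    · rw [h, hp.zero]; exact Nat.zero_le _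
    · exact (hp.lt _ h).le.trans ih

theorem Glue_iter_zero {p : ℕ → ℕ} (hp : Par p) (a w : ℕ) (h : w ≤ a) : p^[a] w = 0 := by
  induction a generalizing w with
  | zero => simpa using h
  | succ a ih =>
    rw [Function.iterate_succ_apply]
    rcases Nat.eq_zero_or_pos w with h0 | h0
    · subst h0; rw [hp.zero]; exact ih 0 (Nat.zero_le _)
    · have := hp.lt w h0
      exact ih _ (by omega)

theorem Glue_top {p : ℕ → ℕ} (hp : Par p) {X : Finset ℕ} (h0 : 0 ∈ X) {n w : ℕ} (hw : w < n)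
    (hwX : w ∉ X) : ∃ t ∈ tops n p X, InC p X w t := by
  classical
  have hex : ∃ a, p^[a + 1] w ∈ X := ⟨w, by rw [Glue_iter_zero hp (w + 1) w (by omega)]; exact h0⟩
  refine ⟨p^[Nat.find hex] w, ?_, Nat.find hex, rfl, ?_⟩
  · rw [tops, mem_filter, mem_range]
    refine ⟨lt_of_le_of_lt (Glue_iter_le hp _ _) hw, ?_, ?_⟩
    · rcases Nat.eq_zero_or_pos (Nat.find hex) with h | h
      · rw [h]; exact hwX
      · have := Nat.find_min hex (Nat.sub_lt h Nat.one_pos)
        rwa [Nat.sub_add_cancel h] at this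
    · rw [← Function.iterate_succ_apply' p]
      exact Nat.find_spec hex
  · intro i hi
    rcases Nat.eq_zero_or_pos i with h | h
    · rw [h]; exact hwX
    · have := Nat.find_min hex (m := i - 1) (by omega)
      rwa [Nat.sub_add_cancel h] at this

theorem Glue_uniq {p : ℕ → ℕ} {X : Finset ℕ} {w t t' : ℕ} (h : InC p X w t) (h' : InC p X w t')
    (ht : p t ∈ X) (ht' : p t' ∈ X) : t = t' := by
  obtain ⟨a, ha, ha'⟩ := h
  obtain ⟨b, hb, hb'⟩ := h'
  rcases lt_trichotomy a b with hab | hab | hab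
  · exfalso
    apply hb' (a + 1) hab
    rw [Function.iterate_succ_apply', ha]; exact ht
  · rw [← ha, ← hb, hab]
  · exfalso
    apply ha' (b + 1) hab
    rw [Function.iterate_succ_apply', hb]; exact ht'

theorem p_Glue : GlueOf := by
  classical
  intro hG n S R m B0 δ p H Hp X β k v q U b' V L J g td cm hkS hLβ hβ hm hB0 hVO hLO hVm hLm
    hub1 hub3 hJ hval hdis hcard
  have hp := td.par
  have topm : ∀ {t}, t ∈ tops n p X → t < n ∧ t ∉ X ∧ p t ∈ X := by
    intro t ht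
    rw [tops, mem_filter, mem_range] at ht
    exact ht
  -- the place of a vertex
  have hplace : ∀ w, ∃ t j, w < n → w ∉ X → t ∈ tops n p X ∧ j < k t ∧ v t j = w := by
    intro w
    by_cases hw : w < n ∧ w ∉ X
    · obtain ⟨t, ht, htw⟩ := Glue_top hp td.zero hw.1 hw.2
      obtain ⟨j, hj, hj'⟩ := (cm.ce t ht).surj w hw.1 htw
      exact ⟨t, j, fun _ _ => ⟨ht, hj, hj'⟩⟩
    · exact ⟨0, 0, fun h1 h2 => (hw ⟨h1, h2⟩).elim⟩
  choose τ ι hτ using hplace
  have hτu : ∀ {t j}, t ∈ tops n p X → j < k t → τ (v t j) = t ∧ ι (v t j) = j ∧ v t j < n ∧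
      v t j ∉ X := by
    intro t j ht hj
    have h1 := (cm.ce t ht).mem j hj
    have h2 : v t j ∉ X := by
      obtain ⟨a, _, ha⟩ := h1.2
      exact ha 0 (Nat.zero_le _)
    obtain ⟨h3, h4, h5⟩ := hτ (v t j) h1.1 h2
    have h6 := ((cm.ce _ h3).mem _ h4).2
    rw [h5] at h6
    have h7 : τ (v t j) = t := Glue_uniq h6 h1.2 (topm h3).2.2 (topm ht).2.2
    refine ⟨h7, ?_, h1.1, h2⟩
    rw [h7] at h4 h5
    exact (cm.ce t ht).inj _ h4 _ hj h5
  -- the rest
  set Rest : Finset ℕ := (range n).filter (fun w => w ∉ X ∧ τ w ∉ J) with hRest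
  have hRc : Rest.card ≤ S * ((tops n p X).card - J.card) := by
    have h1 : Rest ⊆ (tops n p X \ J).biUnion (fun t => (range (k t)).image (v t)) := by
      intro w hw
      rw [hRest, mem_filter, mem_range] at hw
      obtain ⟨h3, h4, h5⟩ := hτ w hw.1 hw.2.1
      rw [mem_biUnion]
      exact ⟨τ w, mem_sdiff.2 ⟨h3, hw.2.2⟩, mem_image.2 ⟨ι w, mem_range.2 h4, h5⟩⟩
    calc Rest.card ≤ _ := card_le_card h1
      _ ≤ ∑ t ∈ tops n p X \ J, ((range (k t)).image (v t)).card := card_biUnion_le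
      _ ≤ ∑ t ∈ tops n p X \ J, S := by
          refine sum_le_sum fun t ht => ?_
          refine le_trans card_image_le ?_
          rw [card_range]
          exact hkS t (mem_sdiff.1 ht).1
      _ = S * ((tops n p X).card - J.card) := by
          rw [sum_const, smul_eq_mul, card_sdiff_of_subset hJ, mul_comm]
  set f0 : ℕ → ℤ := fun w => if w ∈ X then β w else g (τ w) (ι w) with hf0
  have hf0X : ∀ w ∈ X, f0 w = β w := fun w hw => by rw [hf0]; simp [hw]
  set r : ℤ := ((R / 2 / m : ℕ) : ℤ) with hr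
  set C : Finset ℤ := (Icc (-r) r).image (fun i => (m : ℤ) * i) with hC
  have hm0 : (0 : ℤ) < m := by exact_mod_cast hm
  have hCc : C.card = 2 * (R / 2 / m) + 1 := by
    rw [hC, card_image_of_injective _ (fun a b h => by
      exact mul_left_cancel₀ (ne_of_gt hm0) h), Int.card_Icc]
    omega
  have hBc : 3 * (X ∪ Rest).card < C.card := by
    rw [hCc]
    have := card_union_le X Rest
    omega
  obtain ⟨f, hf1, hf2, hf3⟩ := hG p hp X (X ∪ Rest) C f0 subset_union_left td.Xone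
    ⟨fun i hi j hj h => hLβ.1 i hi j hj (by rw [hf0X i hi, hf0X j hj] at h; exact h),
     fun i hi j hj hi0 hj0 hpi hpj h => hLβ.2 i hi j hj hi0 hj0 hpi hpj (by
       rw [hf0X i hi, hf0X j hj, hf0X _ hpi, hf0X _ hpj] at h; exact h)⟩ hBc
  have hfX : ∀ w ∈ X, f w = β w := fun w hw => by
    rw [hf1 w (fun h => (mem_sdiff.1 h).2 hw), hf0X w hw]
  have hsm : ∀ w ∈ X ∪ Rest, (m : ℤ) ∣ f w ∧ 2 * |f w| ≤ R := by
    intro w hw
    by_cases hwX : w ∈ X
    · rw [hfX w hwX]
      have h1 := hβ w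
      refine ⟨h1.2, ?_⟩
      have h2 : (2 * B0 : ℤ) ≤ R := by exact_mod_cast hB0
      linarith [h1.1]
    · have h1 := hf2 w (mem_sdiff.2 ⟨hw, hwX⟩)
      rw [hC, mem_image] at h1
      obtain ⟨i, hi, h2⟩ := h1
      rw [mem_Icc] at hi
      refine ⟨⟨i, h2.symm⟩, ?_⟩
      rw [← h2, abs_mul, abs_of_pos hm0]
      have h3 : |i| ≤ r := abs_le.2 hi
      have h4 : (m : ℤ) * r ≤ ((R / 2 : ℕ) : ℤ) := by
        rw [hr]
        exact_mod_cast Nat.mul_div_le (R / 2) m
      have h5 : (2 : ℤ) * ((R / 2 : ℕ) : ℤ) ≤ R := by omega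
      have h6 : (m : ℤ) * |i| ≤ m * r := mul_le_mul_of_nonneg_left h3 hm0.le
      linarith
  have hnB : ∀ w < n, w ∉ X ∪ Rest → τ w ∈ J ∧ ι w < k (τ w) ∧ v (τ w) (ι w) = w := by
    intro w hw hwB
    rw [mem_union, not_or] at hwB
    obtain ⟨h3, h4, h5⟩ := hτ w hw hwB.1
    refine ⟨?_, h4, h5⟩
    by_contra h
    apply hwB.2
    rw [hRest, mem_filter, mem_range]
    exact ⟨hw, hwB.1, h⟩
  have hfg : ∀ t ∈ J, ∀ j < k t, f (v t j) = g t j := by
    intro t ht j hj
    obtain ⟨h1, h2, h3, h4⟩ := hτu (hJ ht) hj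
    rw [hf1 (v t j) ?_, hf0]
    · simp only [h4, if_false]
      rw [h1, h2]
    · intro h
      have h5 := mem_sdiff.1 h
      rw [mem_union] at h5
      rcases h5.1 with h6 | h6
      · exact h4 h6
      · rw [hRest, mem_filter] at h6
        exact h6.2.2 (by rw [h1]; exact ht)
  have hgin : ∀ t ∈ J, ∀ j < k t, g t j ∈ Om R ∧ ¬ (m : ℤ) ∣ g t j := by
    intro t ht j hj
    have hv := hval t ht
    rcases Nat.eq_zero_or_pos j with h | h
    · subst h
      by_cases hh : p t ∈ H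
      · have := hv.hub0 hh
        exact ⟨hLO _ hh this, hLm _ hh _ this⟩
      · have := (hv.nhub0 hh).1
        exact ⟨hVO this, hVm _ this⟩
    · have := (hv.mem j h hj).1
      exact ⟨hVO this, hVm _ this⟩
  have hALt : ∀ t ∈ J, ∀ t' ∈ J, ∀ l, l ∈ AL (p t ∈ H) (k t) (q t) (β (p t)) (b' t) (U t) (g t) →
      l ∈ AL (p t' ∈ H) (k t') (q t') (β (p t')) (b' t') (U t') (g t') → t = t' := by
    intro t ht t' ht' l h1 h2
    by_contra h
    exact (disjoint_left.1 (hdis t ht t' ht' h)) h1 h2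
  -- the three types of sums
  have key : ∀ i < n, 0 < i →
      (∃ t ∈ J, ∃ j < k t, v t j = i ∧ (1 ≤ j ∨ p t ∉ H) ∧
        f i + f (p i) = sm (q t) (β (p t)) (g t) j) ∨
      (∃ t ∈ J, ∃ u ∈ U t, i ∈ X ∧ b' t = β i ∧ f i + f (p i) = g t u + b' t) ∨
      (i ∈ J ∧ p i ∈ H ∧ f i + f (p i) = g i 0 + β (p i)) ∨
      (i ∈ X ∪ Rest ∧ p i ∈ X ∪ Rest) := by
    intro i hi hi0
    by_cases hiB : i ∈ X ∪ Rest
    · by_cases hpB : p i ∈ X ∪ Rest
      · exact Or.inr (Or.inr (Or.inr ⟨hiB, hpB⟩))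
      · have hpn : p i < n := (hp.lt i hi0).trans hi
        obtain ⟨h1, h2, h3⟩ := hnB (p i) hpn hpB
        have hiX : i ∈ X := by
          by_contra hiX
          rcases mem_union.1 hiB with h4 | h4
          · exact hiX h4
          · rw [hRest, mem_filter, mem_range] at h4
            apply h4.2.2
            obtain ⟨h5, h6, h7⟩ := hτ i hi hiX
            have h8 := ((cm.ce _ h5).mem _ h6).2
            rw [h7] at h8
            have h9 := ((cm.ce _ (hJ h1)).mem _ h2).2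
            rw [h3] at h9
            have h10 : InC p X i (τ (p i)) := by
              obtain ⟨a, ha, ha'⟩ := h9
              refine ⟨a + 1, by rw [Function.iterate_succ_apply]; exact ha, fun l hl => ?_⟩
              rcases Nat.eq_zero_or_pos l with h | h
              · rw [h]; exact hiX
              · obtain ⟨l, rfl⟩ := Nat.exists_eq_succ_of_ne_zero (Nat.pos_iff_ne_zero.1 h)
                rw [Function.iterate_succ_apply]
                exact ha' l (by omega)
            rw [Glue_uniq h8 h10 (topm h5).2.2 (topm (hJ h1)).2.2]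
            exact h1
        obtain ⟨h4, h5⟩ := cm.Uin _ (hJ h1) i hiX hi0 _ h2 h3.symm
        refine Or.inr (Or.inl ⟨_, h1, _, h4, hiX, h5, ?_⟩)
        have h6 := hfg _ h1 _ h2
        rw [h3] at h6
        rw [h6, hfX i hiX, h5, add_comm]
    · obtain ⟨h1, h2, h3⟩ := hnB i hi hiB
      have h4 := hfg _ h1 _ h2
      rw [h3] at h4
      rcases Nat.eq_zero_or_pos (ι i) with h0 | h0
      · have h5 : τ i = i := by rw [h0, (cm.ce _ (hJ h1)).v0] at h3; exact h3
        have h6 := (topm (hJ h1)).2.2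
        rw [h5] at h1 h2 h3 h4 h6
        rw [h0] at h2 h3 h4
        by_cases hh : p i ∈ H
        · exact Or.inr (Or.inr (Or.inl ⟨h1, hh, by rw [h4, hfX _ h6]⟩))
        · refine Or.inl ⟨i, h1, 0, h2, h3, Or.inr hh, ?_⟩
          rw [h4, hfX _ h6, sm, if_pos rfl]
      · obtain ⟨h5, h6⟩ := (cm.ce _ (hJ h1)).par _ h0 h2
        refine Or.inl ⟨_, h1, _, h2, h3, Or.inl h0, ?_⟩
        have h7 := hfg _ h1 _ (h5.trans h2)
        rw [h6, h3] at h7
        rw [h4, h7, sm, if_neg (by omega)]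
  -- consequences
  have k1 : ∀ t ∈ J, ∀ j < k t, (1 ≤ j ∨ p t ∉ H) →
      sm (q t) (β (p t)) (g t) j ∈ V ∧
      (false, sm (q t) (β (p t)) (g t) j) ∈ AL (p t ∈ H) (k t) (q t) (β (p t)) (b' t) (U t) (g t) := by
    intro t ht j hj hh
    refine ⟨?_, mem_AL_false.2 (Or.inl ⟨j, hj, hh, rfl⟩)⟩
    rcases Nat.eq_zero_or_pos j with h | h
    · subst h
      exact ((hval t ht).nhub0 (by rcases hh with hh | hh; · omega
                                   · exact hh)).2
    · exact ((hval t ht).mem j h hj).2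
  have k2 : ∀ t ∈ J, ∀ u ∈ U t, g t u + b' t ∈ V ∧
      (false, g t u + b' t) ∈ AL (p t ∈ H) (k t) (q t) (β (p t)) (b' t) (U t) (g t) := by
    intro t ht u hu
    exact ⟨(hval t ht).out u hu, mem_AL_false.2 (Or.inr ⟨u, hu, rfl⟩)⟩
  have k0 : ∀ t ∈ J, 0 < k t := fun t ht => (cm.ce t (hJ ht)).kpos
  have k3 : ∀ t ∈ J, p t ∈ H → g t 0 ∈ L (p t) := fun t ht hh => (hval t ht).hub0 hh
  have k4 : ∀ i, i ∈ X ∪ Rest ∧ p i ∈ X ∪ Rest → (m : ℤ) ∣ f i + f (p i) ∧ |f i + f (p i)| ≤ R := by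
    intro i hi
    have h1 := hsm i hi.1
    have h2 := hsm (p i) hi.2
    refine ⟨dvd_add h1.1 h2.1, ?_⟩
    have := abs_add_le (f i) (f (p i))
    linarith [h1.2, h2.2]
  have hOm : ∀ y : ℤ, y ∈ Om R ↔ |y| ≤ R := by
    intro y
    rw [Om, mem_Icc, abs_le]
  refine ⟨f, ⟨?_, ?_⟩, ?_, ?_⟩
  · -- labels are distinct
    intro i hi j hj hij
    rw [mem_range] at hi hj
    by_cases hiB : i ∈ X ∪ Rest
    · by_cases hjB : j ∈ X ∪ Rest
      · exact hf3.1 i hiB j hjB hij
      · exfalso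
        obtain ⟨h1, h2, h3⟩ := hnB j hj hjB
        have h4 := hfg _ h1 _ h2
        rw [h3] at h4
        exact (hgin _ h1 _ h2).2 (by rw [← h4, ← hij]; exact (hsm i hiB).1)
    · obtain ⟨a1, a2, a3⟩ := hnB i hi hiB
      have a4 := hfg _ a1 _ a2
      rw [a3] at a4
      by_cases hjB : j ∈ X ∪ Rest
      · exfalso
        exact (hgin _ a1 _ a2).2 (by rw [← a4, hij]; exact (hsm j hjB).1)
      · obtain ⟨h1, h2, h3⟩ := hnB j hj hjB
        have h4 := hfg _ h1 _ h2
        rw [h3] at h4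
        have h5 : τ i = τ j := by
          refine hALt _ a1 _ h1 (true, f i) (mem_AL_true.2 ⟨_, a2, a4.symm⟩)
            (mem_AL_true.2 ⟨_, h2, ?_⟩)
          rw [← h4, hij]
        rw [← a3, ← h3, ← h5]
        rw [← h5] at h2 h4
        rw [(hval _ a1).inj _ a2 _ h2 (by rw [← a4, ← h4, hij])]
  · -- sums are distinct
    intro i hi j hj hi0 hj0 _ _ hs
    rw [mem_range] at hi hj
    rcases key i hi hi0 with ⟨t, ht, a, ha, ha1, ha2, ha3⟩ | ⟨t, ht, u, hu, hu1, hu2, hu3⟩ |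
      ⟨hi1, hi2, hi3⟩ | hi4
    · rcases key j hj hj0 with ⟨t', ht', a', ha', ha1', ha2', ha3'⟩ |
        ⟨t', ht', u', hu', hu1', hu2', hu3'⟩ | ⟨hj1, hj2, hj3⟩ | hj4
      · have h1 : t = t' := by
          refine hALt _ ht _ ht' _ (k1 t ht a ha ha2).2 ?_
          rw [← ha3, hs, ha3']
          exact (k1 t' ht' a' ha' ha2').2
        subst h1
        rw [← ha1, ← ha1', (hval t ht).sinj a ha a' ha' (by rw [← ha3, ← ha3', hs])]
      · exfalso
        have h1 : t = t' := by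
          refine hALt _ ht _ ht' _ (k1 t ht a ha ha2).2 ?_
          rw [← ha3, hs, hu3']
          exact (k2 t' ht' u' hu').2
        subst h1
        exact (hval t ht).sout u' hu' a ha (by rw [← ha3, ← hu3', hs])
      · exfalso
        have h1 := (k1 t ht a ha ha2).1
        rw [← ha3, hs, hj3] at h1
        exact (hub1 _ hj2 _ (k3 j hj1 hj2)).2.1 h1
      · exfalso
        have h1 := (k1 t ht a ha ha2).1
        rw [← ha3, hs] at h1
        exact hVm _ h1 (k4 j hj4).1
    · rcases key j hj hj0 with ⟨t', ht', a', ha', ha1', ha2', ha3'⟩ |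
        ⟨t', ht', u', hu', hu1', hu2', hu3'⟩ | ⟨hj1, hj2, hj3⟩ | hj4
      · exfalso
        have h1 : t' = t := by
          refine hALt _ ht' _ ht _ (k1 t' ht' a' ha' ha2').2 ?_
          rw [← ha3', ← hs, hu3]
          exact (k2 t ht u hu).2
        subst h1
        exact (hval _ ht).sout u hu a' ha' (by rw [← ha3', ← hu3, hs])
      · have h1 : t = t' := by
          refine hALt _ ht _ ht' _ (k2 t ht u hu).2 ?_
          rw [← hu3, hs, hu3']
          exact (k2 t' ht' u' hu').2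
        subst h1
        have h2 : β i = β j := by rw [← hu2, ← hu2']
        exact hLβ.1 i hu1 j hu1' h2
      · exfalso
        have h1 := (k2 t ht u hu).1
        rw [← hu3, hs, hj3] at h1
        exact (hub1 _ hj2 _ (k3 j hj1 hj2)).2.1 h1
      · exfalso
        have h1 := (k2 t ht u hu).1
        rw [← hu3, hs] at h1
        exact hVm _ h1 (k4 j hj4).1
    · rcases key j hj hj0 with ⟨t', ht', a', ha', ha1', ha2', ha3'⟩ |
        ⟨t', ht', u', hu', hu1', hu2', hu3'⟩ | ⟨hj1, hj2, hj3⟩ | hj4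
      · exfalso
        have h1 := (k1 t' ht' a' ha' ha2').1
        rw [← ha3', ← hs, hi3] at h1
        exact (hub1 _ hi2 _ (k3 i hi1 hi2)).2.1 h1
      · exfalso
        have h1 := (k2 t' ht' u' hu').1
        rw [← hu3', ← hs, hi3] at h1
        exact (hub1 _ hi2 _ (k3 i hi1 hi2)).2.1 h1
      · by_cases hx : p i = p j
        · have h1 : g i 0 = g j 0 := by
            rw [hi3, hj3, hx] at hs
            linarith
          refine hALt i hi1 j hj1 (true, g i 0) (mem_AL_true.2 ⟨0, k0 i hi1, rfl⟩)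
            (mem_AL_true.2 ⟨0, k0 j hj1, h1.symm⟩)
        · exfalso
          exact hub3 _ hi2 _ hj2 hx _ (k3 i hi1 hi2) _ (k3 j hj1 hj2) (by rw [← hi3, ← hj3, hs])
      · exfalso
        have h1 := (k4 j hj4).1
        rw [← hs, hi3] at h1
        exact (hub1 _ hi2 _ (k3 i hi1 hi2)).2.2 h1
    · rcases key j hj hj0 with ⟨t', ht', a', ha', ha1', ha2', ha3'⟩ |
        ⟨t', ht', u', hu', hu1', hu2', hu3'⟩ | ⟨hj1, hj2, hj3⟩ | hj4
      · exfalso
        have h1 := (k1 t' ht' a' ha' ha2').1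
        rw [← ha3', ← hs] at h1
        exact hVm _ h1 (k4 i hi4).1
      · exfalso
        have h1 := (k2 t' ht' u' hu').1
        rw [← hu3', ← hs] at h1
        exact hVm _ h1 (k4 i hi4).1
      · exfalso
        have h1 := (k4 i hi4).1
        rw [hs, hj3] at h1
        exact (hub1 _ hj2 _ (k3 j hj1 hj2)).2.2 h1
      · exact hf3.2 i hi4.1 j hj4.1 hi0 hj0 hi4.2 hj4.2 hs
  · -- size of the labels
    intro i hi
    by_cases hiB : i ∈ X ∪ Rest
    · have h1 := (hsm i hiB).2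
      have h2 := abs_nonneg (f i)
      linarith
    · obtain ⟨h1, h2, h3⟩ := hnB i hi hiB
      have h4 := hfg _ h1 _ h2
      rw [h3] at h4
      rw [h4, ← hOm]
      exact (hgin _ h1 _ h2).1
  · -- size of the sums
    intro i hi hi0
    rcases key i hi hi0 with ⟨t, ht, a, ha, ha1, ha2, ha3⟩ | ⟨t, ht, u, hu, hu1, hu2, hu3⟩ |
      ⟨hi1, hi2, hi3⟩ | hi4
    · rw [ha3, ← hOm]
      exact hVO (k1 t ht a ha ha2).1
    · rw [hu3, ← hOm]
      exact hVO (k2 t ht u hu).1
    · rw [hi3, ← hOm]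
      exact (hub1 _ hi2 _ (k3 i hi1 hi2)).1
    · exact (k4 i hi4).2

end Pool.Agent.Lib.MP_8b7544_co.Df
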