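import Mathlib
import Pool.Agent.Lib.MP_8b7544_co.Df.Stm

/-!
# MP_8b7544_co, project Deficiency: G1, greedy labelling from the top
-/

set_option autoImplicit false

namespace Pool.Agent.Lib.MP_8b7544_co.Df

open Finset

theorem Greedy_step (p : ℕ → ℕ) (hp : Par p) (A : Finset ℕ) (C : Finset ℤ) (f : ℕ → ℤ) (v : ℕ)
    (hv : v ∉ A) (hone : ∀ c ∈ A, ∀ c' ∈ A, 0 < c → 0 < c' → p c = v → p c' = v → c = c')
    (hL : Lab p A f) (hC : 3 * A.card < C.card) :
    ∃ y ∈ C, Lab p (insert v A) (Function.update f v y) := by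
  classical
  obtain ⟨c0, hc0⟩ : ∃ c0, ∀ c ∈ A, 0 < c → p c = v → c = c0 := by
    by_cases h : ∃ c ∈ A, 0 < c ∧ p c = v
    · obtain ⟨c, hc, hc1, hc2⟩ := h
      exact ⟨c, fun c' hc' h1 h2 => hone c' hc' c hc h1 hc1 h2 hc2⟩
    · exact ⟨0, fun c hc h1 h2 => (h ⟨c, hc, h1, h2⟩).elim⟩
  have hcard : (A.image f ∪ (A.image (fun i => f i + f (p i) - f (p v)) ∪
      A.image (fun i => f i + f (p i) - f c0))).card < C.card := by
    refine lt_of_le_of_lt (card_union_le _ _) ?_
    have h1 := card_union_le (A.image (fun i => f i + f (p i) - f (p v)))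
      (A.image (fun i => f i + f (p i) - f c0))
    have h2 : (A.image f).card ≤ A.card := card_image_le
    have h3 : (A.image (fun i => f i + f (p i) - f (p v))).card ≤ A.card := card_image_le
    have h4 : (A.image (fun i => f i + f (p i) - f c0)).card ≤ A.card := card_image_le
    omega
  obtain ⟨y, hyC, hy⟩ := exists_mem_notMem_of_card_lt_card hcard
  rw [mem_union, mem_union, not_or, not_or] at hy
  obtain ⟨hy1, hy2, hy3⟩ := hy
  have n1 : ∀ i ∈ A, f i ≠ y := fun i hi h => hy1 (mem_image.2 ⟨i, hi, h⟩)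
  have n2 : ∀ i ∈ A, y + f (p v) ≠ f i + f (p i) := fun i hi h =>
    hy2 (mem_image.2 ⟨i, hi, by linarith⟩)
  have n3 : ∀ i ∈ A, f c0 + y ≠ f i + f (p i) := fun i hi h =>
    hy3 (mem_image.2 ⟨i, hi, by linarith⟩)
  have eA : ∀ i ∈ A, Function.update f v y i = f i := fun i hi =>
    Function.update_of_ne (by rintro rfl; exact hv hi) _ _
  have ev : Function.update f v y v = y := Function.update_self _ _ _
  refine ⟨y, hyC, ?_, ?_⟩
  · intro i hi j hj hij
    rw [mem_insert] at hi hj
    rcases hi with rfl | hi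
    · rcases hj with rfl | hj
      · rfl
      · rw [ev, eA j hj] at hij
        exact (n1 j hj hij.symm).elim
    · rcases hj with rfl | hj
      · rw [ev, eA i hi] at hij
        exact (n1 i hi hij).elim
      · rw [eA i hi, eA j hj] at hij
        exact hL.1 i hi j hj hij
  · -- the three types of edges
    have key : ∀ i ∈ insert v A, 0 < i → p i ∈ insert v A →
        (i = v ∧ p v ∈ A ∧ Function.update f v y i + Function.update f v y (p i) = y + f (p v)) ∨
        (i ∈ A ∧ p i = v ∧ i = c0 ∧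
          Function.update f v y i + Function.update f v y (p i) = f c0 + y) ∨
        (i ∈ A ∧ p i ∈ A ∧
          Function.update f v y i + Function.update f v y (p i) = f i + f (p i)) := by
      intro i hi hi0 hpi
      rw [mem_insert] at hi hpi
      rcases hi with rfl | hi
      · rcases hpi with h | h
        · exact absurd (hp.lt i hi0) (by rw [h]; exact lt_irrefl _)
        · exact Or.inl ⟨rfl, h, by rw [ev, eA _ h]⟩
      · rcases hpi with h | h
        · have h5 := hc0 i hi hi0 h
          refine Or.inr (Or.inl ⟨hi, h, h5, ?_⟩)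
          rw [h, ev, eA i hi, h5]
        · exact Or.inr (Or.inr ⟨hi, h, by rw [eA i hi, eA _ h]⟩)
    intro i hi j hj hi0 hj0 hpi hpj hs
    rcases key i hi hi0 hpi with ⟨a1, a2, a3⟩ | ⟨a1, a2, a4, a3⟩ | ⟨a1, a2, a3⟩
    · rcases key j hj hj0 hpj with ⟨b1, b2, b3⟩ | ⟨b1, b2, b4, b3⟩ | ⟨b1, b2, b3⟩
      · rw [a1, b1]
      · exfalso
        rw [a3, b3] at hs
        have h1 : f (p v) = f c0 := by linarith
        have h2 := hL.1 _ a2 _ (b4 ▸ b1) h1
        have h3 := hp.lt j hj0
        have h4 := hp.lt i hi0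
        rw [a1] at h4
        rw [b2, b4, ← h2] at h3
        omega
      · exfalso
        rw [a3, b3] at hs
        exact n2 j b1 hs
    · rcases key j hj hj0 hpj with ⟨b1, b2, b3⟩ | ⟨b1, b2, b4, b3⟩ | ⟨b1, b2, b3⟩
      · exfalso
        rw [a3, b3] at hs
        have h1 : f (p v) = f c0 := by linarith
        have h2 := hL.1 _ b2 _ (a4 ▸ a1) h1
        have h3 := hp.lt i hi0
        have h4 := hp.lt j hj0
        rw [b1] at h4
        rw [a2, a4, ← h2] at h3
        omega
      · rw [a4, b4]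
      · exfalso
        rw [a3, b3] at hs
        exact n3 j b1 hs
    · rcases key j hj hj0 hpj with ⟨b1, b2, b3⟩ | ⟨b1, b2, b4, b3⟩ | ⟨b1, b2, b3⟩
      · exfalso
        rw [a3, b3] at hs
        exact n2 i a1 hs.symm
      · exfalso
        rw [a3, b3] at hs
        exact n3 i a1 hs.symm
      · rw [a3, b3] at hs
        exact hL.2 i a1 j b1 hi0 hj0 a2 b2 hs

theorem Greedy_aux (p : ℕ → ℕ) (hp : Par p) (B : Finset ℕ) (C : Finset ℤ)
    (hC : 3 * B.card < C.card) : ∀ (k : ℕ) (A : Finset ℕ) (f : ℕ → ℤ), (B \ A).card = k →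
    A ⊆ B → (∀ c ∈ A, ∀ c' ∈ A, 0 < c → 0 < c' → p c = p c' → p c ∈ B \ A → c = c') →
    Lab p A f →
    ∃ f' : ℕ → ℤ, (∀ w, w ∉ B \ A → f' w = f w) ∧ (∀ w ∈ B \ A, f' w ∈ C) ∧ Lab p B f' := by
  classical
  intro k
  induction k with
  | zero =>
    intro A f hk hAB _ hL
    rw [card_eq_zero] at hk
    have hBA : B = A := Subset.antisymm (sdiff_eq_empty_iff_subset.1 hk) hAB
    refine ⟨f, fun _ _ => rfl, fun w hw => ?_, hBA ▸ hL⟩
    rw [hk] at hw
    exact (notMem_empty _ hw).elim
  | succ k ih =>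
    intro A f hk hAB hone hL
    have hne : (B \ A).Nonempty := by rw [← card_pos]; omega
    obtain ⟨v, hv, hmin⟩ : ∃ v ∈ B \ A, ∀ w ∈ B \ A, v ≤ w :=
      ⟨(B \ A).min' hne, min'_mem _ _, fun w hw => min'_le _ _ hw⟩
    have hv' := mem_sdiff.1 hv
    have hAcard : A.card ≤ B.card := card_le_card hAB
    obtain ⟨y, hyC, hL'⟩ := Greedy_step p hp A C f v hv'.2
      (fun c hc c' hc' h1 h2 h3 h4 => hone c hc c' hc' h1 h2 (h3.trans h4.symm) (h3 ▸ hv)) hL
      (by omega)
    have hsd : B \ insert v A = (B \ A).erase v := by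
      ext w
      simp only [mem_sdiff, mem_insert, mem_erase, not_or]
      tauto
    have hk' : (B \ insert v A).card = k := by
      rw [hsd, card_erase_of_mem hv]; omega
    have hAB' : insert v A ⊆ B := insert_subset hv'.1 hAB
    obtain ⟨f', h1, h2, h3⟩ := ih (insert v A) (Function.update f v y) hk' hAB' (by
      intro c hc c' hc' hc0 hc0' he hB
      rw [hsd, mem_erase] at hB
      have h5 := hmin _ hB.2
      have h6 := hp.lt c hc0
      have h7 := hp.lt c' hc0'
      rw [mem_insert] at hc hc'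
      have h8 : c ∈ A := by
        rcases hc with rfl | hc
        · omega
        · exact hc
      have h9 : c' ∈ A := by
        rcases hc' with rfl | hc'
        · omega
        · exact hc'
      exact hone c h8 c' h9 hc0 hc0' he hB.2) hL'
    refine ⟨f', fun w hw => ?_, fun w hw => ?_, h3⟩
    · have hwv : w ≠ v := fun h => hw (h ▸ hv)
      rw [h1 w (fun h => hw (by rw [hsd, mem_erase] at h; exact h.2)),
        Function.update_of_ne hwv]
    · by_cases hwv : w = v
      · rw [hwv, h1 v (by rw [hsd, mem_erase]; exact fun h => h.1 rfl), Function.update_self]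
        exact hyC
      · exact h2 w (by rw [hsd, mem_erase]; exact ⟨hwv, hw⟩)

theorem p_Greedy : StmGreedy := by
  intro p hp A B C f hAB hone hL hC
  exact Greedy_aux p hp B C hC _ A f rfl hAB
    (fun c hc c' hc' h1 h2 h3 h4 => hone c hc c' hc' h1 h2 h3 (mem_sdiff.1 h4).2) hL

end Pool.Agent.Lib.MP_8b7544_co.Df
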