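import Mathlib
import Pool.Agent.Lib.MP_8b7544_co.Df.Stm

set_option autoImplicit false

namespace Pool.Agent.Lib.MP_8b7544_co.Df

open Finset

theorem Heavy_le {p : ℕ → ℕ} (hp : Par p) (i : ℕ) : p i ≤ i := by
  rcases Nat.eq_zero_or_pos i with h | h
  · subst h; rw [hp.zero]
  · exact (hp.lt i h).le

theorem Heavy_iter_le {p : ℕ → ℕ} (hp : Par p) (a i : ℕ) : p^[a] i ≤ i := by
  induction a with
  | zero => simp
  | succ a ih => rw [Function.iterate_succ_apply']; exact (Heavy_le hp _).trans ih

theorem Heavy_aux (S : ℕ) (p : ℕ → ℕ) (hp : Par p) : ∀ (m : ℕ) (A : Finset ℕ), A.card = m →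
    (∀ i ∈ A, p i ∈ A) → ∃ X ⊆ A, (S + 1) * X.card ≤ A.card ∧
      ∀ t ∈ A, t ∉ X → ∀ C ⊆ A, (∀ v ∈ C, InC p X v t) → C.card ≤ S := by
  classical
  intro m
  induction m using Nat.strong_induction_on with
  | _ m ih =>
  intro A hm hA
  by_cases h : ∀ v ∈ A, (A.filter (fun w => ∃ a, p^[a] w = v)).card ≤ S
  · refine ⟨∅, by simp, by simp, fun t ht _ C hC hCt => ?_⟩
    refine (card_le_card ?_).trans (h t ht)
    intro v hv
    obtain ⟨a, ha, -⟩ := hCt v hv
    exact mem_filter.2 ⟨hC hv, a, ha⟩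
  · push Not at h
    obtain ⟨v0, hv0, hv0'⟩ := h
    have hne : (A.filter (fun v => S < (A.filter (fun w => ∃ a, p^[a] w = v)).card)).Nonempty :=
      ⟨v0, mem_filter.2 ⟨hv0, hv0'⟩⟩
    obtain ⟨v, hv, hmax⟩ := Finset.exists_max_image _ id hne
    rw [mem_filter] at hv
    obtain ⟨hvA, hvS⟩ := hv
    set sv := A.filter (fun w => ∃ a, p^[a] w = v) with hsv
    have hvv : v ∈ sv := mem_filter.2 ⟨hvA, 0, rfl⟩
    have hsub : sv ⊆ A := filter_subset _ _
    have hcard : (A \ sv).card + sv.card = A.card := card_sdiff_add_card_eq_card hsub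
    have hlt : (A \ sv).card < m := by
      have : 0 < sv.card := card_pos.2 ⟨v, hvv⟩
      omega
    obtain ⟨X', hX', hXc, hXt⟩ := ih _ hlt (A \ sv) rfl (by
      intro i hi
      rw [mem_sdiff] at hi ⊢
      refine ⟨hA i hi.1, fun hpi => hi.2 ?_⟩
      obtain ⟨-, a, ha⟩ := mem_filter.1 hpi
      exact mem_filter.2 ⟨hi.1, a + 1, by rw [Function.iterate_succ_apply]; exact ha⟩)
    have hvX' : v ∉ X' := fun hh => (mem_sdiff.1 (hX' hh)).2 hvv
    refine ⟨insert v X', ?_, ?_, ?_⟩
    · intro x hx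
      rcases mem_insert.1 hx with rfl | hx
      · exact hvA
      · exact (mem_sdiff.1 (hX' hx)).1
    · rw [card_insert_of_notMem hvX']
      have : (S + 1) * (X'.card + 1) = (S + 1) * X'.card + (S + 1) := by ring
      omega
    · intro t ht htX C hC hCt
      have htv : t ≠ v := fun hh => htX (by rw [hh]; exact mem_insert_self _ _)
      have htX' : t ∉ X' := fun hh => htX (mem_insert_of_mem hh)
      by_cases hts : t ∈ sv
      · obtain ⟨-, a, ha⟩ := mem_filter.1 hts
        have hvt : v ≤ t := by rw [← ha]; exact Heavy_iter_le hp a t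
        have hSt : (A.filter (fun w => ∃ a, p^[a] w = t)).card ≤ S := by
          by_contra hcon
          push Not at hcon
          have := hmax t (mem_filter.2 ⟨ht, hcon⟩)
          exact htv (le_antisymm this hvt)
        refine (card_le_card ?_).trans hSt
        intro w hw
        obtain ⟨b, hb, -⟩ := hCt w hw
        exact mem_filter.2 ⟨hC hw, b, hb⟩
      · refine hXt t (mem_sdiff.2 ⟨ht, hts⟩) htX' C ?_ ?_
        · intro w hw
          refine mem_sdiff.2 ⟨hC hw, fun hws => ?_⟩
          obtain ⟨-, b, hb⟩ := mem_filter.1 hws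
          obtain ⟨a, ha, hall⟩ := hCt w hw
          rcases le_total a b with hab | hab
          · apply hts
            refine mem_filter.2 ⟨ht, b - a, ?_⟩
            rw [← ha, ← Function.iterate_add_apply, Nat.sub_add_cancel hab]
            exact hb
          · exact hall b hab (by rw [hb]; exact mem_insert_self _ _)
        · intro w hw
          obtain ⟨a, ha, hall⟩ := hCt w hw
          exact ⟨a, ha, fun i hi hh => hall i hi (mem_insert_of_mem hh)⟩

theorem p_Heavy : StmHeavy := by
  intro S n p hp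
  obtain ⟨X, hX, hc, ht⟩ := Heavy_aux S p hp n (range n) (card_range n) (by
    intro i hi
    rw [mem_range] at hi ⊢
    exact (Heavy_le hp i).trans_lt hi)
  rw [card_range] at hc
  refine ⟨X, hX, hc, fun t htn htX => ?_⟩
  refine ht t (mem_range.2 htn) htX (cmp n p X t) ?_ ?_
  · intro v hv
    exact mem_range.2 (mem_cmp.1 hv).1
  · intro v hv
    exact (mem_cmp.1 hv).2

end Pool.Agent.Lib.MP_8b7544_co.Df
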