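import Pool.Agent.Lib.MP_8b7544_co.Df.Stm

/-!
# MP_8b7544_co, project Deficiency: piece A7 (the law of the labels below a hub)
-/

set_option autoImplicit false

namespace Pool.Agent.Lib.MP_8b7544_co.Df

open Finset

theorem HubB_W_nonneg (R : ℕ) (x y : ℤ) : 0 ≤ W R x y := by
  unfold W
  split_ifs
  · have : (0 : ℤ) ≤ max |x| (max |y| |x + y|) := le_trans (abs_nonneg x) (le_max_left _ _)
    exact_mod_cast this
  · exact le_rfl

theorem HubB_W_symm (R : ℕ) (x y : ℤ) : W R x y = W R y x := by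
  unfold W
  rw [add_comm y x, max_left_comm]
  exact if_congr and_left_comm rfl rfl

theorem HubB_W_sum (R : ℕ) (x s : ℤ) : W R x (s - x) = W R (-s) x := by
  unfold W
  have e1 : x + (s - x) = s := by ring
  have e2 : |s - x| = |-s + x| := by
    rw [show -s + x = -(s - x) by ring, abs_neg]
  rw [e1, abs_neg, e2, max_comm |-s + x| |s|, max_left_comm]
  refine if_congr ?_ rfl rfl
  tauto

theorem HubB_Ku_nonneg (R N : ℕ) (D : Finset (ZMod N)) (x y : ℤ) : 0 ≤ Ku R N D x y := by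
  unfold Ku
  split_ifs
  · exact HubB_W_nonneg R x y
  · exact le_rfl

theorem HubB_rw_nonneg (R N : ℕ) (D : Finset (ZMod N)) (x : ℤ) : 0 ≤ rw' R N D x :=
  Finset.sum_nonneg fun y _ => HubB_Ku_nonneg R N D x y

theorem HubB_rw (hW : StmWavg) (R N : ℕ) [NeZero N] (D : Finset (ZMod N)) (x : ℤ) (hR : 1 ≤ R)
    (hx : |x| ≤ R) :
    |rw' R N D x - ((Qr D (x : ZMod N) : ℝ) / N) * (R * (R + 1))| ≤ 4 * N * R := by
  have h := hW R N x (D.filter (fun b => (x : ZMod N) + b ∈ D)) hR hx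
  have e : rw' R N D x = ∑ y ∈ Om R,
      (if (y : ZMod N) ∈ D.filter (fun b => (x : ZMod N) + b ∈ D) then W R x y else 0) := by
    unfold rw' Ku
    refine Finset.sum_congr rfl fun y _ => ?_
    simp only [mem_filter, Int.cast_add]
  rw [e]
  exact h

/-- the row sums of good rows -/
theorem HubB_row (hW : StmWavg) {a ρ e : ℝ} {R N : ℕ} [NeZero N] {D : Finset (ZMod N)}
    (h : Num a ρ e R N D) (hR : 1 ≤ R) (x : ℤ) (hx : |x| ≤ R)
    (hg : |(Qr D (x : ZMod N) : ℝ) - ρ ^ 2 * N| ≤ e * N) :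
    (ρ ^ 2 - 2 * e) * (R * (R + 1)) ≤ rw' R N D x ∧
      rw' R N D x ≤ (ρ ^ 2 + 2 * e) * (R * (R + 1)) := by
  have h1 := HubB_rw hW R N D x hR hx
  have hN : (0 : ℝ) < N := by exact_mod_cast Nat.pos_of_ne_zero (NeZero.ne N)
  have hRr : (1 : ℝ) ≤ R := by exact_mod_cast hR
  have hP : (0 : ℝ) ≤ R * (R + 1) := by positivity
  have hq : |(Qr D (x : ZMod N) : ℝ) / N - ρ ^ 2| ≤ e := by
    rw [abs_le] at hg ⊢
    constructor
    · rw [le_sub_iff_add_le, le_div_iff₀ hN]; linarith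
    · rw [sub_le_iff_le_add, div_le_iff₀ hN]; linarith
  have hb : 4 * (N : ℝ) * R ≤ e * (R * (R + 1)) := by
    have := h.big
    have e0 := h.e0
    nlinarith [mul_nonneg e0.le (show (0 : ℝ) ≤ R by linarith),
      mul_le_mul_of_nonneg_right this (show (0 : ℝ) ≤ R by linarith)]
  rw [abs_le] at h1 hq
  have h2 : (ρ ^ 2 - e) * (R * (R + 1)) ≤ (Qr D (x : ZMod N) : ℝ) / N * (R * (R + 1)) :=
    mul_le_mul_of_nonneg_right (by linarith [hq.1]) hP
  have h3 : (Qr D (x : ZMod N) : ℝ) / N * (R * (R + 1)) ≤ (ρ ^ 2 + e) * (R * (R + 1)) :=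
    mul_le_mul_of_nonneg_right (by linarith [hq.2]) hP
  constructor
  · linarith [h1.1]
  · linarith [h1.2]

theorem HubB_poly (a ρ e : ℝ) (a0 : 0 < a) (a8 : a ≤ 1 / 8) (ra : a ≤ ρ) (rb : ρ ≤ 1 - a)
    (e0 : 0 < e) (ea : e ≤ a ^ 4 / 100) :
    (ρ - ρ ^ 2 + 3 * e) * ((ρ ^ 2 + 2 * e) * (ρ + 2 * e)) ≤
      (1 + a / 4) * ((ρ ^ 2 - 2 * e) * ((ρ ^ 2 - 2 * e) * ((1 - ρ) * (1 - a ^ 2 / 25)))) := by
  have r0 : 0 < ρ := lt_of_lt_of_le a0 ra
  have r1 : 0 < 1 - ρ := by linarith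
  have ha2 : a ^ 2 ≤ 1 / 64 := by nlinarith
  have ha3 : 0 < a ^ 3 := by positivity
  have hra : a ^ 2 ≤ ρ ^ 2 := by nlinarith
  have hrr : 7 / 8 * a ≤ ρ * (1 - ρ) := by nlinarith
  have A1 : ρ - ρ ^ 2 + 3 * e ≤ ρ * (1 - ρ) * (1 + a ^ 3 / 29) := by
    have : 3 * e ≤ ρ * (1 - ρ) * (a ^ 3 / 29) := by
      have h1 : 7 / 8 * a * (a ^ 3 / 29) ≤ ρ * (1 - ρ) * (a ^ 3 / 29) :=
        mul_le_mul_of_nonneg_right hrr (by positivity)
      have h2 : 0 < a ^ 4 := by positivity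
      nlinarith
    nlinarith
  have A2 : ρ ^ 2 + 2 * e ≤ ρ ^ 2 * (1 + a ^ 2 / 50) := by
    have : a ^ 2 * (a ^ 2 / 50) ≤ ρ ^ 2 * (a ^ 2 / 50) :=
      mul_le_mul_of_nonneg_right hra (by positivity)
    nlinarith
  have A3 : ρ + 2 * e ≤ ρ * (1 + a ^ 3 / 50) := by
    have : a * (a ^ 3 / 50) ≤ ρ * (a ^ 3 / 50) := mul_le_mul_of_nonneg_right ra (by positivity)
    nlinarith
  have A4 : ρ ^ 2 * (1 - a ^ 2 / 50) ≤ ρ ^ 2 - 2 * e := by
    have : a ^ 2 * (a ^ 2 / 50) ≤ ρ ^ 2 * (a ^ 2 / 50) :=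
      mul_le_mul_of_nonneg_right hra (by positivity)
    nlinarith
  have p4 : 0 ≤ ρ ^ 2 * (1 - a ^ 2 / 50) := by
    apply mul_nonneg (by positivity); linarith
  have q0 : 0 ≤ (1 - ρ) * (1 - a ^ 2 / 25) := mul_nonneg r1.le (by linarith)
  have L1 : (ρ - ρ ^ 2 + 3 * e) * ((ρ ^ 2 + 2 * e) * (ρ + 2 * e)) ≤
      (ρ * (1 - ρ) * (1 + a ^ 3 / 29)) * ((ρ ^ 2 * (1 + a ^ 2 / 50)) * (ρ * (1 + a ^ 3 / 50))) := by
    apply mul_le_mul A1 _ (by positivity) (by positivity)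
    apply mul_le_mul A2 A3 (by positivity) (by positivity)
  have L2 : (1 + a / 4) * ((ρ ^ 2 * (1 - a ^ 2 / 50)) * ((ρ ^ 2 * (1 - a ^ 2 / 50)) *
      ((1 - ρ) * (1 - a ^ 2 / 25)))) ≤
      (1 + a / 4) * ((ρ ^ 2 - 2 * e) * ((ρ ^ 2 - 2 * e) * ((1 - ρ) * (1 - a ^ 2 / 25)))) := by
    apply mul_le_mul_of_nonneg_left _ (by positivity)
    apply mul_le_mul A4 _ (mul_nonneg p4 q0) (le_trans p4 A4)
    exact mul_le_mul_of_nonneg_right A4 q0
  have L3 : (1 + a ^ 3 / 29) * ((1 + a ^ 2 / 50) * (1 + a ^ 3 / 50)) ≤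
      (1 + a / 4) * ((1 - a ^ 2 / 50) * ((1 - a ^ 2 / 50) * (1 - a ^ 2 / 25))) := by
    have t1 : (1 + a ^ 2 / 50) * (1 + a ^ 3 / 50) ≤ 1 + a / 40 := by
      have : a ^ 3 ≤ a / 64 := by nlinarith
      have : a ^ 2 ≤ a / 8 := by nlinarith
      nlinarith [mul_nonneg (sq_nonneg a) ha3.le, mul_pos a0 ha3]
    have t2 : (1 + a ^ 3 / 29) * ((1 + a ^ 2 / 50) * (1 + a ^ 3 / 50)) ≤ 1 + a / 20 := by
      have h3 : a ^ 3 ≤ a / 64 := by nlinarith
      have : (1 + a ^ 3 / 29) * ((1 + a ^ 2 / 50) * (1 + a ^ 3 / 50)) ≤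
          (1 + a ^ 3 / 29) * (1 + a / 40) := mul_le_mul_of_nonneg_left t1 (by positivity)
      nlinarith [mul_pos a0 ha3]
    have t3 : 1 - a ^ 2 / 10 ≤ (1 - a ^ 2 / 50) * ((1 - a ^ 2 / 50) * (1 - a ^ 2 / 25)) := by
      nlinarith [sq_nonneg a, mul_nonneg (sq_nonneg a) (sq_nonneg a)]
    have t4 : 1 + a / 20 ≤ (1 + a / 4) * (1 - a ^ 2 / 10) := by nlinarith
    calc _ ≤ 1 + a / 20 := t2
      _ ≤ (1 + a / 4) * (1 - a ^ 2 / 10) := t4
      _ ≤ _ := mul_le_mul_of_nonneg_left t3 (by positivity)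
  have hk : 0 ≤ ρ ^ 4 * (1 - ρ) := by positivity
  calc _ ≤ (ρ * (1 - ρ) * (1 + a ^ 3 / 29)) * ((ρ ^ 2 * (1 + a ^ 2 / 50)) *
        (ρ * (1 + a ^ 3 / 50))) := L1
    _ = ρ ^ 4 * (1 - ρ) * ((1 + a ^ 3 / 29) * ((1 + a ^ 2 / 50) * (1 + a ^ 3 / 50))) := by ring
    _ ≤ ρ ^ 4 * (1 - ρ) * ((1 + a / 4) * ((1 - a ^ 2 / 50) * ((1 - a ^ 2 / 50) *
        (1 - a ^ 2 / 25)))) := mul_le_mul_of_nonneg_left L3 hk
    _ = (1 + a / 4) * ((ρ ^ 2 * (1 - a ^ 2 / 50)) * ((ρ ^ 2 * (1 - a ^ 2 / 50)) *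
      ((1 - ρ) * (1 - a ^ 2 / 25)))) := by ring
    _ ≤ _ := L2

theorem HubB_R {a ρ e : ℝ} {R N : ℕ} [NeZero N] {D : Finset (ZMod N)}
    (h : Num a ρ e R N D) : 1 ≤ R := by
  rcases Nat.eq_zero_or_pos R with h0 | h0
  · exfalso
    have hN : (0 : ℝ) < N := by exact_mod_cast Nat.pos_of_ne_zero (NeZero.ne N)
    have := h.big
    rw [h0] at this
    simp at this
    linarith
  · exact h0

theorem HubB_mem_Om {R : ℕ} {x : ℤ} : x ∈ Om R ↔ |x| ≤ R := by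
  unfold Om
  rw [mem_Icc, abs_le]

theorem HubB_mem_V0 {R N : ℕ} {D : Finset (ZMod N)} {x : ℤ} :
    x ∈ V0 R N D ↔ |x| ≤ R ∧ (x : ZMod N) ∈ D := by
  unfold V0
  rw [mem_filter, HubB_mem_Om]

/-- the number of allowed labels -/
theorem HubB_card (hC : StmCount) {a ρ e : ℝ} {R N : ℕ} [NeZero N] {D : Finset (ZMod N)}
    (h : Num a ρ e R N D) (θ : ℝ) (B : ℕ) (D' : Finset (ZMod N)) (t0 : 0 < θ)
    (hN4 : 4 * (N : ℝ) ≤ e * θ * R) (hB : (B : ℝ) ≤ a ^ 2 / 50 * R)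
    (hD' : θ * (1 - ρ - e) * N ≤ (D'.card : ℝ)) :
    θ * (2 * R + 1) * ((1 - ρ) * (1 - a ^ 2 / 25)) ≤ ((V0 (R - B) N D').card : ℝ) := by
  have hN : (0 : ℝ) < N := by exact_mod_cast Nat.pos_of_ne_zero (NeZero.ne N)
  have a0 := h.a0
  have a8 := h.a8
  have ra := h.ra
  have rb := h.rb
  have e0 := h.e0
  have ea := h.ea
  have hR : (0 : ℝ) ≤ R := Nat.cast_nonneg R
  have ha2 : a ^ 2 ≤ 1 / 64 := by nlinarith
  have hBR : B ≤ R := by
    have : (B : ℝ) ≤ R := by nlinarith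
    exact_mod_cast this
  have h1 := hC (R - B) N D'
  rw [abs_le] at h1
  have h2 : θ * (1 - ρ - e) ≤ (D'.card : ℝ) / N := by
    rw [le_div_iff₀ hN]; exact hD'
  rw [Nat.cast_sub hBR] at h1
  have h3 : (2 * (R : ℝ) + 1) * (1 - a ^ 2 / 50) ≤ 2 * ((R : ℝ) - B) + 1 := by
    nlinarith [sq_nonneg a]
  have e1 : e ≤ a ^ 3 * (1 - ρ) / 100 := by
    have : a ^ 3 * a ≤ a ^ 3 * (1 - ρ) := mul_le_mul_of_nonneg_left (by linarith) (by positivity)
    nlinarith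
  have e2 : a ^ 3 ≤ a ^ 2 / 8 := by nlinarith [sq_nonneg a]
  have e3 : e ≤ a ^ 2 * (1 - ρ) / 800 := by
    have : a ^ 3 * (1 - ρ) ≤ a ^ 2 / 8 * (1 - ρ) := mul_le_mul_of_nonneg_right e2 (by linarith)
    linarith
  have pos1 : 0 ≤ 1 - ρ - e := by
    have : a ^ 2 * (1 - ρ) ≤ 1 / 64 * (1 - ρ) := mul_le_mul_of_nonneg_right ha2 (by linarith)
    linarith
  have h4 : θ * (1 - ρ - e) * ((2 * (R : ℝ) + 1) * (1 - a ^ 2 / 50)) ≤
      (D'.card : ℝ) / N * (2 * ((R : ℝ) - B) + 1) := by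
    apply mul_le_mul h2 h3 _ (by positivity)
    exact mul_nonneg (by linarith) (by linarith)
  have h5 : (N : ℝ) ≤ θ * (2 * R + 1) * (e / 8) := by nlinarith [mul_pos t0 e0]
  have h6 : (1 - ρ) * (1 - a ^ 2 / 25) ≤ (1 - ρ - e) * (1 - a ^ 2 / 50) - e / 8 := by
    nlinarith [mul_nonneg e0.le (sq_nonneg a)]
  have h7 : θ * (2 * R + 1) * ((1 - ρ) * (1 - a ^ 2 / 25)) ≤
      θ * (2 * R + 1) * ((1 - ρ - e) * (1 - a ^ 2 / 50) - e / 8) :=
    mul_le_mul_of_nonneg_left h6 (by positivity)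
  have h8 : θ * (1 - ρ - e) * ((2 * (R : ℝ) + 1) * (1 - a ^ 2 / 50)) =
      θ * (2 * R + 1) * ((1 - ρ - e) * (1 - a ^ 2 / 50)) := by ring
  linarith [h1.1]

/-- the common estimate of the two sums -/
theorem HubB_fin (hW : StmWavg) (hC : StmCount) {a ρ e : ℝ} {R N : ℕ} [NeZero N]
    {D : Finset (ZMod N)}
    (h : Num a ρ e R N D) (θ : ℝ) (B : ℕ) (D' : Finset (ZMod N)) (t0 : 0 < θ)
    (hN4 : 4 * (N : ℝ) ≤ e * θ * R) (hB : (B : ℝ) ≤ a ^ 2 / 50 * R)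
    (hg : ∀ b ∈ D', |(Qr D b : ℝ) - ρ ^ 2 * N| ≤ e * N)
    (hD' : θ * (1 - ρ - e) * N ≤ (D'.card : ℝ)) (g : ℤ → ℝ) (z : ℤ) (hz : z ∈ V0 R N D)
    (g0 : ∀ x, 0 ≤ g x)
    (hs : ∑ x ∈ V0 (R - B) N D', g x ≤ θ * (ρ - ρ ^ 2 + 3 * e) * (R * (R + 1))) :
    ∑ x ∈ V0 (R - B) N D', g x / rw' R N D x / ((V0 (R - B) N D').card : ℝ)
      ≤ (1 + a / 4) * ps R N D z := by
  have hN : (0 : ℝ) < N := by exact_mod_cast Nat.pos_of_ne_zero (NeZero.ne N)
  have hR1 := HubB_R h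
  have a0 := h.a0
  have a8 := h.a8
  have ra := h.ra
  have rb := h.rb
  have e0 := h.e0
  have ea := h.ea
  have r0 : 0 < ρ := lt_of_lt_of_le a0 ra
  have hR : (1 : ℝ) ≤ R := by exact_mod_cast hR1
  have hP : (0 : ℝ) < R * (R + 1) := by positivity
  have hcard := HubB_card hC h θ B D' t0 hN4 hB hD'
  have ha2 : a ^ 2 ≤ 1 / 64 := by nlinarith
  have q0 : 0 < (1 - ρ) * (1 - a ^ 2 / 25) := mul_pos (by linarith) (by linarith)
  have c0 : 0 < θ * (2 * R + 1) * ((1 - ρ) * (1 - a ^ 2 / 25)) := by positivity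
  have c1 : 0 < ((V0 (R - B) N D').card : ℝ) := lt_of_lt_of_le c0 hcard
  have hra : a ^ 2 ≤ ρ ^ 2 := by nlinarith
  have d0 : 0 < ρ ^ 2 - 2 * e := by
    have : a ^ 4 ≤ a ^ 2 / 64 := by nlinarith [sq_nonneg a]
    nlinarith [pow_pos a0 2]
  -- upper bound of the left side
  have hup : ∑ x ∈ V0 (R - B) N D', g x / rw' R N D x / ((V0 (R - B) N D').card : ℝ) ≤
      (ρ - ρ ^ 2 + 3 * e) / ((ρ ^ 2 - 2 * e) * ((2 * R + 1) * ((1 - ρ) * (1 - a ^ 2 / 25)))) := by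
    have h1 : ∀ x ∈ V0 (R - B) N D', g x / rw' R N D x / ((V0 (R - B) N D').card : ℝ) ≤
        g x / ((ρ ^ 2 - 2 * e) * (R * (R + 1)) *
          (θ * (2 * R + 1) * ((1 - ρ) * (1 - a ^ 2 / 25)))) := by
      intro x hx
      rw [HubB_mem_V0] at hx
      have hxR : |x| ≤ R := le_trans hx.1 (by exact_mod_cast Nat.sub_le R B)
      have hr := (HubB_row hW h hR1 x hxR (hg _ hx.2)).1
      rw [div_div]
      apply div_le_div_of_nonneg_left (g0 x) (by positivity)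
      exact mul_le_mul hr hcard c0.le (le_trans (by positivity) hr)
    refine le_trans (Finset.sum_le_sum h1) ?_
    rw [← Finset.sum_div]
    refine le_trans (div_le_div_of_nonneg_right hs (by positivity)) ?_
    rw [div_le_div_iff₀ (by positivity) (by positivity)]
    apply le_of_eq
    ring
  -- lower bound of the right side
  have hlo : (ρ ^ 2 - 2 * e) / ((ρ ^ 2 + 2 * e) * ((ρ + 2 * e) * (2 * R + 1))) ≤ ps R N D z := by
    unfold ps
    rw [if_pos hz]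
    have hz' := HubB_mem_V0.1 hz
    have hr := (HubB_row hW h hR1 z hz'.1 (h.good _ hz'.2)).1
    have hZ : ∑ x ∈ V0 R N D, rw' R N D x ≤
        ((ρ + 2 * e) * (2 * R + 1)) * ((ρ ^ 2 + 2 * e) * (R * (R + 1))) := by
      have h1 : ∑ x ∈ V0 R N D, rw' R N D x ≤
          ∑ x ∈ V0 R N D, (ρ ^ 2 + 2 * e) * (R * (R + 1)) := by
        refine Finset.sum_le_sum fun x hx => ?_
        rw [HubB_mem_V0] at hx
        exact (HubB_row hW h hR1 x hx.1 (h.good _ hx.2)).2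
      rw [Finset.sum_const, nsmul_eq_mul] at h1
      refine le_trans h1 (mul_le_mul_of_nonneg_right ?_ (by positivity))
      have h2 := hC R N D
      rw [abs_le] at h2
      have h3 := h.card
      rw [abs_le] at h3
      have h4 : (D.card : ℝ) / N ≤ ρ + e := by
        rw [div_le_iff₀ hN]; linarith
      have h5 : (D.card : ℝ) / N * (2 * R + 1) ≤ (ρ + e) * (2 * R + 1) :=
        mul_le_mul_of_nonneg_right h4 (by positivity)
      have h6 : (N : ℝ) ≤ e * (2 * R + 1) := by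
        have := h.big
        nlinarith
      linarith [h2.2]
    have hZ0 : 0 < ∑ x ∈ V0 R N D, rw' R N D x := by
      have h1 : rw' R N D z ≤ ∑ x ∈ V0 R N D, rw' R N D x :=
        Finset.single_le_sum (f := fun x => rw' R N D x)
          (fun x _ => HubB_rw_nonneg R N D x) hz
      exact lt_of_lt_of_le (by positivity) (le_trans hr h1)
    calc (ρ ^ 2 - 2 * e) / ((ρ ^ 2 + 2 * e) * ((ρ + 2 * e) * (2 * R + 1)))
        = ((ρ ^ 2 - 2 * e) * (R * (R + 1))) /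
          (((ρ + 2 * e) * (2 * R + 1)) * ((ρ ^ 2 + 2 * e) * (R * (R + 1)))) := by
          rw [div_eq_div_iff (by positivity) (by positivity)]
          ring
      _ ≤ rw' R N D z / (((ρ + 2 * e) * (2 * R + 1)) * ((ρ ^ 2 + 2 * e) * (R * (R + 1)))) :=
          div_le_div_of_nonneg_right hr (by positivity)
      _ ≤ rw' R N D z / ∑ x ∈ V0 R N D, rw' R N D x :=
          div_le_div_of_nonneg_left (HubB_rw_nonneg R N D z) hZ0 hZ
  refine le_trans hup (le_trans ?_ (mul_le_mul_of_nonneg_left hlo (by positivity)))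
  rw [← mul_div_assoc, div_le_div_iff₀ (by positivity) (by positivity)]
  have hpoly := HubB_poly a ρ e a0 a8 ra rb e0 ea
  have := mul_le_mul_of_nonneg_right hpoly (show (0 : ℝ) ≤ 2 * R + 1 by positivity)
  linarith

/-- the sum of the kernel over the allowed labels -/
theorem HubB_sum (hW : StmWavg) {a ρ e : ℝ} {R N : ℕ} [NeZero N] {D : Finset (ZMod N)}
    (h : Num a ρ e R N D) (θ : ℝ) (B : ℕ) (D' : Finset (ZMod N))
    (hN4 : 4 * (N : ℝ) ≤ e * θ * R)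
    (hf : ∀ b ∈ D, ((D'.filter (fun c => c + b ∈ D)).card : ℝ) ≤ θ * (ρ - ρ ^ 2 + 2 * e) * N)
    (g : ℤ → ℝ) (z : ℤ) (hz : |z| ≤ R) (hzD : (z : ZMod N) ∈ D)
    (hg : ∀ x, g x ≤ if (x : ZMod N) + (z : ZMod N) ∈ D then W R z x else 0) :
    ∑ x ∈ V0 (R - B) N D', g x ≤ θ * (ρ - ρ ^ 2 + 3 * e) * (R * (R + 1)) := by
  have hN : (0 : ℝ) < N := by exact_mod_cast Nat.pos_of_ne_zero (NeZero.ne N)
  have hR1 := HubB_R h
  have hR : (1 : ℝ) ≤ R := by exact_mod_cast hR1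
  have h1 := (abs_le.1 (hW R N z (D'.filter (fun c => c + (z : ZMod N) ∈ D)) hR1 hz)).2
  have h2 : ((D'.filter (fun c => c + (z : ZMod N) ∈ D)).card : ℝ) / N ≤
      θ * (ρ - ρ ^ 2 + 2 * e) := by
    rw [div_le_iff₀ hN]; exact hf _ hzD
  have h3 : ((D'.filter (fun c => c + (z : ZMod N) ∈ D)).card : ℝ) / N * (R * (R + 1)) ≤
      θ * (ρ - ρ ^ 2 + 2 * e) * (R * (R + 1)) :=
    mul_le_mul_of_nonneg_right h2 (by positivity)
  have h4 : 4 * (N : ℝ) * R ≤ θ * e * (R * (R + 1)) := by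
    have h5 := mul_le_mul_of_nonneg_right hN4 (show (0 : ℝ) ≤ R by linarith)
    have h6 : 0 ≤ e * θ * R := le_trans (by positivity) hN4
    nlinarith
  have h5 : ∑ x ∈ V0 (R - B) N D', g x ≤ ∑ x ∈ V0 (R - B) N D',
      (if (x : ZMod N) ∈ D'.filter (fun c => c + (z : ZMod N) ∈ D) then W R z x else 0) := by
    refine Finset.sum_le_sum fun x hx => ?_
    rw [HubB_mem_V0] at hx
    refine le_trans (hg x) (le_of_eq ?_)
    simp only [mem_filter, hx.2, true_and]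
  have h6 : ∑ x ∈ V0 (R - B) N D',
      (if (x : ZMod N) ∈ D'.filter (fun c => c + (z : ZMod N) ∈ D) then W R z x else 0) ≤
      ∑ x ∈ Om R,
      (if (x : ZMod N) ∈ D'.filter (fun c => c + (z : ZMod N) ∈ D) then W R z x else 0) := by
    apply Finset.sum_le_sum_of_subset_of_nonneg
    · intro x hx
      rw [HubB_mem_V0] at hx
      rw [HubB_mem_Om]
      exact le_trans hx.1 (by exact_mod_cast Nat.sub_le R B)
    · intro x _ _
      split_ifs
      · exact HubB_W_nonneg R z x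
      · exact le_rfl
  linarith

theorem p_HubB : HubOf := by
  intro hW hC a ρ e R N _ D h θ B D' t0 t1 hN4 hB hg hD' hf
  have a0 := h.a0
  have a8 := h.a8
  have ra := h.ra
  have rb := h.rb
  refine ⟨?_, ?_, ?_⟩
  · refine le_trans ?_ (HubB_card hC h θ B D' t0 hN4 hB hD')
    have : (1 - a) ≤ 1 - a ^ 2 / 25 := by nlinarith
    calc θ * (1 - ρ) * (1 - a) * (2 * R + 1)
        = (θ * (2 * R + 1) * (1 - ρ)) * (1 - a) := by ring
      _ ≤ (θ * (2 * R + 1) * (1 - ρ)) * (1 - a ^ 2 / 25) := by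
          apply mul_le_mul_of_nonneg_left this
          exact mul_nonneg (by positivity) (by linarith)
      _ = _ := by ring
  · intro y
    by_cases hy : y ∈ V0 R N D
    · have hy' := HubB_mem_V0.1 hy
      refine HubB_fin hW hC h θ B D' t0 hN4 hB hg hD' (fun x => Ku R N D x y) y hy
        (fun x => HubB_Ku_nonneg R N D x y) ?_
      refine HubB_sum hW h θ B D' hN4 hf _ y hy'.1 hy'.2 fun x => ?_
      unfold Ku
      rw [Int.cast_add, HubB_W_symm R x y]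
      simp only [hy'.2, true_and]
      exact le_rfl
    · have e1 : ps R N D y = 0 := by unfold ps; rw [if_neg hy]
      rw [e1, mul_zero]
      refine Finset.sum_nonpos fun x _ => ?_
      have e2 : Ku R N D x y = 0 := by
        unfold Ku
        split_ifs with h1
        · unfold W
          rw [if_neg]
          intro h2
          exact hy (HubB_mem_V0.2 ⟨h2.2.1, h1.1⟩)
        · rfl
      unfold Kn
      rw [e2, zero_div, zero_div]
  · intro s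
    by_cases hs : s ∈ V0 R N D
    · have hs' := HubB_mem_V0.1 hs
      refine HubB_fin hW hC h θ B D' t0 hN4 hB hg hD' (fun x => Ku R N D x (s - x)) s hs
        (fun x => HubB_Ku_nonneg R N D x _) ?_
      have hn : ((-s : ℤ) : ZMod N) ∈ D := by
        rw [Int.cast_neg]; exact h.sym _ hs'.2
      refine HubB_sum hW h θ B D' hN4 hf _ (-s) (by rw [abs_neg]; exact hs'.1) hn fun x => ?_
      unfold Ku
      have e1 : x + (s - x) = s := by ring
      rw [e1, HubB_W_sum R x s]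
      have e2 : ((s - x : ℤ) : ZMod N) ∈ D ↔ (x : ZMod N) + ((-s : ℤ) : ZMod N) ∈ D := by
        have e3 : ((s - x : ℤ) : ZMod N) = -((x : ZMod N) + ((-s : ℤ) : ZMod N)) := by
          push_cast
          ring
        rw [e3]
        constructor
        · intro h1
          have := h.sym _ h1
          rwa [neg_neg] at this
        · exact fun h1 => h.sym _ h1
      simp only [e2, hs'.2, and_true]
      exact le_rfl
    · have e1 : ps R N D s = 0 := by unfold ps; rw [if_neg hs]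
      rw [e1, mul_zero]
      refine Finset.sum_nonpos fun x _ => ?_
      have e2 : Ku R N D x (s - x) = 0 := by
        unfold Ku
        have e1 : x + (s - x) = s := by ring
        rw [e1]
        split_ifs with h1
        · unfold W
          rw [if_neg]
          intro h2
          rw [e1] at h2
          exact hs (HubB_mem_V0.2 ⟨h2.2.2, h1.2⟩)
        · rfl
      unfold Kn
      rw [e2, zero_div, zero_div]

end Pool.Agent.Lib.MP_8b7544_co.Df
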