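import Mathlib
import Pool.Agent.Lib.MP_8b7544_co.Df.Stm

/-!
# MP_8b7544_co, project Deficiency: M2, probability of an unusable labelling
-/

set_option autoImplicit false

namespace Pool.Agent.Lib.MP_8b7544_co.Df

open Finset

/-- the sum of place `i` depends on the first `j > i` values -/
theorem Inv_dep_sm {k i j : ℕ} {q : ℕ → ℕ} {b : ℤ} (hq : ∀ j, 1 ≤ j → j < k → q j < j)
    (hik : i < k) (hij : i < j) : Dep j (fun g => sm q b g i) := by
  intro g g' h
  unfold sm
  by_cases h0 : i = 0
  · simp only [h0, if_true]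
    rw [h 0 (by omega)]
  · simp only [h0, if_false]
    have := hq i (by omega) hik
    rw [h i hij, h (q i) (by omega)]

/-- `G j` has a given value depending on the earlier values with probability at most `lam` -/
theorem Inv_eq {V : Finset ℤ} {ph mu : ℤ → ℝ} {lam : ℝ} {k : ℕ} {q : ℕ → ℕ}
    {ι : Type} [Fintype ι] {w : ι → ℝ} {G : ι → ℕ → ℤ} (hL : Law V ph mu lam k q ι w G)
    {j : ℕ} (h1 : 1 ≤ j) (hk : j < k) {F : (ℕ → ℤ) → ℤ} (hF : Dep j F)
    {P : ι → Prop} (hP : ∀ i, w i ≠ 0 → P i → G i j = F (G i)) : Pr w P ≤ lam := by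
  have h := hL.cond j h1 hk (fun _ => True) F (fun _ _ _ => rfl) hF
  have ht : Pr w (fun _ => True) = 1 := by
    rw [Pr_eq]
    simpa using hL.tot
  rw [ht, mul_one] at h
  refine le_trans (Pr_mono hL.nn ?_) h
  intro i hi hPi
  exact ⟨trivial, hP i hi hPi⟩

/-- `G j + c` leaves the range with probability at most `2 B pm` -/
theorem Inv_sh {R B : ℕ} {V : Finset ℤ} {pm : ℝ} {c : ℤ} (hV : V ⊆ Om R) (hc : |c| ≤ B)
    (hpm : 0 ≤ pm) (hs : ∀ x ∈ V, x + c ∈ Om R → x + c ∈ V)
    {ι : Type} [Fintype ι] {w : ι → ℝ} {G : ι → ℤ} (hw : ∀ i, 0 ≤ w i)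
    (hG : ∀ i, w i ≠ 0 → G i ∈ V) (hp : ∀ y, Pr w (fun i => G i = y) ≤ pm)
    {P : ι → Prop} (hP : ∀ i, w i ≠ 0 → P i → G i + c ∉ V) : Pr w P ≤ 2 * B * pm := by
  classical
  have hcard : (Ioc ((R : ℤ) - B) R ∪ Ico (-(R : ℤ)) (-(R : ℤ) + B)).card ≤ 2 * B := by
    refine le_trans (card_union_le _ _) ?_
    rw [Int.card_Ioc, Int.card_Ico]
    omega
  have h1 : Pr w P ≤ Pr w (fun i => ∃ y ∈ Ioc ((R : ℤ) - B) R ∪ Ico (-(R : ℤ)) (-(R : ℤ) + B),
      G i = y) := by
    refine Pr_mono hw ?_
    intro i hi hPi
    refine ⟨G i, ?_, rfl⟩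
    have h2 := hG i hi
    have h3 : G i + c ∉ Om R := fun h => hP i hi hPi (hs _ h2 h)
    have h4 := hV h2
    unfold Om at h3 h4
    rw [mem_Icc] at h3 h4
    rw [mem_union, mem_Ioc, mem_Ico]
    have h5 := abs_le.mp hc
    omega
  refine le_trans h1 (le_trans (Pr_exists hw _ _) ?_)
  refine le_trans (Finset.sum_le_sum fun y _ => hp y) ?_
  rw [Finset.sum_const, nsmul_eq_mul]
  refine mul_le_mul_of_nonneg_right ?_ hpm
  exact_mod_cast hcard

theorem p_Inv : StmInv := by
  intro R V L K ph Gd lam pm mu hub k q b b' B U hK hI hC ι _ w G hL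
  classical
  have hpm : 0 ≤ pm := le_trans (hK.pnn 0) (hK.ppm 0)
  have hlam : 0 ≤ lam := le_trans hpm hK.plam
  have hpt : ∀ j < k, ∀ y, Pr w (fun i => G i j = y) ≤ lam := by
    intro j hj y
    rcases Nat.eq_zero_or_pos j with rfl | h
    · exact le_trans (hL.law0 y) (hI.le y)
    · exact le_trans (hL.lawV j h hj y) (le_trans (hK.ppm y) hK.plam)
  -- the k² events
  let Ev : ℕ × ℕ → ι → Prop := fun p i =>
    (p.1 < p.2 ∧ G i p.1 = G i p.2) ∨
    (p.2 < p.1 ∧ sm q b (G i) p.2 = sm q b (G i) p.1) ∨
    (p.1 = p.2 ∧ ∃ u ∈ U, G i u + b' = sm q b (G i) p.1)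
  have hsm : ∀ i j, 1 ≤ j → sm q b (G i) j = G i j + G i (q j) := by
    intro i j hj
    unfold sm
    rw [if_neg (by omega)]
  have hEv : ∀ p ∈ range k ×ˢ range k, Pr w (Ev p) ≤ lam := by
    rintro ⟨x, y⟩ hp
    rw [mem_product, mem_range, mem_range] at hp
    obtain ⟨hx, hy⟩ := hp
    simp only at hx hy
    rcases lt_trichotomy x y with hxy | hxy | hxy
    · refine Inv_eq hL (j := y) (by omega) hy (F := fun g => g x) (fun g g' h => h x hxy) ?_
      rintro i - h
      rcases h with h | h | h
      · exact h.2.symm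
      · have := h.1; simp only at this; omega
      · have := h.1; simp only at this; omega
    · subst hxy
      by_cases hU : ∃ u, u ∈ U
      · obtain ⟨u, hu⟩ := hU
        have huI := mem_Ico.mp (hC.U1 hu)
        have hone : ∀ u' ∈ U, u' = u := fun u' hu' => card_le_one.mp hC.Uc u' hu' u hu
        have hEv' : ∀ i, Ev (x, x) i → G i u + b' = sm q b (G i) x := by
          intro i h
          rcases h with h | h | h
          · have := h.1; simp only at this; omega
          · have := h.1; simp only at this; omega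
          · obtain ⟨u', hu', h'⟩ := h.2
            rw [hone u' hu'] at h'
            exact h'
        rcases lt_trichotomy x u with hxu | hxu | hxu
        · refine Inv_eq hL (j := u) huI.1 huI.2 (F := fun g => sm q b g x - b') ?_ ?_
          · intro g g' h
            have := Inv_dep_sm (b := b) hC.qlt hx hxu g g' h
            simp only at this ⊢
            rw [this]
          · intro i _ h
            have := hEv' i h
            omega
        · subst hxu
          have hq := hC.qlt x huI.1 huI.2
          refine le_trans (Pr_mono hL.nn ?_) (hpt (q x) (by omega) b')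
          intro i _ h
          have := hEv' i h
          rw [hsm i x huI.1] at this
          omega
        · have hq := hC.qlt x (by omega) hx
          refine Inv_eq hL (j := x) (by omega) hx (F := fun g => g u + b' - g (q x)) ?_ ?_
          · intro g g' h
            simp only
            rw [h u hxu, h (q x) hq]
          · intro i _ h
            have := hEv' i h
            rw [hsm i x (by omega)] at this
            omega
      · refine le_trans (Pr_mono hL.nn (Q := fun _ => False) ?_) ?_
        · intro i _ h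
          rcases h with h | h | h
          · have := h.1; simp only at this; omega
          · have := h.1; simp only at this; omega
          · obtain ⟨u', hu', -⟩ := h.2
            exact hU ⟨u', hu'⟩
        · rw [Pr_eq]
          simpa using hlam
    · have hq := hC.qlt x (by omega) hx
      refine Inv_eq hL (j := x) (by omega) hx (F := fun g => sm q b g y - g (q x)) ?_ ?_
      · intro g g' h
        have := Inv_dep_sm (b := b) hC.qlt hy hxy g g' h
        simp only at this ⊢
        rw [this, h (q x) hq]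
      · intro i _ h
        rcases h with h | h | h
        · have := h.1; simp only at this; omega
        · have h2 := h.2
          simp only at h2 ⊢
          rw [hsm i x (by omega)] at h2
          omega
        · have := h.1; simp only at this; omega
  have hA : Pr w (fun i => ∃ p ∈ range k ×ˢ range k, Ev p i) ≤ k ^ 2 * lam := by
    refine le_trans (Pr_exists hL.nn _ _) (le_trans (Finset.sum_le_sum hEv) ?_)
    rw [Finset.sum_const, nsmul_eq_mul, card_product, card_range]
    push_cast
    rw [pow_two]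
  have hD : Pr w (fun i => ¬ hub ∧ G i 0 + b ∉ V) ≤ 2 * B * pm := by
    by_cases hh : hub
    · refine le_trans (Pr_mono hL.nn (Q := fun _ => False) ?_) ?_
      · rintro i - ⟨h, -⟩
        exact h hh
      · rw [Pr_eq]
        simp only [if_false, Finset.sum_const_zero]
        positivity
    · refine Inv_sh (G := fun i => G i 0) hK.sub hC.hb hpm hC.sh hL.nn ?_ ?_ ?_
      · intro i hi
        exact (hC.nhub hh _).2 (hL.supp0 i hi)
      · intro y
        exact le_trans (hL.law0 y) (le_trans (hC.nhub hh y).1 (hK.ppm y))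
      · rintro i - ⟨-, h⟩
        exact h
  have hE : Pr w (fun i => ∃ u ∈ U, G i u + b' ∉ V) ≤ 2 * B * pm := by
    by_cases hU : ∃ u, u ∈ U
    · obtain ⟨u, hu⟩ := hU
      have huI := mem_Ico.mp (hC.U1 hu)
      have hone : ∀ u' ∈ U, u' = u := fun u' hu' => card_le_one.mp hC.Uc u' hu' u hu
      refine Inv_sh (G := fun i => G i u) hK.sub hC.hb' hpm hC.sh' hL.nn ?_ ?_ ?_
      · intro i hi
        exact (hL.supp i hi u huI.1 huI.2).1
      · intro y
        exact le_trans (hL.lawV u huI.1 huI.2 y) (hK.ppm y)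
      · rintro i - ⟨u', hu', h⟩
        rw [hone u' hu'] at h
        exact h
    · refine le_trans (Pr_mono hL.nn (Q := fun _ => False) ?_) ?_
      · rintro i - ⟨u', hu', -⟩
        exact hU ⟨u', hu'⟩
      · rw [Pr_eq]
        simp only [if_false, Finset.sum_const_zero]
        positivity
  have hall : Pr w (fun i => ¬ Val V L hub k q b b' U (G i)) ≤
      Pr w (fun i => (∃ p ∈ range k ×ˢ range k, Ev p i) ∨
        ((¬ hub ∧ G i 0 + b ∉ V) ∨ (∃ u ∈ U, G i u + b' ∉ V))) := by
    refine Pr_mono hL.nn ?_
    intro i hi hval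
    by_contra hcon
    rw [not_or, not_or] at hcon
    obtain ⟨h1, h2, h3⟩ := hcon
    have hev : ∀ x < k, ∀ y < k, ¬ Ev (x, y) i := by
      intro x hx y hy h
      exact h1 ⟨(x, y), mem_product.mpr ⟨mem_range.mpr hx, mem_range.mpr hy⟩, h⟩
    refine hval ⟨?_, ?_, ?_, ?_, ?_, ?_, ?_⟩
    · intro x hx y hy hxy
      rcases lt_trichotomy x y with h | h | h
      · exact absurd (Or.inl ⟨h, hxy⟩) (hev x hx y hy)
      · exact h
      · exact absurd (Or.inl ⟨h, hxy.symm⟩) (hev y hy x hx)
    · intro j h1 hj
      rw [hsm i j h1]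
      exact hL.supp i hi j h1 hj
    · intro hh
      exact (hC.hubL hh _ (hL.supp0 i hi)).1
    · intro hh
      refine ⟨(hC.nhub hh _).2 (hL.supp0 i hi), ?_⟩
      unfold sm
      rw [if_pos rfl]
      by_contra h
      exact h2 ⟨hh, h⟩
    · intro u hu
      by_contra h
      exact h3 ⟨u, hu, h⟩
    · intro x hx y hy hxy
      rcases lt_trichotomy x y with h | h | h
      · exact absurd (Or.inr (Or.inl ⟨h, hxy⟩)) (hev y hy x hx)
      · exact h
      · exact absurd (Or.inr (Or.inl ⟨h, hxy.symm⟩)) (hev x hx y hy)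
    · intro u hu j hj h
      exact absurd (Or.inr (Or.inr ⟨rfl, u, hu, h⟩)) (hev j hj j hj)
  refine le_trans hall (le_trans (Pr_or hL.nn _ _) ?_)
  have hDE := Pr_or hL.nn (fun i => ¬ hub ∧ G i 0 + b ∉ V) (fun i => ∃ u ∈ U, G i u + b' ∉ V)
  linarith

end Pool.Agent.Lib.MP_8b7544_co.Df
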