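import Pool.Agent.Lib.MP_8b7544_co.Df.Stm

/-!
# MP_8b7544_co, project Deficiency: piece A6 (bounds for the kernel)
-/

set_option autoImplicit false

namespace Pool.Agent.Lib.MP_8b7544_co.Df

open Finset

theorem KerB_mem_Om {R : ℕ} {x : ℤ} : x ∈ Om R ↔ |x| ≤ R := by
  unfold Om
  rw [Finset.mem_Icc, abs_le]

theorem KerB_mem_V0 {R N : ℕ} {D : Finset (ZMod N)} {x : ℤ} :
    x ∈ V0 R N D ↔ |x| ≤ R ∧ (x : ZMod N) ∈ D := by
  unfold V0
  rw [Finset.mem_filter, KerB_mem_Om]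

theorem KerB_W_nonneg (R : ℕ) (x y : ℤ) : 0 ≤ W R x y := by
  unfold W
  split_ifs
  · have : (0 : ℤ) ≤ max |x| (max |y| |x + y|) := le_max_of_le_left (abs_nonneg x)
    exact_mod_cast this
  · exact le_rfl

theorem KerB_W_le (R : ℕ) (x y : ℤ) : W R x y ≤ R := by
  unfold W
  split_ifs with h
  · have : max |x| (max |y| |x + y|) ≤ (R : ℤ) := max_le h.1 (max_le h.2.1 h.2.2)
    exact_mod_cast this
  · exact Nat.cast_nonneg R

theorem KerB_Ku_nonneg (R N : ℕ) (D : Finset (ZMod N)) (x y : ℤ) : 0 ≤ Ku R N D x y := by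
  unfold Ku
  split_ifs
  · exact KerB_W_nonneg R x y
  · exact le_rfl

theorem KerB_Ku_le (R N : ℕ) (D : Finset (ZMod N)) (x y : ℤ) : Ku R N D x y ≤ R := by
  unfold Ku
  split_ifs
  · exact KerB_W_le R x y
  · exact Nat.cast_nonneg R

theorem KerB_Ku_supp {R N : ℕ} {D : Finset (ZMod N)} {x y : ℤ} (h : Ku R N D x y ≠ 0) :
    y ∈ V0 R N D ∧ x + y ∈ V0 R N D := by
  unfold Ku at h
  split_ifs at h with h1
  · unfold W at h
    split_ifs at h with h2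
    · exact ⟨KerB_mem_V0.2 ⟨h2.2.1, h1.1⟩, KerB_mem_V0.2 ⟨h2.2.2, h1.2⟩⟩
    · exact absurd rfl h
  · exact absurd rfl h

theorem KerB_rw_nonneg (R N : ℕ) (D : Finset (ZMod N)) (x : ℤ) : 0 ≤ rw' R N D x :=
  Finset.sum_nonneg fun y _ => KerB_Ku_nonneg R N D x y

theorem KerB_sum_V0 (R N : ℕ) (D : Finset (ZMod N)) (x : ℤ) :
    ∑ y ∈ V0 R N D, Ku R N D x y = rw' R N D x := by
  unfold rw'
  refine Finset.sum_subset (Finset.filter_subset _ _) fun y _ hy => ?_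
  by_contra h
  exact hy (KerB_Ku_supp h).1

theorem KerB_rw_eq (R N : ℕ) (D : Finset (ZMod N)) (x : ℤ) :
    rw' R N D x = ∑ y ∈ Om R,
      (if (y : ZMod N) ∈ D.filter (fun b => (x : ZMod N) + b ∈ D) then W R x y else 0) := by
  unfold rw'
  refine Finset.sum_congr rfl fun y _ => ?_
  unfold Ku
  simp only [Finset.mem_filter, Int.cast_add]

/-- the bounds for the row sums -/
theorem KerB_rw (hW : StmWavg) {a ρ e : ℝ} {R N : ℕ} [NeZero N] {D : Finset (ZMod N)}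
    (h : Num a ρ e R N D) (hR : 1 ≤ R) (x : ℤ) (hx : |x| ≤ R)
    (hg : |(Qr D (x : ZMod N) : ℝ) - ρ ^ 2 * N| ≤ e * N) :
    (ρ ^ 2 - 2 * e) * (R * (R + 1)) ≤ rw' R N D x ∧
      rw' R N D x ≤ (ρ ^ 2 + 2 * e) * (R * (R + 1)) := by
  have h1 := hW R N x (D.filter (fun b => (x : ZMod N) + b ∈ D)) hR hx
  rw [← KerB_rw_eq] at h1
  have hQ : (D.filter (fun b => (x : ZMod N) + b ∈ D)).card = Qr D (x : ZMod N) := rfl
  rw [hQ] at h1
  have hN : (0 : ℝ) < N := by exact_mod_cast Nat.pos_of_ne_zero (NeZero.ne N)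
  have hR' : (1 : ℝ) ≤ R := by exact_mod_cast hR
  have hP : (0 : ℝ) < R * (R + 1) := by positivity
  have h2 : |(Qr D (x : ZMod N) : ℝ) / N - ρ ^ 2| ≤ e := by
    have e1 : (Qr D (x : ZMod N) : ℝ) / N - ρ ^ 2 =
        ((Qr D (x : ZMod N) : ℝ) - ρ ^ 2 * N) / N := by
      field_simp
    rw [e1, abs_div, abs_of_pos hN, div_le_iff₀ hN]
    exact hg
  have h3 : 4 * (N : ℝ) * R ≤ e * (R * (R + 1)) := by
    have := mul_le_mul_of_nonneg_right h.big (by linarith : (0 : ℝ) ≤ R)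
    have h4 : 0 ≤ e * R := mul_nonneg h.e0.le (by linarith)
    nlinarith
  rw [abs_le] at h1 h2
  have h4 := mul_le_mul_of_nonneg_right h2.1 hP.le
  have h5 := mul_le_mul_of_nonneg_right h2.2 hP.le
  constructor <;> nlinarith [h1.1, h1.2]

theorem p_KerB : KerOf := by
  intro hW hC a ρ e R N _ D h
  have hN0 : 0 < N := Nat.pos_of_ne_zero (NeZero.ne N)
  have hN1 : (1 : ℝ) ≤ N := by exact_mod_cast hN0
  obtain ⟨ha0, ha8, hra, hrb, he0, hea, hbig, -, hcard, hgood⟩ := id h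
  have ha2 : 0 < a ^ 2 := by positivity
  have ha4 : a ^ 4 ≤ a ^ 2 / 64 := by
    have : a ^ 2 ≤ 1 / 64 := by nlinarith
    nlinarith
  have he1 : e ≤ 1 := by nlinarith
  have hR4 : (4 : ℝ) ≤ R := by
    have h1 : (4 : ℝ) ≤ e * R := le_trans (by linarith) hbig
    have h2 : (0 : ℝ) ≤ R := Nat.cast_nonneg R
    nlinarith
  have hR1 : 1 ≤ R := by
    have : (1 : ℝ) ≤ R := by linarith
    exact_mod_cast this
  have hRp : (0 : ℝ) < R := by linarith
  have hP : (0 : ℝ) < R * (R + 1) := by positivity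
  have hrho2 : a ^ 2 ≤ ρ ^ 2 := pow_le_pow_left₀ ha0.le hra 2
  have hlow : a ^ 2 / 2 ≤ ρ ^ 2 - 2 * e := by nlinarith
  have hpos : 0 < ρ ^ 2 - 2 * e := by linarith
  have hrw := fun x hx hg => KerB_rw hW h hR1 x hx hg
  have hV : ∀ x ∈ V0 R N D, (ρ ^ 2 - 2 * e) * (R * (R + 1)) ≤ rw' R N D x ∧
      rw' R N D x ≤ (ρ ^ 2 + 2 * e) * (R * (R + 1)) := by
    intro x hx
    rw [KerB_mem_V0] at hx
    exact hrw x hx.1 (hgood _ hx.2)
  have hcV : (ρ - 2 * e) * (2 * R + 1) ≤ ((V0 R N D).card : ℝ) := by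
    have h1 := hC R N D
    have h2 : (ρ - e) ≤ (D.card : ℝ) / N := by
      rw [le_div_iff₀ (by linarith)]
      rw [abs_le] at hcard
      nlinarith [hcard.1]
    have h3 := mul_le_mul_of_nonneg_right h2 (by positivity : (0 : ℝ) ≤ 2 * R + 1)
    rw [abs_le] at h1
    have h4 : (N : ℝ) ≤ e * (2 * R + 1) := by nlinarith
    nlinarith [h1.1]
  have he3 : 2 * e ≤ a ^ 3 * ρ / 50 := by
    have h1 : a ^ 3 * a ≤ a ^ 3 * ρ := mul_le_mul_of_nonneg_left hra (by positivity)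
    nlinarith
  have he2 : 2 * e ≤ a ^ 2 * ρ ^ 2 / 50 := by
    have h1 : a ^ 2 * a ^ 2 ≤ a ^ 2 * ρ ^ 2 := mul_le_mul_of_nonneg_left hrho2 (by positivity)
    nlinarith
  have hρ0 : 0 < ρ := by linarith
  have hρe : 0 < ρ - 2 * e := by
    have h1 : a ^ 3 ≤ 1 := pow_le_one₀ ha0.le (by linarith)
    nlinarith
  have hVpos : (0 : ℝ) < ((V0 R N D).card : ℝ) :=
    lt_of_lt_of_le (by positivity) hcV
  have hZ : ((V0 R N D).card : ℝ) * ((ρ ^ 2 - 2 * e) * (R * (R + 1))) ≤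
      ∑ z ∈ V0 R N D, rw' R N D z := by
    rw [← nsmul_eq_mul]
    exact Finset.card_nsmul_le_sum _ _ _ fun z hz => (hV z hz).1
  have hZpos : 0 < ∑ z ∈ V0 R N D, rw' R N D z :=
    lt_of_lt_of_le (by positivity) hZ
  refine ⟨fun x hx hg => ?_, fun x y => ?_, fun x y hxy => ?_, ?_, fun x => ?_, fun x => ?_⟩
  · have h1 := (hrw x hx hg).1
    have h2 : 0 < rw' R N D x := lt_of_lt_of_le (by positivity) h1
    refine ⟨?_, fun y => ?_⟩
    · unfold Kn
      rw [← Finset.sum_div, KerB_sum_V0, div_self h2.ne']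
    · unfold Kn
      rw [div_le_div_iff₀ h2 (by positivity)]
      have h3 := KerB_Ku_le R N D x y
      have h4 : Ku R N D x y * (a ^ 2 * R) ≤ R * (a ^ 2 * R) :=
        mul_le_mul_of_nonneg_right h3 (by positivity)
      have h5 : a ^ 2 / 2 * (R * (R + 1)) ≤ (ρ ^ 2 - 2 * e) * (R * (R + 1)) :=
        mul_le_mul_of_nonneg_right hlow hP.le
      have h6 : 0 ≤ a ^ 2 * R := by positivity
      nlinarith
  · exact div_nonneg (KerB_Ku_nonneg R N D x y) (KerB_rw_nonneg R N D x)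
  · refine KerB_Ku_supp (R := R) (N := N) (D := D) fun h0 => hxy ?_
    unfold Kn
    rw [h0, zero_div]
  · have h1 : ∑ x ∈ V0 R N D, ps R N D x =
        ∑ x ∈ V0 R N D, rw' R N D x / ∑ z ∈ V0 R N D, rw' R N D z :=
      Finset.sum_congr rfl fun x hx => by unfold ps; rw [if_pos hx]
    rw [h1, ← Finset.sum_div, div_self hZpos.ne']
  · unfold ps
    split_ifs
    · exact div_nonneg (KerB_rw_nonneg R N D x) hZpos.le
    · exact le_rfl
  · unfold ps
    split_ifs with hx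
    · rw [div_le_div_iff₀ hZpos (by positivity)]
      have h1 := (hV x hx).2
      have h2 : (ρ ^ 2 + 2 * e) * ρ ≤ (1 + a / 4) * ((ρ ^ 2 - 2 * e) * (ρ - 2 * e)) := by
        have i1 : (ρ ^ 2 + 2 * e) ≤ ρ ^ 2 * (1 + a ^ 2 / 50) := by linarith
        have i2 : ρ ^ 2 * (1 - a ^ 2 / 50) ≤ ρ ^ 2 - 2 * e := by linarith
        have i3 : ρ * (1 - a ^ 3 / 50) ≤ ρ - 2 * e := by linarith
        have a3 : a ^ 3 ≤ a ^ 2 / 8 := by nlinarith
        have a3' : 0 < a ^ 3 := by positivity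
        have i4 : 0 ≤ 1 - a ^ 3 / 50 := by nlinarith
        have i5 : ρ ^ 2 * (1 - a ^ 2 / 50) * (ρ * (1 - a ^ 3 / 50)) ≤
            (ρ ^ 2 - 2 * e) * (ρ - 2 * e) :=
          mul_le_mul i2 i3 (mul_nonneg hρ0.le i4) hpos.le
        have i6 : (1 + a ^ 2 / 50) ≤ (1 + a / 4) * ((1 - a ^ 2 / 50) * (1 - a ^ 3 / 50)) := by
          have j1 : 1 - a ^ 2 / 40 ≤ (1 - a ^ 2 / 50) * (1 - a ^ 3 / 50) := by nlinarith
          have j2 := mul_le_mul_of_nonneg_left j1 (by positivity : (0 : ℝ) ≤ 1 + a / 4)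
          refine le_trans ?_ j2
          have j3 : a ^ 2 ≤ a / 8 := by nlinarith
          nlinarith
        calc (ρ ^ 2 + 2 * e) * ρ ≤ ρ ^ 2 * (1 + a ^ 2 / 50) * ρ :=
              mul_le_mul_of_nonneg_right i1 hρ0.le
          _ = ρ ^ 3 * (1 + a ^ 2 / 50) := by ring
          _ ≤ ρ ^ 3 * ((1 + a / 4) * ((1 - a ^ 2 / 50) * (1 - a ^ 3 / 50))) :=
              mul_le_mul_of_nonneg_left i6 (by positivity)
          _ = (1 + a / 4) * (ρ ^ 2 * (1 - a ^ 2 / 50) * (ρ * (1 - a ^ 3 / 50))) := by ring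
          _ ≤ _ := mul_le_mul_of_nonneg_left i5 (by positivity)
      have h3 : (1 + a / 4) * (((ρ - 2 * e) * (2 * R + 1)) * ((ρ ^ 2 - 2 * e) * (R * (R + 1)))) ≤
          (1 + a / 4) * ∑ z ∈ V0 R N D, rw' R N D z :=
        mul_le_mul_of_nonneg_left
          (le_trans (mul_le_mul_of_nonneg_right hcV (by positivity)) hZ) (by positivity)
      calc rw' R N D x * (ρ * (2 * R + 1))
          ≤ (ρ ^ 2 + 2 * e) * (R * (R + 1)) * (ρ * (2 * R + 1)) :=
            mul_le_mul_of_nonneg_right h1 (by positivity)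
        _ = ((ρ ^ 2 + 2 * e) * ρ) * ((R * (R + 1)) * (2 * R + 1)) := by ring
        _ ≤ ((1 + a / 4) * ((ρ ^ 2 - 2 * e) * (ρ - 2 * e))) * ((R * (R + 1)) * (2 * R + 1)) :=
            mul_le_mul_of_nonneg_right h2 (by positivity)
        _ = (1 + a / 4) * (((ρ - 2 * e) * (2 * R + 1)) * ((ρ ^ 2 - 2 * e) * (R * (R + 1)))) := by
            ring
        _ ≤ _ := h3
    · positivity

end Pool.Agent.Lib.MP_8b7544_co.Df
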