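import Pool.Agent.Lib.MP_8b7544_co.Df.Stm

/-!
# MP_8b7544_co, project Deficiency: piece LawP (helper57)
-/

set_option autoImplicit false

namespace Pool.Agent.Lib.MP_8b7544_co.Df

open Finset

theorem LawP_inner {V : Finset ℤ} {K : ℤ → ℤ → ℝ} (nn : ∀ x y, 0 ≤ K x y) (a : ℝ) (ha : 0 ≤ a)
    (x c : ℤ) : (∑ y : V, if (y : ℤ) = c then a * K x y else 0) ≤ a * K x c := by
  rw [Finset.sum_coe_sort V (fun y => if y = c then a * K x y else 0), Finset.sum_ite_eq']
  split_ifs
  · exact le_rfl
  · exact mul_nonneg ha (nn x c)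

theorem LawP_grp {ι : Type} [Fintype ι] {w : ι → ℝ} (X : ι → ℤ)
    (S : Finset ℤ) (hS : ∀ i, w i ≠ 0 → X i ∈ S) (h m : ℤ → ℝ) (hh : ∀ x, 0 ≤ h x)
    (hm : ∀ x ∈ S, Pr w (fun i => X i = x) ≤ m x) :
    ∑ i, w i * h (X i) ≤ ∑ x ∈ S, m x * h x := by
  calc ∑ i, w i * h (X i) = ∑ i, ∑ x ∈ S, (if X i = x then w i else 0) * h x := by
        refine Finset.sum_congr rfl fun i _ => ?_
        by_cases h0 : w i = 0
        · simp [h0]
        · have h1 : ∀ x ∈ S, (if X i = x then w i else 0) * h x =
              if X i = x then w i * h x else 0 := by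
            intro x _
            split_ifs <;> simp
          rw [Finset.sum_congr rfl h1, Finset.sum_ite_eq, if_pos (hS i h0)]
    _ = ∑ x ∈ S, Pr w (fun i => X i = x) * h x := by
        rw [Finset.sum_comm]
        refine Finset.sum_congr rfl fun x _ => ?_
        rw [Pr_eq, Finset.sum_mul]
    _ ≤ _ := Finset.sum_le_sum fun x hx => mul_le_mul_of_nonneg_right (hm x hx) (hh x)

theorem p_LawP : StmLaw := by
  intro R V K ph Gd lam pm mu k q hK hI hk hq
  induction k, hk using Nat.le_induction with
  | base =>
    refine ⟨Om R, inferInstance, fun x => mu x, fun x _ => x, ?_⟩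
    refine ⟨fun i => hI.nn _, ?_, fun i hi => hi, ?_, ?_, ?_, ?_, ?_⟩
    · rw [Finset.sum_coe_sort (Om R) mu]
      exact hI.tot
    · intro i _ j h1 h2
      omega
    · intro y
      rw [Pr_eq, Finset.sum_coe_sort (Om R) (fun x => if x = y then mu x else 0),
        Finset.sum_ite_eq']
      split_ifs
      · exact le_rfl
      · exact hI.nn y
    · intro j h1 h2
      omega
    · intro j h1 h2
      omega
    · intro j h1 h2
      omega
  | succ k hk ih =>
    obtain ⟨ι, hι, w, G, hL⟩ := ih (fun j h1 h2 => hq j h1 (by omega))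
    letI := hι
    have hqk : q k < k := hq k hk (by omega)
    let w' : ι × V → ℝ := fun p => w p.1 * K (G p.1 (q k)) p.2
    let G' : ι × V → ℕ → ℤ := fun p => Function.update (G p.1) k (p.2 : ℤ)
    have hGlt : ∀ p : ι × V, ∀ j, j < k → G' p j = G p.1 j := fun p j hj =>
      Function.update_of_ne (by omega) _ _
    have hGk : ∀ p : ι × V, G' p k = p.2 := fun p => Function.update_self _ _ _
    have hw' : ∀ p, 0 ≤ w' p := fun p => mul_nonneg (hL.nn _) (hK.nn _ _)
    have hwp : ∀ p : ι × V, w' p ≠ 0 → w p.1 ≠ 0 := fun p hp h0 => hp (by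
      change w p.1 * _ = 0
      rw [h0, zero_mul])
    have hGd : ∀ i, w i ≠ 0 → Gd (G i (q k)) := by
      intro i hi
      by_cases hq0 : q k = 0
      · rw [hq0]
        exact (hI.gd _ (hL.supp0 i hi)).1
      · exact hK.gd _ (hL.supp i hi (q k) (by omega) hqk).1
    have hrow : ∀ i, w i * ∑ y : V, K (G i (q k)) y = w i := by
      intro i
      by_cases h0 : w i = 0
      · rw [h0, zero_mul]
      · rw [Finset.sum_coe_sort V (fun y => K (G i (q k)) y), hK.row _ (hGd i h0), mul_one]
    have marg : ∀ (P : ι → Prop) (P' : ι × V → Prop), (∀ p, P' p ↔ P p.1) →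
        Pr w' P' = Pr w P := by
      classical
      intro P P' h
      rw [Pr_eq, Pr_eq, Fintype.sum_prod_type]
      refine Finset.sum_congr rfl fun i _ => ?_
      by_cases hP : P i
      · rw [if_pos hP]
        conv_rhs => rw [← hrow i, Finset.mul_sum]
        refine Finset.sum_congr rfl fun y _ => ?_
        rw [if_pos ((h (i, y)).mpr hP)]
      · rw [if_neg hP]
        refine Finset.sum_eq_zero fun y _ => ?_
        rw [if_neg (fun h' => hP ((h (i, y)).mp h'))]
    have hone : ∀ (E : ι → Prop) [DecidablePred E] (c : ι → ℤ) (P' : ι × V → Prop),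
        (∀ p, P' p ↔ E p.1 ∧ (p.2 : ℤ) = c p.1) →
        Pr w' P' ≤ ∑ i, if E i then w i * K (G i (q k)) (c i) else 0 := by
      classical
      intro E _ c P' h
      rw [Pr_eq, Fintype.sum_prod_type]
      refine Finset.sum_le_sum fun i _ => ?_
      by_cases hE : E i
      · rw [if_pos hE]
        refine le_trans (le_of_eq ?_) (LawP_inner (V := V) hK.nn (w i) (hL.nn i)
          (G i (q k)) (c i))
        refine Finset.sum_congr rfl fun y _ => ?_
        by_cases hy : (y : ℤ) = c i
        · rw [if_pos hy, if_pos ((h (i, y)).mpr ⟨hE, hy⟩)]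
        · rw [if_neg hy, if_neg (fun h' => hy ((h (i, y)).mp h').2)]
      · rw [if_neg hE]
        refine le_of_eq (Finset.sum_eq_zero fun y _ => ?_)
        rw [if_neg (fun h' => hE ((h (i, y)).mp h').1)]
    have hone' : ∀ (c : ι → ℤ) (P' : ι × V → Prop), (∀ p, P' p ↔ (p.2 : ℤ) = c p.1) →
        Pr w' P' ≤ ∑ i, w i * K (G i (q k)) (c i) := by
      intro c P' h
      refine (hone (fun _ => True) c P' (fun p => by rw [h p]; simp)).trans (le_of_eq ?_)
      exact Finset.sum_congr rfl fun i _ => if_pos trivial
    have hgrp : ∀ (h : ℤ → ℝ) (c : ℝ), (∀ x, 0 ≤ h x) → (∑ x ∈ Om R, mu x * h x ≤ c) →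
        (∑ x ∈ V, ph x * h x ≤ c) → ∑ i, w i * h (G i (q k)) ≤ c := by
      intro h c hh h1 h2
      by_cases hq0 : q k = 0
      · refine (LawP_grp (fun i => G i (q k)) (Om R) ?_ h mu hh ?_).trans h1
        · intro i hi
          rw [hq0]
          exact (hI.gd _ (hL.supp0 i hi)).2
        · intro x _
          rw [hq0]
          exact hL.law0 x
      · refine (LawP_grp (fun i => G i (q k)) V ?_ h ph hh ?_).trans h2
        · intro i hi
          exact (hL.supp i hi (q k) (by omega) hqk).1
        · intro x _
          exact hL.lawV (q k) (by omega) hqk x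
    refine ⟨ι × V, inferInstance, w', G', ?_⟩
    refine ⟨hw', ?_, ?_, ?_, ?_, ?_, ?_, ?_⟩
    · rw [Fintype.sum_prod_type]
      rw [← hL.tot]
      refine Finset.sum_congr rfl fun i _ => ?_
      conv_rhs => rw [← hrow i, Finset.mul_sum]
    · intro p hp
      rw [hGlt p 0 (by omega)]
      exact hL.supp0 _ (hwp p hp)
    · intro p hp j h1 h2
      have hqj := hq j h1 h2
      rw [hGlt p (q j) (by omega)]
      by_cases hj : j < k
      · rw [hGlt p j hj]
        exact hL.supp _ (hwp p hp) j h1 hj
      · have hjk : j = k := by omega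
        subst hjk
        rw [hGk p]
        have hKne : K (G p.1 (q j)) p.2 ≠ 0 := fun h0 => hp (by
          change _ * K (G p.1 (q j)) p.2 = 0
          rw [h0, mul_zero])
        have := hK.supp _ _ hKne
        exact ⟨this.1, by rw [add_comm]; exact this.2⟩
    · intro y
      rw [marg (fun i => G i 0 = y) _ (fun p => by rw [hGlt p 0 (by omega)])]
      exact hL.law0 y
    · intro j h1 h2 y
      by_cases hj : j < k
      · rw [marg (fun i => G i j = y) _ (fun p => by rw [hGlt p j hj])]
        exact hL.lawV j h1 hj y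
      · have hjk : j = k := by omega
        subst hjk
        refine (hone' (fun _ => y) _ (fun p => by rw [hGk p])).trans ?_
        exact hgrp (fun x => K x y) _ (fun x => hK.nn x y) (hI.in1 y) (hK.st1 y)
    · intro j h1 h2 s
      have hqj := hq j h1 h2
      by_cases hj : j < k
      · rw [marg (fun i => G i j + G i (q j) = s) _
          (fun p => by rw [hGlt p j hj, hGlt p (q j) (by omega)])]
        exact hL.lawS j h1 hj s
      · have hjk : j = k := by omega
        subst hjk
        refine (hone' (fun i => s - G i (q j)) _ (fun p => by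
          rw [hGk p, hGlt p (q j) (by omega)]
          constructor
          · intro h; omega
          · intro h; omega)).trans ?_
        exact hgrp (fun x => K x (s - x)) _ (fun x => hK.nn x _) (hI.in2 s) (hK.st2 s)
    · intro j h1 h2 E F hE hF
      have hEG : ∀ p, E (G' p) ↔ E (G p.1) := fun p => by
        rw [hE (G' p) (G p.1) (fun i hi => hGlt p i (by omega))]
      have hFG : ∀ p, F (G' p) = F (G p.1) := fun p =>
        hF (G' p) (G p.1) (fun i hi => hGlt p i (by omega))
      rw [marg (fun i => E (G i)) _ hEG]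
      by_cases hj : j < k
      · rw [marg (fun i => E (G i) ∧ G i j = F (G i)) _
          (fun p => by rw [hEG, hFG, hGlt p j hj])]
        exact hL.cond j h1 hj E F hE hF
      · have hjk : j = k := by omega
        subst hjk
        classical
        refine (hone (fun i => E (G i)) (fun i => F (G i)) _
          (fun p => by rw [hEG, hFG, hGk p])).trans ?_
        rw [Pr_eq, Finset.mul_sum]
        refine Finset.sum_le_sum fun i _ => ?_
        by_cases hEi : E (G i)
        · rw [if_pos hEi, if_pos hEi]
          by_cases h0 : w i = 0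
          · rw [h0, zero_mul, mul_zero]
          · rw [mul_comm lam]
            exact mul_le_mul_of_nonneg_left (hK.le _ (hGd i h0) _) (hL.nn i)
        · rw [if_neg hEi, if_neg hEi, mul_zero]

end Pool.Agent.Lib.MP_8b7544_co.Df
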