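import Pool.Agent.Lib.MP_8b7544_co.Df.Stm

/-!
# MP_8b7544_co, project Deficiency: piece T2 (helper93), closure under lowest common ancestors
-/

set_option autoImplicit false

namespace Pool.Agent.Lib.MP_8b7544_co.Df

open Finset

private theorem Lca_parent_le {p : ℕ → ℕ} (hp : Par p) (v : ℕ) : p v ≤ v := by
  rcases Nat.eq_zero_or_pos v with rfl | hv
  · exact hp.zero.le
  · exact (hp.lt v hv).le

private theorem Lca_le {p : ℕ → ℕ} (hp : Par p) (a v : ℕ) : p^[a] v ≤ v := by
  induction a with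
  | zero => exact le_rfl
  | succ a ih =>
    rw [Function.iterate_succ_apply']
    exact (Lca_parent_le hp _).trans ih

private theorem Lca_zero {p : ℕ → ℕ} (hp : Par p) (v : ℕ) : ∃ a, p^[a] v = 0 := by
  induction v using Nat.strong_induction_on with
  | _ v ih =>
    rcases Nat.eq_zero_or_pos v with rfl | hv
    · exact ⟨0, rfl⟩
    · obtain ⟨a, ha⟩ := ih (p v) (hp.lt v hv)
      exact ⟨a + 1, by rw [Function.iterate_succ_apply, ha]⟩

theorem p_Lca : StmLca := by
  classical
  intro n p hp Y hY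
  rcases Y.eq_empty_or_nonempty with rfl | hne
  · refine ⟨∅, subset_rfl, empty_subset _, by simp, ?_⟩
    intro c c' _ _ _ _ h _
    obtain ⟨z, hz, _⟩ := h
    exact absurd hz (notMem_empty z)
  obtain ⟨A, hA⟩ : ∃ A : Finset ℕ, A = (range n).filter (fun v => Leads p Y v) := ⟨_, rfl⟩
  have hAm : ∀ v, v ∈ A ↔ v < n ∧ Leads p Y v := by
    intro v
    rw [hA, mem_filter, mem_range]
  have h0A : 0 ∈ A := by
    obtain ⟨y, hy⟩ := hne
    obtain ⟨a, ha⟩ := Lca_zero hp y
    exact (hAm 0).2 ⟨(Nat.zero_le y).trans_lt (mem_range.1 (hY hy)), y, hy, a, ha⟩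
  have hpA : ∀ v ∈ A, p v ∈ A := by
    intro v hv
    obtain ⟨h1, z, hz, a, ha⟩ := (hAm v).1 hv
    refine (hAm (p v)).2 ⟨(Lca_parent_le hp v).trans_lt h1, z, hz, a + 1, ?_⟩
    rw [Function.iterate_succ_apply', ha]
  obtain ⟨d, hd⟩ : ∃ d : ℕ → ℕ, d = fun v => ((A.erase 0).filter (fun c => p c = v)).card :=
    ⟨_, rfl⟩
  have hsum : ∑ v ∈ A, d v + 1 = A.card := by
    have h1 : (A.erase 0).card = ∑ v ∈ A, ((A.erase 0).filter (fun c => p c = v)).card :=
      card_eq_sum_card_fiberwise fun c hc => hpA c (mem_of_mem_erase hc)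
    have h2 : (A.erase 0).card + 1 = A.card := card_erase_add_one h0A
    rw [← h2, h1, hd]
  -- leaves are in `Y`
  have hleaf : A.filter (fun v => d v = 0) ⊆ Y := by
    intro v hv
    obtain ⟨hvA, hdv⟩ := mem_filter.1 hv
    obtain ⟨hvn, y, hy, hex⟩ := (hAm v).1 hvA
    by_contra hvY
    have hspec := Nat.find_spec hex
    have hmin := fun m (hm : m < Nat.find hex) => Nat.find_min hex hm
    obtain ⟨a, ha⟩ : ∃ a, a = Nat.find hex := ⟨_, rfl⟩
    rw [← ha] at hspec hmin
    rcases Nat.eq_zero_or_pos a with rfl | hapos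
    · apply hvY
      have : y = v := hspec
      rwa [← this]
    · obtain ⟨b, rfl⟩ : ∃ b, a = b + 1 := ⟨a - 1, by omega⟩
      rw [Function.iterate_succ_apply'] at hspec
      have hcv : p^[b] y ≠ v := hmin b (Nat.lt_succ_self b)
      have hc0 : p^[b] y ≠ 0 := by
        intro h0
        rw [h0, hp.zero] at hspec
        exact hcv (h0.trans hspec)
      have hcA : p^[b] y ∈ A :=
        (hAm _).2 ⟨(Lca_le hp b y).trans_lt (mem_range.1 (hY hy)), y, hy, b, rfl⟩
      have hmem : p^[b] y ∈ (A.erase 0).filter (fun c => p c = v) :=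
        mem_filter.2 ⟨mem_erase.2 ⟨hc0, hcA⟩, hspec⟩
      rw [hd] at hdv
      rw [card_eq_zero] at hdv
      rw [hdv] at hmem
      exact notMem_empty _ hmem
  -- counting
  have hcount : (A.filter (fun v => 2 ≤ d v)).card ≤ Y.card := by
    have h1 : (A.filter (fun v => d v = 0)).card ≤ Y.card := card_le_card hleaf
    have h2 : A.card + (A.filter (fun v => 2 ≤ d v)).card ≤
        ∑ v ∈ A, d v + (A.filter (fun v => d v = 0)).card := by
      rw [card_filter, card_filter, card_eq_sum_ones, ← sum_add_distrib, ← sum_add_distrib]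
      refine sum_le_sum fun v _ => ?_
      split_ifs <;> omega
    omega
  have hA2 : ∀ z ∈ A.filter (fun v => 2 ≤ d v), z < n ∧ Leads p Y z := fun z hz =>
    (hAm z).1 (mem_filter.1 hz).1
  refine ⟨Y ∪ A.filter (fun v => 2 ≤ d v), subset_union_left, ?_, ?_, ?_⟩
  · refine union_subset hY fun z hz => mem_range.2 (hA2 z hz).1
  · refine (card_union_le _ _).trans ?_
    omega
  · intro c c' hc hc' hcc hcZ hl hl'
    have hlead : ∀ x, Leads p (Y ∪ A.filter (fun v => 2 ≤ d v)) x → x ∈ A := by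
      rintro x ⟨z, hz, a, ha⟩
      rcases mem_union.1 hz with hz | hz
      · exact (hAm x).2 ⟨by
          rw [← ha]
          exact (Lca_le hp a z).trans_lt (mem_range.1 (hY hz)), z, hz, a, ha⟩
      · obtain ⟨hzn, y, hy, b, hb⟩ := hA2 z hz
        refine (hAm x).2 ⟨?_, y, hy, a + b, ?_⟩
        · rw [← ha]
          exact (Lca_le hp a z).trans_lt hzn
        · rw [Function.iterate_add_apply, hb, ha]
    have hcA := hlead c hl
    have hcA' := hlead c' hl'
    by_contra hne'
    apply hcZ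
    refine mem_union_right _ (mem_filter.2 ⟨hpA c hcA, ?_⟩)
    rw [hd]
    refine one_lt_card.2 ⟨c, ?_, c', ?_, hne'⟩
    · exact mem_filter.2 ⟨mem_erase.2 ⟨hc.ne', hcA⟩, rfl⟩
    · exact mem_filter.2 ⟨mem_erase.2 ⟨hc'.ne', hcA'⟩, hcc.symm⟩

end Pool.Agent.Lib.MP_8b7544_co.Df
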