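import Mathlib
import Pool.Agent.Lib.MP_8b7544_co.Df.Stm

namespace Pool.Agent.Lib.MP_8b7544_co.Df

open SimpleGraph

/-- The labels on `V ⊕ Fin m`, zero on the isolated vertices. -/
def Magic_F {V : Type} {m : ℕ} (f : V → ℤ) : V ⊕ Fin m → ℤ := Sum.elim f (fun _ => 0)

/-- The sum over a pair. -/
def Magic_S {V : Type} {m : ℕ} (f : V → ℤ) : Sym2 (V ⊕ Fin m) → ℤ :=
  Sym2.lift ⟨fun a b => Magic_F f a + Magic_F f b, fun _ _ => add_comm _ _⟩

/-- The label (from zero) of a vertex or an edge. -/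
def Magic_lab {V : Type} {m : ℕ} (R : ℕ) (f : V → ℤ) (E : Set (Sym2 (V ⊕ Fin m))) :
    (V ⊕ Fin m) ⊕ E → ℕ
  | Sum.inl (Sum.inl v) => (f v + R).toNat
  | Sum.inl (Sum.inr _) => 0
  | Sum.inr x => (3 * R + 1 - Magic_S f x.1).toNat

/-- Every edge of `T ⊕g ⊥` comes from an edge of `T`. -/
theorem Magic_edge {V : Type} {m : ℕ} (T : SimpleGraph V) (z : Sym2 (V ⊕ Fin m))
    (hz : z ∈ (T ⊕g (⊥ : SimpleGraph (Fin m))).edgeSet) :
    ∃ u v : V, T.Adj u v ∧ z = s(Sum.inl u, Sum.inl v) := by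
  induction z using Sym2.ind with
  | _ a b =>
    rw [SimpleGraph.mem_edgeSet] at hz
    rcases a with a | a <;> rcases b with b | b
    · exact ⟨a, b, by simpa using hz, rfl⟩
    · simp at hz
    · simp at hz
    · simp at hz

theorem Magic_card {V : Type} [Fintype V] {m : ℕ} (T : SimpleGraph V) (hT : T.IsTree) :
    2 * Fintype.card V + m ≤
      Nat.card ((V ⊕ Fin m) ⊕ (T ⊕g (⊥ : SimpleGraph (Fin m))).edgeSet) + 1 := by
  classical
  have h1 : Nat.card ((V ⊕ Fin m) ⊕ (T ⊕g (⊥ : SimpleGraph (Fin m))).edgeSet) =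
      Fintype.card V + m + Nat.card (T ⊕g (⊥ : SimpleGraph (Fin m))).edgeSet := by
    rw [Nat.card_sum, Nat.card_sum, Nat.card_eq_fintype_card, Nat.card_eq_fintype_card,
      Fintype.card_fin]
  have h2 : Nat.card T.edgeSet ≤ Nat.card (T ⊕g (⊥ : SimpleGraph (Fin m))).edgeSet := by
    have hmem : ∀ z : T.edgeSet, Sym2.map Sum.inl z.1 ∈
        (T ⊕g (⊥ : SimpleGraph (Fin m))).edgeSet := by
      rintro ⟨z, hz⟩
      induction z using Sym2.ind with
      | _ a b =>
        rw [SimpleGraph.mem_edgeSet] at hz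
        simp only [Sym2.map_mk, SimpleGraph.mem_edgeSet]
        simpa using hz
    refine Nat.card_le_card_of_injective (fun z : T.edgeSet => (⟨Sym2.map Sum.inl z.1, hmem z⟩ :
      (T ⊕g (⊥ : SimpleGraph (Fin m))).edgeSet)) ?_
    intro z z' h
    have h' := congrArg Subtype.val h
    exact Subtype.ext (Sym2.map.injective Sum.inl_injective h')
  have h3 := hT.card_edgeFinset
  have h4 : Nat.card T.edgeSet = T.edgeFinset.card := by
    rw [Nat.card_eq_fintype_card, SimpleGraph.edgeFinset_card]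
  omega

/-- **X2.** -/
theorem p_Magic : StmMagic := by
  classical
  intro V _ T hT R m f hinj hR hsum hsR hm
  set E : Set (Sym2 (V ⊕ Fin m)) := (T ⊕g (⊥ : SimpleGraph (Fin m))).edgeSet with hE
  let _ : Fintype ((V ⊕ Fin m) ⊕ E) := Fintype.ofFinite _
  set N : ℕ := Nat.card ((V ⊕ Fin m) ⊕ E) with hN
  have hcard : 2 * Fintype.card V + m ≤ N + 1 := Magic_card T hT
  have hNN : 4 * R + 2 ≤ N := by omega
  set A : Set ((V ⊕ Fin m) ⊕ E) := {x | ∀ i : Fin m, x ≠ Sum.inl (Sum.inr i)} with hA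
  have hSb : ∀ x : E, -(R : ℤ) ≤ Magic_S f x.1 ∧ Magic_S f x.1 ≤ R := by
    rintro ⟨z, hz⟩
    obtain ⟨u, v, huv, rfl⟩ := Magic_edge T z hz
    have h := abs_le.1 (hsR u v huv)
    exact h
  have hfb : ∀ v, -(R : ℤ) ≤ f v ∧ f v ≤ R := fun v => abs_le.1 (hR v)
  have hmaps : Set.MapsTo (Magic_lab R f E) A (Finset.range N : Finset ℕ) := by
    rintro ((v | i) | x) hx
    · have := hfb v
      simp only [Magic_lab, Finset.coe_range, Set.mem_Iio]
      omega
    · exact absurd rfl (hx i)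
    · have := hSb x
      simp only [Magic_lab, Finset.coe_range, Set.mem_Iio]
      omega
  have hinjOn : Set.InjOn (Magic_lab R f E) A := by
    rintro ((v | i) | x) hx ((v' | i') | x') hx' h
    · simp only [Magic_lab] at h
      have h1 := hfb v
      have h2 := hfb v'
      have h3 : f v = f v' := by omega
      rw [hinj h3]
    · exact absurd rfl (hx' i')
    · simp only [Magic_lab] at h
      have h1 := hfb v
      have h2 := hSb x'
      omega
    · exact absurd rfl (hx i)
    · exact absurd rfl (hx i)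
    · exact absurd rfl (hx i)
    · simp only [Magic_lab] at h
      have h1 := hfb v'
      have h2 := hSb x
      omega
    · exact absurd rfl (hx' i')
    · simp only [Magic_lab] at h
      have h1 := hSb x
      have h2 := hSb x'
      have h3 : Magic_S f x.1 = Magic_S f x'.1 := by omega
      obtain ⟨z, hz⟩ := x
      obtain ⟨z', hz'⟩ := x'
      obtain ⟨u, v, huv, rfl⟩ := Magic_edge T z hz
      obtain ⟨u', v', huv', rfl⟩ := Magic_edge T z' hz'
      have h4 : f u + f v = f u' + f v' := h3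
      have h5 := hsum u v u' v' huv huv' h4
      have h6 : (s(Sum.inl u, Sum.inl v) : Sym2 (V ⊕ Fin m)) = s(Sum.inl u', Sum.inl v') := by
        have := congrArg (Sym2.map (Sum.inl : V → V ⊕ Fin m)) h5
        simpa only [Sym2.map_mk] using this
      simp only [h6]
  obtain ⟨g, hg⟩ := hmaps.exists_equiv_extend_of_card_eq
    (by rw [Finset.card_range, hN, Nat.card_eq_fintype_card]) hinjOn
  refine ⟨g.trans ⟨fun y => ⟨y.1, Finset.mem_range.1 y.2⟩, fun y => ⟨y.1, Finset.mem_range.2 y.2⟩,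
    fun y => rfl, fun y => rfl⟩, 5 * R + 4, ?_, ?_⟩
  · intro v
    have h1 : ((g (Sum.inl (Sum.inl v))) : ℕ) = (f v + R).toNat :=
      hg (Sum.inl (Sum.inl v)) (by intro i; simp)
    have h2 := hfb v
    simp only [Equiv.trans_apply, Equiv.coe_fn_mk, h1]
    omega
  · intro a b h
    rcases a with a | a <;> rcases b with b | b
    · have hab : T.Adj a b := by simpa using h
      have h1 : ((g (Sum.inl (Sum.inl a))) : ℕ) = (f a + R).toNat :=
        hg (Sum.inl (Sum.inl a)) (by intro i; simp)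
      have h2 : ((g (Sum.inl (Sum.inl b))) : ℕ) = (f b + R).toNat :=
        hg (Sum.inl (Sum.inl b)) (by intro i; simp)
      have h3 : ((g (Sum.inr ⟨s(Sum.inl a, Sum.inl b), (SimpleGraph.mem_edgeSet _).mpr h⟩)) : ℕ) =
          (3 * R + 1 - (f a + f b)).toNat :=
        hg (Sum.inr ⟨s(Sum.inl a, Sum.inl b), (SimpleGraph.mem_edgeSet _).mpr h⟩)
          (by intro i; simp)
      have h4 := hfb a
      have h5 := hfb b
      have h6 := abs_le.1 (hsR a b hab)
      simp only [Equiv.trans_apply, Equiv.coe_fn_mk, h1, h2, h3]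
      omega
    · simp at h
    · simp at h
    · simp at h

end Pool.Agent.Lib.MP_8b7544_co.Df
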