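import Pool.Agent.Lib.MP_8b7544_co.Df.Stm

/-!
# MP_8b7544_co, project Deficiency: the main theorem from the core theorem
-/

set_option autoImplicit false

namespace Pool.Agent.Lib.MP_8b7544_co.Df

open Finset

/-- the child of an edge -/
private theorem MainB_child {V : Type} [Fintype V] {T : SimpleGraph V}
    {e : V ≃ Fin (Fintype.card V)} {p : ℕ → ℕ}
    (hadj : ∀ u v, T.Adj u v ↔ ((0 < (e v).val ∧ p (e v).val = (e u).val) ∨
      (0 < (e u).val ∧ p (e u).val = (e v).val))) {u v : V} (h : T.Adj u v) (f : ℕ → ℤ) :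
    ∃ c d : V, s(u, v) = s(c, d) ∧ 0 < (e c).val ∧ p (e c).val = (e d).val ∧
      f (e u).val + f (e v).val = f (e c).val + f (p (e c).val) := by
  rcases (hadj u v).1 h with ⟨h1, h2⟩ | ⟨h1, h2⟩
  · refine ⟨v, u, Sym2.eq_swap, h1, h2, ?_⟩
    rw [h2, add_comm]
  · refine ⟨u, v, rfl, h1, h2, ?_⟩
    rw [h2]

theorem p_MainB : MainOf := by
  intro hcore hseq hmagic ε hε
  obtain ⟨M, hM⟩ := hcore (ε / 4) (by positivity)
  refine ⟨max M (⌈2 / ε⌉₊ + 1), ?_⟩
  intro V _ T hT hn m hm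
  obtain ⟨e, p, hp, hadj⟩ := hseq V T hT
  obtain ⟨R, f, hR, hL, hf, hs⟩ := hM (Fintype.card V) (le_trans (le_max_left _ _) hn) p hp
  have hn2 : ⌈2 / ε⌉₊ + 1 ≤ Fintype.card V := le_trans (le_max_right _ _) hn
  have hn3 : 2 / ε ≤ (Fintype.card V : ℝ) := by
    have h1 := Nat.le_ceil (2 / ε)
    have h2 : ((⌈2 / ε⌉₊ : ℕ) : ℝ) + 1 ≤ (Fintype.card V : ℝ) := by exact_mod_cast hn2
    linarith
  have hn4 : 2 ≤ ε * (Fintype.card V : ℝ) := by
    rw [div_le_iff₀ hε] at hn3
    linarith [mul_comm ε (Fintype.card V : ℝ)]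
  have hlt : ∀ v : V, (e v).val < Fintype.card V := fun v => (e v).isLt
  have hinj : Function.Injective (fun v => f (e v).val) := by
    intro u v h
    have h1 := hL.1 _ (Finset.mem_range.2 (hlt u)) _ (Finset.mem_range.2 (hlt v)) h
    exact e.injective (Fin.ext h1)
  have hsum : ∀ u v u' v', T.Adj u v → T.Adj u' v' →
      (fun v => f (e v).val) u + (fun v => f (e v).val) v =
        (fun v => f (e v).val) u' + (fun v => f (e v).val) v' → s(u, v) = s(u', v') := by
    intro u v u' v' h1 h2 h3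
    obtain ⟨c, d, a1, a2, a3, a4⟩ := MainB_child hadj h1 f
    obtain ⟨c', d', b1, b2, b3, b4⟩ := MainB_child hadj h2 f
    have h4 : f (e c).val + f (p (e c).val) = f (e c').val + f (p (e c').val) := by
      rw [← a4, ← b4]
      exact h3
    have h5 := hL.2 _ (Finset.mem_range.2 (hlt c)) _ (Finset.mem_range.2 (hlt c')) a2 b2
      (by rw [a3]; exact Finset.mem_range.2 (hlt d))
      (by rw [b3]; exact Finset.mem_range.2 (hlt d')) h4
    have h6 : c = c' := e.injective (Fin.ext h5)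
    have h7 : d = d' := by
      refine e.injective (Fin.ext ?_)
      rw [← a3, ← b3, h5]
    rw [a1, b1, h6, h7]
  have hbd : ∀ u v, T.Adj u v →
      |(fun v => f (e v).val) u + (fun v => f (e v).val) v| ≤ (R : ℤ) := by
    intro u v h1
    obtain ⟨c, d, a1, a2, a3, a4⟩ := MainB_child hadj h1 f
    have h2 := hs _ (hlt c) a2
    change |f (e u).val + f (e v).val| ≤ (R : ℤ)
    rw [a4]
    exact h2
  have hnum : 4 * R + 3 ≤ 2 * Fintype.card V + m := by
    have h1 : ((4 * R + 3 : ℕ) : ℝ) ≤ ((2 * Fintype.card V + m : ℕ) : ℝ) := by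
      push_cast
      nlinarith
    exact_mod_cast h1
  obtain ⟨e', c, h1, h2⟩ := hmagic V T hT R m (fun v => f (e v).val) hinj
    (fun v => hf _ (hlt v)) hsum hbd hnum
  refine ⟨e', c, fun v => ?_, h2⟩
  have h3 : (((e' (Sum.inl (Sum.inl v))).val + 1 : ℕ) : ℝ) ≤ ((2 * R + 1 : ℕ) : ℝ) := by
    exact_mod_cast h1 v
  push_cast at h3
  have h4 : (0 : ℝ) ≤ (Fintype.card V : ℝ) := Nat.cast_nonneg _
  nlinarith

end Pool.Agent.Lib.MP_8b7544_co.Df
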