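import Pool.Agent.Lib.MP_8b7544_co.Df.Stm

/-!
# MP_8b7544_co, project Deficiency: Q2, second moments
-/

set_option autoImplicit false

namespace Pool.Agent.Lib.MP_8b7544_co.Df

open Finset

theorem Mom_gen (m : ℕ) (ρ : ℝ) (h0 : 0 ≤ ρ) (h1 : ρ ≤ 1) (w : Finset ℕ → ℝ)
    (hF : ∀ F ⊆ range m, ∑ A ∈ (range m).powerset with F ⊆ A, w A = ρ ^ F.card)
    {ι : Type} [DecidableEq ι] (I : Finset ι) (F : ι → Finset ℕ)
    (hFm : ∀ i ∈ I, F i ⊆ range m) (s t M : ℕ) (Bd : ℝ) (hs : ∀ i ∈ I, (F i).card ≤ s)
    (hI : I.card ≤ M) (hI2 : M ≤ I.card + t)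
    (hB : (((I ×ˢ I).filter (fun q => (F q.1 ∪ F q.2).card < 2 * s)).card : ℝ) ≤ Bd) :
    ∑ A ∈ (range m).powerset, w A *
      (((I.filter (fun i => F i ⊆ A)).card : ℝ) - ρ ^ s * M) ^ 2 ≤ Bd + 2 * t * M := by
  classical
  set Q := (range m).powerset with hQ
  have hE : ∀ G ⊆ range m, ∑ A ∈ Q, w A * (if G ⊆ A then (1 : ℝ) else 0) = ρ ^ G.card := by
    intro G hG
    rw [← hF G hG, Finset.sum_filter]
    refine Finset.sum_congr rfl fun A _ => ?_
    split_ifs <;> simp
  have hN : ∀ A : Finset ℕ, ((I.filter (fun i => F i ⊆ A)).card : ℝ) =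
      ∑ i ∈ I, (if F i ⊆ A then (1 : ℝ) else 0) := by
    intro A
    rw [Finset.card_filter]
    push_cast
    rfl
  have hE1 : ∑ A ∈ Q, w A * ((I.filter (fun i => F i ⊆ A)).card : ℝ) =
      ∑ i ∈ I, ρ ^ (F i).card := by
    simp only [hN, Finset.mul_sum]
    rw [Finset.sum_comm]
    exact Finset.sum_congr rfl fun i hi => hE (F i) (hFm i hi)
  have hE2 : ∑ A ∈ Q, w A * ((I.filter (fun i => F i ⊆ A)).card : ℝ) ^ 2 =
      ∑ q ∈ I ×ˢ I, ρ ^ (F q.1 ∪ F q.2).card := by
    have h2 : ∀ A : Finset ℕ, ((I.filter (fun i => F i ⊆ A)).card : ℝ) ^ 2 =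
        ∑ q ∈ I ×ˢ I, (if F q.1 ∪ F q.2 ⊆ A then (1 : ℝ) else 0) := by
      intro A
      rw [hN, sq, Finset.sum_mul_sum, Finset.sum_product]
      refine Finset.sum_congr rfl fun i _ => Finset.sum_congr rfl fun j _ => ?_
      simp only [Finset.union_subset_iff]
      by_cases h3 : F i ⊆ A <;> by_cases h4 : F j ⊆ A <;> simp [h3, h4]
    simp only [h2, Finset.mul_sum]
    rw [Finset.sum_comm]
    refine Finset.sum_congr rfl fun q hq => hE _ ?_
    rw [mem_product] at hq
    exact Finset.union_subset (hFm _ hq.1) (hFm _ hq.2)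
  have hE0 : ∑ A ∈ Q, w A = 1 := by
    have h2 := hE ∅ (Finset.empty_subset _)
    simpa using h2
  have hlow : (I.card : ℝ) * ρ ^ s ≤ ∑ i ∈ I, ρ ^ (F i).card := by
    rw [← nsmul_eq_mul]
    refine Finset.card_nsmul_le_sum _ _ _ fun i hi => ?_
    exact pow_le_pow_of_le_one h0 h1 (hs i hi)
  have hup : ∑ q ∈ I ×ˢ I, ρ ^ (F q.1 ∪ F q.2).card ≤ (I.card : ℝ) ^ 2 * ρ ^ (2 * s) + Bd := by
    have h3 : ∀ q ∈ I ×ˢ I, ρ ^ (F q.1 ∪ F q.2).card ≤ ρ ^ (2 * s) +
        (if (F q.1 ∪ F q.2).card < 2 * s then (1 : ℝ) else 0) := by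
      intro q hq
      rw [mem_product] at hq
      have h4 : (F q.1 ∪ F q.2).card ≤ 2 * s := by
        have := card_union_le (F q.1) (F q.2)
        have := hs _ hq.1
        have := hs _ hq.2
        omega
      split_ifs with h5
      · have h6 : ρ ^ (F q.1 ∪ F q.2).card ≤ 1 := pow_le_one₀ h0 h1
        have h7 : 0 ≤ ρ ^ (2 * s) := pow_nonneg h0 _
        linarith
      · have h6 : (F q.1 ∪ F q.2).card = 2 * s := by omega
        rw [h6, add_zero]
    refine (Finset.sum_le_sum h3).trans ?_
    rw [Finset.sum_add_distrib, Finset.sum_const, card_product, nsmul_eq_mul]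
    refine add_le_add (le_of_eq ?_) (le_trans (le_of_eq ?_) hB)
    · push_cast
      ring
    · rw [Finset.card_filter]
      push_cast
      rfl
  have hexp : ∑ A ∈ Q, w A * (((I.filter (fun i => F i ⊆ A)).card : ℝ) - ρ ^ s * M) ^ 2 =
      ∑ A ∈ Q, w A * ((I.filter (fun i => F i ⊆ A)).card : ℝ) ^ 2 -
        2 * (ρ ^ s * M) * ∑ A ∈ Q, w A * ((I.filter (fun i => F i ⊆ A)).card : ℝ) +
        (ρ ^ s * M) ^ 2 * ∑ A ∈ Q, w A := by
    rw [Finset.mul_sum, Finset.mul_sum, ← Finset.sum_sub_distrib, ← Finset.sum_add_distrib]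
    refine Finset.sum_congr rfl fun A _ => ?_
    ring
  rw [hexp, hE2, hE1, hE0, mul_one]
  have hM0 : (0 : ℝ) ≤ M := Nat.cast_nonneg M
  have ht0 : (0 : ℝ) ≤ t := Nat.cast_nonneg t
  have hI' : (I.card : ℝ) ≤ M := by exact_mod_cast hI
  have hI2' : (M : ℝ) ≤ I.card + t := by exact_mod_cast hI2
  have hI0 : (0 : ℝ) ≤ I.card := Nat.cast_nonneg _
  have hr0 : 0 ≤ ρ ^ s := pow_nonneg h0 s
  have hr1 : ρ ^ s ≤ 1 := pow_le_one₀ h0 h1
  have hr2 : ρ ^ (2 * s) = (ρ ^ s) ^ 2 := by rw [mul_comm, pow_mul]
  rw [hr2] at hup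
  set r := ρ ^ s with hr
  have h5 : (I.card : ℝ) ^ 2 * r ^ 2 ≤ M ^ 2 * r ^ 2 :=
    mul_le_mul_of_nonneg_right (pow_le_pow_left₀ hI0 hI' 2) (sq_nonneg _)
  have h6 : 2 * (r * M) * ((M - t) * r) ≤ 2 * (r * M) * ∑ i ∈ I, ρ ^ (F i).card := by
    apply mul_le_mul_of_nonneg_left _ (by positivity)
    refine le_trans ?_ hlow
    exact mul_le_mul_of_nonneg_right (by linarith) hr0
  have h7 : r ^ 2 ≤ 1 := pow_le_one₀ hr0 hr1
  have h8 : 2 * (t * M) * r ^ 2 ≤ 2 * (t * M) * 1 :=
    mul_le_mul_of_nonneg_left h7 (by positivity)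
  nlinarith

/-- the representative -/
def Mom_rep (m : ℕ) (b : ZMod m) : ℕ := min b.val (-b).val

theorem Mom_rep_lt (m : ℕ) [NeZero m] (b : ZMod m) : Mom_rep m b < m :=
  (min_le_left _ _).trans_lt (ZMod.val_lt b)

theorem Mom_rep_eq (m : ℕ) [NeZero m] (b c : ZMod m) (h : Mom_rep m b = Mom_rep m c) :
    c = b ∨ c = -b := by
  unfold Mom_rep at h
  have hinj := ZMod.val_injective m
  rcases min_choice b.val (-b).val with h1 | h1 <;> rcases min_choice c.val (-c).val with h2 | h2 <;>
    rw [h1, h2] at h <;> have h3 := hinj h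
  · exact Or.inl h3.symm
  · exact Or.inr (by rw [h3, neg_neg])
  · exact Or.inr h3.symm
  · exact Or.inl (neg_injective h3).symm

theorem Mom_two (m : ℕ) [NeZero m] (hm : Odd m) (x y : ZMod m) (h : x + x = y + y) : x = y := by
  have h1 : IsUnit ((2 : ℕ) : ZMod m) := (ZMod.isUnit_iff_coprime 2 m).2 (Nat.coprime_two_left.2 hm)
  have h2 : ((2 : ℕ) : ZMod m) * x = ((2 : ℕ) : ZMod m) * y := by
    push_cast
    rw [two_mul, two_mul, h]
  exact h1.mul_left_cancel h2

theorem p_Mom : StmMom := by
  classical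
  intro m _ hm ρ h0 h1 w hw hF
  refine ⟨?_, ?_⟩
  · -- (i)
    have hg := Mom_gen m ρ h0 h1 w hF (univ.filter (fun b : ZMod m => b ≠ 0))
      (fun b => {Mom_rep m b}) (fun b _ => by
        rw [singleton_subset_iff, mem_range]; exact Mom_rep_lt m b) 1 1 m (2 * m)
      (fun b _ => by simp) ?_ ?_ ?_
    · have h2 : ∀ A : Finset ℕ, ((univ.filter (fun b : ZMod m => b ≠ 0)).filter
          (fun b => ({Mom_rep m b} : Finset ℕ) ⊆ A)) = Sy m A := by
        intro A
        ext b
        simp [Sy, Mom_rep]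
      simp only [h2, pow_one] at hg
      refine hg.trans (le_of_eq ?_)
      push_cast
      ring
    · refine (card_le_univ _).trans (le_of_eq (ZMod.card m))
    · have h2 : (univ : Finset (ZMod m)).card ≤ (univ.filter (fun b : ZMod m => b ≠ 0)).card +
          ({0} : Finset (ZMod m)).card := by
        refine le_trans (card_le_card ?_) (card_union_le _ _)
        intro b _
        rw [mem_union, mem_filter, mem_singleton]
        by_cases hb : b = 0
        · exact Or.inr hb
        · exact Or.inl ⟨mem_univ _, hb⟩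
      rw [card_univ, ZMod.card, card_singleton] at h2
      exact h2
    · have h2 : ((univ.filter (fun b : ZMod m => b ≠ 0)) ×ˢ (univ.filter (fun b : ZMod m => b ≠ 0))).filter
          (fun q => (({Mom_rep m q.1} : Finset ℕ) ∪ {Mom_rep m q.2}).card < 2 * 1) ⊆
          univ.biUnion (fun b : ZMod m => ({b, -b} : Finset (ZMod m)).image (fun c => (b, c))) := by
        intro q hq
        rw [mem_filter] at hq
        rw [mem_biUnion]
        refine ⟨q.1, mem_univ _, mem_image.2 ⟨q.2, ?_, rfl⟩⟩
        have h3 : Mom_rep m q.1 = Mom_rep m q.2 := by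
          by_contra h
          have := hq.2
          rw [card_union_of_disjoint (by simpa using h)] at this
          simp at this
        rcases Mom_rep_eq m _ _ h3 with h4 | h4 <;> simp [h4]
      have h3 : (univ.biUnion (fun b : ZMod m => ({b, -b} : Finset (ZMod m)).image
          (fun c => (b, c)))).card ≤ m * 2 := by
        refine (card_biUnion_le).trans ?_
        refine (sum_le_card_nsmul _ _ 2 fun b _ => ?_).trans (le_of_eq ?_)
        · exact card_image_le.trans card_le_two
        · rw [card_univ, ZMod.card, smul_eq_mul]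
      have h4 := (card_le_card h2).trans h3
      have h5 : ((m * 2 : ℕ) : ℝ) = 2 * m := by push_cast; ring
      rw [← h5]
      exact_mod_cast h4
  · -- (ii)
    intro a ha
    set B0 : Finset (ZMod m) := univ.filter (fun b => b + b = -a) with hB0
    have hB0c : B0.card ≤ 1 := by
      rw [card_le_one]
      intro x hx y hy
      rw [hB0, mem_filter] at hx hy
      exact Mom_two m hm x y (hx.2.trans hy.2.symm)
    set S : ZMod m → Finset (ZMod m) := fun b => {b, -b, a + b, -(a + b)} ∪
      {b - a, -b - a, a + b - a, -(a + b) - a} with hS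
    have hSc : ∀ b, (S b).card ≤ 8 := by
      intro b
      refine (card_union_le _ _).trans ?_
      have h2 : ({b, -b, a + b, -(a + b)} : Finset (ZMod m)).card ≤ 4 := card_le_four
      have h3 : ({b - a, -b - a, a + b - a, -(a + b) - a} : Finset (ZMod m)).card ≤ 4 :=
        card_le_four
      omega
    have hF2 : ∀ b, b ∉ B0 → ({Mom_rep m b, Mom_rep m (a + b)} : Finset ℕ).card = 2 := by
      intro b hb
      refine card_pair fun h => ?_
      rcases Mom_rep_eq m _ _ h with h3 | h3
      · exact ha (by simpa using h3)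
      · apply hb
        rw [hB0, mem_filter]
        refine ⟨mem_univ _, ?_⟩
        have h4 : b + b = (a + b) + b - a := by ring
        rw [h4, h3]
        ring
    set I : Finset (ZMod m) := univ.filter (fun b : ZMod m => b ≠ 0 ∧ a + b ≠ 0) with hI
    have hg := Mom_gen m ρ h0 h1 w hF I
      (fun b => {Mom_rep m b, Mom_rep m (a + b)}) (fun b _ => by
        intro x hx
        rw [mem_insert, mem_singleton] at hx
        rw [mem_range]
        rcases hx with rfl | rfl <;> exact Mom_rep_lt m _) 2 2 m (10 * m)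
      (fun b _ => card_le_two) ?_ ?_ ?_
    · have h2 : ∀ A : Finset ℕ, (I.filter
          (fun b => ({Mom_rep m b, Mom_rep m (a + b)} : Finset ℕ) ⊆ A)) =
          (Sy m A).filter (fun b => a + b ∈ Sy m A) := by
        intro A
        ext b
        simp only [hI, Sy, Mom_rep, mem_filter, mem_univ, true_and, insert_subset_iff,
          singleton_subset_iff]
        tauto
      simp only [h2] at hg
      unfold Qr
      refine hg.trans ?_
      have : (0 : ℝ) ≤ m := Nat.cast_nonneg m
      push_cast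
      linarith
    · refine (card_le_univ _).trans (le_of_eq (ZMod.card m))
    · have h2 : (univ : Finset (ZMod m)).card ≤ I.card + ({0, -a} : Finset (ZMod m)).card := by
        refine le_trans (card_le_card ?_) (card_union_le _ _)
        intro b _
        rw [mem_union, hI, mem_filter, mem_insert, mem_singleton]
        by_cases hb : b = 0
        · exact Or.inr (Or.inl hb)
        by_cases hb2 : a + b = 0
        · exact Or.inr (Or.inr (by rw [← zero_sub, ← hb2]; ring))
        · exact Or.inl ⟨mem_univ _, hb, hb2⟩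
      rw [card_univ, ZMod.card] at h2
      have h3 : ({0, -a} : Finset (ZMod m)).card ≤ 2 := card_le_two
      omega
    · have h2 : (I ×ˢ I).filter (fun q => (({Mom_rep m q.1, Mom_rep m (a + q.1)} : Finset ℕ) ∪
          {Mom_rep m q.2, Mom_rep m (a + q.2)}).card < 2 * 2) ⊆
          (B0 ×ˢ univ) ∪ univ.biUnion (fun b : ZMod m => (S b ∪ B0).image (fun c => (b, c))) := by
        intro q hq
        rw [mem_filter] at hq
        rw [mem_union, mem_product, mem_biUnion]
        by_cases hb1 : q.1 ∈ B0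
        · exact Or.inl ⟨hb1, mem_univ _⟩
        right
        refine ⟨q.1, mem_univ _, mem_image.2 ⟨q.2, ?_, rfl⟩⟩
        rw [mem_union]
        by_cases hb2 : q.2 ∈ B0
        · exact Or.inr hb2
        left
        have h3 : ¬ Disjoint ({Mom_rep m q.1, Mom_rep m (a + q.1)} : Finset ℕ)
            {Mom_rep m q.2, Mom_rep m (a + q.2)} := by
          intro h
          have h4 := hq.2
          rw [card_union_of_disjoint h, hF2 _ hb1, hF2 _ hb2] at h4
          omega
        rw [not_disjoint_iff] at h3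
        obtain ⟨x, hx, hx'⟩ := h3
        rw [mem_insert, mem_singleton] at hx hx'
        rw [hS]
        simp only [mem_union, mem_insert, mem_singleton]
        rcases hx with h4 | h4 <;> rcases hx' with h5 | h5 <;>
          rcases Mom_rep_eq m _ _ (h4.symm.trans h5) with h6 | h6
        · exact Or.inl (Or.inl h6)
        · exact Or.inl (Or.inr (Or.inl h6))
        · exact Or.inr (Or.inl (by rw [← h6]; ring))
        · exact Or.inr (Or.inr (Or.inl (by rw [← h6]; ring)))
        · exact Or.inl (Or.inr (Or.inr (Or.inl h6)))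
        · exact Or.inl (Or.inr (Or.inr (Or.inr h6)))
        · exact Or.inr (Or.inr (Or.inr (Or.inl (by rw [← h6]; ring))))
        · exact Or.inr (Or.inr (Or.inr (Or.inr (by rw [← h6]; ring))))
      have h3 : ((B0 ×ˢ (univ : Finset (ZMod m))) ∪ univ.biUnion
          (fun b : ZMod m => (S b ∪ B0).image (fun c => (b, c)))).card ≤ 10 * m := by
        refine (card_union_le _ _).trans ?_
        have h4 : (B0 ×ˢ (univ : Finset (ZMod m))).card ≤ 1 * m := by
          rw [card_product, card_univ, ZMod.card]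
          exact Nat.mul_le_mul_right m hB0c
        have h5 : (univ.biUnion
            (fun b : ZMod m => (S b ∪ B0).image (fun c => (b, c)))).card ≤ m * 9 := by
          refine (card_biUnion_le).trans ?_
          refine (sum_le_card_nsmul _ _ 9 fun b _ => ?_).trans (le_of_eq ?_)
          · refine card_image_le.trans ((card_union_le _ _).trans ?_)
            have := hSc b
            omega
          · rw [card_univ, ZMod.card, smul_eq_mul]
        omega
      have h4 := (card_le_card h2).trans h3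
      have h5 : ((10 * m : ℕ) : ℝ) = 10 * m := by push_cast; ring
      rw [← h5]
      exact_mod_cast h4

end Pool.Agent.Lib.MP_8b7544_co.Df
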