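import Pool.Agent.Lib.MP_8b7544_co.Df.Stm

/-!
# MP_8b7544_co, project Deficiency: M4, pairs of labels
-/

set_option autoImplicit false

namespace Pool.Agent.Lib.MP_8b7544_co.Df

open Finset

/-- the summand which is added to `g j` at the place `(τ, j)` -/
def Pair_off (q : ℕ → ℕ) (b b' : ℤ) (π : Fin 3 × ℕ) (g : ℕ → ℤ) : ℤ :=
  if π.1 = 0 then 0 else if π.1 = 1 then (if π.2 = 0 then b else g (q π.2)) else b'

/-- the value at a place -/
def Pair_val (q : ℕ → ℕ) (b b' : ℤ) (π : Fin 3 × ℕ) (g : ℕ → ℤ) : Bool × ℤ :=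
  (decide (π.1 = 0), g π.2 + Pair_off q b b' π g)

/-- the places -/
def Pair_pl (k : ℕ) (U : Finset ℕ) : Finset (Fin 3 × ℕ) :=
  (range k).image (fun j => ((0 : Fin 3), j)) ∪ (range k).image (fun j => ((1 : Fin 3), j)) ∪
    U.image (fun j => ((2 : Fin 3), j))

theorem Pair_pl_card (k : ℕ) (U : Finset ℕ) (hU : U.card ≤ 1) :
    (Pair_pl k U).card ≤ 2 * k + 1 := by
  unfold Pair_pl
  refine (card_union_le _ _).trans ?_
  have h1 := card_union_le ((range k).image (fun j => ((0 : Fin 3), j)))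
    ((range k).image (fun j => ((1 : Fin 3), j)))
  have h2 : ((range k).image (fun j => ((0 : Fin 3), j))).card ≤ k :=
    card_image_le.trans (card_range k).le
  have h3 : ((range k).image (fun j => ((1 : Fin 3), j))).card ≤ k :=
    card_image_le.trans (card_range k).le
  have h4 : (U.image (fun j => ((2 : Fin 3), j))).card ≤ U.card := card_image_le
  omega

theorem Pair_mem_pl {k : ℕ} {U : Finset ℕ} {π : Fin 3 × ℕ} (h : π ∈ Pair_pl k U)
    (hU : U ⊆ Ico 1 k) : π.2 < k ∧ (π.1 = 2 → π.2 ∈ U) := by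
  unfold Pair_pl at h
  rw [mem_union, mem_union, mem_image, mem_image, mem_image] at h
  rcases h with (⟨j, hj, rfl⟩ | ⟨j, hj, rfl⟩) | ⟨j, hj, rfl⟩
  · exact ⟨mem_range.1 hj, fun h => absurd h (by simp)⟩
  · exact ⟨mem_range.1 hj, fun h => absurd h (by simp)⟩
  · exact ⟨(mem_Ico.1 (hU hj)).2, fun _ => hj⟩

theorem Pair_mem_AL {hub : Prop} {k : ℕ} {q : ℕ → ℕ} {b b' : ℤ} {U : Finset ℕ} {g : ℕ → ℤ}
    {l : Bool × ℤ} (h : l ∈ AL hub k q b b' U g) :
    ∃ π ∈ Pair_pl k U, (π.1 = 1 → 1 ≤ π.2 ∨ ¬ hub) ∧ l = Pair_val q b b' π g := by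
  obtain ⟨c, y⟩ := l
  unfold Pair_pl
  rcases c with _ | _
  · rw [mem_AL_false] at h
    rcases h with ⟨j, hj, h1, rfl⟩ | ⟨u, hu, rfl⟩
    · refine ⟨(1, j), ?_, fun _ => h1, ?_⟩
      · rw [mem_union, mem_union]
        exact Or.inl (Or.inr (mem_image.2 ⟨j, mem_range.2 hj, rfl⟩))
      · simp [Pair_val, Pair_off, sm]
    · refine ⟨(2, u), ?_, fun h => absurd h (by simp), ?_⟩
      · rw [mem_union, mem_union]
        exact Or.inr (mem_image.2 ⟨u, hu, rfl⟩)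
      · simp [Pair_val, Pair_off]
  · rw [mem_AL_true] at h
    obtain ⟨j, hj, rfl⟩ := h
    refine ⟨(0, j), ?_, fun h => absurd h (by simp), ?_⟩
    · rw [mem_union, mem_union]
      exact Or.inl (Or.inl (mem_image.2 ⟨j, mem_range.2 hj, rfl⟩))
    · simp [Pair_val, Pair_off]

theorem Pair_off_dep {k : ℕ} {q : ℕ → ℕ} {b b' : ℤ} (hq : ∀ j, 1 ≤ j → j < k → q j < j)
    (π : Fin 3 × ℕ) (hπ : π.2 < k) : Dep π.2 (Pair_off q b b' π) := by
  intro g g' h
  unfold Pair_off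
  split_ifs with h1 h2 h3
  · rfl
  · rfl
  · exact h _ (hq _ (Nat.one_le_iff_ne_zero.2 h3) hπ)
  · rfl

theorem Pair_val_dep {k : ℕ} {q : ℕ → ℕ} {b b' : ℤ} (hq : ∀ j, 1 ≤ j → j < k → q j < j)
    (π : Fin 3 × ℕ) (hπ : π.2 < k) : Dep (π.2 + 1) (Pair_val q b b' π) := by
  intro g g' h
  unfold Pair_val
  rw [h π.2 (Nat.lt_succ_self _), Pair_off_dep hq π hπ g g' (fun i hi => h i (by omega))]

theorem Pair_one {V : Finset ℤ} {ph mu : ℤ → ℝ} {lam : ℝ} {k : ℕ} {q : ℕ → ℕ} {ι : Type}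
    [Fintype ι] {w : ι → ℝ} {G : ι → ℕ → ℤ} (hL : Law V ph mu lam k q ι w G) :
    Pr w (fun _ => True) = 1 := by
  rw [Pr_eq, ← hL.tot]
  simp

theorem Pair_cond {R : ℕ} {V : Finset ℤ} {K : ℤ → ℤ → ℝ} {ph : ℤ → ℝ} {Gd : ℤ → Prop}
    {lam : ℝ} {mu : ℤ → ℝ} {k : ℕ} {q : ℕ → ℕ} (hI : Ini R K ph Gd lam mu) {ι : Type}
    [Fintype ι] {w : ι → ℝ} {G : ι → ℕ → ℤ} (hL : Law V ph mu lam k q ι w G) (j : ℕ)
    (hj : j < k) (E : (ℕ → ℤ) → Prop) (F : (ℕ → ℤ) → ℤ) (hE : Dep j E) (hF : Dep j F) :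
    Pr w (fun i => E (G i) ∧ G i j = F (G i)) ≤ lam * Pr w (fun i => E (G i)) := by
  rcases Nat.eq_zero_or_pos j with h0 | h0
  · subst h0
    have hlam : 0 ≤ lam := (hI.nn 0).trans (hI.le 0)
    by_cases h1 : E (fun _ => 0)
    · have h2 : ∀ g, E g := fun g => (hE (fun _ => 0) g (fun i hi => absurd hi (by omega))) ▸ h1
      have h3 : ∀ g, F g = F (fun _ => 0) := fun g => hF g _ (fun i hi => absurd hi (by omega))
      have h4 : Pr w (fun i => E (G i)) = 1 := by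
        rw [← Pair_one hL]
        congr 1
        funext i
        exact propext ⟨fun _ => trivial, fun _ => h2 _⟩
      rw [h4, mul_one]
      refine le_trans ?_ ((hL.law0 (F (fun _ => 0))).trans (hI.le _))
      refine Pr_mono hL.nn fun i _ h => ?_
      rw [h.2, h3]
    · have h2 : ∀ g, ¬ E g := fun g h => h1 ((hE (fun _ => 0) g (fun i hi => absurd hi (by omega))) ▸ h)
      have h3 : Pr w (fun i => E (G i) ∧ G i 0 = F (G i)) ≤ Pr w (fun _ => False) :=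
        Pr_mono hL.nn fun i _ h => h2 _ h.1
      have h4 : Pr w (fun _ : ι => False) = 0 := by
        rw [Pr_eq]; simp
      rw [h4] at h3
      exact h3.trans (mul_nonneg hlam (Pr_nonneg hL.nn _))
  · exact hL.cond j h0 hj E F hE hF

theorem p_Pair : StmPair := by
  intro R V L K ph Gd lam pm mu hub k q b b' B U hK hI hC ι _ w G hL l l' hne
  have hlam : 0 ≤ lam := (hI.nn 0).trans (hI.le 0)
  have hpm : 0 ≤ pm := (hK.pnn 0).trans (hK.ppm 0)
  have hq := hC.qlt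
  have hone : ∀ j < k, ∀ F : (ℕ → ℤ) → ℤ, Dep j F → Pr w (fun i => G i j = F (G i)) ≤ lam := by
    intro j hj F hF
    have h := Pair_cond hI hL j hj (fun _ => True) F (fun _ _ _ => rfl) hF
    simp only [true_and] at h
    rw [Pair_one hL, mul_one] at h
    exact h
  have htwo : ∀ j < k, ∀ (E : (ℕ → ℤ) → Prop) (F : (ℕ → ℤ) → ℤ), Dep j E → Dep j F →
      Pr w (fun i => E (G i)) ≤ lam → Pr w (fun i => E (G i) ∧ G i j = F (G i)) ≤ lam ^ 2 := by
    intro j hj E F hE hF h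
    refine (Pair_cond hI hL j hj E F hE hF).trans ?_
    rw [sq]
    exact mul_le_mul_of_nonneg_left h hlam
  -- value given: solve for the last label
  have hsolve : ∀ (π : Fin 3 × ℕ) (l : Bool × ℤ) (g : ℕ → ℤ), l = Pair_val q b b' π g →
      g π.2 = l.2 - Pair_off q b b' π g := by
    intro π l g h
    rw [h]
    simp [Pair_val]
  have hsub : ∀ (π : Fin 3 × ℕ), π.2 < k → ∀ c : ℤ,
      Dep π.2 (fun g => c - Pair_off q b b' π g) := by
    intro π hπ c g g' h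
    simp only
    rw [Pair_off_dep hq π hπ g g' h]
  have hval1 : ∀ (π : Fin 3 × ℕ) (l : Bool × ℤ), π.2 < k →
      Pr w (fun i => l = Pair_val q b b' π (G i)) ≤ lam := by
    intro π l hπ
    refine le_trans (Pr_mono hL.nn ?_) (hone π.2 hπ (fun g => l.2 - Pair_off q b b' π g)
      (hsub π hπ l.2))
    intro i _ h
    exact hsolve π l (G i) h
  have hlt : ∀ (π π' : Fin 3 × ℕ) (l l' : Bool × ℤ), π.2 < π'.2 → π'.2 < k →
      Pr w (fun i => l = Pair_val q b b' π (G i) ∧ l' = Pair_val q b b' π' (G i)) ≤ lam ^ 2 := by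
    intro π π' l l' h1 h2
    refine le_trans (Pr_mono hL.nn ?_) (htwo π'.2 h2 (fun g => l = Pair_val q b b' π g)
      (fun g => l'.2 - Pair_off q b b' π' g) ?_ (hsub π' h2 l'.2) (hval1 π l (h1.trans h2)))
    · intro i _ h
      exact ⟨h.1, hsolve π' l' (G i) h.2⟩
    · intro g g' h
      simp only
      rw [Pair_val_dep hq π (h1.trans h2) g g' (fun i hi => h i (by omega))]
  -- two equations for `g j` and `g (q j)`
  have heq : ∀ j, 1 ≤ j → j < k → ∀ c c' : ℤ,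
      Pr w (fun i => G i (q j) = c ∧ G i j = c') ≤ lam ^ 2 := by
    intro j h1 h2 c c'
    have h3 := hq j h1 h2
    refine htwo j h2 (fun g => g (q j) = c) (fun _ => c') ?_ (fun _ _ _ => rfl) ?_
    · intro g g' h
      simp only
      rw [h _ h3]
    · exact hone (q j) (h3.trans h2) (fun _ => c) (fun _ _ _ => rfl)
  -- the exceptional events
  set Ev2 : (ℕ → ℤ) → Prop := fun g => ¬ hub ∧ ((l = (true, g 0) ∧ l' = (false, g 0 + b)) ∨
    (l' = (true, g 0) ∧ l = (false, g 0 + b))) with hEv2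
  set Ev3 : (ℕ → ℤ) → Prop := fun g => ∃ u ∈ U, ((l = (true, g u) ∧ l' = (false, g u + b')) ∨
    (l' = (true, g u) ∧ l = (false, g u + b'))) with hEv3
  have hB : ∀ π ∈ Pair_pl k U, ∀ π' ∈ Pair_pl k U, Pr w (fun i => ((π.1 = 1 → 1 ≤ π.2 ∨ ¬ hub) ∧
      (π'.1 = 1 → 1 ≤ π'.2 ∨ ¬ hub) ∧ l = Pair_val q b b' π (G i) ∧
      l' = Pair_val q b b' π' (G i)) ∧ ¬ Ev2 (G i) ∧ ¬ Ev3 (G i)) ≤ lam ^ 2 := by
    intro π hπ π' hπ'
    obtain ⟨hk1, hU1⟩ := Pair_mem_pl hπ hC.U1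
    obtain ⟨hk2, hU2⟩ := Pair_mem_pl hπ' hC.U1
    rcases lt_trichotomy π.2 π'.2 with h | h | h
    · exact le_trans (Pr_mono hL.nn fun i _ h => ⟨h.1.2.2.1, h.1.2.2.2⟩) (hlt π π' l l' h hk2)
    · obtain ⟨τ, j⟩ := π
      obtain ⟨τ', j'⟩ := π'
      simp only at h hk1 hk2 hU1 hU2
      subst h
      have hzero : ∀ P : ι → Prop, (∀ i, ¬ P i) → Pr w P ≤ lam ^ 2 := by
        intro P hP
        have h1 : Pr w P ≤ Pr w (fun _ : ι => False) := Pr_mono hL.nn fun i _ h => hP i h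
        have h2 : Pr w (fun _ : ι => False) = 0 := by rw [Pr_eq]; simp
        rw [h2] at h1
        exact h1.trans (sq_nonneg _)
      have hU0 : ∀ {j : ℕ}, j ∈ U → 1 ≤ j := fun hj => (mem_Ico.1 (hC.U1 hj)).1
      fin_cases τ <;> fin_cases τ'
      · refine hzero _ fun i h => hne ?_
        rw [h.1.2.2.1, h.1.2.2.2]
      · -- V, S
        rcases Nat.eq_zero_or_pos j with hj | hj
        · subst hj
          refine hzero _ fun i h => h.2.1 ⟨?_, Or.inl ⟨?_, ?_⟩⟩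
          · have := h.1.2.1 rfl
            simpa using this
          · rw [h.1.2.2.1]; simp [Pair_val, Pair_off]
          · rw [h.1.2.2.2]; simp [Pair_val, Pair_off]
        · refine le_trans (Pr_mono hL.nn ?_) (heq j hj hk1 (l'.2 - l.2) l.2)
          intro i _ h
          rw [h.1.2.2.1, h.1.2.2.2]
          simp [Pair_val, Pair_off, (Nat.pos_iff_ne_zero.1 hj)]
      · refine hzero _ fun i h => h.2.2 ⟨j, hU2 rfl, Or.inl ⟨?_, ?_⟩⟩
        · rw [h.1.2.2.1]; simp [Pair_val, Pair_off]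
        · rw [h.1.2.2.2]; simp [Pair_val, Pair_off]
      · rcases Nat.eq_zero_or_pos j with hj | hj
        · subst hj
          refine hzero _ fun i h => h.2.1 ⟨?_, Or.inr ⟨?_, ?_⟩⟩
          · have := h.1.1 rfl
            simpa using this
          · rw [h.1.2.2.2]; simp [Pair_val, Pair_off]
          · rw [h.1.2.2.1]; simp [Pair_val, Pair_off]
        · refine le_trans (Pr_mono hL.nn ?_) (heq j hj hk1 (l.2 - l'.2) l'.2)
          intro i _ h
          rw [h.1.2.2.1, h.1.2.2.2]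
          simp [Pair_val, Pair_off, (Nat.pos_iff_ne_zero.1 hj)]
      · refine hzero _ fun i h => hne ?_
        rw [h.1.2.2.1, h.1.2.2.2]
      · have hj := hU0 (hU2 rfl)
        refine le_trans (Pr_mono hL.nn ?_) (heq j hj hk1 (l.2 - (l'.2 - b')) (l'.2 - b'))
        intro i _ h
        rw [h.1.2.2.1, h.1.2.2.2]
        simp [Pair_val, Pair_off, (Nat.one_le_iff_ne_zero.1 hj)]
      · refine hzero _ fun i h => h.2.2 ⟨j, hU1 rfl, Or.inr ⟨?_, ?_⟩⟩
        · rw [h.1.2.2.2]; simp [Pair_val, Pair_off]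
        · rw [h.1.2.2.1]; simp [Pair_val, Pair_off]
      · have hj := hU0 (hU1 rfl)
        refine le_trans (Pr_mono hL.nn ?_) (heq j hj hk1 (l'.2 - (l.2 - b')) (l.2 - b'))
        intro i _ h
        rw [h.1.2.2.1, h.1.2.2.2]
        simp [Pair_val, Pair_off, (Nat.one_le_iff_ne_zero.1 hj)]
      · refine hzero _ fun i h => hne ?_
        rw [h.1.2.2.1, h.1.2.2.2]
    · refine le_trans (Pr_mono hL.nn fun i _ h => ?_) (hlt π' π l' l h hk1)
      exact ⟨h.1.2.2.2, h.1.2.2.1⟩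
  -- the exceptional events have probability at most `pm`
  have hE2 : Pr w (fun i => Ev2 (G i)) ≤ pm * ind (¬ hub ∧ Pb b l l') := by
    by_cases h : ¬ hub ∧ Pb b l l'
    · rw [ind_pos h, mul_one]
      obtain ⟨h1, y, h2⟩ := h
      refine le_trans (Pr_mono hL.nn (Q := fun i => G i 0 = y) ?_) ?_
      · rintro i _ ⟨_, h3⟩
        rcases h2 with ⟨e1, e2⟩ | ⟨e1, e2⟩ <;> rcases h3 with ⟨e3, e4⟩ | ⟨e3, e4⟩
        · rw [e1] at e3; exact (Prod.mk.inj e3).2.symm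
        · rw [e2] at e3; exact absurd (Prod.mk.inj e3).1 (by decide)
        · rw [e2] at e3; exact absurd (Prod.mk.inj e3).1 (by decide)
        · rw [e1] at e3; exact (Prod.mk.inj e3).2.symm
      · exact (hL.law0 y).trans (((hC.nhub h1 y).1).trans (hK.ppm y))
    · rw [ind_neg h, mul_zero]
      have h1 : Pr w (fun i => Ev2 (G i)) ≤ Pr w (fun _ : ι => False) :=
        Pr_mono hL.nn fun i _ h2 => h ⟨h2.1, G i 0, h2.2⟩
      have h2 : Pr w (fun _ : ι => False) = 0 := by rw [Pr_eq]; simp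
      rwa [h2] at h1
  have hE3 : Pr w (fun i => Ev3 (G i)) ≤ pm * ind (U.Nonempty ∧ Pb b' l l') := by
    by_cases h : U.Nonempty ∧ Pb b' l l'
    · rw [ind_pos h, mul_one]
      obtain ⟨⟨u, hu⟩, y, h2⟩ := h
      have hu1 := mem_Ico.1 (hC.U1 hu)
      refine le_trans (Pr_mono hL.nn (Q := fun i => G i u = y) ?_) ?_
      · rintro i _ ⟨u', hu', h3⟩
        have hu2 : u' = u := Finset.card_le_one.1 hC.Uc u' hu' u hu
        subst hu2
        rcases h2 with ⟨e1, e2⟩ | ⟨e1, e2⟩ <;> rcases h3 with ⟨e3, e4⟩ | ⟨e3, e4⟩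
        · rw [e1] at e3; exact (Prod.mk.inj e3).2.symm
        · rw [e2] at e3; exact absurd (Prod.mk.inj e3).1 (by decide)
        · rw [e2] at e3; exact absurd (Prod.mk.inj e3).1 (by decide)
        · rw [e1] at e3; exact (Prod.mk.inj e3).2.symm
      · exact (hL.lawV u hu1.1 hu1.2 y).trans (hK.ppm y)
    · rw [ind_neg h, mul_zero]
      have h1 : Pr w (fun i => Ev3 (G i)) ≤ Pr w (fun _ : ι => False) :=
        Pr_mono hL.nn fun i _ h2 => by
          obtain ⟨u, hu, h3⟩ := h2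
          exact h ⟨⟨u, hu⟩, G i u, h3⟩
      have h2 : Pr w (fun _ : ι => False) = 0 := by rw [Pr_eq]; simp
      rwa [h2] at h1
  -- union bound
  have hcov : Pr w (fun i => l ∈ AL hub k q b b' U (G i) ∧ l' ∈ AL hub k q b b' U (G i)) ≤
      Pr w (fun i => (∃ a ∈ Pair_pl k U ×ˢ Pair_pl k U, ((a.1.1 = 1 → 1 ≤ a.1.2 ∨ ¬ hub) ∧
        (a.2.1 = 1 → 1 ≤ a.2.2 ∨ ¬ hub) ∧ l = Pair_val q b b' a.1 (G i) ∧
        l' = Pair_val q b b' a.2 (G i)) ∧ ¬ Ev2 (G i) ∧ ¬ Ev3 (G i)) ∨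
        (Ev2 (G i) ∨ Ev3 (G i))) := by
    refine Pr_mono hL.nn fun i _ h => ?_
    by_cases h2 : Ev2 (G i)
    · exact Or.inr (Or.inl h2)
    by_cases h3 : Ev3 (G i)
    · exact Or.inr (Or.inr h3)
    obtain ⟨π, hπ, h4, h5⟩ := Pair_mem_AL h.1
    obtain ⟨π', hπ', h6, h7⟩ := Pair_mem_AL h.2
    exact Or.inl ⟨(π, π'), mem_product.2 ⟨hπ, hπ'⟩, ⟨h4, h6, h5, h7⟩, h2, h3⟩
  have hsum : Pr w (fun i => ∃ a ∈ Pair_pl k U ×ˢ Pair_pl k U, ((a.1.1 = 1 → 1 ≤ a.1.2 ∨ ¬ hub) ∧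
        (a.2.1 = 1 → 1 ≤ a.2.2 ∨ ¬ hub) ∧ l = Pair_val q b b' a.1 (G i) ∧
        l' = Pair_val q b b' a.2 (G i)) ∧ ¬ Ev2 (G i) ∧ ¬ Ev3 (G i)) ≤
      (2 * k + 1) ^ 2 * lam ^ 2 := by
    refine (Pr_exists hL.nn _ _).trans ?_
    refine (Finset.sum_le_card_nsmul _ _ (lam ^ 2) ?_).trans ?_
    · intro a ha
      rw [mem_product] at ha
      exact hB a.1 ha.1 a.2 ha.2
    · rw [nsmul_eq_mul, card_product]
      refine mul_le_mul_of_nonneg_right ?_ (sq_nonneg _)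
      have h1 := Pair_pl_card k U hC.Uc
      have h2 : (((Pair_pl k U).card * (Pair_pl k U).card : ℕ) : ℝ) ≤
          (((2 * k + 1) * (2 * k + 1) : ℕ) : ℝ) := by
        exact_mod_cast Nat.mul_le_mul h1 h1
      refine h2.trans (le_of_eq ?_)
      push_cast
      ring
  calc Pr w (fun i => l ∈ AL hub k q b b' U (G i) ∧ l' ∈ AL hub k q b b' U (G i)) ≤ _ := hcov
    _ ≤ _ := Pr_or hL.nn _ _
    _ ≤ (2 * k + 1) ^ 2 * lam ^ 2 + (pm * ind (¬ hub ∧ Pb b l l') +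
        pm * ind (U.Nonempty ∧ Pb b' l l')) :=
      add_le_add hsum ((Pr_or hL.nn _ _).trans (add_le_add hE2 hE3))
    _ = _ := by ring

end Pool.Agent.Lib.MP_8b7544_co.Df
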