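import Pool.Agent.Lib.MP_8b7544_co.Df.Stm

/-!
# MP_8b7544_co, project Deficiency, piece F2: choice of labellings for almost all components
-/

set_option autoImplicit false

namespace Pool.Agent.Lib.MP_8b7544_co.Df

open Finset

theorem Pick_sigma {J : Type} [Fintype J] {ι : J → Type} [∀ t, Fintype (ι t)]
    (w : ∀ t, ι t → ℝ) (P : (Σ t, ι t) → Prop) :
    Pr (fun s : Σ t, ι t => w s.1 s.2) P = ∑ t, Pr (w t) (fun i => P ⟨t, i⟩) := by
  classical
  rw [Pr_eq, Fintype.sum_sigma]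
  refine Finset.sum_congr rfl fun t _ => ?_
  rw [Pr_eq]

theorem Pick_zero {ι : Type} [Fintype ι] (w : ι → ℝ) (P : ι → Prop) (h : ∀ i, ¬ P i) :
    Pr w P = 0 := by
  classical
  rw [Pr_eq]
  exact Finset.sum_eq_zero fun i _ => if_neg (h i)

theorem Pick_true {ι : Type} [Fintype ι] (w : ι → ℝ) (P : ι → Prop) (h : ∀ i, P i) :
    Pr w P = ∑ i, w i := by
  classical
  rw [Pr_eq]
  exact Finset.sum_congr rfl fun i _ => if_pos (h i)

/-- restriction to one value of the first coordinate -/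
theorem Pick_sigma_one {J : Type} [Fintype J] {ι : J → Type} [∀ t, Fintype (ι t)]
    (w : ∀ t, ι t → ℝ) (j : J) (P : ∀ t, ι t → Prop) :
    Pr (fun s : Σ t, ι t => w s.1 s.2) (fun s => s.1 = j ∧ P s.1 s.2) = Pr (w j) (P j) := by
  classical
  rw [Pick_sigma]
  rw [Finset.sum_eq_single j]
  · congr 1
    funext i
    simp
  · intro t _ ht
    exact Pick_zero _ _ fun i hi => ht hi.1
  · intro h
    exact absurd (Finset.mem_univ _) h

theorem Pick_card {hub : Prop} {k : ℕ} {q : ℕ → ℕ} {b b' : ℤ} {U : Finset ℕ} {g : ℕ → ℤ}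
    (hU : U.card ≤ 1) : (AL hub k q b b' U g).card ≤ 2 * k + 1 := by
  classical
  unfold AL
  refine (card_union_le _ _).trans ?_
  refine (add_le_add_left (card_union_le _ _) _).trans ?_
  have h1 : ((range k).image (fun j => (true, g j))).card ≤ k := by
    simpa using card_image_le (s := range k) (f := fun j => (true, g j))
  have h2 : (((range k).filter (fun j => 1 ≤ j ∨ ¬ hub)).image
      (fun j => (false, sm q b g j))).card ≤ k := by
    refine card_image_le.trans ?_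
    simpa using card_filter_le (range k) (fun j => 1 ≤ j ∨ ¬ hub)
  have h3 : (U.image (fun u => (false, g u + b'))).card ≤ 1 := card_image_le.trans hU
  omega

theorem Pick_sub {R : ℕ} {V L : Finset ℤ} {hub : Prop} {k : ℕ} {q : ℕ → ℕ} {b b' : ℤ}
    {U : Finset ℕ} {g : ℕ → ℤ} (hV : V ⊆ Om R) (hL : hub → L ⊆ Om R)
    (h : Val V L hub k q b b' U g) :
    AL hub k q b b' U g ⊆ (univ : Finset Bool) ×ˢ Om R := by
  rintro ⟨c, y⟩ hy
  rw [mem_product]
  refine ⟨mem_univ _, ?_⟩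
  cases c with
  | true =>
    obtain ⟨j, hj, rfl⟩ := mem_AL_true.1 hy
    rcases Nat.eq_zero_or_pos j with rfl | hj0
    · by_cases hh : hub
      · exact hL hh (h.hub0 hh)
      · exact hV (h.nhub0 hh).1
    · exact hV (h.mem j hj0 hj).1
  | false =>
    rcases mem_AL_false.1 hy with ⟨j, hj, hjh, rfl⟩ | ⟨u, hu, rfl⟩
    · rcases Nat.eq_zero_or_pos j with rfl | hj0
      · rcases hjh with hh | hh
        · omega
        · exact hV (h.nhub0 hh).2
      · exact hV (h.mem j hj0 hj).2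
    · exact hV (h.out u hu)

theorem Pick_Pb {b c : ℤ} {l l' : Bool × ℤ} (h : Pb b l l') (h' : Pb c l l') : b = c := by
  obtain ⟨y, hy⟩ := h
  obtain ⟨z, hz⟩ := h'
  rcases hy with ⟨h1, h2⟩ | ⟨h1, h2⟩ <;> rcases hz with ⟨h3, h4⟩ | ⟨h3, h4⟩
  · rw [h1] at h3; rw [h2] at h4
    have e1 := (Prod.mk.inj h3).2
    have e2 := (Prod.mk.inj h4).2
    omega
  · rw [h2] at h3
    exact absurd (Prod.mk.inj h3).1 (by simp)
  · rw [h2] at h3
    exact absurd (Prod.mk.inj h3).1 (by simp)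
  · rw [h1] at h3; rw [h2] at h4
    have e1 := (Prod.mk.inj h3).2
    have e2 := (Prod.mk.inj h4).2
    omega

theorem Pick_top {p : ℕ → ℕ} {X : Finset ℕ} {w t t' : ℕ} (h : InC p X w t) (h' : InC p X w t')
    (ht : p t ∈ X) (ht' : p t' ∈ X) : t = t' := by
  obtain ⟨a, ha, hX⟩ := h
  obtain ⟨a', ha', hX'⟩ := h'
  rcases lt_trichotomy a a' with hlt | heq | hlt
  · exfalso
    apply hX' (a + 1) (by omega)
    rw [Function.iterate_succ_apply', ha]
    exact ht
  · rw [← ha, ← ha', heq]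
  · exfalso
    apply hX (a' + 1) (by omega)
    rw [Function.iterate_succ_apply', ha']
    exact ht'

theorem Pick_Om (R : ℕ) : (Om R).card = 2 * R + 1 := by
  unfold Om
  rw [Int.card_Icc]
  omega

/-- a sum of indicators over a set of at most one element -/
theorem Pick_ind_one {T : Finset ℕ} (P : ℕ → Prop)
    (h : ∀ t ∈ T, ∀ t' ∈ T, P t → P t' → t = t') : ∑ t ∈ T, ind (P t) ≤ 1 := by
  classical
  by_cases hex : ∃ t0 ∈ T, P t0
  · obtain ⟨t0, ht0, hP⟩ := hex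
    rw [Finset.sum_eq_single t0]
    · rw [ind_pos hP]
    · intro t ht hne
      exact ind_neg fun hPt => hne (h t ht t0 ht0 hPt hP)
    · intro h0
      exact absurd ht0 h0
  · rw [Finset.sum_eq_zero]
    · norm_num
    · intro t ht
      exact ind_neg fun hPt => hex ⟨t, ht, hPt⟩

theorem Pick_ind_sum (T : Finset ℕ) (P : ℕ → Prop) [DecidablePred P] :
    ∑ t ∈ T, ind (P t) = ((T.filter P).card : ℝ) := by
  rw [Finset.card_filter]
  push_cast
  refine Finset.sum_congr rfl fun t _ => ?_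
  by_cases h : P t
  · rw [ind_pos h, if_pos h]
  · rw [ind_neg h, if_neg h]

theorem Pick_loadV {n : ℕ} {c : ℝ} {T X : Finset ℕ} {k : ℕ → ℕ} {P : ℕ → Prop}
    [DecidablePred P] (hc : 0 ≤ c) (hs : (∑ t ∈ T, k t) + X.card = n)
    (h : ((n : ℝ) - (T.filter P).card) * c ≤ 1) :
    ∑ t ∈ T, ((k t : ℝ) - ind (P t)) * c ≤ 1 := by
  rw [← Finset.sum_mul, Finset.sum_sub_distrib, Pick_ind_sum]
  refine le_trans (mul_le_mul_of_nonneg_right ?_ hc) h
  have h1 : (∑ t ∈ T, (k t : ℝ)) + X.card = n := by exact_mod_cast hs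
  have h2 : (0 : ℝ) ≤ X.card := Nat.cast_nonneg _
  linarith

theorem Pick_loadS {n : ℕ} {c : ℝ} {T X : Finset ℕ} {k : ℕ → ℕ} {U : ℕ → Finset ℕ}
    {P : ℕ → Prop} [DecidablePred P] (hc : 0 ≤ c) (hs : (∑ t ∈ T, k t) + X.card = n)
    (hU : ∑ t ∈ T, (U t).card ≤ X.card)
    (h : ((n : ℝ) - (T.filter P).card) * c ≤ 1) :
    ∑ t ∈ T, ((k t : ℝ) - ind (P t) + (U t).card) * c ≤ 1 := by
  rw [← Finset.sum_mul, Finset.sum_add_distrib, Finset.sum_sub_distrib, Pick_ind_sum]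
  refine le_trans (mul_le_mul_of_nonneg_right ?_ hc) h
  have h1 : (∑ t ∈ T, (k t : ℝ)) + X.card = n := by exact_mod_cast hs
  have h2 : (∑ t ∈ T, ((U t).card : ℝ)) ≤ X.card := by exact_mod_cast hU
  linarith

theorem Pick_loadL {T H : Finset ℕ} {p : ℕ → ℕ} {L : ℕ → Finset ℤ} {mu : ℕ → ℤ → ℝ} {nu : ℝ}
    (hnu1 : nu < 1) (hLL : ∀ x ∈ H, ∀ y ∈ H, x ≠ y → Disjoint (L x) (L y))
    (hm1 : ∀ t ∈ T, p t ∈ H → ∀ y, mu t y ≤ 1 / ((L (p t)).card : ℝ))
    (hm2 : ∀ t ∈ T, p t ∈ H → ∀ y ∉ L (p t), mu t y = 0)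
    (hx : ∀ x ∈ H, ((T.filter (fun t => p t = x)).card : ℝ) ≤ (1 - nu) * (L x).card) (y : ℤ) :
    ∑ t ∈ T, ind (p t ∈ H) * (mu t y / (1 - nu)) ≤ 1 := by
  classical
  have hpos : 0 < 1 - nu := by linarith
  by_cases hex : ∃ x ∈ H, y ∈ L x
  · obtain ⟨x, hxH, hyx⟩ := hex
    have hc : (0 : ℝ) < (L x).card := by
      exact_mod_cast Finset.card_pos.2 ⟨y, hyx⟩
    have h1 : ∑ t ∈ T, ind (p t ∈ H) * (mu t y / (1 - nu)) ≤
        ∑ t ∈ T, ind (p t = x) * (1 / ((L x).card : ℝ) / (1 - nu)) := by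
      refine Finset.sum_le_sum fun t ht => ?_
      by_cases hH : p t ∈ H
      · rw [ind_pos hH, one_mul]
        by_cases he : p t = x
        · rw [ind_pos he, one_mul]
          have := hm1 t ht hH y
          rw [he] at this
          gcongr
        · rw [ind_neg he, zero_mul]
          have : y ∉ L (p t) := fun hy =>
            (Finset.disjoint_left.1 (hLL _ hH _ hxH he)) hy hyx
          rw [hm2 t ht hH y this, zero_div]
      · rw [ind_neg hH, zero_mul]
        exact mul_nonneg (ind_nonneg _) (div_nonneg (by positivity) hpos.le)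
    refine h1.trans ?_
    rw [← Finset.sum_mul, Pick_ind_sum]
    have h2 := hx x hxH
    rw [div_div, mul_one_div, div_le_one (mul_pos hc hpos)]
    linarith
  · refine le_trans (Finset.sum_nonpos fun t ht => ?_) zero_le_one
    by_cases hH : p t ∈ H
    · have : y ∉ L (p t) := fun hy => hex ⟨_, hH, hy⟩
      rw [hm2 t ht hH y this, zero_div, mul_zero]
    · rw [ind_neg hH, zero_mul]

theorem Pick_tops_pos {n : ℕ} {p : ℕ → ℕ} {X : Finset ℕ} (h0 : 0 ∈ X) {t : ℕ}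
    (ht : t ∈ tops n p X) : t < n ∧ t ∉ X ∧ p t ∈ X ∧ 0 < t := by
  unfold tops at ht
  rw [mem_filter, mem_range] at ht
  refine ⟨ht.1, ht.2.1, ht.2.2, ?_⟩
  rcases Nat.eq_zero_or_pos t with rfl | h
  · exact absurd h0 ht.2.1
  · exact h

theorem Pick_cod1 {n S : ℕ} {δ : ℝ} {p : ℕ → ℕ} {H Hp X : Finset ℕ} {β : ℕ → ℤ}
    (hTD : TD n S δ p H Hp X) (hβ : ∀ x ∈ X, ∀ y ∈ X, β x = β y → x = y) (hδ : 0 ≤ δ)
    (l l' : Bool × ℤ) :
    ∑ t ∈ tops n p X, ind (¬ p t ∈ H ∧ Pb (β (p t)) l l') ≤ δ * n := by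
  classical
  by_cases hex : ∃ t0 ∈ tops n p X, ¬ p t0 ∈ H ∧ Pb (β (p t0)) l l'
  · obtain ⟨t0, ht0, hH, hP⟩ := hex
    rw [Pick_ind_sum]
    refine le_trans ?_ (hTD.few (p t0) hH)
    norm_cast
    refine Finset.card_le_card fun t ht => ?_
    rw [mem_filter] at ht
    obtain ⟨h1, h2, h3, h4⟩ := Pick_tops_pos hTD.zero ht.1
    obtain ⟨g1, g2, g3, g4⟩ := Pick_tops_pos hTD.zero ht0
    unfold chl
    rw [mem_filter, mem_range]
    exact ⟨h1, h4, hβ _ h3 _ g3 (Pick_Pb ht.2.2 hP)⟩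
  · rw [Finset.sum_eq_zero]
    · positivity
    · intro t ht
      exact ind_neg fun h => hex ⟨t, ht, h⟩

theorem Pick_cod2 {n S : ℕ} {δ : ℝ} {p : ℕ → ℕ} {H Hp X : Finset ℕ} {β : ℕ → ℤ}
    {k : ℕ → ℕ} {v q : ℕ → ℕ → ℕ} {U : ℕ → Finset ℕ} {b' : ℕ → ℤ}
    (hTD : TD n S δ p H Hp X) (hC : Comps n p X β k v q U b')
    (hβ : ∀ x ∈ X, ∀ y ∈ X, β x = β y → x = y)
    (l l' : Bool × ℤ) :
    ∑ t ∈ tops n p X, ind ((U t).Nonempty ∧ Pb (b' t) l l') ≤ 1 := by
  refine Pick_ind_one _ ?_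
  rintro t ht t' ht' ⟨⟨u, hu⟩, hP⟩ ⟨⟨u', hu'⟩, hP'⟩
  obtain ⟨h1, h2, h3, h4⟩ := Pick_tops_pos hTD.zero ht
  obtain ⟨g1, g2, g3, g4⟩ := Pick_tops_pos hTD.zero ht'
  obtain ⟨d, hd, hd0, hdv, hdb⟩ := hC.Uout t ht u hu
  obtain ⟨d', hd', hd0', hdv', hdb'⟩ := hC.Uout t' ht' u' hu'
  have hdd : d = d' := by
    apply hβ d hd d' hd'
    rw [← hdb, ← hdb']
    exact Pick_Pb hP hP'
  have hk : u < k t := (mem_Ico.1 (hC.U1 t ht hu)).2
  have hk' : u' < k t' := (mem_Ico.1 (hC.U1 t' ht' hu')).2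
  have e1 := ((hC.ce t ht).mem u hk).2
  have e2 := ((hC.ce t' ht').mem u' hk').2
  rw [← hdv, hdd] at e1
  rw [← hdv'] at e2
  exact Pick_top e1 e2 h3 g3

theorem p_Pick : PickOf := by
  intro hNW S η hη
  obtain ⟨ε, hε, hmain⟩ := hNW (2 * S + 1) η hη
  refine ⟨ε, hε, ?_⟩
  intro n R δ p H Hp X β k v q U b' V L mu lam pm nu hTD hC hkS hsum hUsum hβ hVR hLR hVL hLL
    hmu1 hmu2 hpm hlam hnu hnu1 hδ hh hx hcod hlab hRε hfam
  classical
  have hpos : 0 < 1 - nu := by linarith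
  have hc0 : 0 ≤ pm / (1 - nu) := div_nonneg hpm hpos.le
  have hl0 : 0 ≤ lam / (1 - nu) := div_nonneg hlam hpos.le
  have hq0 : 0 ≤ lam ^ 2 / (1 - nu) := div_nonneg (sq_nonneg _) hpos.le
  have hfam' : ∀ t : ↥(tops n p X), ∃ (ι : Type) (_ : Fintype ι) (w : ι → ℝ) (G : ι → ℕ → ℤ),
      Fam V (L (p t)) (mu t) lam pm nu (p t ∈ H) (k t) (q t) (β (p t)) (b' t) (U t) ι w G :=
    fun t => hfam t.1 t.2
  choose ι fι w G hF using hfam'
  set Lb : Finset (Bool × ℤ) := (univ : Finset Bool) ×ˢ Om R with hLb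
  have hLbc : (Lb.card : ℝ) = 2 * (2 * R + 1) := by
    rw [hLb, card_product, Pick_Om]
    push_cast [Finset.card_univ, Fintype.card_bool]
    ring
  set A : (Σ t : ↥(tops n p X), ι t) → Finset (Bool × ℤ) := fun s =>
    AL (p s.1 ∈ H) (k s.1) (q s.1) (β (p s.1)) (b' s.1) (U s.1) (G s.1 s.2) with hA
  have hcard : ((tops n p X).card : ℝ) ≤ n := by
    have : (tops n p X).card ≤ n := by
      unfold tops
      simpa using card_filter_le (range n) (fun t => t ∉ X ∧ p t ∈ X)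
    exact_mod_cast this
  have hU1 : ∀ t ∈ tops n p X, (U t).card ≤ 1 := hC.Uc
  obtain ⟨I, hI0, hI, hIc⟩ := hmain ↥(tops n p X) (Bool × ℤ) (Σ t : ↥(tops n p X), ι t) Lb
    (fun s => s.1) A (fun s => w s.1 s.2)
    (fun s => (hF s.1).nn s.2)
    (by
      intro s hs
      refine ⟨?_, ?_⟩
      · have h1 := Pick_card (hub := p s.1 ∈ H) (k := k s.1) (q := q s.1) (b := β (p s.1))
          (b' := b' s.1) (g := G s.1 s.2) (hU1 s.1 s.1.2)
        have h2 := hkS s.1 s.1.2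
        exact h1.trans (by omega)
      · exact Pick_sub hVR (fun h => hLR _ h) ((hF s.1).val s.2 hs))
    (by
      intro j
      have h1 := Pick_sigma_one w j (fun t (_ : ι t) => True)
      simp only [and_true] at h1
      rw [h1, Pick_true _ _ (fun _ => trivial)]
      exact (hF j).tot)
    (by
      rintro ⟨c, y⟩ -
      rw [Pick_sigma]
      cases c with
      | true =>
        by_cases hy : y ∈ V
        · refine le_trans (Finset.sum_le_sum fun t _ => (hF t).loadV y hy) ?_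
          rw [Finset.sum_coe_sort (tops n p X)
            (fun t => ((k t : ℝ) - ind (p t ∈ H)) * (pm / (1 - nu)))]
          exact Pick_loadV hc0 hsum hh
        · refine le_trans (Finset.sum_le_sum fun t _ => (hF t).loadL y hy) ?_
          rw [Finset.sum_coe_sort (tops n p X)
            (fun t => ind (p t ∈ H) * (mu t y / (1 - nu)))]
          exact Pick_loadL hnu1 hLL hmu1 hmu2 hx y
      | false =>
        refine le_trans (Finset.sum_le_sum fun t _ => (hF t).loadS y) ?_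
        rw [Finset.sum_coe_sort (tops n p X)
          (fun t => ((k t : ℝ) - ind (p t ∈ H) + (U t).card) * (pm / (1 - nu)))]
        exact Pick_loadS hc0 hsum hUsum hh)
    (by
      intro l l' hne
      rw [Pick_sigma]
      refine le_trans (Finset.sum_le_sum fun t _ => (hF t).pair l l' hne) ?_
      rw [Finset.sum_coe_sort (tops n p X)
        (fun t => (2 * (k t : ℝ) + 1) ^ 2 * (lam ^ 2 / (1 - nu))
        + pm / (1 - nu) * (ind (¬ p t ∈ H ∧ Pb (β (p t)) l l')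
          + ind ((U t).Nonempty ∧ Pb (b' t) l l')))]
      refine le_trans ?_ hcod
      rw [Finset.sum_add_distrib, ← Finset.mul_sum, Finset.sum_add_distrib]
      refine add_le_add ?_ ?_
      · refine le_trans (Finset.sum_le_card_nsmul _ _ ((2 * S + 1) ^ 2 * (lam ^ 2 / (1 - nu)))
          ?_) ?_
        · intro t ht
          refine mul_le_mul_of_nonneg_right ?_ hq0
          have : (k t : ℝ) ≤ S := by exact_mod_cast hkS t ht
          gcongr
        · rw [nsmul_eq_mul]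
          exact mul_le_mul_of_nonneg_right hcard (by positivity)
      · refine mul_le_mul_of_nonneg_left ?_ hc0
        exact add_le_add (Pick_cod1 hTD hβ hδ l l') (Pick_cod2 hTD hC hβ l l'))
    (by
      intro j l
      have h1 := Pick_sigma_one w j (fun t (i : ι t) => l ∈ A ⟨t, i⟩)
      refine le_trans (le_of_eq h1) ?_
      refine le_trans ((hF j).load l) (le_trans ?_ hlab)
      have : (k j : ℝ) ≤ S := by exact_mod_cast hkS j j.2
      refine mul_le_mul_of_nonneg_right ?_ hl0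
      linarith)
    (by
      rw [hLbc]
      have : (0 : ℝ) ≤ Fintype.card ↥(tops n p X) := Nat.cast_nonneg _
      linarith)
  have hJ : ∀ t ∈ I.image (fun s => (s.1 : ℕ)), ∃ s ∈ I, (s.1 : ℕ) = t := by
    intro t ht
    rw [mem_image] at ht
    exact ht
  have hg : ∃ g : ℕ → ℕ → ℤ, ∀ t ∈ I.image (fun s => (s.1 : ℕ)), ∃ s ∈ I, (s.1 : ℕ) = t ∧
      g t = G s.1 s.2 := by
    choose sel hsel1 hsel2 using hJ
    refine ⟨fun t => if ht : t ∈ I.image (fun s => (s.1 : ℕ)) then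
      G (sel t ht).1 (sel t ht).2 else fun _ => 0,
      fun t ht => ⟨sel t ht, hsel1 t ht, hsel2 t ht, ?_⟩⟩
    exact dif_pos ht
  obtain ⟨g, hg⟩ := hg
  refine ⟨I.image (fun s => (s.1 : ℕ)), g, ?_, ?_, ?_, ?_⟩
  · intro t ht
    obtain ⟨s, hs, rfl, -⟩ := hg t ht
    exact s.1.2
  · intro t ht
    obtain ⟨s, hs, rfl, hgs⟩ := hg t ht
    rw [hgs]
    exact (hF s.1).val s.2 (hI0 s hs)
  · intro t ht t' ht' hne
    obtain ⟨s, hs, rfl, hgs⟩ := hg t ht
    obtain ⟨s', hs', rfl, hgs'⟩ := hg t' ht'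
    rw [hgs, hgs']
    exact (hI s hs s' hs' (fun h => hne (by rw [h]))).2
  · have hJc : (I.image (fun s => (s.1 : ℕ))).card = I.card := by
      apply card_image_of_injOn
      intro s hs s' hs' he
      by_contra hne
      exact (hI s hs s' hs' hne).1 (Subtype.ext he)
    rw [hJc]
    have hc : (Fintype.card ↥(tops n p X) : ℝ) = (tops n p X).card := by
      rw [Fintype.card_coe]
    rw [hc, hLbc] at hIc
    refine hIc.trans (mul_le_mul_of_nonneg_left ?_ hη.le)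
    linarith

end Pool.Agent.Lib.MP_8b7544_co.Df
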