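import Mathlib
import Pool.Agent.Lib.MP_8b7544_co.Df.Stm

/-!
# MP_8b7544_co, project Deficiency, piece QP (Q3): quasirandom symmetric residue sets
-/

set_option autoImplicit false

namespace Pool.Agent.Lib.MP_8b7544_co.Df

open Finset

theorem QP_neg {m : ℕ} (M : Finset (ZMod m)) (hM : ∀ b ∈ M, -b ∈ M) (a : ZMod m) :
    Qr M (-a) = Qr M a := by
  unfold Qr
  refine Finset.card_bij' (fun b _ => -b) (fun b _ => -b) ?_ ?_ ?_ ?_
  · intro b hb
    rw [mem_filter] at hb ⊢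
    refine ⟨hM _ hb.1, ?_⟩
    have := hM _ hb.2
    rwa [show a + -b = -(-a + b) by ring]
  · intro b hb
    rw [mem_filter] at hb ⊢
    refine ⟨hM _ hb.1, ?_⟩
    have := hM _ hb.2
    rwa [show -a + -b = -(a + b) by ring]
  · intro b hb
    simp
  · intro b hb
    simp

theorem QP_le {m : ℕ} (M Ex : Finset (ZMod m)) (b : ZMod m) : Qr (M \ Ex) b ≤ Qr M b := by
  unfold Qr
  refine card_le_card fun c hc => ?_
  rw [mem_filter, mem_sdiff, mem_sdiff] at hc
  rw [mem_filter]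
  exact ⟨hc.1.1, hc.2.1⟩

theorem QP_ge {m : ℕ} (M Ex : Finset (ZMod m)) (b : ZMod m) :
    Qr M b ≤ Qr (M \ Ex) b + (Ex.card + Ex.card) := by
  unfold Qr
  have hsub : (M.filter (fun c => b + c ∈ M)) ⊆
      ((M \ Ex).filter (fun c => b + c ∈ M \ Ex)) ∪ (Ex ∪ Ex.image (fun c => c - b)) := by
    intro c hc
    rw [mem_filter] at hc
    rw [mem_union, mem_union, mem_filter, mem_sdiff, mem_sdiff, mem_image]
    by_cases h1 : c ∈ Ex
    · exact Or.inr (Or.inl h1)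
    by_cases h2 : b + c ∈ Ex
    · exact Or.inr (Or.inr ⟨b + c, h2, by ring⟩)
    exact Or.inl ⟨⟨hc.1, h1⟩, hc.2, h2⟩
  refine (card_le_card hsub).trans ((card_union_le _ _).trans ?_)
  refine add_le_add le_rfl ((card_union_le _ _).trans (add_le_add le_rfl card_image_le))

theorem QP_avg {ι : Type} (s : Finset ι) (w T : ι → ℝ) (hw : ∀ i, 0 ≤ w i)
    (h1 : ∑ i ∈ s, w i = 1) (c : ℝ) (h : ∑ i ∈ s, w i * T i ≤ c) : ∃ i ∈ s, T i ≤ c := by
  by_contra hcon
  push Not at hcon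
  have h2 : ∑ i ∈ s, w i * (T i - c) ≤ 0 := by
    simp only [mul_sub, Finset.sum_sub_distrib, ← Finset.sum_mul, h1]
    linarith
  have h3 : ∀ i ∈ s, 0 ≤ w i * (T i - c) := fun i hi =>
    mul_nonneg (hw i) (by linarith [hcon i hi])
  have h4 := (Finset.sum_eq_zero_iff_of_nonneg h3).1 (le_antisymm h2 (Finset.sum_nonneg h3))
  have h5 : ∑ i ∈ s, w i = 0 := Finset.sum_eq_zero fun i hi => by
    rcases mul_eq_zero.1 (h4 i hi) with h | h
    · exact h
    · linarith [hcon i hi]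
  linarith

theorem QP_sym {m : ℕ} [NeZero m] (A : Finset ℕ) : ∀ b ∈ Sy m A, -b ∈ Sy m A := by
  intro b hb
  unfold Sy at hb ⊢
  rw [mem_filter] at hb ⊢
  refine ⟨mem_univ _, neg_ne_zero.2 hb.2.1, ?_⟩
  rw [neg_neg, min_comm]
  exact hb.2.2

theorem QP_zero {m : ℕ} [NeZero m] (A : Finset ℕ) : (0 : ZMod m) ∉ Sy m A := by
  unfold Sy
  rw [mem_filter]
  exact fun h => h.2.1 rfl

/-- a good set of representatives -/
theorem QP_main (hW : StmWeights) (hMom : StmMom) (m : ℕ) [NeZero m] (hodd : Odd m) (ρ : ℝ)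
    (h0 : 0 ≤ ρ) (h1 : ρ ≤ 1) :
    ∃ A : Finset ℕ, (((Sy m A).card : ℝ) - ρ * m) ^ 2 / (4 * m)
      + ∑ a ∈ (univ : Finset (ZMod m)).filter (fun a => a ≠ 0),
        ((Qr (Sy m A) a : ℝ) - ρ ^ 2 * m) ^ 2 / (16 * m ^ 2) ≤ 2 := by
  obtain ⟨w, hw, hF⟩ := hW (range m) ρ h0 h1
  obtain ⟨hm1, hm2⟩ := hMom m hodd ρ h0 h1 w hw hF
  have hmpos : (0 : ℝ) < m := by
    have := NeZero.pos m
    exact_mod_cast this
  have htot : ∑ A ∈ (range m).powerset, w A = 1 := by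
    have := hF ∅ (empty_subset _)
    simpa using this
  let T : Finset ℕ → ℝ := fun A => (((Sy m A).card : ℝ) - ρ * m) ^ 2 / (4 * m)
      + ∑ a ∈ (univ : Finset (ZMod m)).filter (fun a => a ≠ 0),
        ((Qr (Sy m A) a : ℝ) - ρ ^ 2 * m) ^ 2 / (16 * m ^ 2)
  have hav : ∑ A ∈ (range m).powerset, w A * T A ≤ 2 := by
    simp only [T, mul_add, Finset.sum_add_distrib, Finset.mul_sum]
    rw [Finset.sum_comm]
    have e1 : ∑ A ∈ (range m).powerset, w A * ((((Sy m A).card : ℝ) - ρ * m) ^ 2 / (4 * m))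
        ≤ 1 := by
      have : ∑ A ∈ (range m).powerset, w A * ((((Sy m A).card : ℝ) - ρ * m) ^ 2 / (4 * m))
          = (∑ A ∈ (range m).powerset, w A * (((Sy m A).card : ℝ) - ρ * m) ^ 2) / (4 * m) := by
        rw [Finset.sum_div]
        exact Finset.sum_congr rfl fun A _ => by ring
      rw [this, div_le_one (by positivity)]
      exact hm1
    have e2 : ∀ a ∈ (univ : Finset (ZMod m)).filter (fun a => a ≠ 0),
        ∑ A ∈ (range m).powerset, w A * (((Qr (Sy m A) a : ℝ) - ρ ^ 2 * m) ^ 2 / (16 * m ^ 2))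
        ≤ (1 / m : ℝ) := by
      intro a ha
      rw [mem_filter] at ha
      have : ∑ A ∈ (range m).powerset,
          w A * (((Qr (Sy m A) a : ℝ) - ρ ^ 2 * m) ^ 2 / (16 * m ^ 2))
          = (∑ A ∈ (range m).powerset, w A * ((Qr (Sy m A) a : ℝ) - ρ ^ 2 * m) ^ 2)
            / (16 * m ^ 2) := by
        rw [Finset.sum_div]
        exact Finset.sum_congr rfl fun A _ => by ring
      rw [this, div_le_div_iff₀ (by positivity) hmpos]
      have := mul_le_mul_of_nonneg_right (hm2 a ha.2) hmpos.le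
      calc _ ≤ (16 * m) * (m : ℝ) := this
        _ = _ := by ring
    have e3 := Finset.sum_le_sum e2
    have e4 : ∑ a ∈ (univ : Finset (ZMod m)).filter (fun a => a ≠ 0), (1 / m : ℝ) ≤ 1 := by
      rw [Finset.sum_const, nsmul_eq_mul, mul_one_div, div_le_one hmpos]
      have : ((univ : Finset (ZMod m)).filter (fun a => a ≠ 0)).card ≤ m := by
        refine (card_filter_le _ _).trans ?_
        rw [card_univ, ZMod.card]
      exact_mod_cast this
    linarith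
  obtain ⟨A, -, hA⟩ := QP_avg (range m).powerset w T hw htot 2 hav
  exact ⟨A, hA⟩

theorem p_QP : QOf := by
  intro hW hMom e he
  obtain ⟨e1, he1, he18, he1e⟩ : ∃ e1 : ℝ, 0 < e1 ∧ e1 ≤ 1 / 8 ∧ 3 * e1 ≤ e := by
    refine ⟨min e 1 / 8, ?_, ?_, ?_⟩
    · have : 0 < min e 1 := lt_min he one_pos
      linarith
    · have : min e 1 ≤ 1 := min_le_right _ _
      linarith
    · have : min e 1 ≤ e := min_le_left _ _
      linarith
  obtain ⟨k, hk⟩ := exists_nat_ge (32 / e1 ^ 3)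
  refine ⟨2 * k + 1, by omega, fun ρ h0 h1 => ?_⟩
  obtain ⟨A, hA⟩ := QP_main hW hMom (2 * k + 1) ⟨k, rfl⟩ ρ h0 h1
  obtain ⟨m, hm⟩ : ∃ m, m = 2 * k + 1 := ⟨_, rfl⟩
  have hkm : (k : ℝ) ≤ m := by
    rw [hm]
    push_cast
    have : (0 : ℝ) ≤ k := Nat.cast_nonneg k
    linarith
  rw [← hm]
  have : NeZero m := ⟨by omega⟩
  have hA' : (((Sy m A).card : ℝ) - ρ * m) ^ 2 / (4 * m)
      + ∑ a ∈ (univ : Finset (ZMod m)).filter (fun a => a ≠ 0),
        ((Qr (Sy m A) a : ℝ) - ρ ^ 2 * m) ^ 2 / (16 * m ^ 2) ≤ 2 := by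
    subst hm
    exact hA
  clear hA
  have hmpos : (0 : ℝ) < m := by
    have := NeZero.pos m
    exact_mod_cast this
  have h32 : 32 ≤ e1 ^ 3 * m := by
    have : 32 / e1 ^ 3 ≤ (m : ℝ) := hk.trans hkm
    rw [div_le_iff₀ (by positivity)] at this
    linarith
  have he13 : e1 ^ 3 ≤ e1 ^ 2 := pow_le_pow_of_le_one he1.le (by linarith) (by norm_num)
  have he12 : e1 ^ 2 ≤ e1 := by
    have := pow_le_pow_of_le_one he1.le (by linarith) (show 1 ≤ 2 by norm_num)
    simpa using this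
  have h32b : 32 ≤ e1 ^ 2 * m := h32.trans (by gcongr)
  have h32c : 32 ≤ e1 * m := h32b.trans (by gcongr)
  obtain ⟨M, hM⟩ : ∃ M, M = Sy m A := ⟨_, rfl⟩
  have hMs : ∀ b ∈ M, -b ∈ M := by rw [hM]; exact QP_sym A
  have hM0 : (0 : ZMod m) ∉ M := by rw [hM]; exact QP_zero A
  rw [← hM] at hA'
  have hsn : 0 ≤ ∑ a ∈ (univ : Finset (ZMod m)).filter (fun a => a ≠ 0),
      ((Qr M a : ℝ) - ρ ^ 2 * m) ^ 2 / (16 * m ^ 2) :=
    Finset.sum_nonneg fun a _ => by positivity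
  have hcard : |(M.card : ℝ) - ρ * m| ≤ e1 * m := by
    refine abs_le_of_sq_le_sq ?_ (by positivity)
    have h2 : ((M.card : ℝ) - ρ * m) ^ 2 / (4 * m) ≤ 2 := by linarith
    rw [div_le_iff₀ (by positivity)] at h2
    calc ((M.card : ℝ) - ρ * m) ^ 2 ≤ 2 * (4 * m) := h2
      _ ≤ 32 * m := by linarith
      _ ≤ (e1 ^ 2 * m) * m := by gcongr
      _ = (e1 * m) ^ 2 := by ring
  let Ex : Finset (ZMod m) :=
    (univ : Finset (ZMod m)).filter (fun a => a ≠ 0 ∧ e1 * m < |(Qr M a : ℝ) - ρ ^ 2 * m|)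
  have hExm : ∀ a, a ∈ Ex ↔ a ≠ 0 ∧ e1 * m < |(Qr M a : ℝ) - ρ ^ 2 * m| := by
    intro a
    simp [Ex]
  have hExs : ∀ a ∈ Ex, -a ∈ Ex := by
    intro a ha
    rw [hExm] at ha ⊢
    rw [QP_neg M hMs]
    exact ⟨neg_ne_zero.2 ha.1, ha.2⟩
  have hEx : (Ex.card : ℝ) ≤ e1 * m := by
    have h2 : ∑ a ∈ Ex, (e1 ^ 2 / 16 : ℝ) ≤ 2 := by
      calc ∑ a ∈ Ex, (e1 ^ 2 / 16 : ℝ)
          ≤ ∑ a ∈ Ex, ((Qr M a : ℝ) - ρ ^ 2 * m) ^ 2 / (16 * m ^ 2) := by
            refine Finset.sum_le_sum fun a ha => ?_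
            rw [hExm] at ha
            rw [div_le_div_iff₀ (by norm_num) (by positivity)]
            have h3 : (e1 * m) ^ 2 ≤ ((Qr M a : ℝ) - ρ ^ 2 * m) ^ 2 := by
              rw [← sq_abs ((Qr M a : ℝ) - ρ ^ 2 * m)]
              exact pow_le_pow_left₀ (by positivity) ha.2.le 2
            nlinarith
        _ ≤ ∑ a ∈ (univ : Finset (ZMod m)).filter (fun a => a ≠ 0),
            ((Qr M a : ℝ) - ρ ^ 2 * m) ^ 2 / (16 * m ^ 2) := by
            refine Finset.sum_le_sum_of_subset_of_nonneg ?_ fun a _ _ => by positivity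
            intro a ha
            rw [hExm] at ha
            rw [mem_filter]
            exact ⟨mem_univ _, ha.1⟩
        _ ≤ 2 := by
            have : 0 ≤ ((M.card : ℝ) - ρ * m) ^ 2 / (4 * m) := by positivity
            linarith
    rw [Finset.sum_const, nsmul_eq_mul] at h2
    have h3 : (Ex.card : ℝ) * e1 ^ 2 ≤ 32 := by linarith
    have h4 : (Ex.card : ℝ) * e1 ^ 2 ≤ (e1 * m) * e1 ^ 2 := by
      calc _ ≤ (32 : ℝ) := h3
        _ ≤ e1 ^ 3 * m := h32
        _ = _ := by ring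
    exact le_of_mul_le_mul_right h4 (by positivity)
  have hc1 : (((M \ Ex).card : ℕ) : ℝ) ≤ M.card := by
    exact_mod_cast card_le_card sdiff_subset
  have hc2 : (M.card : ℝ) ≤ (M \ Ex).card + Ex.card := by
    have : M.card ≤ (M \ Ex).card + Ex.card := by
      exact card_le_card_sdiff_add_card
    exact_mod_cast this
  rw [abs_le] at hcard
  refine ⟨M \ Ex, (univ : Finset (ZMod m)).filter (fun b => b ≠ 0 ∧ b ∉ M ∧ b ∉ Ex), ?_, ?_, ?_,
    ?_, ?_, ?_, ?_⟩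
  · rw [Finset.disjoint_left]
    intro b hb hb'
    rw [mem_sdiff] at hb
    rw [mem_filter] at hb'
    exact hb'.2.2.1 hb.1
  · rw [mem_sdiff]
    exact fun h => hM0 h.1
  · rw [mem_filter]
    exact fun h => h.2.1 rfl
  · intro b hb
    rw [mem_sdiff] at hb ⊢
    refine ⟨hMs _ hb.1, fun h => hb.2 ?_⟩
    have := hExs _ h
    rwa [neg_neg] at this
  · have : e1 * m + e1 * m ≤ e * m := by nlinarith
    rw [abs_le]
    constructor <;> linarith [hcard.1, hcard.2]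
  · have hu : (univ : Finset (ZMod m)) ⊆ ({0} ∪ (M ∪ Ex)) ∪
        (univ : Finset (ZMod m)).filter (fun b => b ≠ 0 ∧ b ∉ M ∧ b ∉ Ex) := by
      intro b _
      by_cases h1 : b = 0
      · exact mem_union_left _ (mem_union_left _ (mem_singleton.2 h1))
      by_cases h2 : b ∈ M
      · exact mem_union_left _ (mem_union_right _ (mem_union_left _ h2))
      by_cases h3 : b ∈ Ex
      · exact mem_union_left _ (mem_union_right _ (mem_union_right _ h3))
      exact mem_union_right _ (mem_filter.2 ⟨mem_univ _, h1, h2, h3⟩)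
    have hcu := card_le_card hu
    rw [card_univ, ZMod.card] at hcu
    have hcu2 : m ≤ (1 + (M.card + Ex.card)) +
        ((univ : Finset (ZMod m)).filter (fun b => b ≠ 0 ∧ b ∉ M ∧ b ∉ Ex)).card := by
      refine hcu.trans ((card_union_le _ _).trans (add_le_add ?_ le_rfl))
      refine (card_union_le _ _).trans (add_le_add (by simp) (card_union_le _ _))
    have hcu3 : (m : ℝ) ≤ (1 + (M.card + Ex.card)) +
        ((univ : Finset (ZMod m)).filter (fun b => b ≠ 0 ∧ b ∉ M ∧ b ∉ Ex)).card := by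
      exact_mod_cast hcu2
    have : e1 * m + e1 * m + e1 * m ≤ e * m := by nlinarith
    nlinarith [hcard.1, hcard.2]
  · intro b hb
    have hb' : b ≠ 0 ∧ b ∉ Ex := by
      rcases hb with hb | hb
      · rw [mem_sdiff] at hb
        exact ⟨fun h => hM0 (h ▸ hb.1), hb.2⟩
      · rw [mem_filter] at hb
        exact ⟨hb.2.1, hb.2.2.2⟩
    have h2 : |(Qr M b : ℝ) - ρ ^ 2 * m| ≤ e1 * m := by
      by_contra hcon
      exact hb'.2 ((hExm b).2 ⟨hb'.1, not_le.1 hcon⟩)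
    have h3 : (Qr (M \ Ex) b : ℝ) ≤ Qr M b := by exact_mod_cast QP_le M Ex b
    have h4 : (Qr M b : ℝ) ≤ Qr (M \ Ex) b + (Ex.card + Ex.card) := by
      exact_mod_cast QP_ge M Ex b
    have : e1 * m + e1 * m + e1 * m ≤ e * m := by nlinarith
    rw [abs_le] at h2 ⊢
    constructor <;> linarith [h2.1, h2.2]

end Pool.Agent.Lib.MP_8b7544_co.Df
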