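import Mathlib
import Pool.Agent.Lib.MP_8b7544_co.Df.Stm

/-!
# MP_8b7544_co, project Deficiency, piece ResP (Q4): residue classes modulo m K with phases
-/

set_option autoImplicit false

namespace Pool.Agent.Lib.MP_8b7544_co.Df

open Finset

/-- reduction modulo `m` -/
noncomputable abbrev ResP_c (m K : ℕ) : ZMod (m * K) →+* ZMod m :=
  ZMod.castHom (Dvd.intro K rfl) (ZMod m)

theorem ResP_val {m K : ℕ} [NeZero m] [NeZero (m * K)] (b : ZMod (m * K)) :
    ResP_c m K b = ((b.val : ℕ) : ZMod m) := by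
  conv_lhs => rw [← ZMod.natCast_zmod_val b]
  rw [map_natCast]

theorem ResP_div {m K : ℕ} [NeZero m] [NeZero (m * K)] (b : ZMod (m * K)) :
    b.val / m < K := by
  have h := ZMod.val_lt b
  exact Nat.div_lt_of_lt_mul h

theorem ResP_lt {m K : ℕ} [NeZero m] (a : ZMod m) (i : ℕ) (hi : i < K) :
    a.val + m * i < m * K := by
  have h1 := ZMod.val_lt a
  have h2 : m * (i + 1) ≤ m * K := Nat.mul_le_mul_left m hi
  rw [mul_add, mul_one] at h2
  omega

theorem ResP_card {m K : ℕ} [NeZero m] [NeZero (m * K)] (S : Finset (ZMod m)) (T : Finset ℕ)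
    (hT : T ⊆ range K) :
    ((univ : Finset (ZMod (m * K))).filter
      (fun b => ResP_c m K b ∈ S ∧ b.val / m ∈ T)).card = S.card * T.card := by
  have hm : 0 < m := NeZero.pos m
  rw [← card_product]
  refine card_nbij' (fun b => (ResP_c m K b, b.val / m))
    (fun x => ((x.1.val + m * x.2 : ℕ) : ZMod (m * K))) ?_ ?_ ?_ ?_
  · intro b hb
    rw [coe_filter, Set.mem_ofPred_eq] at hb
    rw [mem_coe, mem_product]
    exact hb.2
  · rintro ⟨a, i⟩ hx
    rw [mem_coe, mem_product] at hx
    have hi : i < K := mem_range.1 (hT hx.2)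
    rw [coe_filter, Set.mem_ofPred_eq]
    have hlt := ResP_lt (K := K) a i hi
    have hv : (((a.val + m * i : ℕ) : ZMod (m * K))).val = a.val + m * i :=
      ZMod.val_natCast_of_lt hlt
    refine ⟨mem_univ _, ?_, ?_⟩
    · change ResP_c m K ((a.val + m * i : ℕ) : ZMod (m * K)) ∈ S
      rw [ResP_val, hv]
      have : ((a.val + m * i : ℕ) : ZMod m) = a := by
        push_cast
        rw [ZMod.natCast_self, zero_mul, add_zero, ZMod.natCast_zmod_val]
      rw [this]
      exact hx.1
    · change (((a.val + m * i : ℕ) : ZMod (m * K))).val / m ∈ T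
      rw [hv, Nat.add_mul_div_left _ _ hm, Nat.div_eq_of_lt (ZMod.val_lt a), zero_add]
      exact hx.2
  · intro b hb
    change ((((ResP_c m K b)).val + m * (b.val / m) : ℕ) : ZMod (m * K)) = b
    rw [ResP_val, ZMod.val_natCast, Nat.mod_add_div, ZMod.natCast_zmod_val]
  · rintro ⟨a, i⟩ hx
    rw [mem_coe, mem_product] at hx
    have hi : i < K := mem_range.1 (hT hx.2)
    have hlt := ResP_lt (K := K) a i hi
    have hv : (((a.val + m * i : ℕ) : ZMod (m * K))).val = a.val + m * i :=
      ZMod.val_natCast_of_lt hlt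
    have e1 : ResP_c m K ((a.val + m * i : ℕ) : ZMod (m * K)) = a := by
      rw [ResP_val, hv]
      push_cast
      rw [ZMod.natCast_self, zero_mul, add_zero, ZMod.natCast_zmod_val]
    have e2 : (((a.val + m * i : ℕ) : ZMod (m * K))).val / m = i := by
      rw [hv, Nat.add_mul_div_left _ _ hm, Nat.div_eq_of_lt (ZMod.val_lt a), zero_add]
    change (ResP_c m K ((a.val + m * i : ℕ) : ZMod (m * K)),
      (((a.val + m * i : ℕ) : ZMod (m * K))).val / m) = (a, i)
    rw [e1, e2]

/-- phases -/
theorem ResP_phase (K : ℕ) (H : Finset ℕ) (t : ℕ → ℕ) (ht : ∑ x ∈ H, t x ≤ K) :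
    ∃ P : ℕ → Finset ℕ, (∀ x ∈ H, P x ⊆ range K) ∧ (∀ x ∈ H, (P x).card = t x) ∧
      ∀ x ∈ H, ∀ y ∈ H, x ≠ y → Disjoint (P x) (P y) := by
  let s : ℕ → ℕ := fun x => ∑ y ∈ H.filter (fun y => y < x), t y
  have hs : ∀ x ∈ H, ∀ y, x < y → s x + t x ≤ s y := by
    intro x hx y hxy
    have h1 : s x + t x = ∑ z ∈ insert x (H.filter (fun z => z < x)), t z := by
      rw [sum_insert (by simp), add_comm]
    rw [h1]
    refine sum_le_sum_of_subset fun z hz => ?_
    rw [mem_insert, mem_filter] at hz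
    rw [mem_filter]
    rcases hz with rfl | hz
    · exact ⟨hx, hxy⟩
    · exact ⟨hz.1, hz.2.trans hxy⟩
  refine ⟨fun x => Ico (s x) (s x + t x), fun x hx => ?_, fun x _ => by simp, ?_⟩
  · intro z hz
    rw [mem_Ico] at hz
    rw [mem_range]
    have h1 : s x + t x = ∑ z ∈ insert x (H.filter (fun z => z < x)), t z := by
      rw [sum_insert (by simp), add_comm]
    have h2 : ∑ z ∈ insert x (H.filter (fun z => z < x)), t z ≤ ∑ z ∈ H, t z := by
      refine sum_le_sum_of_subset fun z hz => ?_
      rw [mem_insert, mem_filter] at hz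
      rcases hz with rfl | hz
      · exact hx
      · exact hz.1
    omega
  · intro x hx y hy hxy
    rw [Finset.disjoint_left]
    intro z hz hz'
    rw [mem_Ico] at hz hz'
    rcases lt_or_gt_of_ne hxy with h | h
    · have := hs x hx y h
      omega
    · have := hs y hy x h
      omega

theorem p_ResP : ResOf := by
  intro hQ e he
  obtain ⟨m, hm, hQ⟩ := hQ e he
  refine ⟨m, hm, fun ρ h0 h1 K hK H t ht => ?_⟩
  obtain ⟨M0, M1, hdis, h0M0, h0M1, hsym, hcard, hcard1, hgood⟩ := hQ ρ h0 h1
  obtain ⟨P, hP1, hP2, hP3⟩ := ResP_phase K H t ht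
  have i1 : NeZero m := ⟨by omega⟩
  have i2 : NeZero (m * K) := ⟨by
    have : 0 < m * K := Nat.mul_pos hm hK
    omega⟩
  let D : Finset (ZMod (m * K)) := univ.filter (fun b => ResP_c m K b ∈ M0)
  let D' : ℕ → Finset (ZMod (m * K)) := fun x =>
    univ.filter (fun b => ResP_c m K b ∈ M1 ∧ b.val / m ∈ P x)
  have hD : ∀ b, b ∈ D ↔ ResP_c m K b ∈ M0 := by
    intro b
    simp [D]
  have hD' : ∀ x b, b ∈ D' x ↔ ResP_c m K b ∈ M1 ∧ b.val / m ∈ P x := by
    intro x b
    simp [D']
  have hint : ∀ z : ℤ, (m : ℤ) ∣ z → ResP_c m K (z : ZMod (m * K)) = 0 := by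
    intro z hz
    rw [map_intCast]
    exact (ZMod.intCast_zmod_eq_zero_iff_dvd z m).2 hz
  have hKR : (0 : ℝ) < K := by exact_mod_cast hK
  have hDcard : D.card = M0.card * K := by
    have := ResP_card (K := K) M0 (range K) subset_rfl
    rw [card_range] at this
    rw [← this]
    congr 1
    ext b
    rw [hD, mem_filter]
    exact ⟨fun h => ⟨mem_univ _, h, mem_range.2 (ResP_div b)⟩, fun h => h.2.1⟩
  have hD'card : ∀ x ∈ H, (D' x).card = M1.card * t x := by
    intro x hx
    have := ResP_card (K := K) M1 (P x) (hP1 x hx)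
    rw [hP2 x hx] at this
    exact this
  have hQr : ∀ b : ZMod (m * K), Qr D b = Qr M0 (ResP_c m K b) * K := by
    intro b
    have := ResP_card (K := K) (M0.filter (fun c => ResP_c m K b + c ∈ M0)) (range K) subset_rfl
    rw [card_range] at this
    unfold Qr
    rw [← this]
    congr 1
    ext c
    have h1 : c ∈ D.filter (fun c => b + c ∈ D) ↔ c ∈ D ∧ b + c ∈ D := mem_filter
    rw [h1, hD, hD, map_add, mem_filter, mem_filter]
    exact ⟨fun h => ⟨mem_univ _, h, mem_range.2 (ResP_div c)⟩, fun h => h.2.1⟩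
  have hcor : ∀ x ∈ H, ∀ b : ZMod (m * K), ((D' x).filter (fun c => c + b ∈ D)).card
      = (M1.filter (fun c => c + ResP_c m K b ∈ M0)).card * t x := by
    intro x hx b
    have := ResP_card (K := K) (M1.filter (fun c => c + ResP_c m K b ∈ M0)) (P x) (hP1 x hx)
    rw [hP2 x hx] at this
    rw [← this]
    congr 1
    ext c
    have h1 : c ∈ (D' x).filter (fun c => c + b ∈ D) ↔ c ∈ D' x ∧ c + b ∈ D := mem_filter
    rw [h1, hD, hD', map_add, mem_filter, mem_filter]
    have h2 := mem_univ c
    tauto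
  have hshift : ∀ β : ZMod m, (M1.filter (fun c => c + β ∈ M0)).card + Qr M0 β ≤ M0.card := by
    intro β
    unfold Qr
    rw [← card_union_of_disjoint]
    · refine card_le_card_of_injOn (fun c => c + β) ?_ ?_
      · intro c hc
        rw [mem_coe, mem_union, mem_filter, mem_filter] at hc
        rcases hc with hc | hc
        · exact hc.2
        · rw [add_comm] at hc
          exact hc.2
      · intro c _ c' _ hcc
        exact add_right_cancel hcc
    · rw [Finset.disjoint_left]
      intro c hc hc'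
      rw [mem_filter] at hc hc'
      exact Finset.disjoint_left.1 hdis hc'.1 hc.1
  have habs : ∀ (u v : ℝ), |u - v * m| ≤ e * m →
      |u * K - v * ((m * K : ℕ) : ℝ)| ≤ e * ((m * K : ℕ) : ℝ) := by
    intro u v huv
    push_cast
    rw [show u * K - v * (m * K) = (u - v * m) * K by ring, abs_mul, abs_of_pos hKR,
      show e * ((m : ℝ) * K) = (e * m) * K by ring]
    exact mul_le_mul_of_nonneg_right huv hKR.le
  refine ⟨D, D', ?_⟩
  constructor
  · intro b hb
    rw [hD] at hb ⊢
    rw [map_neg]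
    exact hsym _ hb
  · intro x z hz hx
    rw [hD] at hx ⊢
    rw [Int.cast_add, map_add, hint z hz, add_zero]
    exact hx
  · intro z hz h
    rw [hD, hint z hz] at h
    exact h0M0 h
  · intro x _ z hz h
    rw [hD', hint z hz] at h
    exact h0M1 h.1
  · intro x _
    rw [Finset.disjoint_left]
    intro b hb hb'
    rw [hD] at hb
    rw [hD'] at hb'
    exact Finset.disjoint_left.1 hdis hb hb'.1
  · intro x hx y hy hxy
    rw [Finset.disjoint_left]
    intro b hb hb'
    rw [hD'] at hb hb'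
    exact Finset.disjoint_left.1 (hP3 x hx y hy hxy) hb.2 hb'.2
  · rw [hDcard]
    push_cast
    have := habs _ _ hcard
    push_cast at this
    exact this
  · intro b hb
    rw [hD] at hb
    rw [hQr]
    have := habs _ _ (hgood _ (Or.inl hb))
    push_cast at this ⊢
    exact this
  · intro x _ b hb
    rw [hD'] at hb
    rw [hQr]
    have := habs _ _ (hgood _ (Or.inr hb.1))
    push_cast at this ⊢
    exact this
  · intro x hx
    rw [hD'card x hx]
    push_cast
    have h2 : (t x / K : ℝ) * (1 - ρ - e) * (m * K) = ((1 - ρ - e) * m) * t x := by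
      field_simp
    rw [h2]
    exact mul_le_mul_of_nonneg_right hcard1 (Nat.cast_nonneg _)
  · intro x hx b hb
    rw [hD] at hb
    rw [hcor x hx]
    push_cast
    have h2 : (t x / K : ℝ) * (ρ - ρ ^ 2 + 2 * e) * (m * K)
        = ((ρ - ρ ^ 2 + 2 * e) * m) * t x := by
      field_simp
    rw [h2]
    refine mul_le_mul_of_nonneg_right ?_ (Nat.cast_nonneg _)
    have h3 : ((M1.filter (fun c => c + ResP_c m K b ∈ M0)).card : ℝ)
        + Qr M0 (ResP_c m K b) ≤ M0.card := by exact_mod_cast hshift (ResP_c m K b)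
    have h4 := hgood _ (Or.inl hb)
    rw [abs_le] at h4 hcard
    nlinarith [h4.1, h4.2, hcard.1, hcard.2]

end Pool.Agent.Lib.MP_8b7544_co.Df
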