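import Pool.Agent.Lib.MP_8b7544_co.Df.Stm

/-!
# MP_8b7544_co, project Deficiency: row sums of `W`
-/

set_option autoImplicit false

namespace Pool.Agent.Lib.MP_8b7544_co.Df

open Finset

theorem Row_tel (G F : ℤ → ℤ) (a b : ℤ) (hab : a ≤ b)
    (h : ∀ y, a ≤ y → y < b → G (y + 1) - G y = F y) : ∑ y ∈ Ico a b, F y = G b - G a := by
  induction b, hab using Int.leInduction with
  | base => simp
  | succ b hab ih =>
    have h1 : Ico a (b + 1) = insert b (Ico a b) := by
      ext y
      simp only [mem_Ico, mem_insert]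
      omega
    rw [h1, sum_insert (by simp), ih fun y hy hy' => h y hy (by omega), ← h b hab (by omega)]
    ring

/-- A primitive of twice the maximum. -/
def Row_G (x y : ℤ) : ℤ :=
  if y ≤ -x then -(y * (y - 1)) else if y ≤ 0 then 2 * x * y + x ^ 2 - x
    else (x + y) * (x + y - 1)

theorem Row_G1 (x y : ℤ) (h : y ≤ -x) : Row_G x y = -(y * (y - 1)) := by
  unfold Row_G
  rw [if_pos h]

theorem Row_G2 (x y : ℤ) (h : -x ≤ y) (h0 : y ≤ 0) :
    Row_G x y = 2 * x * y + x ^ 2 - x := by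
  rcases eq_or_lt_of_le h with h1 | h1
  · subst h1
    rw [Row_G1 x _ le_rfl]
    ring
  · unfold Row_G
    rw [if_neg (by omega), if_pos h0]

theorem Row_G3 (x y : ℤ) (hx : 0 ≤ x) (h : 0 ≤ y) : Row_G x y = (x + y) * (x + y - 1) := by
  rcases eq_or_lt_of_le h with h1 | h1
  · subst h1
    rw [Row_G2 x _ (by omega) le_rfl]
    ring
  · unfold Row_G
    rw [if_neg (by omega), if_neg (by omega)]

theorem Row_step (x y : ℤ) (hx : 0 ≤ x) :
    Row_G x (y + 1) - Row_G x y = 2 * max |x| (max |y| |x + y|) := by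
  rw [abs_of_nonneg hx]
  rcases lt_or_ge y (-x) with h1 | h1
  · rw [Row_G1 x _ (by omega), Row_G1 x _ (by omega), abs_of_nonpos (by omega : y ≤ 0),
      abs_of_nonpos (by omega : x + y ≤ 0), max_eq_left (by omega : -(x + y) ≤ -y),
      max_eq_right (by omega : x ≤ -y)]
    ring
  rcases lt_or_ge y 0 with h2 | h2
  · rw [Row_G2 x _ (by omega) (by omega), Row_G2 x _ (by omega) (by omega),
      abs_of_nonpos (by omega : y ≤ 0), abs_of_nonneg (by omega : 0 ≤ x + y),
      max_eq_left (max_le (by omega : -y ≤ x) (by omega : x + y ≤ x))]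
    ring
  · rw [Row_G3 x _ hx (by omega), Row_G3 x _ hx h2, abs_of_nonneg h2,
      abs_of_nonneg (by omega : 0 ≤ x + y), max_eq_right (by omega : y ≤ x + y),
      max_eq_right (by omega : x ≤ x + y)]
    ring

theorem Row_pos (R : ℕ) (x : ℤ) (hx0 : 0 ≤ x) (hx : x ≤ R) :
    ∑ y ∈ Om R, W R x y = R * (R + 1) := by
  have h1 : ∑ y ∈ Om R, W R x y =
      ∑ y ∈ Ico (-(R : ℤ)) (R - x + 1), ((max |x| (max |y| |x + y|) : ℤ) : ℝ) := by
    symm
    have hsub : Ico (-(R : ℤ)) (R - x + 1) ⊆ Om R := by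
      intro y hy
      rw [mem_Ico] at hy
      unfold Om
      rw [mem_Icc]
      omega
    refine (sum_congr rfl fun y hy => ?_).trans (sum_subset hsub fun y hy hy' => ?_)
    · rw [mem_Ico] at hy
      unfold W
      rw [if_pos]
      refine ⟨?_, ?_, ?_⟩ <;> rw [abs_le] <;> constructor <;> omega
    · unfold Om at hy
      rw [mem_Icc] at hy
      rw [mem_Ico] at hy'
      unfold W
      rw [if_neg]
      rintro ⟨-, -, h3⟩
      rw [abs_le] at h3
      omega
  have h2 : ∑ y ∈ Ico (-(R : ℤ)) (R - x + 1), 2 * max |x| (max |y| |x + y|) =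
      Row_G x (R - x + 1) - Row_G x (-(R : ℤ)) :=
    Row_tel (Row_G x) (fun y => 2 * max |x| (max |y| |x + y|)) _ _ (by omega)
      fun y _ _ => Row_step x y hx0
  rw [Row_G3 x _ hx0 (by omega), Row_G1 x _ (by omega), ← mul_sum] at h2
  have h3 : ∑ y ∈ Ico (-(R : ℤ)) (R - x + 1), max |x| (max |y| |x + y|) = R * (R + 1) := by
    have h4 : (2 : ℤ) * ∑ y ∈ Ico (-(R : ℤ)) (R - x + 1), max |x| (max |y| |x + y|) =
        2 * (R * (R + 1)) := by
      rw [h2]
      ring
    omega
  rw [h1, ← Int.cast_sum, h3]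
  push_cast
  ring

theorem Row_neg (R : ℕ) (x y : ℤ) : W R (-x) (-y) = W R x y := by
  unfold W
  have h : -x + -y = -(x + y) := by ring
  rw [h, abs_neg, abs_neg, abs_neg]

theorem p_Row : StmRow := by
  intro R x hx
  rw [abs_le] at hx
  rcases le_total 0 x with h | h
  · exact Row_pos R x h hx.2
  · have h1 := Row_pos R (-x) (by omega) (by omega)
    rw [← h1]
    refine sum_nbij' (fun y => -y) (fun y => -y) ?_ ?_ ?_ ?_ ?_
    · intro y hy
      unfold Om at hy ⊢
      rw [mem_Icc] at hy ⊢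
      omega
    · intro y hy
      unfold Om at hy ⊢
      rw [mem_Icc] at hy ⊢
      omega
    · intro y _
      exact neg_neg y
    · intro y _
      exact neg_neg y
    · intro y _
      exact (Row_neg R x y).symm

end Pool.Agent.Lib.MP_8b7544_co.Df
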