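import Pool.Agent.Lib.MP_8b7544_co.Df.Stm

/-!
# MP_8b7544_co, project Deficiency, piece X1: a finite tree has a parent sequence
-/

set_option autoImplicit false

namespace Pool.Agent.Lib.MP_8b7544_co.Df

open Finset SimpleGraph

/-- enumeration of a finite type such that `g` is monotone in the place -/
theorem Seq_enum (V : Type) [Fintype V] (g : V → ℕ) :
    ∃ e : V ≃ Fin (Fintype.card V), ∀ u v, g u < g v → e u < e v := by
  classical
  set f : Fin (Fintype.card V) → ℕ := fun i => g ((Fintype.equivFin V).symm i) with hf
  refine ⟨(Fintype.equivFin V).trans (Tuple.sort f).symm, fun u v huv => ?_⟩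
  by_contra hcon
  rw [not_lt] at hcon
  have hm := Tuple.monotone_sort f hcon
  simp only [Function.comp_apply, Equiv.trans_apply, Equiv.apply_symm_apply, hf,
    Equiv.symm_apply_apply] at hm
  omega

/-- every vertex different from the root has a neighbour nearer to the root -/
theorem Seq_exists {V : Type} {T : SimpleGraph V} (hT : T.IsTree) (r v : V) (hv : v ≠ r) :
    ∃ u, T.Adj u v ∧ T.dist r u < T.dist r v := by
  obtain ⟨P, hP, hl⟩ := (hT.connected r v).exists_path_of_dist
  have hnil : ¬ P.Nil := SimpleGraph.Walk.not_nil_of_ne (Ne.symm hv)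
  refine ⟨P.penultimate, P.adj_penultimate hnil, ?_⟩
  have h1 : T.dist r P.penultimate ≤ P.dropLast.length := SimpleGraph.dist_le _
  have h2 : P.dropLast.length + 1 = P.length := by
    have := P.concat_dropLast (P.adj_penultimate hnil)
    conv_rhs => rw [← this]
    rw [SimpleGraph.Walk.length_concat]
  omega

/-- this neighbour is unique -/
theorem Seq_unique {V : Type} {T : SimpleGraph V} (hT : T.IsTree) (r v u u' : V)
    (hu : T.Adj u v) (hu' : T.Adj u' v) (hd : T.dist r u < T.dist r v)
    (hd' : T.dist r u' < T.dist r v) : u = u' := by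
  classical
  have key : ∀ w, T.Adj w v → T.dist r w < T.dist r v → ∀ P : T.Walk r v, P.IsPath →
      w = P.penultimate := by
    intro w hw hdw P hP
    obtain ⟨Q, hQ, hl⟩ := (hT.connected r w).exists_path_of_dist
    have hvQ : v ∉ Q.support := by
      intro hmem
      have h1 : T.dist r v ≤ (Q.takeUntil v hmem).length := SimpleGraph.dist_le _
      have h2 := Q.length_takeUntil_le_length hmem
      omega
    have hQ' : (Q.concat hw).IsPath := hQ.concat hvQ hw
    have := (hT.isAcyclic.subsingleton_path r v).elim ⟨P, hP⟩ ⟨Q.concat hw, hQ'⟩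
    have h3 : P = Q.concat hw := congrArg Subtype.val this
    rw [h3]
    simp
  obtain ⟨P, hP, -⟩ := (hT.connected r v).exists_path_of_dist
  rw [key u hu hd P hP, key u' hu' hd' P hP]

theorem p_Seq : StmSeq := by
  intro V _ T hT
  classical
  have := hT.connected.nonempty
  obtain ⟨r⟩ := hT.connected.nonempty
  obtain ⟨e, he⟩ := Seq_enum V (fun v => T.dist r v)
  have hpos : ∀ v, v ≠ r → 0 < T.dist r v := fun v hv =>
    (hT.connected r v).pos_dist_of_ne (Ne.symm hv)
  have hr0 : (e r).val = 0 := by
    by_contra h
    have hn : 0 < Fintype.card V := Fintype.card_pos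
    set z : V := e.symm ⟨0, hn⟩ with hz
    have hzr : z ≠ r := by
      intro hh
      apply h
      rw [← hh, hz, Equiv.apply_symm_apply]
    have := he r z (by rw [SimpleGraph.dist_self]; exact hpos z hzr)
    rw [hz, Equiv.apply_symm_apply, Fin.lt_def] at this
    simp at this
  have hne : ∀ v, v ≠ r ↔ 0 < (e v).val := by
    intro v
    constructor
    · intro hv
      have := he r v (by rw [SimpleGraph.dist_self]; exact hpos v hv)
      rw [Fin.lt_def] at this
      omega
    · rintro h rfl
      omega
  choose! par hadj hlt using fun v (hv : v ≠ r) => Seq_exists hT r v hv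
  refine ⟨e, fun i => if h : i < Fintype.card V then
    (if e.symm ⟨i, h⟩ = r then 0 else (e (par (e.symm ⟨i, h⟩))).val) else 0, ⟨?_, ?_⟩, ?_⟩
  · have hn : 0 < Fintype.card V := Fintype.card_pos
    have : e.symm ⟨0, hn⟩ = r := by
      rw [Equiv.symm_apply_eq]
      exact Fin.ext hr0.symm
    simp only [hn, dite_true, this, if_true]
  · intro i hi
    by_cases h : i < Fintype.card V
    · simp only [h, dite_true]
      split_ifs with h1
      · exact hi
      · have := he _ _ (hlt _ h1)
        rw [Equiv.apply_symm_apply, Fin.lt_def] at this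
        exact this
    · simp only [h, dite_false]
      exact hi
  · have hpe : ∀ v, v ≠ r → (if h : (e v).val < Fintype.card V then
        (if e.symm ⟨(e v).val, h⟩ = r then 0 else (e (par (e.symm ⟨(e v).val, h⟩))).val) else 0)
        = (e (par v)).val := by
      intro v hv
      have h : (e v).val < Fintype.card V := (e v).isLt
      rw [dif_pos h]
      have h2 : e.symm ⟨(e v).val, h⟩ = v := by
        rw [Equiv.symm_apply_eq]
      rw [h2, if_neg hv]
    have hpar : ∀ u v, (0 < (e v).val ∧ (if h : (e v).val < Fintype.card V then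
        (if e.symm ⟨(e v).val, h⟩ = r then 0 else (e (par (e.symm ⟨(e v).val, h⟩))).val) else 0)
        = (e u).val) ↔ (T.Adj u v ∧ T.dist r u < T.dist r v) := by
      intro u v
      constructor
      · rintro ⟨h0, h1⟩
        have hv : v ≠ r := (hne v).2 h0
        rw [hpe v hv] at h1
        have : par v = u := e.injective (Fin.ext h1)
        rw [← this]
        exact ⟨hadj v hv, hlt v hv⟩
      · rintro ⟨h0, h1⟩
        have hv : v ≠ r := by
          rintro rfl
          rw [SimpleGraph.dist_self] at h1
          omega
        refine ⟨(hne v).1 hv, ?_⟩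
        rw [hpe v hv, Seq_unique hT r v u (par v) h0 (hadj v hv) h1 (hlt v hv)]
    intro u v
    rw [hpar u v, hpar v u]
    constructor
    · intro h
      rcases lt_or_gt_of_ne (hT.dist_ne_of_adj r h) with h1 | h1
      · exact Or.inl ⟨h, h1⟩
      · exact Or.inr ⟨h.symm, h1⟩
    · rintro (h | h)
      · exact h.1
      · exact h.1.symm

end Pool.Agent.Lib.MP_8b7544_co.Df
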