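import Pool.Agent.Lib.MP_8b7544_co.Df.Stm

/-!
# MP_8b7544_co, project Deficiency: stationarity (A5)
-/

set_option autoImplicit false

namespace Pool.Agent.Lib.MP_8b7544_co.Df

open Finset

variable {R N : ℕ} {D : Finset (ZMod N)}

theorem Stat_W_nonneg (R : ℕ) (x y : ℤ) : 0 ≤ W R x y := by
  unfold W
  split_ifs
  · have : (0 : ℤ) ≤ max |x| (max |y| |x + y|) := le_max_of_le_left (abs_nonneg x)
    exact_mod_cast this
  · exact le_rfl

theorem Stat_Ku_nonneg (x y : ℤ) : 0 ≤ Ku R N D x y := by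
  unfold Ku
  split_ifs
  · exact Stat_W_nonneg R x y
  · exact le_rfl

theorem Stat_mem_Om {x : ℤ} : x ∈ Om R ↔ |x| ≤ R := by
  unfold Om
  rw [Finset.mem_Icc, abs_le]

theorem Stat_mem_V0 {x : ℤ} : x ∈ V0 R N D ↔ |x| ≤ R ∧ (x : ZMod N) ∈ D := by
  unfold V0
  rw [Finset.mem_filter, Stat_mem_Om]

theorem Stat_W_symm (x y : ℤ) : W R x y = W R y x := by
  unfold W
  rw [add_comm y x]
  have h : (|x| ≤ (R : ℤ) ∧ |y| ≤ (R : ℤ) ∧ |x + y| ≤ (R : ℤ)) ↔
      (|y| ≤ (R : ℤ) ∧ |x| ≤ (R : ℤ) ∧ |x + y| ≤ (R : ℤ)) := by tauto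
  simp only [h, max_left_comm]

theorem Stat_W_sub (s x : ℤ) : W R x (s - x) = W R (-s) x := by
  unfold W
  have e1 : x + (s - x) = s := by ring
  have e2 : -s + x = -(s - x) := by ring
  rw [e1, e2, abs_neg, abs_neg]
  have h : (|x| ≤ (R : ℤ) ∧ |s - x| ≤ (R : ℤ) ∧ |s| ≤ (R : ℤ)) ↔
      (|s| ≤ (R : ℤ) ∧ |x| ≤ (R : ℤ) ∧ |s - x| ≤ (R : ℤ)) := by tauto
  have h2 : max |x| (max |s - x| |s|) = max |s| (max |x| |s - x|) := by
    rw [max_comm |s| (max |x| |s - x|), max_assoc]
  simp only [h, h2]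

theorem Stat_W_neg (x y : ℤ) : W R x (-y) = W R (-x) y := by
  unfold W
  have e2 : -x + y = -(x + -y) := by ring
  rw [e2, abs_neg, abs_neg, abs_neg]

/-- the terms vanish if the row sum vanishes. -/
theorem Stat_zero {x : ℤ} (h : rw' R N D x = 0) (y : ℤ) : Ku R N D x y = 0 := by
  by_cases hy : y ∈ Om R
  · unfold rw' at h
    exact (Finset.sum_eq_zero_iff_of_nonneg fun z _ => Stat_Ku_nonneg x z).1 h y hy
  · unfold Ku W
    rw [Stat_mem_Om] at hy
    split_ifs with h1 h2
    · exact absurd h2.2.1 hy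
    · rfl
    · rfl

theorem Stat_term {x : ℤ} (hx : x ∈ V0 R N D) (y : ℤ) :
    ps R N D x * Kn R N D x y = Ku R N D x y / ∑ z ∈ V0 R N D, rw' R N D z := by
  unfold ps Kn
  rw [if_pos hx]
  by_cases h : rw' R N D x = 0
  · rw [Stat_zero h y]
    simp
  · field_simp

theorem p_Stat : StmStat := by
  intro R N D hD
  constructor
  · intro y
    rw [Finset.sum_congr rfl fun x hx => Stat_term hx y, ← Finset.sum_div]
    by_cases hy : y ∈ V0 R N D
    · unfold ps
      rw [if_pos hy]
      congr 1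
      obtain ⟨h1, h2⟩ := Stat_mem_V0.1 hy
      unfold rw'
      have hsub : V0 R N D ⊆ Om R := Finset.filter_subset _ _
      rw [← Finset.sum_subset hsub (f := fun x => Ku R N D y x)]
      · refine Finset.sum_congr rfl fun x hx => ?_
        obtain ⟨h3, h4⟩ := Stat_mem_V0.1 hx
        unfold Ku
        rw [Stat_W_symm x y, add_comm x y]
        simp only [h2, h4, true_and]
      · intro x hx hxV
        unfold Ku
        rw [if_neg]
        rintro ⟨h3, -⟩
        exact hxV (Stat_mem_V0.2 ⟨Stat_mem_Om.1 hx, h3⟩)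
    · unfold ps
      rw [if_neg hy]
      have : ∑ x ∈ V0 R N D, Ku R N D x y = 0 := by
        refine Finset.sum_eq_zero fun x _ => ?_
        unfold Ku W
        split_ifs with h1 h2
        · exact absurd (Stat_mem_V0.2 ⟨h2.2.1, h1.1⟩) hy
        · rfl
        · rfl
      rw [this, zero_div]
  · intro s
    rw [Finset.sum_congr rfl fun x hx => Stat_term hx (s - x), ← Finset.sum_div]
    by_cases hs : s ∈ V0 R N D
    · unfold ps
      rw [if_pos hs]
      congr 1
      obtain ⟨h1, h2⟩ := Stat_mem_V0.1 hs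
      have hneg : rw' R N D s = ∑ y ∈ Om R, Ku R N D (-s) y := by
        unfold rw'
        refine Finset.sum_nbij' (fun y => -y) (fun y => -y) ?_ ?_ ?_ ?_ ?_
        · intro y hy
          rw [Stat_mem_Om] at hy ⊢
          rwa [abs_neg]
        · intro y hy
          rw [Stat_mem_Om] at hy ⊢
          rwa [abs_neg]
        · intro y _
          exact neg_neg y
        · intro y _
          exact neg_neg y
        · intro y _
          unfold Ku
          rw [← Stat_W_neg s (-y), neg_neg]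
          have e1 : ((-y : ℤ) : ZMod N) = -(y : ZMod N) := by push_cast; rfl
          have e2 : ((-s + -y : ℤ) : ZMod N) = -((s + y : ℤ) : ZMod N) := by push_cast; ring
          have h3 : ∀ a : ZMod N, -a ∈ D ↔ a ∈ D := fun a =>
            ⟨fun h => by simpa using hD _ h, fun h => hD _ h⟩
          rw [e1, e2]
          simp only [h3]
      rw [hneg]
      have hsub : V0 R N D ⊆ Om R := Finset.filter_subset _ _
      rw [← Finset.sum_subset hsub (f := fun x => Ku R N D (-s) x)]
      · refine Finset.sum_congr rfl fun x hx => ?_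
        obtain ⟨h3, h4⟩ := Stat_mem_V0.1 hx
        unfold Ku
        rw [Stat_W_sub s x]
        have e1 : x + (s - x) = s := by ring
        have e2 : ((-s + x : ℤ) : ZMod N) = -((s - x : ℤ) : ZMod N) := by push_cast; ring
        have h5 : ∀ a : ZMod N, -a ∈ D ↔ a ∈ D := fun a =>
          ⟨fun h => by simpa using hD _ h, fun h => hD _ h⟩
        rw [e1, e2]
        simp only [h2, h4, h5, and_true, true_and]
      · intro x hx hxV
        unfold Ku
        rw [if_neg]
        rintro ⟨h3, -⟩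
        exact hxV (Stat_mem_V0.2 ⟨Stat_mem_Om.1 hx, h3⟩)
    · unfold ps
      rw [if_neg hs]
      have : ∑ x ∈ V0 R N D, Ku R N D x (s - x) = 0 := by
        refine Finset.sum_eq_zero fun x _ => ?_
        unfold Ku W
        have e1 : x + (s - x) = s := by ring
        rw [e1]
        split_ifs with h1 h2
        · exact absurd (Stat_mem_V0.2 ⟨h2.2.2, h1.2⟩) hs
        · rfl
        · rfl
      rw [this, zero_div]

end Pool.Agent.Lib.MP_8b7544_co.Df
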