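import Pool.Agent.Lib.MP_8b7544_co.Df.Stm

/-!
# MP_8b7544_co, project Deficiency, piece T3: no edge goes down to `X` from a top vertex
-/

set_option autoImplicit false

namespace Pool.Agent.Lib.MP_8b7544_co.Df

open Finset

theorem p_Topfree : StmTopfree := by
  classical
  intro n p hp Z hZn h0 hU
  set T : Finset ℕ := (range n).filter (fun t => t ∉ Z ∧ p t ∈ Z ∧ ∃ d ∈ Z, 0 < d ∧ p d = t)
    with hT
  have hTm : ∀ t, t ∈ T ↔ t < n ∧ t ∉ Z ∧ p t ∈ Z ∧ ∃ d ∈ Z, 0 < d ∧ p d = t := by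
    intro t
    rw [hT, mem_filter, mem_range]
  have hTn : T ⊆ range n := filter_subset _ _
  have hTi : T ⊆ Z.image p := by
    intro t ht
    obtain ⟨_, _, _, d, hd, _, hdt⟩ := (hTm t).1 ht
    exact mem_image.2 ⟨d, hd, hdt⟩
  have hTc : T.card ≤ Z.card := le_trans (card_le_card hTi) card_image_le
  have hlead : ∀ c, Leads p (Z ∪ T) c → Leads p Z c := by
    rintro c ⟨z, hz, a, ha⟩
    rcases mem_union.1 hz with hz | hz
    · exact ⟨z, hz, a, ha⟩
    · obtain ⟨_, _, _, d, hd, _, hdt⟩ := (hTm z).1 hz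
      exact ⟨d, hd, a + 1, by rw [Function.iterate_succ_apply, hdt, ha]⟩
  refine ⟨Z ∪ T, subset_union_left, union_subset hZn hTn, ?_, ?_, ?_⟩
  · have := card_union_le Z T
    omega
  · intro c c' hc hc' hcc hX hl hl'
    exact hU c c' hc hc' hcc (fun h => hX (mem_union_left _ h)) (hlead c hl) (hlead c' hl')
  · intro d hd hd0 hv hpv
    have hvZ : p d ∉ Z := fun h => hv (mem_union_left _ h)
    have hvT : p d ∉ T := fun h => hv (mem_union_right _ h)
    have hdZ : d ∈ Z := by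
      rcases mem_union.1 hd with h | h
      · exact h
      · exact absurd ((hTm d).1 h).2.2.1 hvZ
    have hdn : d < n := mem_range.1 (hZn hdZ)
    have hlt : p d < d := hp.lt d hd0
    have hv0 : 0 < p d := by
      rcases Nat.eq_zero_or_pos (p d) with h | h
      · exact absurd (h ▸ h0) hvZ
      · exact h
    rcases mem_union.1 hpv with h | h
    · exact hvT ((hTm _).2 ⟨by omega, hvZ, h, d, hdZ, hd0, rfl⟩)
    · obtain ⟨_, htZ, _, d', hd', hd'0, hd't⟩ := (hTm _).1 h
      have he : p d = d' := hU (p d) d' hv0 hd'0 hd't.symm htZ ⟨d, hdZ, 1, rfl⟩ ⟨d', hd', 0, rfl⟩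
      exact hvZ (he ▸ hd')

end Pool.Agent.Lib.MP_8b7544_co.Df
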