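import Mathlib
import Pool.Agent.Lib.MP_8b7544_co.Df.Stm

/-!
# MP_8b7544_co, project Deficiency: the decomposition of the tree
-/

set_option autoImplicit false

namespace Pool.Agent.Lib.MP_8b7544_co.Df

open Finset

theorem Tree_one {p : ℕ → ℕ} {A : Finset ℕ} (h : Uni p A) : One p A := by
  intro c hc c' hc' h0 h0' hp hn
  exact h c c' h0 h0' hp hn ⟨c, hc, 0, rfl⟩ ⟨c', hc', 0, rfl⟩

theorem Tree_hub (n : ℕ) (δ : ℝ) (p : ℕ → ℕ) (hn : 1 ≤ n) (H : Finset ℕ)
    (hH : ∀ x ∈ H, δ * n < ((chl n p x).card : ℝ)) : δ * H.card ≤ 1 := by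
  have h1 : ∑ x ∈ H, (chl n p x).card ≤ n := by
    rw [← Finset.card_biUnion]
    · calc (H.biUnion (chl n p)).card ≤ (range n).card := Finset.card_le_card (by
            intro i hi
            rw [Finset.mem_biUnion] at hi
            obtain ⟨x, _, hx⟩ := hi
            exact (Finset.mem_filter.1 hx).1)
        _ = n := Finset.card_range n
    · intro x _ y _ hxy
      rw [Function.onFun, Finset.disjoint_left]
      intro i hi hi'
      apply hxy
      rw [← (Finset.mem_filter.1 hi).2.2, ← (Finset.mem_filter.1 hi').2.2]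
  have h2 : (H.card : ℝ) * (δ * n) ≤ ∑ x ∈ H, ((chl n p x).card : ℝ) := by
    rw [← nsmul_eq_mul]
    exact Finset.card_nsmul_le_sum H _ _ (fun x hx => (hH x hx).le)
  have h3 : ((∑ x ∈ H, (chl n p x).card : ℕ) : ℝ) ≤ n := by exact_mod_cast h1
  push_cast at h3
  have hn0 : (0 : ℝ) < n := by exact_mod_cast hn
  have h4 : (δ * H.card) * n ≤ 1 * n := by linarith
  exact le_of_mul_le_mul_right h4 hn0

theorem p_Tree : TreeOf := by
  intro hHeavy hLca hTop hExit n S δ p hn hδ hp
  classical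
  set H : Finset ℕ := (range n).filter (fun x => δ * n < ((chl n p x).card : ℝ)) with hHdef
  have hHn : H ⊆ range n := Finset.filter_subset _ _
  obtain ⟨Hp, hHHp, hHpn, hHpc, hHpU⟩ := hLca n p hp H hHn
  obtain ⟨X0, hX0n, hX0c, hX0s⟩ := hHeavy S n p hp
  have h0n : (0 : ℕ) ∈ range n := Finset.mem_range.2 (by omega)
  have hYn : X0 ∪ {0} ∪ Hp ⊆ range n := by
    intro x hx
    rw [Finset.mem_union, Finset.mem_union, Finset.mem_singleton] at hx
    rcases hx with (hx | rfl) | hx
    · exact hX0n hx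
    · exact h0n
    · exact hHpn hx
  obtain ⟨Z, hYZ, hZn, hZc, hZU⟩ := hLca n p hp (X0 ∪ {0} ∪ Hp) hYn
  have h0Z : 0 ∈ Z := hYZ (by simp)
  obtain ⟨X, hZX, hXn, hXc, hXU, hXt⟩ := hTop n p hp Z hZn h0Z hZU
  have h0X : 0 ∈ X := hZX h0Z
  have hX0X : X0 ⊆ X := fun x hx => hZX (hYZ (by
    rw [Finset.mem_union, Finset.mem_union]
    exact Or.inl (Or.inl hx)))
  have hHpX : Hp ⊆ X := fun x hx => hZX (hYZ (by
    rw [Finset.mem_union]
    exact Or.inr hx))
  refine ⟨H, Hp, X, ⟨hp, hHHp, hHpX, hXn, h0X, ?_, Tree_one hHpU, Tree_one hXU, hXt, ?_,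
    hExit p X hp h0X hXU⟩, hHn, ?_, hHpc, ?_⟩
  · intro x hx
    by_cases hxn : x < n
    · by_contra hcon
      push Not at hcon
      exact hx (Finset.mem_filter.2 ⟨Finset.mem_range.2 hxn, hcon⟩)
    · have h1 : chl n p x = ∅ := by
        rw [Finset.eq_empty_iff_forall_notMem]
        intro i hi
        have h2 := Finset.mem_filter.1 hi
        have h3 := hp.lt i h2.2.1
        have h4 := Finset.mem_range.1 h2.1
        have h5 := h2.2.2
        omega
      rw [h1, Finset.card_empty]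
      have : (0 : ℝ) ≤ n := Nat.cast_nonneg n
      push_cast
      positivity
  · intro t ht htX
    refine (Finset.card_le_card ?_).trans (hX0s t ht (fun h => htX (hX0X h)))
    intro v hv
    rw [mem_cmp] at hv ⊢
    obtain ⟨hvn, a, ha, hb⟩ := hv
    exact ⟨hvn, a, ha, fun i hi h => hb i hi (hX0X h)⟩
  · exact Tree_hub n δ p hn H (fun x hx => (Finset.mem_filter.1 hx).2)
  · have h1 : (X0 ∪ {0} ∪ Hp).card ≤ X0.card + 1 + Hp.card :=
      (Finset.card_union_le _ _).trans (Nat.add_le_add_right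
        ((Finset.card_union_le _ _).trans (by rw [Finset.card_singleton])) _)
    have h2 : X.card ≤ 4 * (X0.card + 1 + Hp.card) := by omega
    have h3 : X.card ≤ 4 * (X0.card + 1 + 2 * H.card) := by omega
    have h4 : (X0.card : ℝ) ≤ n / (S + 1) := by
      rw [le_div_iff₀ (by positivity)]
      have : (((S + 1) * X0.card : ℕ) : ℝ) ≤ n := by exact_mod_cast hX0c
      push_cast at this
      linarith
    have h5 : (X.card : ℝ) ≤ 4 * (X0.card + 1 + 2 * H.card) := by exact_mod_cast h3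
    linarith

end Pool.Agent.Lib.MP_8b7544_co.Df
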