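import Mathlib
import Pool.Agent.Lib.MP_8b7544_co.Df.Stm

/-!
# MP_8b7544_co, project Deficiency, piece Weights (Q1): a random subset
-/

set_option autoImplicit false

namespace Pool.Agent.Lib.MP_8b7544_co.Df

open Finset

theorem p_Weights : StmWeights := by
  intro P ρ h0 h1
  refine ⟨fun A => ρ ^ A.card * (1 - ρ) ^ (P \ A).card, fun A => ?_, fun F hF => ?_⟩
  · have : 0 ≤ 1 - ρ := by linarith
    positivity
  · have key : ∑ A ∈ P.powerset with F ⊆ A, ρ ^ A.card * (1 - ρ) ^ (P \ A).card
        = ∑ B ∈ (P \ F).powerset,
          ρ ^ F.card * (ρ ^ B.card * (1 - ρ) ^ ((P \ F).card - B.card)) := by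
      refine Finset.sum_nbij' (fun A => A \ F) (fun B => B ∪ F) ?_ ?_ ?_ ?_ ?_
      · intro A hA
        rw [mem_filter, mem_powerset] at hA
        rw [mem_powerset]
        exact sdiff_subset_sdiff hA.1 subset_rfl
      · intro B hB
        rw [mem_powerset] at hB
        rw [mem_filter, mem_powerset]
        exact ⟨union_subset (hB.trans sdiff_subset) hF, subset_union_right⟩
      · intro A hA
        rw [mem_filter, mem_powerset] at hA
        exact sdiff_union_of_subset hA.2
      · intro B hB
        rw [mem_powerset] at hB
        have hd : Disjoint B F := disjoint_of_subset_left hB sdiff_disjoint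
        exact union_sdiff_cancel_right hd
      · intro A hA
        rw [mem_filter, mem_powerset] at hA
        have e1 : A.card = F.card + (A \ F).card := by
          rw [add_comm, card_sdiff_add_card_eq_card hA.2]
        have e2 : (P \ A).card = (P \ F).card - (A \ F).card := by
          rw [card_sdiff_of_subset hA.1, card_sdiff_of_subset hA.2, card_sdiff_of_subset hF]
          have := card_le_card hA.1
          have := card_le_card hA.2
          have := card_le_card hF
          omega
        rw [e2, e1, pow_add]
        ring
    rw [key, ← Finset.mul_sum, Finset.sum_pow_mul_eq_add_pow]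
    simp

end Pool.Agent.Lib.MP_8b7544_co.Df
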