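import Pool.Agent.Lib.MP_8b7544_co.Df.Core5
import Pool.Agent.Lib.MP_8b7544_co.Df.Tree
import Pool.Agent.Lib.MP_8b7544_co.Df.Heavy
import Pool.Agent.Lib.MP_8b7544_co.Df.Lca
import Pool.Agent.Lib.MP_8b7544_co.Df.Topfree
import Pool.Agent.Lib.MP_8b7544_co.Df.Exit
import Pool.Agent.Lib.MP_8b7544_co.Df.Beta
import Pool.Agent.Lib.MP_8b7544_co.Df.Greedy
import Pool.Agent.Lib.MP_8b7544_co.Df.Row
import Pool.Agent.Lib.MP_8b7544_co.Df.Avg
import Pool.Agent.Lib.MP_8b7544_co.Df.Wavg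
import Pool.Agent.Lib.MP_8b7544_co.Df.Count
import Pool.Agent.Lib.MP_8b7544_co.Df.Stat
import Pool.Agent.Lib.MP_8b7544_co.Df.KerB
import Pool.Agent.Lib.MP_8b7544_co.Df.HubB
import Pool.Agent.Lib.MP_8b7544_co.Df.Weights
import Pool.Agent.Lib.MP_8b7544_co.Df.Mom
import Pool.Agent.Lib.MP_8b7544_co.Df.QP
import Pool.Agent.Lib.MP_8b7544_co.Df.ResP
import Pool.Agent.Lib.MP_8b7544_co.Df.LawP
import Pool.Agent.Lib.MP_8b7544_co.Df.Inv
import Pool.Agent.Lib.MP_8b7544_co.Df.Load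
import Pool.Agent.Lib.MP_8b7544_co.Df.Pair
import Pool.Agent.Lib.MP_8b7544_co.Df.FamB
import Pool.Agent.Lib.MP_8b7544_co.Df.Enum
import Pool.Agent.Lib.MP_8b7544_co.Df.CompsP
import Pool.Agent.Lib.MP_8b7544_co.Df.NW
import Pool.Agent.Lib.MP_8b7544_co.Df.Pick
import Pool.Agent.Lib.MP_8b7544_co.Df.Glue
import Pool.Agent.Lib.MP_8b7544_co.Df.Seq
import Pool.Agent.Lib.MP_8b7544_co.Df.Magic
import Pool.Agent.Lib.MP_8b7544_co.Df.MainB

/-!
# MP_8b7544_co, project Deficiency: everything together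
-/

set_option autoImplicit false

namespace Pool.Agent.Lib.MP_8b7544_co.Df

/-- the core theorem on parent sequences -/
theorem core_all : StmCore :=
  core_of (p_Tree p_Heavy p_Lca p_Topfree p_Exit) (p_Beta p_Greedy)
    (p_KerB (p_Wavg p_Row p_Avg) p_Count) (p_HubB (p_Wavg p_Row p_Avg) p_Count) p_Stat
    (p_ResP (p_QP p_Weights p_Mom)) (p_FamB p_LawP p_Inv p_Load p_Pair) (p_CompsP p_Enum)
    (p_Pick p_NW) (p_Glue p_Greedy)

/-- the main theorem -/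
theorem main_all : StmMain := p_MainB core_all p_Seq p_Magic

end Pool.Agent.Lib.MP_8b7544_co.Df
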