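import Pool.Agent.Lib.MP_8b7544_co.Df.Stm

/-!
# MP_8b7544_co, project Deficiency: the kernel data from the pieces A5, A6, A7
-/

set_option autoImplicit false

namespace Pool.Agent.Lib.MP_8b7544_co.Df

open Finset

/-- start labels -/
def Good (R N : ℕ) (D : Finset (ZMod N)) (ρ e : ℝ) (x : ℤ) : Prop :=
  |x| ≤ R ∧ |(Qr D (x : ZMod N) : ℝ) - ρ ^ 2 * N| ≤ e * N

theorem mem_Om {R : ℕ} {x : ℤ} : x ∈ Om R ↔ |x| ≤ R := by
  unfold Om; rw [Finset.mem_Icc, abs_le]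

theorem mem_V0 {R N : ℕ} {D : Finset (ZMod N)} {x : ℤ} :
    x ∈ V0 R N D ↔ |x| ≤ R ∧ (x : ZMod N) ∈ D := by
  unfold V0; rw [Finset.mem_filter, mem_Om]

theorem V0_sub (R N : ℕ) (D : Finset (ZMod N)) : V0 R N D ⊆ Om R := Finset.filter_subset _ _

theorem ps_ne {R N : ℕ} {D : Finset (ZMod N)} {x : ℤ} (h : ps R N D x ≠ 0) : x ∈ V0 R N D := by
  by_contra hx
  exact h (by unfold ps; rw [if_neg hx])

theorem core_ker (hKer : StmKer) (hStat : StmStat) (a ρ e : ℝ) (R N : ℕ) [NeZero N]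
    (D : Finset (ZMod N)) (hN : Num a ρ e R N D) (lam pm : ℝ)
    (h1 : 2 / (a ^ 2 * R) ≤ lam) (h2 : (1 + a) / (ρ * (2 * R + 1)) ≤ pm) (h3 : pm ≤ lam) :
    Ker R (V0 R N D) (Kn R N D) (fun x => (1 + a / 4) * ps R N D x) (Good R N D ρ e) lam pm := by
  obtain ⟨k1, k2, k3, k4, k5, k6⟩ := hKer a ρ e R N D hN
  obtain ⟨s1, s2⟩ := hStat R N D hN.sym
  have ha := hN.a0
  have hρ : 0 < ρ := lt_of_lt_of_le ha hN.ra
  have hq : 0 < ρ * (2 * (R : ℝ) + 1) := by positivity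
  refine ⟨V0_sub R N D, k2, fun x hx y => ((k1 x hx.1 hx.2).2 y).trans h1, k3,
    fun x hx => (k1 x hx.1 hx.2).1, fun x hx => ⟨(mem_V0.1 hx).1, hN.good _ (mem_V0.1 hx).2⟩,
    fun x => mul_nonneg (by linarith) (k5 x), ?_, h3, ?_, ?_⟩
  · intro x
    refine le_trans ?_ h2
    calc (1 + a / 4) * ps R N D x ≤ (1 + a / 4) * ((1 + a / 4) / (ρ * (2 * R + 1))) :=
          mul_le_mul_of_nonneg_left (k6 x) (by linarith)
      _ ≤ (1 + a) / (ρ * (2 * R + 1)) := by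
          rw [← mul_div_assoc]
          apply div_le_div_of_nonneg_right _ hq.le
          nlinarith [hN.a8]
  · intro y
    have : ∑ x ∈ V0 R N D, (1 + a / 4) * ps R N D x * Kn R N D x y
        = (1 + a / 4) * ∑ x ∈ V0 R N D, ps R N D x * Kn R N D x y := by
      rw [Finset.mul_sum]; exact Finset.sum_congr rfl fun x _ => by ring
    rw [this, s1]
  · intro s
    have : ∑ x ∈ V0 R N D, (1 + a / 4) * ps R N D x * Kn R N D x (s - x)
        = (1 + a / 4) * ∑ x ∈ V0 R N D, ps R N D x * Kn R N D x (s - x) := by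
      rw [Finset.mul_sum]; exact Finset.sum_congr rfl fun x _ => by ring
    rw [this, s2]

theorem core_ini0 (hKer : StmKer) (hStat : StmStat) (a ρ e : ℝ) (R N : ℕ) [NeZero N]
    (D : Finset (ZMod N)) (hN : Num a ρ e R N D) (lam pm : ℝ)
    (h2 : (1 + a) / (ρ * (2 * R + 1)) ≤ pm) (h3 : pm ≤ lam) :
    Ini R (Kn R N D) (fun x => (1 + a / 4) * ps R N D x) (Good R N D ρ e) lam (ps R N D) := by
  obtain ⟨k1, k2, k3, k4, k5, k6⟩ := hKer a ρ e R N D hN
  obtain ⟨s1, s2⟩ := hStat R N D hN.sym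
  have ha := hN.a0
  have hρ : 0 < ρ := lt_of_lt_of_le ha hN.ra
  have hq : 0 < ρ * (2 * (R : ℝ) + 1) := by positivity
  have hle : ∀ x, ps R N D x ≤ (1 + a / 4) * ps R N D x := fun x => by nlinarith [k5 x]
  have hsum : ∀ F : ℤ → ℝ, ∑ x ∈ Om R, ps R N D x * F x = ∑ x ∈ V0 R N D, ps R N D x * F x := by
    intro F
    refine (Finset.sum_subset (V0_sub R N D) ?_).symm
    intro x _ hx
    have : ps R N D x = 0 := by unfold ps; rw [if_neg hx]
    rw [this, zero_mul]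
  refine ⟨k5, ?_, ?_, ?_, ?_, ?_⟩
  · intro x
    refine ((k6 x).trans ?_).trans (h2.trans h3)
    apply div_le_div_of_nonneg_right _ hq.le
    linarith
  · intro x hx
    have hV := ps_ne hx
    exact ⟨⟨(mem_V0.1 hV).1, hN.good _ (mem_V0.1 hV).2⟩, V0_sub R N D hV⟩
  · have := hsum (fun _ => 1)
    simp only [mul_one] at this
    rw [this, k4]
  · intro y
    rw [hsum (fun x => Kn R N D x y), s1]
    exact hle y
  · intro s
    rw [hsum (fun x => Kn R N D x (s - x)), s2]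
    exact hle s

/-- the uniform law on `L` -/
noncomputable def unif (L : Finset ℤ) (x : ℤ) : ℝ := if x ∈ L then 1 / (L.card : ℝ) else 0

theorem unif_sum {L Q : Finset ℤ} (h : L ⊆ Q) (F : ℤ → ℝ) :
    ∑ x ∈ Q, unif L x * F x = ∑ x ∈ L, F x / (L.card : ℝ) := by
  rw [← Finset.sum_subset h]
  · refine Finset.sum_congr rfl fun x hx => ?_
    unfold unif; rw [if_pos hx]; ring
  · intro x _ hx
    unfold unif; rw [if_neg hx, zero_mul]

theorem core_iniH (hHub : StmHub) (a ρ e : ℝ) (R N : ℕ) [NeZero N]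
    (D : Finset (ZMod N)) (hN : Num a ρ e R N D) (lam : ℝ) (θ : ℝ) (B : ℕ) (D' : Finset (ZMod N))
    (h1 : 0 < θ) (h2 : θ ≤ 1) (h3 : 4 * (N : ℝ) ≤ e * θ * R) (h4 : (B : ℝ) ≤ a ^ 2 / 50 * R)
    (h5 : ∀ b ∈ D', |(Qr D b : ℝ) - ρ ^ 2 * N| ≤ e * N)
    (h6 : θ * (1 - ρ - e) * N ≤ (D'.card : ℝ))
    (h7 : ∀ b ∈ D, ((D'.filter (fun c => c + b ∈ D)).card : ℝ) ≤ θ * (ρ - ρ ^ 2 + 2 * e) * N)
    (h8 : 1 / (θ * (1 - ρ) * (1 - a) * (2 * R + 1)) ≤ lam) :
    Ini R (Kn R N D) (fun x => (1 + a / 4) * ps R N D x) (Good R N D ρ e) lam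
      (unif (V0 (R - B) N D')) ∧
    θ * (1 - ρ) * (1 - a) * (2 * R + 1) ≤ ((V0 (R - B) N D').card : ℝ) := by
  obtain ⟨g1, g2, g3⟩ := hHub a ρ e R N D hN θ B D' h1 h2 h3 h4 h5 h6 h7
  have ha := hN.a0
  have ha8 := hN.a8
  have hρ1 : 0 < 1 - ρ := by linarith [hN.rb]
  have hc : 0 < θ * (1 - ρ) * (1 - a) * (2 * (R : ℝ) + 1) := by
    have : 0 < 1 - a := by linarith
    positivity
  have hL : 0 < ((V0 (R - B) N D').card : ℝ) := lt_of_lt_of_le hc g1
  have hsub : V0 (R - B) N D' ⊆ Om R := by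
    intro x hx
    rw [mem_Om]
    have := (mem_V0.1 hx).1
    have h' : ((R - B : ℕ) : ℤ) ≤ R := by
      exact_mod_cast Nat.sub_le R B
    exact this.trans h'
  refine ⟨⟨?_, ?_, ?_, ?_, ?_, ?_⟩, g1⟩
  · intro x
    unfold unif
    split_ifs
    · positivity
    · exact le_rfl
  · intro x
    have hle : 1 / ((V0 (R - B) N D').card : ℝ) ≤ lam :=
      (one_div_le_one_div_of_le hc g1).trans h8
    unfold unif
    split_ifs
    · exact hle
    · exact le_trans (by positivity) hle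
  · intro x hx
    have hxL : x ∈ V0 (R - B) N D' := by
      by_contra h
      exact hx (by unfold unif; rw [if_neg h])
    refine ⟨⟨mem_Om.1 (hsub hxL), h5 _ (mem_V0.1 hxL).2⟩, hsub hxL⟩
  · have := unif_sum hsub (fun _ => 1)
    simp only [mul_one] at this
    rw [this, Finset.sum_const, nsmul_eq_mul]
    field_simp
  · intro y
    rw [unif_sum hsub (fun x => Kn R N D x y)]
    exact g2 y
  · intro s
    rw [unif_sum hsub (fun x => Kn R N D x (s - x))]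
    exact g3 s

end Pool.Agent.Lib.MP_8b7544_co.Df
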