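import Pool.Agent.Lib.MP_8b7544_co.Df.Core1

/-!
# MP_8b7544_co, project Deficiency: numerical lemmas
-/

set_option autoImplicit false

namespace Pool.Agent.Lib.MP_8b7544_co.Df

open Finset

theorem num1 (a x h ρ r : ℝ) (ha : 0 < a) (ha8 : a ≤ 1 / 8) (hx : 0 < x) (hh : h ≤ x)
    (hρ : ρ = a + (1 - 2 * a) * (1 - h / x)) (hr : (1 + 7 * a) * x ≤ 2 * r + 1) :
    (x - h) * ((1 + a) / (ρ * (2 * r + 1)) / (1 - a)) ≤ 1 := by
  have hq : 0 ≤ 1 - h / x := by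
    have : h / x ≤ 1 := (div_le_one hx).2 hh
    linarith
  have hρ0 : 0 < ρ := by
    rw [hρ]
    have : 0 ≤ (1 - 2 * a) * (1 - h / x) := mul_nonneg (by linarith) hq
    linarith
  have hr0 : 0 < 2 * r + 1 := lt_of_lt_of_le (by positivity) hr
  have h1a : 0 < 1 - a := by linarith
  rw [div_div, ← mul_div_assoc, div_le_one (by positivity)]
  have hρx : (1 - 2 * a) * (x - h) ≤ ρ * x := by
    rw [hρ]
    have : (1 - 2 * a) * (1 - h / x) * x = (1 - 2 * a) * (x - h) := by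
      field_simp
    nlinarith
  have h2 : (1 - 2 * a) * (x - h) * (1 + 7 * a) ≤ ρ * (2 * r + 1) := by
    calc (1 - 2 * a) * (x - h) * (1 + 7 * a) ≤ ρ * x * (1 + 7 * a) :=
          mul_le_mul_of_nonneg_right hρx (by linarith)
      _ = ρ * ((1 + 7 * a) * x) := by ring
      _ ≤ ρ * (2 * r + 1) := mul_le_mul_of_nonneg_left hr hρ0.le
  have h3 : (1 + a) ≤ (1 - 2 * a) * (1 + 7 * a) * (1 - a) := by nlinarith [sq_nonneg a, mul_pos ha ha]
  calc (x - h) * (1 + a) ≤ (x - h) * ((1 - 2 * a) * (1 + 7 * a) * (1 - a)) :=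
        mul_le_mul_of_nonneg_left h3 (by linarith)
    _ = (1 - 2 * a) * (x - h) * (1 + 7 * a) * (1 - a) := by ring
    _ ≤ ρ * (2 * r + 1) * (1 - a) := mul_le_mul_of_nonneg_right h2 h1a.le

theorem num2 (a x h hy ρ r θ : ℝ) (ha : 0 < a) (ha8 : a ≤ 1 / 8) (hx : 0 < x) (h0 : 0 < h)
    (hh : h ≤ x) (hy0 : 0 ≤ hy)
    (hρ : ρ = a + (1 - 2 * a) * (1 - h / x)) (hr : (1 + 7 * a) * x ≤ 2 * r + 1)
    (hθ : (1 - a) * (hy / h) ≤ θ) (l : ℝ) (hl : θ * (1 - ρ) * (1 - a) * (2 * r + 1) ≤ l) :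
    hy ≤ (1 - a) * l := by
  have h1a : 0 < 1 - a := by linarith
  have e1 : 1 - ρ = a + (1 - 2 * a) * (h / x) := by rw [hρ]; ring
  have hhx : 0 ≤ h / x := by positivity
  have hρ1 : 0 < 1 - ρ := by
    rw [e1]
    have : 0 ≤ (1 - 2 * a) * (h / x) := mul_nonneg (by linarith) hhx
    linarith
  have hr0 : 0 < 2 * r + 1 := lt_of_lt_of_le (by positivity) hr
  -- (1-ρ) x ≥ (1 - a) h
  have e2 : (1 - a) * h ≤ (1 - ρ) * x := by
    rw [e1]
    have : (1 - 2 * a) * (h / x) * x = (1 - 2 * a) * h := by field_simp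
    nlinarith
  have e3 : (1 - a) * h * (1 + 7 * a) ≤ (1 - ρ) * (2 * r + 1) := by
    calc (1 - a) * h * (1 + 7 * a) ≤ (1 - ρ) * x * (1 + 7 * a) :=
          mul_le_mul_of_nonneg_right e2 (by linarith)
      _ = (1 - ρ) * ((1 + 7 * a) * x) := by ring
      _ ≤ (1 - ρ) * (2 * r + 1) := mul_le_mul_of_nonneg_left hr hρ1.le
  have e4 : 0 ≤ hy / h := by positivity
  have e5 : (1 - a) * (hy / h) * ((1 - a) * h * (1 + 7 * a)) ≤ θ * ((1 - ρ) * (2 * r + 1)) := by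
    apply mul_le_mul hθ e3
    · have : 0 ≤ (1 - a) * h := by positivity
      exact mul_nonneg this (by linarith)
    · exact le_trans (by positivity) hθ
  have e6 : (1 - a) * (hy / h) * ((1 - a) * h * (1 + 7 * a))
      = (1 - a) ^ 2 * (1 + 7 * a) * hy := by field_simp
  rw [e6] at e5
  have e7 : (1 - a) ^ 2 * (1 + 7 * a) * hy * (1 - a) ^ 2 ≤ (1 - a) * l := by
    calc (1 - a) ^ 2 * (1 + 7 * a) * hy * (1 - a) ^ 2
        ≤ θ * ((1 - ρ) * (2 * r + 1)) * (1 - a) ^ 2 :=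
          mul_le_mul_of_nonneg_right e5 (by positivity)
      _ = (1 - a) * (θ * (1 - ρ) * (1 - a) * (2 * r + 1)) := by ring
      _ ≤ (1 - a) * l := mul_le_mul_of_nonneg_left hl h1a.le
  refine le_trans ?_ e7
  have e8 : 1 ≤ (1 - a) ^ 2 * (1 + 7 * a) * (1 - a) ^ 2 := by
    have h3 : 0 ≤ 3 - 22 * a + 38 * a ^ 2 - 28 * a ^ 3 := by
      nlinarith [sq_nonneg a, mul_pos ha ha, mul_nonneg (sq_nonneg a) (by linarith : 0 ≤ 1 / 8 - a)]
    have h4 : (1 - a) ^ 2 * (1 + 7 * a) * (1 - a) ^ 2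
        = 1 + a * (3 - 22 * a + 38 * a ^ 2 - 28 * a ^ 3) + a ^ 4 * (1 + 7 * a) := by ring
    rw [h4]
    have : 0 ≤ a * (3 - 22 * a + 38 * a ^ 2 - 28 * a ^ 3) := mul_nonneg ha.le h3
    have : 0 ≤ a ^ 4 * (1 + 7 * a) := by positivity
    linarith
  calc hy = 1 * hy := by ring
    _ ≤ (1 - a) ^ 2 * (1 + 7 * a) * (1 - a) ^ 2 * hy := mul_le_mul_of_nonneg_right e8 hy0
    _ = (1 - a) ^ 2 * (1 + 7 * a) * hy * (1 - a) ^ 2 := by ring

/-- lower bound for a quotient of natural numbers -/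
theorem nat_div_gt (B d : ℕ) (hd : 0 < d) : (B : ℝ) / d - 1 < ((B / d : ℕ) : ℝ) := by
  have h1 : B < d * (B / d + 1) := by
    have := Nat.lt_mul_div_succ B hd
    simpa using this
  have hd' : (0 : ℝ) < d := by exact_mod_cast hd
  have h2 : (B : ℝ) < d * ((B / d : ℕ) + 1) := by exact_mod_cast h1
  have h3 : (B : ℝ) / d < (B / d : ℕ) + 1 := by
    rw [div_lt_iff₀ hd']; linarith
  linarith

end Pool.Agent.Lib.MP_8b7544_co.Df
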