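import Pool.Agent.Lib.MP_8b7544_co.Df.Core2

/-!
# MP_8b7544_co, project Deficiency: the numerical part for given parameters
-/

set_option autoImplicit false

namespace Pool.Agent.Lib.MP_8b7544_co.Df

open Finset

/-- all numerical conditions on the parameters -/
structure Prm (a e ε1 δ : ℝ) (m S K n R : ℕ) : Prop where
  a0 : 0 < a
  a8 : a ≤ 1 / 8
  e0 : 0 < e
  ea : e ≤ a ^ 4 / 100
  ε0 : 0 < ε1
  m1 : 1 ≤ m
  S1 : 1 ≤ S
  K1 : 1 ≤ K
  Sk : 24 * (m : ℝ) ≤ a ^ 2 / 50 * (S + 1)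
  δ0 : 0 < δ
  δ1 : 4 * δ / a ≤ ε1 / 4
  Kδ : 1 ≤ δ * a * K
  R1 : (2 * R + 1 : ℝ) ≤ 2 * n
  R2 : (1 + 7 * a) * n ≤ 2 * (R : ℝ) + 1
  n1 : (6 / δ + 4) * (m * K) ≤ a ^ 2 / 50 * n
  n2 : (16 + 24 / δ) * (2 * m) ≤ a ^ 2 / 50 * n
  n3 : 4 * m * (14 + 24 / δ) ≤ (n : ℝ)
  n4 : 8 * (m : ℝ) * K ^ 2 ≤ e * n
  n5 : 8 * (K : ℝ) * S ^ 2 ≤ a ^ 3 * n
  n6 : 64 * (2 * (S : ℝ) + 1) ^ 2 * K ^ 2 ≤ a ^ 4 * ε1 * n
  n7 : 16 ≤ a * ε1 * n
  n8 : 8 * (K : ℝ) * (2 * S + 1) ≤ a ^ 2 * ε1 * n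
  n9 : 1 ≤ ε1 * n
  n10 : 1 ≤ a * n

section num

variable {a e ε1 δ : ℝ} {m S K n R : ℕ}

theorem Prm.x0 (P : Prm a e ε1 δ m S K n R) : (0 : ℝ) < n := by
  by_contra h
  have hx' : (n : ℝ) ≤ 0 := not_lt.1 h
  have := mul_nonpos_of_nonneg_of_nonpos P.a0.le hx'
  linarith only [this, P.n10]

theorem Prm.xr (P : Prm a e ε1 δ m S K n R) : (n : ℝ) ≤ 2 * R := by
  have h1 := P.R2
  have h2 : (1 + 7 * a) * (n : ℝ) = n + 7 * (a * n) := by ring
  linarith only [h1, h2, P.n10]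

theorem Prm.r0 (P : Prm a e ε1 δ m S K n R) : (0 : ℝ) < R := by
  linarith only [P.x0, P.xr]

theorem Prm.rx (P : Prm a e ε1 δ m S K n R) : (R : ℝ) ≤ n := by
  linarith only [P.R1]

theorem Prm.m0 (P : Prm a e ε1 δ m S K n R) : (0 : ℝ) < m := by exact_mod_cast P.m1
theorem Prm.K0 (P : Prm a e ε1 δ m S K n R) : (0 : ℝ) < K := by exact_mod_cast P.K1
theorem Prm.S0 (P : Prm a e ε1 δ m S K n R) : (0 : ℝ) < S := by exact_mod_cast P.S1
theorem Prm.k0 (P : Prm a e ε1 δ m S K n R) : 0 < a ^ 2 / 50 := by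
  have := P.a0; positivity

theorem Prm.k4 (P : Prm a e ε1 δ m S K n R) : a ^ 2 / 50 ≤ 1 / 4 := by
  have h1 : a ^ 2 ≤ 1 := pow_le_one₀ P.a0.le (by linarith only [P.a8])
  linarith only [h1]

theorem Prm.xb (P : Prm a e ε1 δ m S K n R) {B : ℕ} (hB2 : a ^ 2 / 50 * R - 1 < B) :
    a ^ 2 / 50 * n ≤ 2 * (B : ℝ) + 2 := by
  have h1 := mul_le_mul_of_nonneg_left P.xr P.k0.le
  linarith only [h1, hB2]

theorem Prm.cutX (P : Prm a e ε1 δ m S K n R) {xc hc : ℕ} (hHc : (hc : ℝ) ≤ 1 / δ)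
    (hXc : (xc : ℝ) ≤ 4 * (n / (S + 1) + 1 + 2 * hc)) :
    3 * (xc : ℝ) ≤ a ^ 2 / 50 / (2 * m) * n + 12 + 24 / δ := by
  have hm0 := P.m0
  have hS0 := P.S0
  have hx0 := P.x0
  have h1 : (n : ℝ) / ((S : ℝ) + 1) ≤ a ^ 2 / 50 / (24 * m) * n := by
    rw [div_le_iff₀ (by positivity)]
    have h2 : a ^ 2 / 50 / (24 * m) * n * ((S : ℝ) + 1)
        = n * ((a ^ 2 / 50 * (S + 1)) / (24 * m)) := by field_simp
    rw [h2]
    have h3 : 1 ≤ (a ^ 2 / 50 * ((S : ℝ) + 1)) / (24 * m) := by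
      rw [le_div_iff₀ (by positivity)]; linarith only [P.Sk]
    exact le_mul_of_one_le_right hx0.le h3
  have h4 : a ^ 2 / 50 / (2 * m) * n = 12 * (a ^ 2 / 50 / (24 * m) * (n : ℝ)) := by
    field_simp; ring
  have h5 : 24 / δ = 24 * (1 / δ) := by ring
  rw [h4, h5]
  linarith only [h1, hHc, hXc]

theorem Prm.cut1 (P : Prm a e ε1 δ m S K n R) {B hp hc : ℕ} (hB2 : a ^ 2 / 50 * R - 1 < B)
    (hHc : (hc : ℝ) ≤ 1 / δ) (hHp : hp ≤ 2 * hc) : 3 * hp < 2 * (B / (m * K)) + 1 := by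
  have hm0 := P.m0
  have hK0 := P.K0
  have hm1 : (1 : ℝ) ≤ m := by exact_mod_cast P.m1
  have hK1 : (1 : ℝ) ≤ K := by exact_mod_cast P.K1
  have h1 := nat_div_gt B (m * K) (Nat.mul_pos P.m1 P.K1)
  have h2 : (3 * hp : ℝ) < 2 * ((B / (m * K) : ℕ) : ℝ) + 1 := by
    have h3 : (hp : ℝ) ≤ 2 * hc := by exact_mod_cast hHp
    have h4 : 6 / δ = 6 * (1 / δ) := by ring
    have hmK' : ((m * K : ℕ) : ℝ) = m * K := by push_cast; ring
    have h5 : 6 / δ + 4 ≤ a ^ 2 / 50 * n / (m * K) := by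
      rw [le_div_iff₀ (by positivity)]; exact P.n1
    have h6 : a ^ 2 / 50 * n / (m * K) ≤ 2 * (B : ℝ) / (m * K) + 2 / (m * K) := by
      rw [← add_div]
      exact div_le_div_of_nonneg_right (P.xb hB2) (by positivity)
    have h7 : 2 / ((m : ℝ) * K) ≤ 2 := by
      rw [div_le_iff₀ (by positivity)]
      have := one_le_mul_of_one_le_of_one_le hm1 hK1
      linarith only [this]
    have h8 : 2 * (B : ℝ) / (m * K) = 2 * ((B : ℝ) / ((m * K : ℕ) : ℝ)) := by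
      rw [hmK']; ring
    linarith only [h1, h3, h4, h5, h6, h7, h8, hHc]
  exact_mod_cast h2

theorem Prm.cut2 (P : Prm a e ε1 δ m S K n R) {B xc : ℕ} (hB2 : a ^ 2 / 50 * R - 1 < B)
    (hX : 3 * (xc : ℝ) ≤ a ^ 2 / 50 / (2 * m) * n + 12 + 24 / δ) :
    3 * xc < 2 * (B / m) + 1 := by
  have hm0 := P.m0
  have hm1 : (1 : ℝ) ≤ m := by exact_mod_cast P.m1
  have h1 := nat_div_gt B m P.m1
  have h2 : (3 * xc : ℝ) < 2 * ((B / m : ℕ) : ℝ) + 1 := by
    have h5 : 16 + 24 / δ ≤ a ^ 2 / 50 / (2 * m) * n := by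
      have : a ^ 2 / 50 / (2 * m) * (n : ℝ) = a ^ 2 / 50 * n / (2 * m) := by ring
      rw [this, le_div_iff₀ (by positivity)]; exact P.n2
    have h6 : a ^ 2 / 50 * n / m ≤ 2 * (B : ℝ) / m + 2 / m := by
      rw [← add_div]
      exact div_le_div_of_nonneg_right (P.xb hB2) (by positivity)
    have h7 : 2 / (m : ℝ) ≤ 2 := by
      rw [div_le_iff₀ (by positivity)]
      linarith only [hm1]
    have h8 : 2 * (B : ℝ) / m = 2 * ((B : ℝ) / m) := by ring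
    have h9 : a ^ 2 / 50 * (n : ℝ) / m = 2 * (a ^ 2 / 50 / (2 * m) * n) := by
      field_simp
    linarith only [h1, h5, h6, h7, h8, h9, hX]
  exact_mod_cast h2

theorem Prm.cut3 (P : Prm a e ε1 δ m S K n R) {η : ℝ} (hη : η = 1 / (120 * m * S)) {xc tc jc : ℕ}
    (hX : 3 * (xc : ℝ) ≤ a ^ 2 / 50 / (2 * m) * n + 12 + 24 / δ) (hJle : jc ≤ tc)
    (hJc : (tc : ℝ) - jc ≤ η * (n + 2 * (2 * R + 1))) :
    3 * (xc + S * (tc - jc)) < 2 * (R / 2 / m) + 1 := by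
  have hm0 := P.m0
  have hS0 := P.S0
  have hx0 := P.x0
  have h1 := nat_div_gt R (2 * m) (Nat.mul_pos (by norm_num) P.m1)
  rw [Nat.div_div_eq_div_mul]
  have h2 : (3 * (xc + S * ((tc : ℝ) - jc)) : ℝ) < 2 * ((R / (2 * m) : ℕ) : ℝ) + 1 := by
    have h3 : (S : ℝ) * ((tc : ℝ) - jc) ≤ n / (24 * m) := by
      have e1 : (tc : ℝ) - jc ≤ η * (5 * n) := by
        refine hJc.trans ?_
        apply mul_le_mul_of_nonneg_left
        · linarith only [P.R1]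
        · rw [hη]; positivity
      calc (S : ℝ) * ((tc : ℝ) - jc) ≤ S * (η * (5 * n)) :=
            mul_le_mul_of_nonneg_left e1 hS0.le
        _ = n / (24 * m) := by rw [hη]; field_simp; ring
    have h4 : 3 * (n / (24 * (m : ℝ))) = n / (8 * m) := by field_simp; ring
    have h5 : a ^ 2 / 50 / (2 * m) * n ≤ n / (8 * (m : ℝ)) := by
      have : (n : ℝ) / (8 * (m : ℝ)) = 1 / 4 / (2 * m) * n := by field_simp; ring
      rw [this]
      apply mul_le_mul_of_nonneg_right _ hx0.le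
      exact div_le_div_of_nonneg_right P.k4 (by positivity)
    have h6 : (R : ℝ) / ((2 * m : ℕ) : ℝ) = R / (2 * m) := by push_cast; rfl
    have h7 : n / (4 * (m : ℝ)) ≤ R / (2 * m) := by
      rw [div_le_div_iff₀ (by positivity) (by positivity)]
      have := mul_le_mul_of_nonneg_right P.xr (by positivity : (0 : ℝ) ≤ 2 * m)
      linarith only [this]
    have h8 : 14 + 24 / δ ≤ n / (4 * (m : ℝ)) := by
      rw [le_div_iff₀ (by positivity)]; linarith only [P.n3]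
    have h9 : n / (4 * (m : ℝ)) = n / (8 * m) + n / (8 * m) := by field_simp; ring
    rw [h6] at h1
    linarith only [h1, h3, h4, h5, h7, h8, h9, hX]
  have h11 : ((3 * (xc + S * (tc - jc)) : ℕ) : ℝ) < ((2 * (R / (2 * m)) + 1 : ℕ) : ℝ) := by
    push_cast [Nat.cast_sub hJle]
    push_cast at h2
    exact h2
  exact_mod_cast h11

theorem Prm.big (P : Prm a e ε1 δ m S K n R) : 4 * ((m * K : ℕ) : ℝ) * K ≤ e * R := by
  have h1 := mul_le_mul_of_nonneg_left P.xr P.e0.le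
  have h2 : 4 * ((m * K : ℕ) : ℝ) * K = 4 * (m : ℝ) * K ^ 2 := by push_cast; ring
  rw [h2]
  linarith only [h1, P.n4]

theorem Prm.big1 (P : Prm a e ε1 δ m S K n R) : 4 * ((m * K : ℕ) : ℝ) ≤ e * R := by
  have hK1 : (1 : ℝ) ≤ K := by exact_mod_cast P.K1
  refine le_trans ?_ P.big
  exact le_mul_of_one_le_right (by positivity) hK1

end num

/-- bounds for `pm` and `lam` -/
structure PL (a ρ : ℝ) (K n R : ℕ) (pm lam : ℝ) : Prop where
  pm0 : 0 ≤ pm
  lam0 : 0 ≤ lam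
  pmx : pm ≤ 2 / (a * n)
  pml : pm ≤ lam
  kl : 2 / (a ^ 2 * R) ≤ lam

section num2

variable {a e ε1 δ : ℝ} {m S K n R : ℕ}

theorem Prm.pl (P : Prm a e ε1 δ m S K n R) {ρ pm lam : ℝ} (hρa : a ≤ ρ)
    (hpm : pm = (1 + a) / (ρ * (2 * R + 1))) (hlam : lam = 4 * K / (a ^ 2 * n)) :
    PL a ρ K n R pm lam := by
  have a0 := P.a0
  have hρ0 : 0 < ρ := lt_of_lt_of_le a0 hρa
  have hx0 := P.x0
  have hr0 := P.r0
  have hK0 := P.K0
  have hK1 : (1 : ℝ) ≤ K := by exact_mod_cast P.K1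
  have hpmx : pm ≤ 2 / (a * n) := by
    rw [hpm]
    apply div_le_div₀ (by norm_num) (by linarith only [P.a8]) (by positivity)
    exact mul_le_mul hρa (by linarith only [P.xr]) hx0.le hρ0.le
  have hax : a ^ 2 * n ≤ a * (n : ℝ) := by
    apply mul_le_mul_of_nonneg_right _ hx0.le
    have : a * a ≤ a * 1 := mul_le_mul_of_nonneg_left (by linarith only [P.a8]) a0.le
    linarith only [this]
  refine ⟨by rw [hpm]; positivity, by rw [hlam]; positivity, hpmx, hpmx.trans ?_, ?_⟩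
  · rw [hlam, div_le_div_iff₀ (by positivity) (by positivity)]
    have h1 : 0 < a * (n : ℝ) := by positivity
    have h2 : 2 * (a * (n : ℝ)) ≤ 4 * K * (a * n) := by
      apply mul_le_mul_of_nonneg_right _ h1.le
      linarith only [hK1]
    linarith only [hax, h2]
  · rw [hlam, div_le_div_iff₀ (by positivity) (by positivity)]
    have h1 : 0 < a ^ 2 := by positivity
    have h2 : a ^ 2 * (n : ℝ) ≤ a ^ 2 * (2 * R) := mul_le_mul_of_nonneg_left P.xr h1.le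
    have h3 : 4 * (a ^ 2 * (R : ℝ)) ≤ 4 * K * (a ^ 2 * R) := by
      apply mul_le_mul_of_nonneg_right _ (by positivity)
      linarith only [hK1]
    linarith only [h2, h3]

theorem Prm.nu (P : Prm a e ε1 δ m S K n R) {ρ pm lam : ℝ} (Q : PL a ρ K n R pm lam)
    (hlam : lam = 4 * K / (a ^ 2 * n)) {k B : ℕ} (hk : k ≤ S) (hB1 : (B : ℝ) ≤ a ^ 2 / 50 * R) :
    (k : ℝ) ^ 2 * lam + 4 * B * pm ≤ a := by
  have a0 := P.a0
  have hx0 := P.x0
  have hr0 := P.r0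
  have hK0 := P.K0
  have h1 : (k : ℝ) ≤ S := by exact_mod_cast hk
  have h2 : (k : ℝ) ^ 2 * lam ≤ a / 2 := by
    have h3 : (k : ℝ) ^ 2 ≤ (S : ℝ) ^ 2 := pow_le_pow_left₀ (Nat.cast_nonneg _) h1 2
    refine (mul_le_mul_of_nonneg_right h3 Q.lam0).trans ?_
    rw [hlam, ← mul_div_assoc, div_le_iff₀ (by positivity)]
    have := P.n5
    have e1 : a / 2 * (a ^ 2 * (n : ℝ)) = a ^ 3 * n / 2 := by ring
    have e2 : (S : ℝ) ^ 2 * (4 * K) = 8 * K * S ^ 2 / 2 := by ring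
    rw [e1, e2]
    linarith only [this]
  have h4 : 4 * (B : ℝ) * pm ≤ a / 2 := by
    have h5 : 4 * (B : ℝ) * pm ≤ 4 * (a ^ 2 / 50 * R) * (2 / (a * n)) :=
      mul_le_mul (by linarith only [hB1]) Q.pmx Q.pm0 (by positivity)
    refine h5.trans ?_
    have h6 : 4 * (a ^ 2 / 50 * (R : ℝ)) * (2 / (a * n)) = 8 / 50 * a * (R / n) := by
      field_simp; ring
    rw [h6]
    have h7 : (R : ℝ) / n ≤ 1 := (div_le_one hx0).2 P.rx
    have h8 : 8 / 50 * a * ((R : ℝ) / n) ≤ 8 / 50 * a * 1 :=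
      mul_le_mul_of_nonneg_left h7 (by positivity)
    linarith only [h8, a0]
  linarith only [h2, h4]

theorem Prm.cod (P : Prm a e ε1 δ m S K n R) {ρ pm lam : ℝ} (Q : PL a ρ K n R pm lam)
    (hlam : lam = 4 * K / (a ^ 2 * n)) :
    n * ((2 * S + 1) ^ 2 * (lam ^ 2 / (1 - a))) + pm / (1 - a) * (δ * n + 1) ≤ ε1 := by
  have a0 := P.a0
  have hx0 := P.x0
  have hK0 := P.K0
  have δ0 := P.δ0
  have h1a : 0 < 1 - a := by linarith only [P.a8]
  have h1a2 : 1 / (1 - a) ≤ 2 := by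
    rw [div_le_iff₀ h1a]; linarith only [P.a8]
  have h1 : n * ((2 * (S : ℝ) + 1) ^ 2 * (lam ^ 2 / (1 - a))) ≤ ε1 / 2 := by
    have e1 : lam ^ 2 / (1 - a) ≤ lam ^ 2 * 2 := by
      rw [div_eq_mul_one_div]
      exact mul_le_mul_of_nonneg_left h1a2 (by positivity)
    have e2 : n * ((2 * (S : ℝ) + 1) ^ 2 * (lam ^ 2 / (1 - a)))
        ≤ n * ((2 * (S : ℝ) + 1) ^ 2 * (lam ^ 2 * 2)) :=
      mul_le_mul_of_nonneg_left (mul_le_mul_of_nonneg_left e1 (by positivity)) hx0.le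
    refine e2.trans ?_
    have e3 : n * ((2 * (S : ℝ) + 1) ^ 2 * (lam ^ 2 * 2))
        = 32 * (2 * (S : ℝ) + 1) ^ 2 * K ^ 2 / (a ^ 4 * n) := by
      rw [hlam]; field_simp; ring
    rw [e3, div_le_iff₀ (by positivity)]
    have e4 := P.n6
    have e5 : ε1 / 2 * (a ^ 4 * (n : ℝ)) = a ^ 4 * ε1 * n / 2 := by ring
    have e6 : 32 * (2 * (S : ℝ) + 1) ^ 2 * (K : ℝ) ^ 2 = 64 * (2 * (S : ℝ) + 1) ^ 2 * K ^ 2 / 2 := by
      ring
    rw [e5, e6]
    linarith only [e4]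
  have h2 : pm / (1 - a) * (δ * n + 1) ≤ ε1 / 2 := by
    have e1 : pm / (1 - a) ≤ 4 / (a * n) := by
      rw [div_eq_mul_one_div]
      calc pm * (1 / (1 - a)) ≤ 2 / (a * n) * 2 :=
            mul_le_mul Q.pmx h1a2 (by positivity) (by positivity)
        _ = 4 / (a * n) := by ring
    have e2 : pm / (1 - a) * (δ * n + 1) ≤ 4 / (a * n) * (δ * n + 1) :=
      mul_le_mul_of_nonneg_right e1 (by positivity)
    refine e2.trans ?_
    have e3 : 4 / (a * n) * (δ * n + 1) = 4 * δ / a + 4 / (a * n) := by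
      field_simp
    have e4 : 4 / (a * n) ≤ ε1 / 4 := by
      rw [div_le_iff₀ (by positivity)]
      have := P.n7
      have e5 : ε1 / 4 * (a * (n : ℝ)) = a * ε1 * n / 4 := by ring
      rw [e5]
      linarith only [this]
    rw [e3]
    linarith only [e4, P.δ1]
  linarith only [h1, h2]

theorem Prm.cl (P : Prm a e ε1 δ m S K n R) {ρ pm lam : ℝ} (Q : PL a ρ K n R pm lam)
    (hlam : lam = 4 * K / (a ^ 2 * n)) : (2 * (S : ℝ) + 1) * (lam / (1 - a)) ≤ ε1 := by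
  have a0 := P.a0
  have hx0 := P.x0
  have h1a : 0 < 1 - a := by linarith only [P.a8]
  have h1a2 : 1 / (1 - a) ≤ 2 := by
    rw [div_le_iff₀ h1a]; linarith only [P.a8]
  have e1 : lam / (1 - a) ≤ lam * 2 := by
    rw [div_eq_mul_one_div]
    exact mul_le_mul_of_nonneg_left h1a2 Q.lam0
  refine (mul_le_mul_of_nonneg_left e1 (by positivity)).trans ?_
  have e2 : (2 * (S : ℝ) + 1) * (lam * 2) = 8 * K * (2 * S + 1) / (a ^ 2 * n) := by
    rw [hlam]; ring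
  rw [e2, div_le_iff₀ (by positivity)]
  have := P.n8
  have e3 : ε1 * (a ^ 2 * (n : ℝ)) = a ^ 2 * ε1 * n := by ring
  rw [e3]
  exact this

theorem Prm.l1 (P : Prm a e ε1 δ m S K n R) : 1 / ε1 ≤ (2 : ℝ) * (2 * R + 1) := by
  have ε0 := P.ε0
  rw [div_le_iff₀ ε0]
  have h1 := P.n9
  have h2 := mul_le_mul_of_nonneg_left P.xr ε0.le
  have h3 : (2 : ℝ) * (2 * R + 1) * ε1 = ε1 * (2 * R) * 2 + 2 * ε1 := by ring
  rw [h3]
  linarith only [h1, h2, ε0]

/-- numbers at a hub -/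
theorem Prm.hub (P : Prm a e ε1 δ m S K n R) {ρ lam θ : ℝ} {ty : ℕ} (hρb : ρ ≤ 1 - a)
    (hθd : θ = (ty : ℝ) / K) (ht1 : 1 ≤ ty) (hlam : lam = 4 * K / (a ^ 2 * n)) :
    4 * ((m * K : ℕ) : ℝ) ≤ e * θ * R ∧ 1 / (θ * (1 - ρ) * (1 - a) * (2 * R + 1)) ≤ lam := by
  have a0 := P.a0
  have hx0 := P.x0
  have hr0 := P.r0
  have hK0 := P.K0
  have e0 := P.e0
  have h1a : 0 < 1 - a := by linarith only [P.a8]
  have ht1' : (1 : ℝ) ≤ ty := by exact_mod_cast ht1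
  have hθ0 : 0 < θ := by rw [hθd]; positivity
  have hθK : 1 / (K : ℝ) ≤ θ := by rw [hθd]; exact div_le_div_of_nonneg_right ht1' hK0.le
  constructor
  · have h2 : 4 * ((m * K : ℕ) : ℝ) ≤ e * (1 / (K : ℝ)) * R := by
      have : e * (1 / (K : ℝ)) * R = e * R / K := by ring
      rw [this, le_div_iff₀ hK0]
      exact P.big
    refine h2.trans ?_
    apply mul_le_mul_of_nonneg_right _ hr0.le
    exact mul_le_mul_of_nonneg_left hθK e0.le
  · have hρ1a : a ≤ 1 - ρ := by linarith only [hρb]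
    have h1 : 1 / (K : ℝ) * a * (1 / 2) * n ≤ θ * (1 - ρ) * (1 - a) * (2 * R + 1) := by
      have e1 : 1 / (K : ℝ) * a ≤ θ * (1 - ρ) := mul_le_mul hθK hρ1a a0.le hθ0.le
      have e3 : 0 ≤ θ * (1 - ρ) := mul_nonneg hθ0.le (by linarith only [hρ1a, a0])
      have e2 : 1 / (K : ℝ) * a * (1 / 2) ≤ θ * (1 - ρ) * (1 - a) :=
        mul_le_mul e1 (by linarith only [P.a8]) (by norm_num) e3
      exact mul_le_mul e2 (by linarith only [P.xr]) hx0.le (mul_nonneg e3 h1a.le)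
    refine (one_div_le_one_div_of_le (by positivity) h1).trans ?_
    rw [hlam, div_le_div_iff₀ (by positivity) (by positivity)]
    have h2 : 4 * (K : ℝ) * (1 / K * a * (1 / 2) * n) = 2 * (a * n) := by field_simp; ring
    rw [h2]
    have hax : a ^ 2 * n ≤ a * (n : ℝ) := by
      apply mul_le_mul_of_nonneg_right _ hx0.le
      have : a * a ≤ a * 1 := mul_le_mul_of_nonneg_left (by linarith only [P.a8]) a0.le
      linarith only [this]
    have : 0 < a * (n : ℝ) := by positivity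
    linarith only [hax, this]

end num2

/-- numbers of components at the vertices of `H` -/
theorem fiber_sum (T H : Finset ℕ) (p : ℕ → ℕ) :
    ∑ y ∈ H, (T.filter (fun t => p t = y)).card = (T.filter (fun t => p t ∈ H)).card := by
  rw [← Finset.card_biUnion]
  · congr 1
    ext t
    simp only [Finset.mem_biUnion, Finset.mem_filter]
    constructor
    · rintro ⟨y, hy, ht, rfl⟩; exact ⟨ht, hy⟩
    · rintro ⟨ht, h⟩; exact ⟨p t, h, ht, rfl⟩
  · intro y _ z _ hyz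
    change Disjoint _ _
    rw [Finset.disjoint_left]
    intro t h1 h2
    exact hyz ((Finset.mem_filter.1 h1).2.symm.trans (Finset.mem_filter.1 h2).2)

/-- the numbers of phases -/
theorem phases (T H : Finset ℕ) (p : ℕ → ℕ) (a : ℝ) (K : ℕ) (hKH : (H.card : ℝ) ≤ a * K)
    (a8 : a ≤ 1 / 8) :
    ∃ t : ℕ → ℕ, ∑ y ∈ H, t y ≤ K ∧
      ∀ y ∈ H, 0 < (T.filter (fun s => p s = y)).card →
        1 ≤ t y ∧ (t y : ℝ) / K ≤ 1 ∧ 0 < (T.filter (fun s => p s ∈ H)).card ∧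
        (1 - a) * (((T.filter (fun s => p s = y)).card : ℝ)
          / ((T.filter (fun s => p s ∈ H)).card : ℝ)) ≤ (t y : ℝ) / K := by
  obtain ⟨hy, hhy⟩ : ∃ hy : ℕ → ℝ, hy = fun y => ((T.filter (fun s => p s = y)).card : ℝ) :=
    ⟨_, rfl⟩
  obtain ⟨h, hh⟩ : ∃ h : ℝ, h = ((T.filter (fun s => p s ∈ H)).card : ℝ) := ⟨_, rfl⟩
  have hsum : ∑ y ∈ H, hy y = h := by
    rw [hh, ← fiber_sum T H p, hhy]
    push_cast
    rfl
  have hyn : ∀ y, 0 ≤ hy y := fun y => by rw [hhy]; exact Nat.cast_nonneg _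
  have hh0 : 0 ≤ h := by rw [hh]; exact Nat.cast_nonneg _
  have hKn : (0 : ℝ) ≤ K := Nat.cast_nonneg _
  have hKH0 : 0 ≤ (K : ℝ) - H.card := by
    have : a * (K : ℝ) ≤ 1 * K := mul_le_mul_of_nonneg_right (by linarith only [a8]) hKn
    linarith only [this, hKH]
  refine ⟨fun y => ⌈((K : ℝ) - H.card) * (hy y / h)⌉₊, ?_, ?_⟩
  · have h1 : (∑ y ∈ H, ((⌈((K : ℝ) - H.card) * (hy y / h)⌉₊ : ℕ) : ℝ)) ≤ K := by
      have h2 : ∀ y ∈ H, ((⌈((K : ℝ) - H.card) * (hy y / h)⌉₊ : ℕ) : ℝ)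
          ≤ ((K : ℝ) - H.card) * (hy y / h) + 1 := by
        intro y _
        refine (Nat.ceil_lt_add_one ?_).le
        have := hyn y
        positivity
      refine (Finset.sum_le_sum h2).trans ?_
      rw [Finset.sum_add_distrib, ← Finset.mul_sum, ← Finset.sum_div, hsum,
        Finset.sum_const, nsmul_eq_mul, mul_one]
      have h3 : h / h ≤ 1 := div_self_le_one h
      have h4 := mul_le_mul_of_nonneg_left h3 hKH0
      linarith only [h4]
    exact_mod_cast h1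
  · intro y hyH hy0
    have hy1 : 0 < hy y := by
      have : (0 : ℝ) < ((T.filter (fun s => p s = y)).card : ℝ) := by exact_mod_cast hy0
      rw [hhy]; exact this
    have hle : hy y ≤ h := by
      rw [← hsum]
      exact Finset.single_le_sum (f := hy) (fun z _ => hyn z) hyH
    have hhp : 0 < h := lt_of_lt_of_le hy1 hle
    have hH1 : (1 : ℝ) ≤ H.card := by exact_mod_cast Finset.card_pos.2 ⟨y, hyH⟩
    have hK0 : (0 : ℝ) < K := by
      have : (0 : ℝ) < a * K := by linarith only [hKH, hH1]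
      rcases hKn.eq_or_lt with h0 | h0
      · rw [← h0, mul_zero] at this; exact absurd this (lt_irrefl _)
      · exact h0
    have hKH1 : (1 - a) * (K : ℝ) ≤ (K : ℝ) - H.card := by linarith only [hKH]
    have hKH2 : 0 < (K : ℝ) - H.card := by
      have : 0 < (1 - a) * (K : ℝ) := mul_pos (by linarith only [a8]) hK0
      linarith only [this, hKH1]
    have hq : 0 ≤ hy y / h := by positivity
    refine ⟨Nat.one_le_ceil_iff.2 (by positivity), ?_, ?_, ?_⟩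
    · rw [div_le_one hK0]
      have h1 : ((K : ℝ) - H.card) * (hy y / h) ≤ ((K : ℝ) - H.card) * 1 :=
        mul_le_mul_of_nonneg_left ((div_le_one hhp).2 hle) hKH0
      have h2 : ((⌈((K : ℝ) - H.card) * (hy y / h)⌉₊ : ℕ) : ℝ)
          < ((K : ℝ) - H.card) * (hy y / h) + 1 := Nat.ceil_lt_add_one (by positivity)
      linarith only [h1, h2, hH1]
    · rw [hh] at hhp
      exact_mod_cast hhp
    · have e1 : ((T.filter (fun s => p s = y)).card : ℝ) = hy y := by rw [hhy]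
      rw [e1, ← hh, le_div_iff₀ hK0]
      have h1 : ((K : ℝ) - H.card) * (hy y / h)
          ≤ ((⌈((K : ℝ) - H.card) * (hy y / h)⌉₊ : ℕ) : ℝ) := Nat.le_ceil _
      refine le_trans ?_ h1
      calc (1 - a) * (hy y / h) * K = (1 - a) * (K : ℝ) * (hy y / h) := by ring
        _ ≤ _ := mul_le_mul_of_nonneg_right hKH1 hq

end Pool.Agent.Lib.MP_8b7544_co.Df
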