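import Pool.Agent.Lib.MP_8b7544_co.Df.Core3

/-!
# MP_8b7544_co, project Deficiency: the labelling for given parameters
-/

set_option autoImplicit false

namespace Pool.Agent.Lib.MP_8b7544_co.Df

open Finset

/-- the laws of the top labels -/
noncomputable def muf (R N B : ℕ) (D : Finset (ZMod N)) (D' : ℕ → Finset (ZMod N)) (H : Finset ℕ)
    (p : ℕ → ℕ) (s : ℕ) : ℤ → ℝ := by
  classical exact if p s ∈ H then unif (V0 (R - B) N (D' (p s))) else ps R N D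

theorem muf_hub {R N B : ℕ} {D : Finset (ZMod N)} {D' : ℕ → Finset (ZMod N)} {H : Finset ℕ}
    {p : ℕ → ℕ} {s : ℕ} (h : p s ∈ H) :
    muf R N B D D' H p s = unif (V0 (R - B) N (D' (p s))) := by
  unfold muf; simp [h]

theorem muf_nhub {R N B : ℕ} {D : Finset (ZMod N)} {D' : ℕ → Finset (ZMod N)} {H : Finset ℕ}
    {p : ℕ → ℕ} {s : ℕ} (h : p s ∉ H) : muf R N B D D' H p s = ps R N D := by
  unfold muf; simp [h]

theorem unif_ne {L : Finset ℤ} {z : ℤ} (h : unif L z ≠ 0) : z ∈ L := by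
  by_contra hc
  exact h (by unfold unif; rw [if_neg hc])

theorem V0_sub' (R B N : ℕ) (D : Finset (ZMod N)) : V0 (R - B) N D ⊆ Om R := by
  intro x hx
  rw [mem_Om]
  have h' : ((R - B : ℕ) : ℤ) ≤ R := by exact_mod_cast Nat.sub_le R B
  exact (mem_V0.1 hx).1.trans h'

/-- the families for all components -/
theorem core_fams (hKer : StmKer) (hHub : StmHub) (hStat : StmStat) (hFam : StmFam)
    {a e ε1 δ : ℝ} {m S K n R : ℕ} (P : Prm a e ε1 δ m S K n R) (B : ℕ)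
    (hB1 : (B : ℝ) ≤ a ^ 2 / 50 * R) (p : ℕ → ℕ) (H X : Finset ℕ)
    (β : ℕ → ℤ) (hβB : ∀ x, |β x| ≤ B ∧ (m : ℤ) ∣ β x)
    (k : ℕ → ℕ) (v q : ℕ → ℕ → ℕ) (U : ℕ → Finset ℕ) (b' : ℕ → ℤ)
    (hCo : Comps n p X β k v q U b') (hkS : ∀ t ∈ tops n p X, k t ≤ S)
    (ρ : ℝ) (hρa : a ≤ ρ) (hρb : ρ ≤ 1 - a) (t : ℕ → ℕ)
    (htp : ∀ y ∈ H, 0 < ((tops n p X).filter (fun s => p s = y)).card →
        1 ≤ t y ∧ (t y : ℝ) / K ≤ 1)
    (D : Finset (ZMod (m * K))) (D' : ℕ → Finset (ZMod (m * K))) (hRS : Res m K ρ e H t D D')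
    (pm lam : ℝ) (hpm : pm = (1 + a) / (ρ * (2 * R + 1))) (hlam : lam = 4 * K / (a ^ 2 * n)) :
    (∀ s ∈ tops n p X, ∃ (ι : Type) (_ : Fintype ι) (w : ι → ℝ) (G : ι → ℕ → ℤ),
      Fam (V0 R (m * K) D) (V0 (R - B) (m * K) (D' (p s))) (muf R (m * K) B D D' H p s) lam pm a
        (p s ∈ H) (k s) (q s) (β (p s)) (b' s) (U s) ι w G) ∧
    ∀ y ∈ H, 0 < ((tops n p X).filter (fun s => p s = y)).card →
      (t y : ℝ) / K * (1 - ρ) * (1 - a) * (2 * R + 1) ≤ ((V0 (R - B) (m * K) (D' y)).card : ℝ) := by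
  have hK0 := P.K0
  have : NeZero (m * K) := ⟨(Nat.mul_pos P.m1 P.K1).ne'⟩
  have hNum : Num a ρ e R (m * K) D :=
    ⟨P.a0, P.a8, hρa, hρb, P.e0, P.ea, P.big1, hRS.sym, hRS.card, hRS.good⟩
  have Q := P.pl hρa hpm hlam
  have hKerD := core_ker hKer hStat a ρ e R (m * K) D hNum lam pm Q.kl hpm.ge Q.pml
  have hIni0 := core_ini0 hKer hStat a ρ e R (m * K) D hNum lam pm hpm.ge Q.pml
  have hhub : ∀ y ∈ H, 0 < ((tops n p X).filter (fun s => p s = y)).card →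
      Ini R (Kn R (m * K) D) (fun x => (1 + a / 4) * ps R (m * K) D x) (Good R (m * K) D ρ e) lam
        (unif (V0 (R - B) (m * K) (D' y))) ∧
      (t y : ℝ) / K * (1 - ρ) * (1 - a) * (2 * R + 1)
        ≤ ((V0 (R - B) (m * K) (D' y)).card : ℝ) := by
    intro y hyH hy0
    obtain ⟨ht1, ht2⟩ := htp y hyH hy0
    obtain ⟨g1, g2⟩ := P.hub (lam := lam) (ty := t y) hρb rfl ht1 hlam
    have ht1' : (1 : ℝ) ≤ t y := by exact_mod_cast ht1
    exact core_iniH hHub a ρ e R (m * K) D hNum lam ((t y : ℝ) / K) B (D' y) (by positivity) ht2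
      g1 hB1 (hRS.good' y hyH) (hRS.card' y hyH) (hRS.cor y hyH) g2
  refine ⟨?_, fun y hyH hy0 => (hhub y hyH hy0).2⟩
  intro s hs
  have hce := hCo.ce s hs
  have hsh : ∀ b : ℤ, (m : ℤ) ∣ b → ∀ z ∈ V0 R (m * K) D, z + b ∈ Om R →
      z + b ∈ V0 R (m * K) D := by
    intro b hb z hz hzb
    exact mem_V0.2 ⟨mem_Om.1 hzb, hRS.per z b hb (mem_V0.1 hz).2⟩
  have hIni : Ini R (Kn R (m * K) D) (fun x => (1 + a / 4) * ps R (m * K) D x)
      (Good R (m * K) D ρ e) lam (muf R (m * K) B D D' H p s) := by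
    by_cases hH : p s ∈ H
    · rw [muf_hub hH]
      exact (hhub (p s) hH (Finset.card_pos.2 ⟨s, Finset.mem_filter.2 ⟨hs, rfl⟩⟩)).1
    · rw [muf_nhub hH]
      exact hIni0
  have hb'm : (m : ℤ) ∣ b' s ∧ |b' s| ≤ B := by
    rcases hCo.bX s hs with h0 | ⟨d, _, hd⟩
    · rw [h0]; exact ⟨dvd_zero _, by simp⟩
    · rw [hd]; exact ⟨(hβB d).2, (hβB d).1⟩
  have hClo : Clo R (V0 R (m * K) D) (V0 (R - B) (m * K) (D' (p s)))
      (fun x => (1 + a / 4) * ps R (m * K) D x) (muf R (m * K) B D D' H p s) (p s ∈ H) (k s)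
      (q s) (β (p s)) (b' s) B (U s) := by
    refine ⟨hce.kpos, fun j h1 h2 => (hce.par j h1 h2).1, hCo.U1 s hs, hCo.Uc s hs, (hβB _).1,
      hb'm.2, hsh _ (hβB _).2, hsh _ hb'm.1, ?_, ?_⟩
    · intro hH z hz
      rw [muf_hub hH] at hz
      have hz' := unif_ne hz
      refine ⟨hz', fun hzV => ?_⟩
      exact Finset.disjoint_left.1 (hRS.disj0 _ hH) (mem_V0.1 hzV).2 (mem_V0.1 hz').2
    · intro hH z
      rw [muf_nhub hH]
      have h0 : 0 ≤ ps R (m * K) D z := hIni0.nn z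
      refine ⟨?_, fun hz => ps_ne hz⟩
      have h1 : 0 ≤ a / 4 * ps R (m * K) D z := mul_nonneg (by linarith only [P.a0]) h0
      linarith only [h1]
  exact hFam R _ _ _ _ _ lam pm a _ _ _ _ _ _ B _ hKerD hIni hClo
    (P.nu Q hlam (hkS s hs) hB1) (by linarith only [P.a8])

theorem core_step (hTree : StmTree) (hBeta : StmBeta) (hKer : StmKer) (hHub : StmHub)
    (hStat : StmStat) (hFam : StmFam) (hComps : StmComps) (hGlue : StmGlue)
    {a e ε1 δ : ℝ} (η : ℝ) {m S K n R : ℕ} (P : Prm a e ε1 δ m S K n R)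
    (hη : η = 1 / (120 * m * S))
    (hRes : ∀ ρ : ℝ, 0 ≤ ρ → ρ ≤ 1 → ∀ K : ℕ, 1 ≤ K → ∀ (H : Finset ℕ) (t : ℕ → ℕ),
      ∑ x ∈ H, t x ≤ K → ∃ D D', Res m K ρ e H t D D')
    (hPick : ∀ (n R : ℕ) (δ : ℝ) (p : ℕ → ℕ) (H Hp X : Finset ℕ) (β : ℕ → ℤ) (k : ℕ → ℕ)
    (v q : ℕ → ℕ → ℕ) (U : ℕ → Finset ℕ) (b' : ℕ → ℤ) (V : Finset ℤ) (L : ℕ → Finset ℤ)
    (mu : ℕ → ℤ → ℝ) (lam pm nu : ℝ),
    TD n S δ p H Hp X → Comps n p X β k v q U b' → (∀ t ∈ tops n p X, k t ≤ S) →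
    (∑ t ∈ tops n p X, k t) + X.card = n → ∑ t ∈ tops n p X, (U t).card ≤ X.card →
    (∀ x ∈ X, ∀ y ∈ X, β x = β y → x = y) →
    V ⊆ Om R → (∀ x ∈ H, L x ⊆ Om R) → (∀ x ∈ H, Disjoint V (L x)) →
    (∀ x ∈ H, ∀ y ∈ H, x ≠ y → Disjoint (L x) (L y)) →
    (∀ t ∈ tops n p X, p t ∈ H → ∀ y, mu t y ≤ 1 / ((L (p t)).card : ℝ)) →
    (∀ t ∈ tops n p X, p t ∈ H → ∀ y ∉ L (p t), mu t y = 0) →
    0 ≤ pm → 0 ≤ lam → 0 ≤ nu → nu < 1 → 0 ≤ δ →
    ((n : ℝ) - ((tops n p X).filter (fun t => p t ∈ H)).card) * (pm / (1 - nu)) ≤ 1 →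
    (∀ x ∈ H, (((tops n p X).filter (fun t => p t = x)).card : ℝ) ≤ (1 - nu) * (L x).card) →
    n * ((2 * S + 1) ^ 2 * (lam ^ 2 / (1 - nu))) + pm / (1 - nu) * (δ * n + 1) ≤ ε1 →
    (2 * S + 1) * (lam / (1 - nu)) ≤ ε1 → 1 / ε1 ≤ (2 : ℝ) * (2 * R + 1) →
    (∀ t ∈ tops n p X, ∃ (ι : Type) (_ : Fintype ι) (w : ι → ℝ) (G : ι → ℕ → ℤ),
      Fam V (L (p t)) (mu t) lam pm nu (p t ∈ H) (k t) (q t) (β (p t)) (b' t) (U t) ι w G) →
    ∃ (J : Finset ℕ) (g : ℕ → ℕ → ℤ), J ⊆ tops n p X ∧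
      (∀ t ∈ J, Val V (L (p t)) (p t ∈ H) (k t) (q t) (β (p t)) (b' t) (U t) (g t)) ∧
      (∀ t ∈ J, ∀ t' ∈ J, t ≠ t' →
        Disjoint (AL (p t ∈ H) (k t) (q t) (β (p t)) (b' t) (U t) (g t))
          (AL (p t' ∈ H) (k t') (q t') (β (p t')) (b' t') (U t') (g t'))) ∧
      ((tops n p X).card : ℝ) - J.card ≤ η * (n + 2 * (2 * R + 1)))
    (p : ℕ → ℕ) (hp : Par p) :
    ∃ f : ℕ → ℤ, Lab p (range n) f ∧ (∀ i < n, |f i| ≤ R) ∧
      ∀ i < n, 0 < i → |f i + f (p i)| ≤ R := by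
  classical
  have hx0 := P.x0
  have a0 := P.a0
  have a8 := P.a8
  have hn1 : 1 ≤ n := by exact_mod_cast hx0
  have δ0 := P.δ0
  -- the decomposition
  obtain ⟨H, Hp, X, hTD, hHn, hHδ, hHp, hXc⟩ := hTree n S δ p hn1 P.δ0 hp
  have hHc : (H.card : ℝ) ≤ 1 / δ := by rw [le_div_iff₀ P.δ0]; linarith only [hHδ]
  have hXc2 := P.cutX hHc hXc
  -- the labels of the cut set
  obtain ⟨B, hB1, hB2⟩ : ∃ B : ℕ, (B : ℝ) ≤ a ^ 2 / 50 * R ∧ a ^ 2 / 50 * R - 1 < B :=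
    ⟨⌊a ^ 2 / 50 * R⌋₊, Nat.floor_le (mul_nonneg P.k0.le P.r0.le), by
      have := Nat.lt_floor_add_one (a ^ 2 / 50 * (R : ℝ)); linarith only [this]⟩
  obtain ⟨β, hβL, hβB, hβK⟩ := hBeta p hp Hp X m K B hTD.HpX hTD.Hpone P.m1 P.K1
    (P.cut1 hB2 hHc hHp) (P.cut2 hB2 hXc2)
  -- the components
  obtain ⟨k, v, q, U, b', hCo, hkS, hks, hUs⟩ := hComps n S δ p H Hp X β hTD
  obtain ⟨h, hhdef⟩ : ∃ h : ℝ, h = (((tops n p X).filter (fun t => p t ∈ H)).card : ℝ) := ⟨_, rfl⟩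
  have hh0 : 0 ≤ h := by rw [hhdef]; exact Nat.cast_nonneg _
  have hhx : h ≤ n := by
    have h1 : ((tops n p X).filter (fun t => p t ∈ H)).card ≤ (range n).card :=
      Finset.card_le_card ((Finset.filter_subset _ _).trans (Finset.filter_subset _ _))
    rw [Finset.card_range] at h1
    rw [hhdef]
    exact_mod_cast h1
  obtain ⟨ρ, hρ⟩ : ∃ ρ, ρ = a + (1 - 2 * a) * (1 - h / n) := ⟨_, rfl⟩
  have hq1 : h / n ≤ 1 := (div_le_one hx0).2 hhx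
  have hq0 : 0 ≤ h / n := div_nonneg hh0 hx0.le
  have hρa : a ≤ ρ := by
    rw [hρ]
    have : 0 ≤ (1 - 2 * a) * (1 - h / n) :=
      mul_nonneg (by linarith only [a8]) (by linarith only [hq1])
    linarith only [this]
  have hρb : ρ ≤ 1 - a := by
    rw [hρ]
    have : (1 - 2 * a) * (1 - h / n) ≤ (1 - 2 * a) * 1 :=
      mul_le_mul_of_nonneg_left (by linarith only [hq0]) (by linarith only [a8])
    linarith only [this]
  -- phases
  have hKH : (H.card : ℝ) ≤ a * K := by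
    refine hHc.trans ?_
    rw [div_le_iff₀ P.δ0]
    have := P.Kδ
    have h2 : a * (K : ℝ) * δ = δ * a * K := by ring
    rw [h2]; exact this
  obtain ⟨t, ht, htp⟩ := phases (tops n p X) H p a K hKH a8
  obtain ⟨D, D', hRS⟩ := hRes ρ (by linarith only [hρa, a0]) (by linarith only [hρb, a0]) K P.K1
    H t ht
  obtain ⟨pm, hpm⟩ : ∃ pm, pm = (1 + a) / (ρ * (2 * (R : ℝ) + 1)) := ⟨_, rfl⟩
  obtain ⟨lam, hlam⟩ : ∃ lam, lam = 4 * (K : ℝ) / (a ^ 2 * n) := ⟨_, rfl⟩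
  have Q := P.pl hρa hpm hlam
  obtain ⟨hFams, hcard⟩ := core_fams hKer hHub hStat hFam P B hB1 p H X β hβB k v q U b' hCo
    hkS ρ hρa hρb t (fun y h1 h2 => ⟨(htp y h1 h2).1, (htp y h1 h2).2.1⟩) D D' hRS pm lam hpm hlam
  have hload := num1 a n h ρ R a0 a8 hx0 hhx hρ P.R2
  rw [← hpm, hhdef] at hload
  have hhubl : ∀ y ∈ H, (((tops n p X).filter (fun t => p t = y)).card : ℝ)
      ≤ (1 - a) * ((V0 (R - B) (m * K) (D' y)).card : ℝ) := by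
    intro y hyH
    rcases Nat.eq_zero_or_pos ((tops n p X).filter (fun t => p t = y)).card with h0 | h0
    · rw [h0]
      push_cast
      exact mul_nonneg (by linarith only [a8]) (Nat.cast_nonneg _)
    · obtain ⟨_, _, g3, g4⟩ := htp y hyH h0
      have hhp : 0 < h := by rw [hhdef]; exact_mod_cast g3
      rw [← hhdef] at g4
      exact num2 a n h _ ρ R _ a0 a8 hx0 hhp hhx (Nat.cast_nonneg _) hρ P.R2 g4 _
        (hcard y hyH h0)
  have hVL : ∀ y ∈ H, Disjoint (V0 R (m * K) D) (V0 (R - B) (m * K) (D' y)) := by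
    intro y hyH
    rw [Finset.disjoint_left]
    intro z hz1 hz2
    exact Finset.disjoint_left.1 (hRS.disj0 y hyH) (mem_V0.1 hz1).2 (mem_V0.1 hz2).2
  have hLL : ∀ y ∈ H, ∀ z ∈ H, y ≠ z →
      Disjoint (V0 (R - B) (m * K) (D' y)) (V0 (R - B) (m * K) (D' z)) := by
    intro y hyH z hzH hyz
    rw [Finset.disjoint_left]
    intro u hu1 hu2
    exact Finset.disjoint_left.1 (hRS.disj y hyH z hzH hyz) (mem_V0.1 hu1).2 (mem_V0.1 hu2).2
  obtain ⟨J, g, hJT, hJV, hJd, hJc⟩ := hPick n R δ p H Hp X β k v q U b' (V0 R (m * K) D)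
    (fun y => V0 (R - B) (m * K) (D' y)) (muf R (m * K) B D D' H p) lam pm a hTD hCo hkS
    hks hUs hβL.1 (V0_sub _ _ _) (fun y _ => V0_sub' _ _ _ _) hVL hLL
    (by
      intro s _ hH y
      rw [muf_hub hH]
      unfold unif
      split_ifs
      · exact le_rfl
      · exact div_nonneg zero_le_one (Nat.cast_nonneg _))
    (by
      intro s _ hH y hy'
      rw [muf_hub hH]
      unfold unif
      rw [if_neg hy'])
    Q.pm0 Q.lam0 a0.le (by linarith only [a8]) P.δ0.le hload hhubl (P.cod Q hlam) (P.cl Q hlam)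
    P.l1 hFams
  -- the final labelling
  have hcast : ∀ y ∈ H, ∀ z : ℤ, ((z + β y : ℤ) : ZMod (m * K)) = (z : ZMod (m * K)) := by
    intro y hyH z
    have h1 := hβK y (hTD.HHp hyH)
    have h2 : ((β y : ℤ) : ZMod (m * K)) = 0 := (ZMod.intCast_zmod_eq_zero_iff_dvd _ _).2 h1
    push_cast
    rw [h2, add_zero]
  have hcount := P.cut3 hη hXc2 (Finset.card_le_card hJT) hJc
  have hBR : (2 * B : ℝ) ≤ R := by
    have := mul_le_mul_of_nonneg_right P.k4 P.r0.le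
    linarith only [this, hB1, P.r0]
  have h2B : 2 * B ≤ R := by exact_mod_cast hBR
  refine hGlue n S R m B δ p H Hp X β k v q U b' (V0 R (m * K) D)
    (fun y => V0 (R - B) (m * K) (D' y)) J g hTD hCo hkS hβL hβB P.m1 h2B
    (V0_sub _ _ _) (fun y _ => V0_sub' _ _ _ _) ?_ ?_ ?_ ?_ hJT hJV hJd hcount
  · intro z hz hd
    exact hRS.zD z hd (mem_V0.1 hz).2
  · intro y hyH z hz hd
    exact hRS.zD' y hyH z hd (mem_V0.1 hz).2
  · intro y hyH z hz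
    have hz' := mem_V0.1 hz
    refine ⟨?_, ?_, ?_⟩
    · rw [mem_Om]
      have h1 := hz'.1
      have h2 := (hβB y).1
      have h3 : ((R - B : ℕ) : ℤ) = R - B := by
        rw [Nat.cast_sub (by omega)]
      rw [h3] at h1
      have h4 := abs_add_le z (β y)
      linarith only [h1, h2, h4]
    · intro hcon
      have h1 := (mem_V0.1 hcon).2
      rw [hcast y hyH z] at h1
      exact Finset.disjoint_left.1 (hRS.disj0 y hyH) h1 hz'.2
    · intro hcon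
      have h1 : (m : ℤ) ∣ z := (dvd_add_left (hβB y).2).1 hcon
      exact hRS.zD' y hyH z h1 hz'.2
  · intro y hyH y' hyH' hne z hz z' hz' hcon
    have h1 : ((z + β y : ℤ) : ZMod (m * K)) = ((z' + β y' : ℤ) : ZMod (m * K)) := by rw [hcon]
    rw [hcast y hyH, hcast y' hyH'] at h1
    have h2 := (mem_V0.1 hz).2
    have h3 := (mem_V0.1 hz').2
    rw [h1] at h2
    exact Finset.disjoint_left.1 (hRS.disj y hyH y' hyH' hne) h2 h3

end Pool.Agent.Lib.MP_8b7544_co.Df
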