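import Pool.Agent.Lib.MP_8b7544_co.Df.Core4

/-!
# MP_8b7544_co, project Deficiency: the core theorem from the pieces
-/

set_option autoImplicit false

namespace Pool.Agent.Lib.MP_8b7544_co.Df

open Finset

theorem core_of (hTree : StmTree) (hBeta : StmBeta) (hKer : StmKer) (hHub : StmHub)
    (hStat : StmStat) (hRes : StmRes) (hFam : StmFam) (hComps : StmComps) (hPick : StmPick)
    (hGlue : StmGlue) : StmCore := by
  intro ε hε
  obtain ⟨ε', hε', hε1, hεε⟩ : ∃ ε' : ℝ, 0 < ε' ∧ ε' ≤ 1 ∧ ε' ≤ ε :=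
    ⟨min ε 1, lt_min hε one_pos, min_le_right _ _, min_le_left _ _⟩
  obtain ⟨a, ha⟩ : ∃ a : ℝ, a = ε' / 8 := ⟨_, rfl⟩
  have a0 : 0 < a := by rw [ha]; positivity
  have a8 : a ≤ 1 / 8 := by rw [ha]; linarith
  obtain ⟨e, he⟩ : ∃ e : ℝ, e = a ^ 4 / 100 := ⟨_, rfl⟩
  have e0 : 0 < e := by rw [he]; positivity
  obtain ⟨m, m1, hResm⟩ := hRes e e0
  have hm0 : (0 : ℝ) < m := by exact_mod_cast m1
  obtain ⟨S, hS⟩ : ∃ S : ℕ, S = ⌈24 * (m : ℝ) * 50 / a ^ 2⌉₊ + 1 := ⟨_, rfl⟩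
  have S1 : 1 ≤ S := by omega
  have hS0 : (0 : ℝ) < S := by exact_mod_cast S1
  have Sk : 24 * (m : ℝ) ≤ a ^ 2 / 50 * (S + 1) := by
    have h1 : 24 * (m : ℝ) * 50 / a ^ 2 ≤ S + 1 := by
      have := Nat.le_ceil (24 * (m : ℝ) * 50 / a ^ 2)
      rw [hS]
      push_cast
      linarith
    rw [div_le_iff₀ (by positivity)] at h1
    linarith
  obtain ⟨η, hη⟩ : ∃ η : ℝ, η = 1 / (120 * m * S) := ⟨_, rfl⟩
  have hη0 : 0 < η := by rw [hη]; positivity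
  obtain ⟨ε1, ε10, hPickS⟩ := hPick S η hη0
  obtain ⟨δ, hδ⟩ : ∃ δ : ℝ, δ = a * ε1 / 16 := ⟨_, rfl⟩
  have δ0 : 0 < δ := by rw [hδ]; positivity
  have δ1 : 4 * δ / a ≤ ε1 / 4 := by
    rw [hδ, div_le_iff₀ a0]
    linarith
  obtain ⟨K, hK⟩ : ∃ K : ℕ, K = ⌈1 / (δ * a)⌉₊ + 1 := ⟨_, rfl⟩
  have K1 : 1 ≤ K := by omega
  have hK0 : (0 : ℝ) < K := by exact_mod_cast K1
  have Kδ : 1 ≤ δ * a * K := by
    have h1 : 1 / (δ * a) ≤ K := by
      have := Nat.le_ceil (1 / (δ * a))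
      rw [hK]
      push_cast
      linarith
    rw [div_le_iff₀ (by positivity)] at h1
    linarith
  have E : ∀ c : ℝ, ∀ᶠ n : ℕ in Filter.atTop, c ≤ (n : ℝ) := fun c =>
    tendsto_natCast_atTop_atTop.eventually_ge_atTop c
  obtain ⟨M, hM⟩ := Filter.eventually_atTop.1 ((E ((6 / δ + 4) * (m * K) / (a ^ 2 / 50))).and
    ((E ((16 + 24 / δ) * (2 * m) / (a ^ 2 / 50))).and ((E (4 * m * (14 + 24 / δ))).and
    ((E (8 * (m : ℝ) * K ^ 2 / e)).and ((E (8 * (K : ℝ) * S ^ 2 / a ^ 3)).and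
    ((E (64 * (2 * (S : ℝ) + 1) ^ 2 * K ^ 2 / (a ^ 4 * ε1))).and ((E (16 / (a * ε1))).and
    ((E (8 * (K : ℝ) * (2 * S + 1) / (a ^ 2 * ε1))).and ((E (1 / ε1)).and
    (E (2 / a)))))))))))
  refine ⟨M, fun n hn p hp => ?_⟩
  obtain ⟨c1, c2, c3, c4, c5, c6, c7, c8, c9, c10⟩ := hM n hn
  rw [div_le_iff₀ (by positivity)] at c1 c2 c4 c5 c6 c7 c8 c9 c10
  have hx0 : (0 : ℝ) < n := by
    by_contra h
    have hx' : (n : ℝ) ≤ 0 := not_lt.1 h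
    have := mul_nonpos_of_nonneg_of_nonpos a0.le hx'
    linarith
  obtain ⟨R, hR⟩ : ∃ R : ℕ, R = ⌊((1 + 8 * a) * (n : ℝ) - 1) / 2⌋₊ := ⟨_, rfl⟩
  have hq : (1 + 8 * a) * (n : ℝ) = n + 8 * (n * a) := by ring
  have hq7 : (1 + 7 * a) * (n : ℝ) = n + 7 * (n * a) := by ring
  have hR1 : (2 * R + 1 : ℝ) ≤ (1 + 8 * a) * n := by
    have h1 : (R : ℝ) ≤ ((1 + 8 * a) * (n : ℝ) - 1) / 2 := by
      rw [hR]
      apply Nat.floor_le
      rw [hq]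
      linarith
    linarith
  have hR2 : (1 + 7 * a) * n ≤ 2 * (R : ℝ) + 1 := by
    have h1 : ((1 + 8 * a) * (n : ℝ) - 1) / 2 < R + 1 := by
      rw [hR]; exact Nat.lt_floor_add_one _
    rw [hq] at h1
    rw [hq7]
    linarith
  have h8a : 8 * a = ε' := by rw [ha]; ring
  have P : Prm a e ε1 δ m S K n R := by
    refine ⟨a0, a8, e0, he.le, ε10, m1, S1, K1, Sk, δ0, δ1, Kδ, ?_, hR2, ?_, ?_, c3, ?_, ?_, ?_,
      ?_, ?_, ?_, ?_⟩
    · refine hR1.trans ?_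
      apply mul_le_mul_of_nonneg_right _ hx0.le
      linarith
    · linarith
    · linarith
    · linarith
    · linarith
    · linarith
    · linarith
    · linarith
    · linarith
    · linarith
  obtain ⟨f, f1, f2, f3⟩ := core_step hTree hBeta hKer hHub hStat hFam hComps hGlue η P hη hResm
    hPickS p hp
  refine ⟨R, f, ?_, f1, f2, f3⟩
  refine hR1.trans ?_
  apply mul_le_mul_of_nonneg_right _ hx0.le
  rw [h8a]
  linarith

end Pool.Agent.Lib.MP_8b7544_co.Df
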