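import Pool.Agent.Lib.MP_8b7544_co.Df.All

/-!
# MP_8b7544_co, project Deficiency: the final labelling
-/

set_option autoImplicit false

namespace Pool.Agent.Lib.MP_8b7544_co.Df

open Finset

private theorem Direct_child {V : Type} [Fintype V] {T : SimpleGraph V}
    {e : V ≃ Fin (Fintype.card V)} {p : ℕ → ℕ}
    (hadj : ∀ u v, T.Adj u v ↔ ((0 < (e v).val ∧ p (e v).val = (e u).val) ∨
      (0 < (e u).val ∧ p (e u).val = (e v).val))) {u v : V} (h : T.Adj u v) (f : ℕ → ℤ) :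
    ∃ c d : V, s(u, v) = s(c, d) ∧ 0 < (e c).val ∧ p (e c).val = (e d).val ∧
      f (e u).val + f (e v).val = f (e c).val + f (p (e c).val) := by
  rcases (hadj u v).1 h with ⟨h1, h2⟩ | ⟨h1, h2⟩
  · refine ⟨v, u, Sym2.eq_swap, h1, h2, ?_⟩
    rw [h2, add_comm]
  · refine ⟨u, v, rfl, h1, h2, ?_⟩
    rw [h2]

/-- labels by integers: distinct labels and distinct edge sums in `[-R, R]` -/
theorem labels_all (ε : ℝ) (hε : 0 < ε) : ∃ M : ℕ, ∀ (V : Type) [Fintype V] (T : SimpleGraph V),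
    T.IsTree → M ≤ Fintype.card V → ∃ (R : ℕ) (f : V → ℤ),
      (2 * R + 1 : ℝ) ≤ (1 + ε) * Fintype.card V ∧ Function.Injective f ∧ (∀ v, |f v| ≤ R) ∧
      (∀ u v u' v', T.Adj u v → T.Adj u' v' → f u + f v = f u' + f v' → s(u, v) = s(u', v')) ∧
      ∀ u v, T.Adj u v → |f u + f v| ≤ R := by
  obtain ⟨M, hM⟩ := core_all ε hε
  refine ⟨M, ?_⟩
  intro V _ T hT hn
  obtain ⟨e, p, hp, hadj⟩ := p_Seq V T hT
  obtain ⟨R, f, hR, hL, hf, hs⟩ := hM (Fintype.card V) hn p hp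
  have hlt : ∀ v : V, (e v).val < Fintype.card V := fun v => (e v).isLt
  refine ⟨R, fun v => f (e v).val, hR, ?_, fun v => hf _ (hlt v), ?_, ?_⟩
  · intro u v h
    have h1 := hL.1 _ (Finset.mem_range.2 (hlt u)) _ (Finset.mem_range.2 (hlt v)) h
    exact e.injective (Fin.ext h1)
  · intro u v u' v' h1 h2 h3
    obtain ⟨c, d, a1, a2, a3, a4⟩ := Direct_child hadj h1 f
    obtain ⟨c', d', b1, b2, b3, b4⟩ := Direct_child hadj h2 f
    have h4 : f (e c).val + f (p (e c).val) = f (e c').val + f (p (e c').val) := by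
      rw [← a4, ← b4]
      exact h3
    have h5 := hL.2 _ (Finset.mem_range.2 (hlt c)) _ (Finset.mem_range.2 (hlt c')) a2 b2
      (by rw [a3]; exact Finset.mem_range.2 (hlt d))
      (by rw [b3]; exact Finset.mem_range.2 (hlt d')) h4
    have h6 : c = c' := e.injective (Fin.ext h5)
    have h7 : d = d' := by
      refine e.injective (Fin.ext ?_)
      rw [← a3, ← b3, h5]
    rw [a1, b1, h6, h7]
  · intro u v h1
    obtain ⟨c, d, a1, a2, a3, a4⟩ := Direct_child hadj h1 f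
    have h2 := hs _ (hlt c) a2
    change |f (e u).val + f (e v).val| ≤ (R : ℤ)
    rw [a4]
    exact h2

/-- `e` (read as the labelling `x ↦ e x + 1` of the vertices and edges of `G` by `1, …, p + q`) is
an edge-magic labelling of `G` with magic sum `k`. -/
def MagicLab {W : Type} (G : SimpleGraph W)
    (e : (W ⊕ G.edgeSet) ≃ Fin (Nat.card (W ⊕ G.edgeSet))) (k : ℕ) : Prop :=
  ∀ (u v : W) (h : G.Adj u v),
    ((e (Sum.inl u)).val + 1)
      + ((e (Sum.inr ⟨s(u, v), (SimpleGraph.mem_edgeSet G).mpr h⟩)).val + 1)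
      + ((e (Sum.inl v)).val + 1) = k

theorem edgeMagic_of_magicLab {W : Type} {G : SimpleGraph W}
    {e : (W ⊕ G.edgeSet) ≃ Fin (Nat.card (W ⊕ G.edgeSet))} {k : ℕ} (h : MagicLab G e k) :
    EdgeMagic G := ⟨e, k, h⟩

/-- `StmMagic` with the places of the edge labels. -/
theorem magic_full (V : Type) [Fintype V] (T : SimpleGraph V) (hT : T.IsTree) (R m : ℕ)
    (f : V → ℤ) (hinj : Function.Injective f) (hR : ∀ v, |f v| ≤ R)
    (hsum : ∀ u v u' v', T.Adj u v → T.Adj u' v' → f u + f v = f u' + f v' → s(u, v) = s(u', v'))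
    (hsR : ∀ u v, T.Adj u v → |f u + f v| ≤ R) (hm : 4 * R + 3 ≤ 2 * Fintype.card V + m) :
    ∃ (e : ((V ⊕ Fin m) ⊕ (T ⊕g (⊥ : SimpleGraph (Fin m))).edgeSet) ≃
        Fin (Nat.card ((V ⊕ Fin m) ⊕ (T ⊕g (⊥ : SimpleGraph (Fin m))).edgeSet))) (k : ℕ),
      MagicLab (T ⊕g (⊥ : SimpleGraph (Fin m))) e k ∧
      (∀ v : V, (e (Sum.inl (Sum.inl v))).val + 1 ≤ 2 * R + 1) ∧
      ∀ a, 2 * R + 1 < (e (Sum.inr a)).val + 1 ∧ (e (Sum.inr a)).val + 1 ≤ 4 * R + 2 := by
  classical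
  set E : Set (Sym2 (V ⊕ Fin m)) := (T ⊕g (⊥ : SimpleGraph (Fin m))).edgeSet with hE
  let _ : Fintype ((V ⊕ Fin m) ⊕ E) := Fintype.ofFinite _
  set N : ℕ := Nat.card ((V ⊕ Fin m) ⊕ E) with hN
  have hcard : 2 * Fintype.card V + m ≤ N + 1 := Magic_card T hT
  have hNN : 4 * R + 2 ≤ N := by omega
  set A : Set ((V ⊕ Fin m) ⊕ E) := {x | ∀ i : Fin m, x ≠ Sum.inl (Sum.inr i)} with hA
  have hSb : ∀ x : E, -(R : ℤ) ≤ Magic_S f x.1 ∧ Magic_S f x.1 ≤ R := by
    rintro ⟨z, hz⟩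
    obtain ⟨u, v, huv, rfl⟩ := Magic_edge T z hz
    have h := abs_le.1 (hsR u v huv)
    exact h
  have hfb : ∀ v, -(R : ℤ) ≤ f v ∧ f v ≤ R := fun v => abs_le.1 (hR v)
  have hmaps : Set.MapsTo (Magic_lab R f E) A (Finset.range N : Finset ℕ) := by
    rintro ((v | i) | x) hx
    · have := hfb v
      simp only [Magic_lab, Finset.coe_range, Set.mem_Iio]
      omega
    · exact absurd rfl (hx i)
    · have := hSb x
      simp only [Magic_lab, Finset.coe_range, Set.mem_Iio]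
      omega
  have hinjOn : Set.InjOn (Magic_lab R f E) A := by
    rintro ((v | i) | x) hx ((v' | i') | x') hx' h
    · simp only [Magic_lab] at h
      have h1 := hfb v
      have h2 := hfb v'
      have h3 : f v = f v' := by omega
      rw [hinj h3]
    · exact absurd rfl (hx' i')
    · simp only [Magic_lab] at h
      have h1 := hfb v
      have h2 := hSb x'
      omega
    · exact absurd rfl (hx i)
    · exact absurd rfl (hx i)
    · exact absurd rfl (hx i)
    · simp only [Magic_lab] at h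
      have h1 := hfb v'
      have h2 := hSb x
      omega
    · exact absurd rfl (hx' i')
    · simp only [Magic_lab] at h
      have h1 := hSb x
      have h2 := hSb x'
      have h3 : Magic_S f x.1 = Magic_S f x'.1 := by omega
      obtain ⟨z, hz⟩ := x
      obtain ⟨z', hz'⟩ := x'
      obtain ⟨u, v, huv, rfl⟩ := Magic_edge T z hz
      obtain ⟨u', v', huv', rfl⟩ := Magic_edge T z' hz'
      have h4 : f u + f v = f u' + f v' := h3
      have h5 := hsum u v u' v' huv huv' h4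
      have h6 : (s(Sum.inl u, Sum.inl v) : Sym2 (V ⊕ Fin m)) = s(Sum.inl u', Sum.inl v') := by
        have := congrArg (Sym2.map (Sum.inl : V → V ⊕ Fin m)) h5
        simpa only [Sym2.map_mk] using this
      simp only [h6]
  obtain ⟨g, hg⟩ := hmaps.exists_equiv_extend_of_card_eq
    (by rw [Finset.card_range, hN, Nat.card_eq_fintype_card]) hinjOn
  refine ⟨g.trans ⟨fun y => ⟨y.1, Finset.mem_range.1 y.2⟩, fun y => ⟨y.1, Finset.mem_range.2 y.2⟩,
    fun y => rfl, fun y => rfl⟩, 5 * R + 4, ?_, ?_, ?_⟩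
  rotate_left
  · intro v
    have h1 : ((g (Sum.inl (Sum.inl v))) : ℕ) = (f v + R).toNat :=
      hg (Sum.inl (Sum.inl v)) (by intro i; simp)
    have h2 := hfb v
    simp only [Equiv.trans_apply, Equiv.coe_fn_mk, h1]
    omega
  · intro x
    have h1 : ((g (Sum.inr x)) : ℕ) = (3 * R + 1 - Magic_S f x.1).toNat :=
      hg (Sum.inr x) (by intro i; simp)
    have h2 := hSb x
    simp only [Equiv.trans_apply, Equiv.coe_fn_mk, h1]
    omega
  · intro a b h
    rcases a with a | a <;> rcases b with b | b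
    · have hab : T.Adj a b := by simpa using h
      have h1 : ((g (Sum.inl (Sum.inl a))) : ℕ) = (f a + R).toNat :=
        hg (Sum.inl (Sum.inl a)) (by intro i; simp)
      have h2 : ((g (Sum.inl (Sum.inl b))) : ℕ) = (f b + R).toNat :=
        hg (Sum.inl (Sum.inl b)) (by intro i; simp)
      have h3 : ((g (Sum.inr ⟨s(Sum.inl a, Sum.inl b), (SimpleGraph.mem_edgeSet _).mpr h⟩)) : ℕ) =
          (3 * R + 1 - (f a + f b)).toNat :=
        hg (Sum.inr ⟨s(Sum.inl a, Sum.inl b), (SimpleGraph.mem_edgeSet _).mpr h⟩)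
          (by intro i; simp)
      have h4 := hfb a
      have h5 := hfb b
      have h6 := abs_le.1 (hsR a b hab)
      simp only [Equiv.trans_apply, Equiv.coe_fn_mk, h1, h2, h3]
      omega
    · simp at h
    · simp at h
    · simp at h

/-- **The main theorem with all its labels.** -/
theorem final_all (ε : ℝ) (hε : 0 < ε) : ∃ M : ℕ, ∀ (V : Type) [Fintype V] (T : SimpleGraph V),
    T.IsTree → M ≤ Fintype.card V → ∀ m : ℕ, ε * Fintype.card V ≤ m →
    ∃ (e : ((V ⊕ Fin m) ⊕ (T ⊕g (⊥ : SimpleGraph (Fin m))).edgeSet) ≃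
        Fin (Nat.card ((V ⊕ Fin m) ⊕ (T ⊕g (⊥ : SimpleGraph (Fin m))).edgeSet))) (k N : ℕ),
      MagicLab (T ⊕g (⊥ : SimpleGraph (Fin m))) e k ∧ (N : ℝ) ≤ (1 + ε) * Fintype.card V ∧
      (∀ v : V, (e (Sum.inl (Sum.inl v))).val + 1 ≤ N) ∧
      ∀ a, N < (e (Sum.inr a)).val + 1 ∧ (e (Sum.inr a)).val + 1 ≤ 2 * N := by
  obtain ⟨M, hM⟩ := labels_all (ε / 4) (by positivity)
  refine ⟨max M (⌈2 / ε⌉₊ + 1), ?_⟩
  intro V _ T hT hn m hm
  obtain ⟨R, f, hR, hinj, hf, hsum, hbd⟩ := hM V T hT (le_trans (le_max_left _ _) hn)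
  have hn2 : ⌈2 / ε⌉₊ + 1 ≤ Fintype.card V := le_trans (le_max_right _ _) hn
  have hn3 : 2 / ε ≤ (Fintype.card V : ℝ) := by
    have h1 := Nat.le_ceil (2 / ε)
    have h2 : ((⌈2 / ε⌉₊ : ℕ) : ℝ) + 1 ≤ (Fintype.card V : ℝ) := by exact_mod_cast hn2
    linarith
  have hn4 : 2 ≤ ε * (Fintype.card V : ℝ) := by
    rw [div_le_iff₀ hε] at hn3
    linarith [mul_comm ε (Fintype.card V : ℝ)]
  have hnum : 4 * R + 3 ≤ 2 * Fintype.card V + m := by
    have h1 : ((4 * R + 3 : ℕ) : ℝ) ≤ ((2 * Fintype.card V + m : ℕ) : ℝ) := by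
      push_cast
      nlinarith
    exact_mod_cast h1
  obtain ⟨e, k, h1, h2, h3⟩ := magic_full V T hT R m f hinj hf hsum hbd hnum
  refine ⟨e, k, 2 * R + 1, h1, ?_, h2, fun a => ⟨(h3 a).1, ?_⟩⟩
  · push_cast
    have h4 : (0 : ℝ) ≤ (Fintype.card V : ℝ) := Nat.cast_nonneg _
    nlinarith
  · have := (h3 a).2
    omega

end Pool.Agent.Lib.MP_8b7544_co.Df
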