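import Pool.Agent.Lib.MP_8b7544_co.Df.Stm

/-!
# MP_8b7544_co, project Deficiency, piece M3: loads
-/

set_option autoImplicit false

namespace Pool.Agent.Lib.MP_8b7544_co.Df

open Finset

theorem Load_bound {ι : Type} [Fintype ι] {w : ι → ℝ} (hw : ∀ i, 0 ≤ w i) (s : Finset ℕ)
    (P : ℕ → ι → Prop) (c : ℝ) (h : ∀ j ∈ s, Pr w (P j) ≤ c) :
    Pr w (fun i => ∃ j ∈ s, P j i) ≤ s.card * c := by
  refine (Pr_exists hw s P).trans ?_
  have h1 := Finset.sum_le_card_nsmul s (fun j => Pr w (P j)) c h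
  rwa [nsmul_eq_mul] at h1

theorem Load_false {ι : Type} [Fintype ι] {w : ι → ℝ} (hw : ∀ i, 0 ≤ w i) (P : ι → Prop)
    (h : ∀ i, w i ≠ 0 → ¬ P i) : Pr w P ≤ 0 := by
  refine (Pr_mono hw (Q := fun _ => False) fun i hi hP => h i hi hP).trans ?_
  rw [Pr_eq]
  simp

theorem Load_sm0 (q : ℕ → ℕ) (b : ℤ) (g : ℕ → ℤ) : sm q b g 0 = g 0 + b := by
  simp [sm]

theorem Load_sm (q : ℕ → ℕ) (b : ℤ) (g : ℕ → ℤ) (j : ℕ) (hj : 1 ≤ j) :
    sm q b g j = g j + g (q j) := by
  have : j ≠ 0 := by omega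
  simp [sm, this]

/-- M3 -/
theorem p_Load : StmLoad := by
  intro R V L K ph Gd lam pm mu hub k q b b' B U hK hI hC ι _ w G hL
  have hw := hL.nn
  have hp0 : 0 ≤ pm := (hK.pnn 0).trans (hK.ppm 0)
  have hl0 : 0 ≤ lam := hp0.trans hK.plam
  have kpos := hC.kpos
  have a1 : ∀ j ∈ Ico 1 k, ∀ y, Pr w (fun i => G i j = y) ≤ pm := fun j hj y =>
    (hL.lawV j (mem_Ico.1 hj).1 (mem_Ico.1 hj).2 y).trans (hK.ppm y)
  have a2 : ∀ j ∈ Ico 1 k, ∀ s, Pr w (fun i => sm q b (G i) j = s) ≤ pm := by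
    intro j hj s
    obtain ⟨h1, h2⟩ := mem_Ico.1 hj
    simp only [Load_sm q b _ j h1]
    exact (hL.lawS j h1 h2 s).trans (hK.ppm s)
  have a3 : ¬ hub → ∀ y, Pr w (fun i => G i 0 = y) ≤ pm := fun h y =>
    (hL.law0 y).trans (((hC.nhub h y).1).trans (hK.ppm y))
  have a4 : ∀ y, Pr w (fun i => G i 0 = y) ≤ lam := fun y => (hL.law0 y).trans (hI.le y)
  have b0 : ∀ s, (fun i => sm q b (G i) 0 = s) = fun i => G i 0 = s - b := by
    intro s
    funext i
    rw [Load_sm0, eq_sub_iff_add_eq]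
  have a5 : ¬ hub → ∀ s, Pr w (fun i => sm q b (G i) 0 = s) ≤ pm := fun h s => by
    rw [b0]; exact a3 h _
  have a6 : ∀ s, Pr w (fun i => sm q b (G i) 0 = s) ≤ lam := fun s => by
    rw [b0]; exact a4 _
  -- bounds for all places
  have c1 : ¬ hub → ∀ j ∈ range k, ∀ y, Pr w (fun i => G i j = y) ≤ pm := by
    intro h j hj y
    rcases Nat.eq_zero_or_pos j with rfl | h1
    · exact a3 h y
    · exact a1 j (mem_Ico.2 ⟨h1, mem_range.1 hj⟩) y
  have c2 : ¬ hub → ∀ j ∈ range k, ∀ s, Pr w (fun i => sm q b (G i) j = s) ≤ pm := by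
    intro h j hj y
    rcases Nat.eq_zero_or_pos j with rfl | h1
    · exact a5 h y
    · exact a2 j (mem_Ico.2 ⟨h1, mem_range.1 hj⟩) y
  have c3 : ∀ j ∈ range k, ∀ y, Pr w (fun i => G i j = y) ≤ lam := by
    intro j hj y
    rcases Nat.eq_zero_or_pos j with rfl | h1
    · exact a4 y
    · exact (a1 j (mem_Ico.2 ⟨h1, mem_range.1 hj⟩) y).trans hK.plam
  have c4 : ∀ j ∈ range k, ∀ s, Pr w (fun i => sm q b (G i) j = s) ≤ lam := by
    intro j hj y
    rcases Nat.eq_zero_or_pos j with rfl | h1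
    · exact a6 y
    · exact (a2 j (mem_Ico.2 ⟨h1, mem_range.1 hj⟩) y).trans hK.plam
  have c5 : ∀ s, Pr w (fun i => ∃ u ∈ U, G i u + b' = s) ≤ U.card * pm := by
    intro s
    refine Load_bound hw U (fun u i => G i u + b' = s) pm fun u hu => ?_
    have e : (fun i => G i u + b' = s) = fun i => G i u = s - b' := by
      funext i
      rw [eq_sub_iff_add_eq]
    show Pr w (fun i => G i u + b' = s) ≤ pm
    rw [e]
    exact a1 u (hC.U1 hu) _
  have hcI : ((Ico 1 k).card : ℝ) = (k : ℝ) - 1 := by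
    rw [Nat.card_Ico, Nat.cast_sub kpos, Nat.cast_one]
  refine ⟨fun y hy => ?_, fun y hy => ?_, fun s => ?_, fun l => ?_⟩
  · by_cases h : hub
    · rw [ind_pos h, ← hcI]
      refine (Pr_mono hw fun i hi hP => ?_).trans
        (Load_bound hw (Ico 1 k) (fun j i => G i j = y) pm fun j hj => a1 j hj y)
      obtain ⟨j, hj, e⟩ := mem_AL_true.1 hP
      refine ⟨j, mem_Ico.2 ⟨?_, hj⟩, e⟩
      rcases Nat.eq_zero_or_pos j with rfl | h1
      · exact absurd (e ▸ hy) (hC.hubL h _ (hL.supp0 i hi)).2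
      · exact h1
    · rw [ind_neg h, sub_zero]
      have h2 := Load_bound hw (range k) (fun j i => G i j = y) pm fun j hj => c1 h j hj y
      rw [card_range] at h2
      refine (Pr_mono hw fun i _ hP => ?_).trans h2
      obtain ⟨j, hj, e⟩ := mem_AL_true.1 hP
      exact ⟨j, mem_range.2 hj, e⟩
  · have key : ∀ i, w i ≠ 0 → (true, y) ∈ AL hub k q b b' U (G i) → G i 0 = y := by
      intro i hi hP
      obtain ⟨j, hj, e⟩ := mem_AL_true.1 hP
      rcases Nat.eq_zero_or_pos j with rfl | h1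
      · exact e
      · exact absurd (e ▸ (hL.supp i hi j h1 hj).1) hy
    by_cases h : hub
    · rw [ind_pos h, one_mul]
      exact (Pr_mono hw key).trans (hL.law0 y)
    · rw [ind_neg h, zero_mul]
      refine Load_false hw _ fun i hi hP => hy ?_
      rw [← key i hi hP]
      exact (hC.nhub h _).2 (hL.supp0 i hi)
  · have h1 : Pr w (fun i => ∃ j < k, (1 ≤ j ∨ ¬ hub) ∧ sm q b (G i) j = s) ≤
        (k - ind hub) * pm := by
      by_cases h : hub
      · rw [ind_pos h, ← hcI]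
        refine (Pr_mono hw fun i hi hP => ?_).trans
          (Load_bound hw (Ico 1 k) (fun j i => sm q b (G i) j = s) pm fun j hj => a2 j hj s)
        obtain ⟨j, hj, h3, e⟩ := hP
        exact ⟨j, mem_Ico.2 ⟨h3.resolve_right (not_not.2 h), hj⟩, e⟩
      · rw [ind_neg h, sub_zero]
        have h2 := Load_bound hw (range k) (fun j i => sm q b (G i) j = s) pm
          fun j hj => c2 h j hj s
        rw [card_range] at h2
        refine (Pr_mono hw fun i _ hP => ?_).trans h2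
        obtain ⟨j, hj, -, e⟩ := hP
        exact ⟨j, mem_range.2 hj, e⟩
    refine (Pr_mono hw fun i _ hP => mem_AL_false.1 hP).trans ((Pr_or hw _ _).trans ?_)
    rw [add_mul]
    exact add_le_add h1 (c5 s)
  · have hk0 : (0 : ℝ) ≤ k := Nat.cast_nonneg k
    have hU : (U.card : ℝ) ≤ 1 := by exact_mod_cast hC.Uc
    obtain ⟨t, y⟩ := l
    cases t with
    | true =>
      have h2 := Load_bound hw (range k) (fun j i => G i j = y) lam fun j hj => c3 j hj y
      rw [card_range] at h2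
      refine ((Pr_mono hw fun i _ hP => ?_).trans h2).trans
        (mul_le_mul_of_nonneg_right (by linarith) hl0)
      obtain ⟨j, hj, e⟩ := mem_AL_true.1 hP
      exact ⟨j, mem_range.2 hj, e⟩
    | false =>
      have h2 := Load_bound hw (range k) (fun j i => sm q b (G i) j = y) lam
        fun j hj => c4 j hj y
      rw [card_range] at h2
      have h1 : Pr w (fun i => ∃ j < k, (1 ≤ j ∨ ¬ hub) ∧ sm q b (G i) j = y) ≤ k * lam := by
        refine (Pr_mono hw fun i _ hP => ?_).trans h2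
        obtain ⟨j, hj, -, e⟩ := hP
        exact ⟨j, mem_range.2 hj, e⟩
      have h3 : (U.card : ℝ) * pm ≤ 1 * lam := mul_le_mul hU hK.plam hp0 zero_le_one
      refine (Pr_mono hw fun i _ hP => mem_AL_false.1 hP).trans ((Pr_or hw _ _).trans ?_)
      refine (add_le_add h1 ((c5 y).trans h3)).trans ?_
      rw [← add_mul]
      exact mul_le_mul_of_nonneg_right (by linarith) hl0

end Pool.Agent.Lib.MP_8b7544_co.Df
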