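import Pool.Agent.Lib.MP_8b7544_co.Df.Stm

/-!
# MP_8b7544_co, project Deficiency: piece Wavg
-/

set_option autoImplicit false

namespace Pool.Agent.Lib.MP_8b7544_co.Df

open Finset

theorem Wavg_nonneg (R : ℕ) (x y : ℤ) : 0 ≤ W R x y ∧ W R x y ≤ R := by
  unfold W
  split_ifs with h
  · obtain ⟨h1, h2, h3⟩ := h
    constructor
    · have : (0 : ℤ) ≤ max |x| (max |y| |x + y|) := le_max_of_le_left (abs_nonneg x)
      exact_mod_cast this
    · have : max |x| (max |y| |x + y|) ≤ (R : ℤ) := max_le h1 (max_le h2 h3)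
      exact_mod_cast this
  · exact ⟨le_rfl, Nat.cast_nonneg R⟩

theorem Wavg_step (R : ℕ) (x y : ℤ) (h : |x| ≤ R ∧ |y| ≤ R ∧ |x + y| ≤ R)
    (h' : |x| ≤ R ∧ |y + 1| ≤ R ∧ |x + (y + 1)| ≤ R) : |W R x (y + 1) - W R x y| ≤ 1 := by
  unfold W
  rw [if_pos h, if_pos h', ← Int.cast_sub, ← Int.cast_abs]
  have : |max |x| (max |y + 1| |x + (y + 1)|) - max |x| (max |y| |x + y|)| ≤ 1 := by
    simp only [abs_eq_max_neg]
    omega
  exact_mod_cast this

theorem Wavg_zero (R : ℕ) (x y : ℤ) (h : ¬ (|x| ≤ R ∧ |y| ≤ R ∧ |x + y| ≤ R)) :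
    W R x y = 0 := by
  unfold W
  rw [if_neg h]

theorem p_Wavg : WavgOf := by
  intro hRow hAvg R N _ x D hR hx
  obtain ⟨a, ha⟩ : ∃ a : ℤ, a = max (-(R : ℤ)) (-(R : ℤ) - x) := ⟨_, rfl⟩
  obtain ⟨b, hb⟩ : ∃ b : ℤ, b = min (R : ℤ) ((R : ℤ) - x) := ⟨_, rfl⟩
  have hx1 := (abs_le.1 hx).1
  have hx2 := (abs_le.1 hx).2
  obtain ⟨L, hL⟩ := Int.eq_ofNat_of_zero_le (by omega : 0 ≤ b + 1 - a)
  have hLle : (L : ℤ) ≤ 2 * R + 1 := by omega
  have hin : ∀ y, (a ≤ y ∧ y < a + L) ↔ (|x| ≤ R ∧ |y| ≤ R ∧ |x + y| ≤ R) := by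
    intro y
    constructor
    · rintro ⟨h1, h2⟩
      refine ⟨hx, abs_le.2 ⟨by omega, by omega⟩, abs_le.2 ⟨by omega, by omega⟩⟩
    · rintro ⟨-, h1, h2⟩
      have h3 := abs_le.1 h1
      have h4 := abs_le.1 h2
      constructor <;> omega
  have hsub : Ico a (a + L) ⊆ Om R := by
    intro y hy
    rw [mem_Ico] at hy
    have h1 := abs_le.1 ((hin y).1 hy).2.1
    unfold Om
    rw [mem_Icc]
    exact h1
  have hout : ∀ y, y ∉ Ico a (a + L) → W R x y = 0 := by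
    intro y hy
    refine Wavg_zero R x y fun h => hy ?_
    rw [mem_Ico]
    exact (hin y).2 h
  have e1 : ∑ y ∈ Om R, (if (y : ZMod N) ∈ D then W R x y else 0) =
      ∑ y ∈ Ico a (a + L), (if (y : ZMod N) ∈ D then W R x y else 0) := by
    symm
    apply Finset.sum_subset hsub
    intro y _ hy
    rw [hout y hy]
    simp
  have e2 : ∑ y ∈ Ico a (a + L), W R x y = R * (R + 1) := by
    rw [← hRow R x hx]
    apply Finset.sum_subset hsub
    intro y _ hy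
    exact hout y hy
  have h := hAvg N L a (fun y => W R x y) R (Nat.cast_nonneg R)
    (fun y _ _ => Wavg_nonneg R x y)
    (fun y h1 h2 => Wavg_step R x y ((hin y).1 ⟨h1, by omega⟩)
      ((hin (y + 1)).1 ⟨by omega, h2⟩)) D
  rw [e1, ← e2]
  refine h.trans ?_
  have hN : (0 : ℝ) ≤ N := Nat.cast_nonneg N
  have h1 : (L : ℝ) ≤ 2 * R + 1 := by exact_mod_cast hLle
  have h2 : (1 : ℝ) ≤ R := by exact_mod_cast hR
  calc (N : ℝ) * (L + R) ≤ N * (4 * R) := by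
        apply mul_le_mul_of_nonneg_left _ hN
        linarith
    _ = 4 * N * R := by ring

end Pool.Agent.Lib.MP_8b7544_co.Df
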